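import Pool.Agent.Work.MP_727c87_cx.E1.Geo

/-!
# Proofs of the statements on the right-angled 12-gon (G1 - G6)
-/

set_option autoImplicit false

open Set Complex ComplexConjugate
open scoped ContDiff

noncomputable section

namespace Pool.CX

/-! ## Constants -/

theorem sqrt3_lt : √3 < (1.7321 : ℝ) := by
  rw [Real.sqrt_lt' (by norm_num)]; norm_num

theorem lt_sqrt3 : (1.732 : ℝ) < √3 := by
  rw [Real.lt_sqrt (by norm_num)]; norm_num

theorem rho_sq : rho ^ 2 = √3 / 2 := Real.sq_sqrt (by positivity)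

theorem rho_sq_lt : rho ^ 2 < 0.86605 := by rw [rho_sq]; linarith [sqrt3_lt]

theorem lt_rho_sq : 0.866 < rho ^ 2 := by rw [rho_sq]; linarith [lt_sqrt3]

theorem rho_pos : 0 < rho := Real.sqrt_pos.mpr (by positivity)

theorem rho_lt : rho < 0.931 := by
  have := rho_sq_lt
  nlinarith [rho_pos]

theorem lt_rho : 0.93 < rho := by
  have := lt_rho_sq
  nlinarith [rho_pos]

theorem tau2_eq : tau2 = 1 - rho ^ 2 := by rw [rho_sq, tau2]

theorem tau2_lt : tau2 < 0.134 := by rw [tau2_eq]; linarith [lt_rho_sq]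

theorem lt_tau2 : 0.1339 < tau2 := by rw [tau2_eq]; linarith [rho_sq_lt]

theorem tau2_pos : 0 < tau2 := by linarith [lt_tau2]

/-! ## The directions -/

theorem ctr_intCast (a : ℤ) : ctr (a : ZMod 12) = Complex.exp (((a : ℝ) * (Real.pi / 6) : ℝ) * I) := by
  unfold ctr
  rw [ZMod.stdAddChar_coe]
  congr 1
  push_cast
  ring

theorem ctr_eq (k : ZMod 12) : ctr k = Complex.exp (((k.val : ℝ) * (Real.pi / 6) : ℝ) * I) := by
  have h := ctr_intCast (k.val : ℤ)
  have h2 : (((k.val : ℤ)) : ZMod 12) = k := by simp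
  rw [h2] at h
  rw [h]
  norm_cast

theorem norm_ctr (j : ZMod 12) : ‖ctr j‖ = 1 := by
  rw [ctr_eq]
  exact Complex.norm_exp_ofReal_mul_I _

theorem normSq_ctr (j : ZMod 12) : normSq (ctr j) = 1 := by
  rw [Complex.normSq_eq_norm_sq, norm_ctr]; norm_num

theorem ctr_mul_conj_self (j : ZMod 12) : ctr j * conj (ctr j) = 1 := by
  rw [Complex.mul_conj, normSq_ctr]; simp

theorem ctr_mul_conj (i j : ZMod 12) : ctr i * conj (ctr j) = ctr (i - j) := by
  have h1 : ctr (i - j) * ctr j = ctr i := by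
    unfold ctr
    rw [← AddChar.map_add_eq_mul, sub_add_cancel]
  rw [← h1, mul_assoc, ctr_mul_conj_self, mul_one]

theorem ctr_re (k : ZMod 12) : (ctr k).re = Real.cos ((k.val : ℝ) * (Real.pi / 6)) := by
  rw [ctr_eq, Complex.exp_ofReal_mul_I_re]

theorem ctr_im (k : ZMod 12) : (ctr k).im = Real.sin ((k.val : ℝ) * (Real.pi / 6)) := by
  rw [ctr_eq, Complex.exp_ofReal_mul_I_im]

theorem dot_comm (i j : ZMod 12) : (ctr i * conj (ctr j)).re = (ctr j * conj (ctr i)).re := by
  simp only [Complex.mul_re, Complex.conj_re, Complex.conj_im]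
  ring

theorem dot_self (j : ZMod 12) : (ctr j * conj (ctr j)).re = 1 := by
  rw [ctr_mul_conj_self]; simp

theorem dot_succ (j : ZMod 12) : (ctr (j + 1) * conj (ctr j)).re = √3 / 2 := by
  rw [ctr_mul_conj, add_sub_cancel_left, ctr_re]
  have : ((1 : ZMod 12)).val = 1 := rfl
  rw [this, Nat.cast_one, one_mul, Real.cos_pi_div_six]

theorem dot_succ' (j : ZMod 12) : (ctr j * conj (ctr (j + 1))).re = √3 / 2 := by
  rw [dot_comm, dot_succ]

theorem im_succ (j : ZMod 12) : (ctr (j + 1) * conj (ctr j)).im = 1 / 2 := by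
  rw [ctr_mul_conj, add_sub_cancel_left, ctr_im]
  have : ((1 : ZMod 12)).val = 1 := rfl
  rw [this, Nat.cast_one, one_mul, Real.sin_pi_div_six]

theorem ctr_re_le {k : ZMod 12} (h0 : k ≠ 0) (h1 : k ≠ 1) (h2 : k ≠ -1) : (ctr k).re ≤ 1 / 2 := by
  rw [ctr_re]
  have hval : 2 ≤ k.val ∧ k.val ≤ 10 := by
    revert k
    decide
  have hpi := Real.pi_pos
  have hk1 : (2 : ℝ) ≤ k.val := by exact_mod_cast hval.1
  have hk2 : (k.val : ℝ) ≤ 10 := by exact_mod_cast hval.2
  rw [← Real.cos_pi_div_three]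
  by_cases hk : k.val ≤ 6
  · have hk3 : (k.val : ℝ) ≤ 6 := by exact_mod_cast hk
    apply Real.cos_le_cos_of_nonneg_of_le_pi
    · positivity
    · nlinarith
    · nlinarith
  · have hk3 : (6 : ℝ) ≤ k.val := by exact_mod_cast (by omega : 6 ≤ k.val)
    rw [← Real.cos_two_pi_sub ((k.val : ℝ) * (Real.pi / 6))]
    apply Real.cos_le_cos_of_nonneg_of_le_pi
    · positivity
    · nlinarith
    · nlinarith

theorem dot_far {i j : ZMod 12} (h0 : i ≠ j) (h1 : j ≠ i + 1) (h2 : i ≠ j + 1) :
    (ctr i * conj (ctr j)).re ≤ 1 / 2 := by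
  rw [ctr_mul_conj]
  apply ctr_re_le
  · intro h; exact h0 (sub_eq_zero.mp h)
  · intro h; exact h2 (by rw [← h]; ring)
  · intro h; exact h1 (by linear_combination -h)

theorem dot_le {i j : ZMod 12} (h0 : i ≠ j) : (ctr i * conj (ctr j)).re ≤ √3 / 2 := by
  by_cases h1 : j = i + 1
  · rw [h1, dot_succ']
  · by_cases h2 : i = j + 1
    · rw [h2, dot_succ]
    · exact (dot_far h0 h1 h2).trans (by linarith [lt_sqrt3])

theorem norm_sub_sq' (i j : ZMod 12) :
    ‖ctr i - ctr j‖ ^ 2 = 2 - 2 * (ctr i * conj (ctr j)).re := by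
  rw [← Complex.normSq_eq_norm_sq, Complex.normSq_sub, normSq_ctr, normSq_ctr]
  ring

theorem stmt_G1 : Stmt_G1 := by
  refine ⟨norm_ctr, dot_succ', im_succ, fun i j h0 h1 h2 => dot_far h0 h1 h2, fun i j h => ?_⟩
  have h1 := norm_sub_sq' i j
  have h2 := dot_le h
  have h3 := sqrt3_lt
  nlinarith [norm_nonneg (ctr i - ctr j)]

/-! ## Every direction is close to one of the twelve -/

theorem polar (u : ℂ) : u = (‖u‖ : ℂ) * Complex.exp ((Complex.arg u : ℝ) * I) :=
  (Complex.norm_mul_exp_arg_mul_I u).symm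

theorem mul_conj_ctr (u : ℂ) (a : ℤ) : u * conj (ctr (a : ZMod 12)) =
    (‖u‖ : ℂ) * Complex.exp (((Complex.arg u - a * (Real.pi / 6) : ℝ) : ℂ) * I) := by
  conv_lhs => rw [polar u]
  rw [ctr_intCast, ← Complex.exp_conj, mul_assoc, ← Complex.exp_add]
  congr 2
  simp only [map_mul, Complex.conj_ofReal, Complex.conj_I]
  push_cast
  ring

theorem re_mul_conj_ctr (u : ℂ) (a : ℤ) : (u * conj (ctr (a : ZMod 12))).re =
    ‖u‖ * Real.cos (Complex.arg u - a * (Real.pi / 6)) := by
  rw [mul_conj_ctr, Complex.re_ofReal_mul, Complex.exp_ofReal_mul_I_re]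

theorem im_mul_conj_ctr (u : ℂ) (a : ℤ) : (u * conj (ctr (a : ZMod 12))).im =
    ‖u‖ * Real.sin (Complex.arg u - a * (Real.pi / 6)) := by
  rw [mul_conj_ctr, Complex.im_ofReal_mul, Complex.exp_ofReal_mul_I_im]

theorem cos_pi_div_twelve : 0.965 ≤ Real.cos (Real.pi / 12) := by
  have h1 : Real.cos (Real.pi / 6) = 2 * Real.cos (Real.pi / 12) ^ 2 - 1 := by
    rw [← Real.cos_two_mul]
    congr 1
    ring
  rw [Real.cos_pi_div_six] at h1
  have h2 : 0 ≤ Real.cos (Real.pi / 12) :=
    Real.cos_nonneg_of_mem_Icc ⟨by linarith [Real.pi_pos], by linarith [Real.pi_pos]⟩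
  nlinarith [lt_sqrt3]

theorem exists_near (u : ℂ) : ∃ j, 0.965 * ‖u‖ ≤ (u * conj (ctr j)).re := by
  set a : ℤ := round (Complex.arg u / (Real.pi / 6)) with ha
  refine ⟨(a : ZMod 12), ?_⟩
  rw [re_mul_conj_ctr, mul_comm]
  apply mul_le_mul_of_nonneg_left _ (norm_nonneg u)
  have hpi := Real.pi_pos
  have h1 := abs_sub_round (Complex.arg u / (Real.pi / 6))
  rw [← ha] at h1
  have h2 : |Complex.arg u - a * (Real.pi / 6)| ≤ Real.pi / 12 := by
    have h3 : Complex.arg u - a * (Real.pi / 6)
        = (Complex.arg u / (Real.pi / 6) - a) * (Real.pi / 6) := by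
      field_simp
    rw [h3, abs_mul, abs_of_pos (by positivity : 0 < Real.pi / 6)]
    nlinarith
  rw [← Real.cos_abs]
  refine cos_pi_div_twelve.trans ?_
  apply Real.cos_le_cos_of_nonneg_of_le_pi (abs_nonneg _) _ h2
  linarith

theorem exists_sector (u : ℂ) :
    ∃ i, 0 ≤ (u * conj (ctr i)).im ∧ 0 ≤ (ctr (i + 1) * conj u).im := by
  set a : ℤ := ⌊Complex.arg u / (Real.pi / 6)⌋ with ha
  have hpi := Real.pi_pos
  have h1 : (a : ℝ) ≤ Complex.arg u / (Real.pi / 6) := Int.floor_le _
  have h2 : Complex.arg u / (Real.pi / 6) < a + 1 := Int.lt_floor_add_one _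
  rw [le_div_iff₀ (by positivity)] at h1
  rw [div_lt_iff₀ (by positivity)] at h2
  refine ⟨(a : ZMod 12), ?_, ?_⟩
  · rw [im_mul_conj_ctr]
    apply mul_nonneg (norm_nonneg u)
    apply Real.sin_nonneg_of_nonneg_of_le_pi <;> nlinarith
  · have h3 : (ctr ((a : ZMod 12) + 1) * conj u).im = -(u * conj (ctr ((a + 1 : ℤ) : ZMod 12))).im := by
      push_cast
      simp only [Complex.mul_im, Complex.conj_re, Complex.conj_im]
      ring
    rw [h3, im_mul_conj_ctr, ← mul_neg, ← Real.sin_neg]
    apply mul_nonneg (norm_nonneg u)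
    apply Real.sin_nonneg_of_nonneg_of_le_pi <;> push_cast <;> nlinarith

theorem stmt_G2 : Stmt_G2 := ⟨exists_near, exists_sector⟩

/-! ## The reflections -/

/-- the time coordinate -/
def hX (u : ℂ) : ℝ := √(1 + ‖u‖ ^ 2)

theorem hX_sq (u : ℂ) : hX u ^ 2 = 1 + ‖u‖ ^ 2 := Real.sq_sqrt (by positivity)

theorem hX_pos (u : ℂ) : 0 < hX u := Real.sqrt_pos.mpr (by positivity)

theorem one_le_hX (u : ℂ) : 1 ≤ hX u := by
  have h1 := hX_sq u
  nlinarith [hX_pos u, norm_nonneg u]

theorem norm_lt_hX (u : ℂ) : ‖u‖ < hX u := by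
  have h1 := hX_sq u
  nlinarith [hX_pos u, norm_nonneg u]

/-- the linear form of the direction `j` -/
def lf (j : ZMod 12) (u : ℂ) : ℝ := (u * conj (ctr j)).re

theorem abs_lf_le (j : ZMod 12) (u : ℂ) : |lf j u| ≤ ‖u‖ := by
  unfold lf
  refine (Complex.abs_re_le_norm _).trans ?_
  rw [norm_mul, Complex.norm_conj, norm_ctr, mul_one]

theorem lv_eq (j : ZMod 12) (u : ℂ) : lv j u = hX u - lf j u / rho := rfl

theorem lf_eq (j : ZMod 12) (u : ℂ) : lf j u = rho * (hX u - lv j u) := by
  have hr := rho_pos.ne'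
  rw [lv_eq]
  field_simp
  ring

theorem lf_R (i j : ZMod 12) (u : ℂ) :
    lf i (R j u) = lf i u + 2 * rho / tau2 * lv j u * (ctr j * conj (ctr i)).re := by
  unfold lf R
  rw [add_mul, Complex.add_re, mul_assoc, Complex.re_ofReal_mul]

theorem norm_R_sq (j : ZMod 12) (u : ℂ) : ‖R j u‖ ^ 2 = ‖u‖ ^ 2
    + 4 * rho / tau2 * lv j u * lf j u + (2 * rho / tau2 * lv j u) ^ 2 := by
  rw [← Complex.normSq_eq_norm_sq, ← Complex.normSq_eq_norm_sq]
  unfold R
  rw [Complex.normSq_add, Complex.normSq_mul, normSq_ctr, Complex.normSq_ofReal, map_mul,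
    Complex.conj_ofReal]
  have h3 : (u * (((2 * rho / tau2 * lv j u : ℝ) : ℂ) * conj (ctr j))).re
      = (2 * rho / tau2 * lv j u) * lf j u := by
    rw [mul_left_comm, Complex.re_ofReal_mul]
    rfl
  rw [h3]
  ring

theorem hX_R (j : ZMod 12) (u : ℂ) : hX (R j u) = hX u + 2 * rho ^ 2 / tau2 * lv j u := by
  have ht := tau2_pos
  have hr := rho_pos
  have hrt : rho ^ 2 = 1 - tau2 := by rw [tau2_eq]; ring
  have hpos : 0 ≤ hX u + 2 * rho ^ 2 / tau2 * lv j u := by
    have h5 : hX u + 2 * rho ^ 2 / tau2 * lv j u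
        = ((1 + rho ^ 2) * hX u - 2 * rho * lf j u) / tau2 := by
      rw [lv_eq, tau2_eq]
      rw [tau2_eq] at ht
      field_simp
      ring
    rw [h5]
    apply div_nonneg _ ht.le
    have h6 := norm_lt_hX u
    have h7 := (abs_le.mp (abs_lf_le j u)).2
    have h8 : 2 * rho ≤ 1 + rho ^ 2 := by nlinarith [sq_nonneg (1 - rho)]
    have h9 : 2 * rho * lf j u ≤ 2 * rho * hX u :=
      mul_le_mul_of_nonneg_left (h7.trans h6.le) (by positivity)
    nlinarith [hX_pos u]
  have h10 := hX_sq u
  have h11 : ‖u‖ ^ 2 = hX u ^ 2 - 1 := by linarith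
  have h12 : (hX u + 2 * rho ^ 2 / tau2 * lv j u) ^ 2 = hX (R j u) ^ 2 := by
    rw [hX_sq, norm_R_sq, lf_eq, h11]
    field_simp
    have h13 : rho ^ 4 = (1 - tau2) * rho ^ 2 := by rw [← hrt]; ring
    ring_nf
    rw [h13]
    ring
  exact ((sq_eq_sq₀ hpos (hX_pos _).le).mp h12).symm

/-- minus the scalar products of the unit normals of the sides -/
def gg (i j : ZMod 12) : ℝ := (rho ^ 2 - (ctr i * conj (ctr j)).re) / tau2

theorem gg_self (j : ZMod 12) : gg j j = -1 := by
  unfold gg
  rw [dot_self, div_eq_iff tau2_pos.ne', tau2_eq]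
  ring

theorem gg_succ (j : ZMod 12) : gg (j + 1) j = 0 := by
  unfold gg
  rw [dot_succ, rho_sq, sub_self, zero_div]

theorem gg_succ' (j : ZMod 12) : gg j (j + 1) = 0 := by
  unfold gg
  rw [dot_succ', rho_sq, sub_self, zero_div]

theorem gg_nonneg {i j : ZMod 12} (h : i ≠ j) : 0 ≤ gg i j := by
  unfold gg
  apply div_nonneg _ tau2_pos.le
  rw [rho_sq]
  linarith [dot_le h]

theorem gg_le (i j : ZMod 12) : gg i j ≤ 14 := by
  unfold gg
  rw [div_le_iff₀ tau2_pos]
  have h1 : |(ctr i * conj (ctr j)).re| ≤ 1 := by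
    refine (Complex.abs_re_le_norm _).trans ?_
    rw [norm_mul, Complex.norm_conj, norm_ctr, norm_ctr, mul_one]
  linarith [(abs_le.mp h1).1, rho_sq_lt, lt_tau2]

theorem lv_R (i j : ZMod 12) (u : ℂ) : lv i (R j u) = lv i u + 2 * gg i j * lv j u := by
  have hr := rho_pos.ne'
  have ht := tau2_pos.ne'
  rw [lv_eq i (R j u), lv_eq i u, hX_R, lf_R, gg, dot_comm i j]
  field_simp
  ring

theorem lv_R_self (j : ZMod 12) (u : ℂ) : lv j (R j u) = -lv j u := by
  rw [lv_R, gg_self]; ring

theorem lv_R_succ (j : ZMod 12) (u : ℂ) : lv (j + 1) (R j u) = lv (j + 1) u := by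
  rw [lv_R, gg_succ]; ring

theorem lv_R_pred (j : ZMod 12) (u : ℂ) : lv j (R (j + 1) u) = lv j u := by
  rw [lv_R, gg_succ']; ring

theorem R_def (j : ZMod 12) (u : ℂ) :
    R j u = u + ((2 * rho / tau2 * lv j u : ℝ) : ℂ) * ctr j := rfl

theorem R_R (j : ZMod 12) (u : ℂ) : R j (R j u) = u := by
  rw [R_def j (R j u), lv_R_self, R_def]
  push_cast
  ring

theorem R_comm (j : ZMod 12) (u : ℂ) : R j (R (j + 1) u) = R (j + 1) (R j u) := by
  rw [R_def j (R (j + 1) u), R_def (j + 1) (R j u), lv_R_pred, lv_R_succ, R_def j u,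
    R_def (j + 1) u]
  ring

theorem stmt_G3 : Stmt_G3 :=
  ⟨lv_R, lv_R_self, lv_R_succ, lv_R_pred, R_R, R_comm⟩

/-! ## Smoothness -/

theorem contDiff_hX : ContDiff ℝ ∞ hX := by
  unfold hX
  apply ContDiff.sqrt
  · exact contDiff_const.add (contDiff_id.norm_sq ℝ)
  · intro u
    positivity

theorem contDiff_lf (j : ZMod 12) : ContDiff ℝ ∞ (lf j) := by
  unfold lf
  have h1 : ContDiff ℝ ∞ (fun u : ℂ => u * conj (ctr j)) := contDiff_id.mul contDiff_const
  exact Complex.reCLM.contDiff.comp h1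

theorem contDiff_lv (j : ZMod 12) : ContDiff ℝ ∞ (lv j) :=
  contDiff_hX.sub ((contDiff_lf j).div_const _)

theorem contDiff_R (j : ZMod 12) : ContDiff ℝ ∞ (R j) := by
  unfold R
  have h1 : ContDiff ℝ ∞ (fun u : ℂ => ((2 * rho / tau2 * lv j u : ℝ) : ℂ)) :=
    Complex.ofRealCLM.contDiff.comp (contDiff_const.mul (contDiff_lv j))
  exact contDiff_id.add (h1.mul contDiff_const)

theorem contDiff_mv (n : Nbr) : ContDiff ℝ ∞ (mv n) := by
  match n with
  | none => exact contDiff_id
  | some (j, false) => exact contDiff_R j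
  | some (j, true) => exact (contDiff_R j).comp (contDiff_R (j + 1))

theorem contDiff_beta : ContDiff ℝ ∞ beta := by
  unfold beta
  apply contDiff_prod
  intro j _
  exact Real.smoothTransition.contDiff.comp
    (contDiff_const.add (contDiff_const.mul (contDiff_lv j)))

theorem beta_nonneg (u : ℂ) : 0 ≤ beta u :=
  Finset.prod_nonneg fun _ _ => Real.smoothTransition.nonneg _

theorem beta_le_one (u : ℂ) : beta u ≤ 1 :=
  Finset.prod_le_one (fun _ _ => Real.smoothTransition.nonneg _)
    (fun _ _ => Real.smoothTransition.le_one _)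

theorem beta_eq_one_iff (u : ℂ) : beta u = 1 ↔ u ∈ PP := by
  constructor
  · intro h j
    by_contra hcon
    push Not at hcon
    have h1 : Real.smoothTransition (1 + 100 * lv j u) < 1 := by
      refine lt_of_le_of_ne (Real.smoothTransition.le_one _) ?_
      rw [Ne, Real.smoothTransition.eq_one_iff_one_le]
      linarith
    have h2 : beta u ≤ Real.smoothTransition (1 + 100 * lv j u) := by
      unfold beta
      rw [← Finset.mul_prod_erase Finset.univ _ (Finset.mem_univ j)]
      apply mul_le_of_le_one_right (Real.smoothTransition.nonneg _)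
      exact Finset.prod_le_one (fun _ _ => Real.smoothTransition.nonneg _)
        (fun _ _ => Real.smoothTransition.le_one _)
    linarith
  · intro h
    unfold beta
    apply Finset.prod_eq_one
    intro j _
    apply Real.smoothTransition.one_of_one_le
    have := h j
    linarith

theorem beta_pos_iff (u : ℂ) : 0 < beta u ↔ u ∈ PPo := by
  constructor
  · intro h j
    by_contra hcon
    push Not at hcon
    have h1 : Real.smoothTransition (1 + 100 * lv j u) = 0 := by
      rw [Real.smoothTransition.zero_iff_nonpos]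
      linarith
    have h2 : beta u = 0 := Finset.prod_eq_zero (Finset.mem_univ j) h1
    linarith
  · intro h
    apply Finset.prod_pos
    intro j _
    apply Real.smoothTransition.pos_of_pos
    have := h j
    linarith

theorem stmt_G4 : Stmt_G4 :=
  ⟨contDiff_lv, contDiff_R, contDiff_mv, contDiff_beta, beta_nonneg, beta_le_one,
    beta_eq_one_iff, beta_pos_iff⟩

/-! ## Separation -/

theorem lv_add_lv {i k : ZMod 12} (h0 : i ≠ k) (h1 : k ≠ i + 1) (h2 : i ≠ k + 1) (u : ℂ) :
    0.73 ≤ lv i u + lv k u := by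
  have hr := rho_pos
  have hcs : (lf i u + lf k u) ^ 2 ≤ 3 * ‖u‖ ^ 2 := by
    have h3 : lf i u + lf k u = (u * conj (ctr i + ctr k)).re := by
      unfold lf
      rw [map_add, mul_add, Complex.add_re]
    have h4 : |(u * conj (ctr i + ctr k)).re| ≤ ‖u‖ * ‖ctr i + ctr k‖ := by
      refine (Complex.abs_re_le_norm _).trans ?_
      rw [norm_mul, Complex.norm_conj]
    have h5 : ‖ctr i + ctr k‖ ^ 2 ≤ 3 := by
      rw [← Complex.normSq_eq_norm_sq, Complex.normSq_add, normSq_ctr, normSq_ctr]
      linarith [dot_far h0 h1 h2]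
    rw [h3, ← sq_abs]
    calc |(u * conj (ctr i + ctr k)).re| ^ 2 ≤ (‖u‖ * ‖ctr i + ctr k‖) ^ 2 :=
          pow_le_pow_left₀ (abs_nonneg _) h4 2
      _ = ‖u‖ ^ 2 * ‖ctr i + ctr k‖ ^ 2 := by ring
      _ ≤ ‖u‖ ^ 2 * 3 := mul_le_mul_of_nonneg_left h5 (sq_nonneg _)
      _ = 3 * ‖u‖ ^ 2 := by ring
  have hsum : lv i u + lv k u = 2 * hX u - (lf i u + lf k u) / rho := by
    rw [lv_eq, lv_eq]; ring
  rw [hsum]
  set s := lf i u + lf k u with hs
  have hX0 := hX_pos u
  have hXs := hX_sq u
  have h6 := one_le_hX u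
  rw [le_sub_comm, div_le_iff₀ hr]
  by_contra hcon
  push Not at hcon
  have h7 : 0 < (2 * hX u - 0.73) * rho := by
    apply mul_pos _ hr
    linarith
  have h8 : ((2 * hX u - 0.73) * rho) ^ 2 < s ^ 2 :=
    pow_lt_pow_left₀ hcon h7.le (by norm_num)
  have h10 : (2 * hX u - 0.73) ^ 2 * rho ^ 2 < 3 * (hX u ^ 2 - 1) := by
    have : ((2 * hX u - 0.73) * rho) ^ 2 = (2 * hX u - 0.73) ^ 2 * rho ^ 2 := by ring
    rw [← this]
    rw [hXs]
    linarith
  have h11 : (2 * hX u - 0.73) ^ 2 * 0.866 ≤ (2 * hX u - 0.73) ^ 2 * rho ^ 2 :=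
    mul_le_mul_of_nonneg_left lt_rho_sq.le (sq_nonneg _)
  nlinarith [sq_nonneg (hX u - 2.73), sq_nonneg (hX u - 2.7)]

/-- three sides with pairwise neighbours: a set of pairwise equal or adjacent sides of the 12-gon
lies in `{j, j + 1}` -/
theorem exists_pair (Z : ZMod 12 → Prop)
    (h : ∀ i k, Z i → Z k → i = k ∨ k = i + 1 ∨ i = k + 1) : ∃ j, ∀ k, Z k → k = j ∨ k = j + 1 := by
  by_cases h0 : ∃ a, Z a
  · obtain ⟨a, ha⟩ := h0
    by_cases h1 : Z (a - 1)
    · refine ⟨a - 1, fun k hk => ?_⟩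
      rcases h a k ha hk with h2 | h2 | h2
      · right; rw [← h2]; ring
      · exfalso
        subst h2
        rcases h (a - 1) (a + 1) h1 hk with h3 | h3 | h3
        · have : (2 : ZMod 12) = 0 := by linear_combination -h3
          revert this; decide
        · have : (1 : ZMod 12) = 0 := by linear_combination h3
          revert this; decide
        · have : (3 : ZMod 12) = 0 := by linear_combination -h3
          revert this; decide
      · left; rw [h2]; ring
    · refine ⟨a, fun k hk => ?_⟩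
      rcases h a k ha hk with h2 | h2 | h2
      · left; exact h2.symm
      · right; exact h2
      · exfalso
        apply h1
        have : a - 1 = k := by rw [h2]; ring
        rw [this]; exact hk
  · exact ⟨0, fun k hk => absurd ⟨k, hk⟩ h0⟩

theorem stmt_G5 : Stmt_G5 := by
  refine ⟨fun i k u h0 h1 h2 => by linarith [lv_add_lv h0 h1 h2 u], fun u hu => ?_⟩
  obtain ⟨j, hj⟩ := exists_pair (fun k => lv k u < 1 / 100) (fun i k hi hk => by
    by_contra hcon
    push Not at hcon
    have := lv_add_lv hcon.1 hcon.2.1 hcon.2.2 u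
    linarith)
  refine ⟨j, hj, fun n hn => ?_⟩
  match n with
  | none => left; rfl
  | some (k, false) =>
    have h1 : -(1 / 100) < lv k (R k u) := hn k
    rw [lv_R_self] at h1
    rcases hj k (by linarith) with h2 | h2
    · right; left; rw [h2]
    · right; right; left; rw [h2]
  | some (k, true) =>
    have h1 : -(1 / 100) < lv k (R k (R (k + 1) u)) := hn k
    rw [lv_R_self, lv_R_pred] at h1
    have h2 : -(1 / 100) < lv (k + 1) (R k (R (k + 1) u)) := hn (k + 1)
    rw [lv_R_succ, lv_R_self] at h2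
    have h3 := hj k (by linarith)
    have h4 := hj (k + 1) (by linarith)
    right; right; right
    rcases h3 with h3 | h3
    · rw [h3]
    · exfalso
      subst h3
      rcases h4 with h4 | h4
      · have : (2 : ZMod 12) = 0 := by linear_combination h4
        revert this; decide
      · have : (1 : ZMod 12) = 0 := by linear_combination h4
        revert this; decide

/-! ## Boundedness and reduction to the closed polygon -/

theorem PPo_bound {u : ℂ} (hu : u ∈ PPo) : ‖u‖ < 9 := by
  by_contra hcon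
  push Not at hcon
  obtain ⟨j, hj⟩ := exists_near u
  have h1 := hu j
  rw [lv_eq] at h1
  have hr := rho_pos
  have h2 : lf j u / rho < hX u + 1 / 100 := by linarith
  rw [div_lt_iff₀ hr] at h2
  have h3 : 0.965 * ‖u‖ < (hX u + 1 / 100) * 0.931 := by
    have h4 : (hX u + 1 / 100) * rho ≤ (hX u + 1 / 100) * 0.931 :=
      mul_le_mul_of_nonneg_left rho_lt.le (by linarith [hX_pos u])
    have h5 : 0.965 * ‖u‖ ≤ lf j u := hj
    linarith
  have h4 := hX_sq u
  nlinarith [hX_pos u, norm_nonneg u]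

theorem PP_subset_PPo : PP ⊆ PPo := fun u hu j => by linarith [hu j]

theorem isOpen_PPo : IsOpen PPo := by
  have : PPo = ⋂ j, {u | -(1 / 100) < lv j u} := by ext u; simp [PPo]
  rw [this]
  exact isOpen_iInter_of_finite fun j => isOpen_lt continuous_const (contDiff_lv j).continuous

theorem isCompact_PP : IsCompact PP := by
  apply (isCompact_closedBall (0 : ℂ) 9).of_isClosed_subset
  · have : PP = ⋂ j, {u | 0 ≤ lv j u} := by ext u; simp [PP]
    rw [this]
    exact isClosed_iInter fun j => isClosed_le continuous_const (contDiff_lv j).continuous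
  · intro u hu
    rw [Metric.mem_closedBall, dist_zero_right]
    exact (PPo_bound (PP_subset_PPo hu)).le

theorem reduce {u : ℂ} (hu : u ∈ PPo) : ∃ n : Nbr, mv n u ∈ PP := by
  obtain ⟨j, hj⟩ := exists_pair (fun k => lv k u < 0) (fun i k hi hk => by
    by_contra hcon
    push Not at hcon
    have := lv_add_lv hcon.1 hcon.2.1 hcon.2.2 u
    linarith)
  -- the level of a side far from a negative side is large
  have hfar : ∀ i k, lv k u < 0 → i ≠ k → k ≠ i + 1 → i ≠ k + 1 → 0.73 ≤ lv i u := by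
    intro i k hk h0 h1 h2
    have := lv_add_lv h0 h1 h2 u
    linarith
  -- one reflection moves the level by at most `0.28`
  have hmove : ∀ i k, lv k u < 0 → i ≠ k → -0.28 ≤ 2 * gg i k * lv k u := by
    intro i k hk h0
    have h1 := hu k
    have h2 := gg_le i k
    have h3 := gg_nonneg h0
    nlinarith
  have hmove0 : ∀ i k, i = k + 1 ∨ k = i + 1 → gg i k = 0 := by
    intro i k h
    rcases h with h | h
    · rw [h, gg_succ]
    · rw [h, gg_succ']
  -- after one reflection in a negative side `k` the other levels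
  have hone : ∀ i k, lv k u < 0 → i ≠ k →
      (i = k + 1 ∨ k = i + 1 → lv i (R k u) = lv i u) ∧
      (¬ (i = k + 1 ∨ k = i + 1) → 0.45 ≤ lv i (R k u)) := by
    intro i k hk h0
    constructor
    · intro h
      rw [lv_R, hmove0 i k h]; ring
    · intro h
      push Not at h
      have h1 := hfar i k hk h0 h.2 h.1
      have h2 := hmove i k hk h0
      rw [lv_R]
      linarith
  by_cases hj0 : lv j u < 0
  · by_cases hj1 : lv (j + 1) u < 0
    · -- two negative sides
      refine ⟨some (j, true), fun i => ?_⟩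
      change 0 ≤ lv i (R j (R (j + 1) u))
      by_cases hij : i = j
      · subst hij
        rw [lv_R_self, lv_R_pred]
        linarith
      · by_cases hij1 : i = j + 1
        · subst hij1
          rw [lv_R_succ, lv_R_self]
          linarith
        · rw [lv_R, lv_R_pred]
          have h1 := hmove i j hj0 hij
          have h2 := hone i (j + 1) hj1 hij1
          have h3 := hone i j hj0 hij
          by_cases ha : i = j + 1 + 1 ∨ j + 1 = i + 1
          · rw [h2.1 ha]
            by_cases hb : i = j + 1 ∨ j = i + 1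
            · exfalso
              rcases hb with hb | hb
              · exact hij1 hb
              · rcases ha with ha | ha
                · have h5 : (3 : ZMod 12) = 0 := by linear_combination -ha - hb
                  revert h5; decide
                · exact hij (add_right_cancel ha).symm
            · push Not at hb
              have h5 := hfar i j hj0 hij hb.2 hb.1
              linarith
          · have := h2.2 ha
            linarith
    · -- only `j`
      refine ⟨some (j, false), fun i => ?_⟩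
      change 0 ≤ lv i (R j u)
      by_cases hij : i = j
      · subst hij
        rw [lv_R_self]
        linarith
      · have h2 := hone i j hj0 hij
        by_cases ha : i = j + 1 ∨ j = i + 1
        · rw [h2.1 ha]
          by_contra hcon
          push Not at hcon
          rcases hj i hcon with h3 | h3
          · exact hij h3
          · rw [h3] at hcon
            exact hj1 hcon
        · have := h2.2 ha
          linarith
  · by_cases hj1 : lv (j + 1) u < 0
    · refine ⟨some (j + 1, false), fun i => ?_⟩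
      change 0 ≤ lv i (R (j + 1) u)
      by_cases hij : i = j + 1
      · subst hij
        rw [lv_R_self]
        linarith
      · have h2 := hone i (j + 1) hj1 hij
        by_cases ha : i = j + 1 + 1 ∨ j + 1 = i + 1
        · rw [h2.1 ha]
          by_contra hcon
          push Not at hcon
          rcases hj i hcon with h3 | h3
          · rw [h3] at hcon
            exact hj0 hcon
          · exact hij h3
        · have := h2.2 ha
          linarith
    · refine ⟨none, fun i => ?_⟩
      change 0 ≤ lv i u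
      by_contra hcon
      push Not at hcon
      rcases hj i hcon with h3 | h3
      · rw [h3] at hcon; exact hj0 hcon
      · rw [h3] at hcon; exact hj1 hcon

theorem lv_smul (j : ZMod 12) (u : ℂ) {t : ℝ} (h0 : 0 ≤ t) (h1 : t ≤ 1) :
    t * lv j u ≤ lv j ((t : ℂ) * u) := by
  have hl : lf j ((t : ℂ) * u) = t * lf j u := by
    unfold lf
    rw [mul_assoc, Complex.re_ofReal_mul]
  have hn : ‖(t : ℂ) * u‖ = t * ‖u‖ := by
    rw [norm_mul, Complex.norm_real, Real.norm_of_nonneg h0]
  have hh : t * hX u ≤ hX ((t : ℂ) * u) := by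
    have h2 := hX_sq ((t : ℂ) * u)
    rw [hn] at h2
    have h3 := hX_sq u
    have h4 : (t * hX u) ^ 2 ≤ hX ((t : ℂ) * u) ^ 2 := by
      rw [mul_pow, h3, h2]
      nlinarith
    exact (pow_le_pow_iff_left₀ (mul_nonneg h0 (hX_pos u).le) (hX_pos _).le (by norm_num)).mp h4
  rw [lv_eq, lv_eq, hl]
  have : t * (hX u - lf j u / rho) = t * hX u - t * lf j u / rho := by ring
  rw [this]
  linarith

theorem lv_large {u : ℂ} (hu : ‖u‖ ^ 2 ≤ 3) (j : ZMod 12) : 1 / 10 < lv j u := by
  have hr := rho_pos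
  rw [lv_eq, lt_sub_comm, div_lt_iff₀ hr]
  have h1 := hX_sq u
  have h2 := hX_pos u
  have h3 := (abs_le.mp (abs_lf_le j u)).2
  have h4 : 0.93 * (hX u - 1 / 10) ≤ (hX u - 1 / 10) * rho := by
    rw [mul_comm]
    exact mul_le_mul_of_nonneg_left lt_rho.le (by linarith [one_le_hX u])
  have h5 := one_le_hX u
  have h6 : ‖u‖ < 0.93 * (hX u - 1 / 10) := by
    have h7 : hX u ≤ 2 := by nlinarith
    have h8 : 0 ≤ ‖u‖ := norm_nonneg u
    by_contra hcon
    push Not at hcon
    nlinarith
  linarith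

theorem stmt_G6 : Stmt_G6 := by
  refine ⟨fun u hu => PPo_bound hu, isCompact_PP, isOpen_PPo, PP_subset_PPo,
    fun u hu => reduce hu, fun u hu t h0 h1 j => ?_, fun u hu t h0 h1 j => ?_,
    fun u hu j => lv_large hu j⟩
  · exact (mul_nonneg h0 (hu j)).trans (lv_smul j u h0 h1)
  · refine lt_of_lt_of_le ?_ (lv_smul j u h0 h1)
    have := hu j
    by_cases ht : t = 0
    · rw [ht]; norm_num
    · have h2 : 0 < t := lt_of_le_of_ne h0 (Ne.symm ht)
      nlinarith

end Pool.CX
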