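import Pool.Agent.Work.MP_727c87_cx.E1.Met
import Pool.Agent.Work.MP_727c87_cx.E1.GeoProofs

/-!
# Block C1: the model charts
-/

set_option autoImplicit false

open Set Complex ComplexConjugate
open scoped ContDiff

noncomputable section

namespace Pool.CX

namespace C1

theorem qq_eq (s : ℝ) : qq s = 1 + Real.smoothTransition (s - 1) * (s - 1) := by
  unfold qq; ring

theorem one_le_qq (s : ℝ) : 1 ≤ qq s := by
  rw [qq_eq]
  rcases le_total s 1 with h | h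
  · rw [Real.smoothTransition.zero_of_nonpos (by linarith)]; linarith
  · have := mul_nonneg (Real.smoothTransition.nonneg (s - 1)) (by linarith : (0 : ℝ) ≤ s - 1)
    linarith

theorem qq_pos (s : ℝ) : 0 < qq s := lt_of_lt_of_le one_pos (one_le_qq s)

theorem contDiff_qq : ContDiff ℝ ∞ qq := by
  have h : qq = fun s => 1 + Real.smoothTransition (s - 1) * (s - 1) := funext qq_eq
  rw [h]
  exact contDiff_const.add ((Real.smoothTransition.contDiff.comp
    (contDiff_id.sub contDiff_const)).mul (contDiff_id.sub contDiff_const))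

theorem qq_of_le {s : ℝ} (h : s ≤ 1) : qq s = 1 := by
  rw [qq_eq, Real.smoothTransition.zero_of_nonpos (by linarith)]; ring

theorem qq_of_ge {s : ℝ} (h : 2 ≤ s) : qq s = s := by
  rw [qq_eq, Real.smoothTransition.one_of_one_le (by linarith)]; ring

/-- the cross-section coordinate -/
def zz (e : ℂ × ℝ) : ℂ := ⟨‖e.1‖ - 10, e.2⟩

theorem norm_zz_sq (e : ℂ × ℝ) : ‖zz e‖ ^ 2 = (‖e.1‖ - 10) ^ 2 + e.2 ^ 2 := by
  rw [Complex.sq_norm, Complex.normSq_apply, zz]; ring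

theorem chU_true {d : Prop} (hd : d) (e : ℂ × ℝ) :
    chU d e = ((√(1 + ‖zz e‖ ^ 2) / ‖e.1‖ : ℝ) : ℂ) * e.1 := by
  rw [norm_zz_sq, chU, if_pos hd]

theorem chU_false {d : Prop} (hd : ¬ d) (e : ℂ × ℝ) : chU d e = zz e := by
  rw [chU, if_neg hd, zz]

theorem chV_true {d : Prop} (hd : d) (e : ℂ × ℝ) :
    chV d e = ((1 / √(qq (‖zz e‖ ^ 2)) : ℝ) : ℂ) * zz e := by
  rw [norm_zz_sq, chV, if_pos hd, zz]

theorem chV_false {d : Prop} (hd : ¬ d) (e : ℂ × ℝ) : chV d e = ((1 / ‖e.1‖ : ℝ) : ℂ) * e.1 := by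
  rw [chV, if_neg hd]

/-- the cross-section coordinate as a function of `(u, v)` -/
def yy (u v : ℂ) : ℂ := (√(qq (‖u‖ ^ 2 - 1)) : ℂ) * v

theorem chG_true {d : Prop} (hd : d) (u v : ℂ) :
    chG d u v = (((((yy u v).re + 10) / ‖u‖ : ℝ) : ℂ) * u, (yy u v).im) := by
  rw [chG, if_pos hd, yy]

theorem chG_false {d : Prop} (hd : ¬ d) (u v : ℂ) :
    chG d u v = (((u.re + 10 : ℝ) : ℂ) * v, u.im) := by
  rw [chG, if_neg hd]

/-! ## Smoothness of the charts -/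

theorem contDiff_ofReal_comp {E : Type*} [NormedAddCommGroup E] [NormedSpace ℝ E] {f : E → ℝ}
    {s : Set E} (h : ContDiffOn ℝ ∞ f s) : ContDiffOn ℝ ∞ (fun x => ((f x : ℝ) : ℂ)) s :=
  Complex.ofRealCLM.contDiff.comp_contDiffOn h

theorem contDiffOn_norm_fst : ContDiffOn ℝ ∞ (fun e : ℂ × ℝ => ‖e.1‖) {e | e.1 ≠ 0} :=
  contDiff_fst.contDiffOn.norm ℝ (fun _ h => h)

theorem zz_eq (e : ℂ × ℝ) : zz e = ((‖e.1‖ - 10 : ℝ) : ℂ) + (e.2 : ℂ) * I := by
  apply Complex.ext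
  · simp [zz]
  · simp [zz]

theorem contDiffOn_zz : ContDiffOn ℝ ∞ zz {e : ℂ × ℝ | e.1 ≠ 0} := by
  have h : zz = fun e => ((‖e.1‖ - 10 : ℝ) : ℂ) + (e.2 : ℂ) * I := funext zz_eq
  rw [h]
  exact (contDiff_ofReal_comp (contDiffOn_norm_fst.sub contDiffOn_const)).add
    ((contDiff_ofReal_comp contDiff_snd.contDiffOn).mul contDiffOn_const)

theorem contDiffOn_zz_sq : ContDiffOn ℝ ∞ (fun e : ℂ × ℝ => ‖zz e‖ ^ 2) {e | e.1 ≠ 0} :=
  contDiffOn_zz.norm_sq ℝ

theorem contDiffOn_chU (d : Prop) : ContDiffOn ℝ ∞ (chU d) {e : ℂ × ℝ | e.1 ≠ 0} := by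
  by_cases hd : d
  · have h : chU d = fun e => ((√(1 + ‖zz e‖ ^ 2) / ‖e.1‖ : ℝ) : ℂ) * e.1 := funext (chU_true hd)
    rw [h]
    refine (contDiff_ofReal_comp ?_).mul contDiff_fst.contDiffOn
    refine ContDiffOn.div ?_ contDiffOn_norm_fst (fun e he => norm_ne_zero_iff.mpr he)
    exact (contDiffOn_const.add contDiffOn_zz_sq).sqrt (fun e _ => by positivity)
  · have h : chU d = zz := funext (chU_false hd)
    rw [h]
    exact contDiffOn_zz

theorem contDiffOn_chV (d : Prop) : ContDiffOn ℝ ∞ (chV d) {e : ℂ × ℝ | e.1 ≠ 0} := by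
  by_cases hd : d
  · have h : chV d = fun e => ((1 / √(qq (‖zz e‖ ^ 2)) : ℝ) : ℂ) * zz e := funext (chV_true hd)
    rw [h]
    refine (contDiff_ofReal_comp ?_).mul contDiffOn_zz
    refine ContDiffOn.div contDiffOn_const ?_
      (fun e _ => Real.sqrt_ne_zero'.mpr (qq_pos _))
    exact (contDiff_qq.comp_contDiffOn contDiffOn_zz_sq).sqrt (fun e _ => (qq_pos _).ne')
  · have h : chV d = fun e => ((1 / ‖e.1‖ : ℝ) : ℂ) * e.1 := funext (chV_false hd)
    rw [h]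
    exact (contDiff_ofReal_comp (ContDiffOn.div contDiffOn_const contDiffOn_norm_fst
      (fun e he => norm_ne_zero_iff.mpr he))).mul contDiff_fst.contDiffOn

theorem chDom_subset (d : Prop) : chDom d ⊆ {e : ℂ × ℝ | e.1 ≠ 0} := fun _ h => h.1

theorem isOpen_ne : IsOpen {e : ℂ × ℝ | e.1 ≠ 0} :=
  isOpen_ne_fun continuous_fst continuous_const

theorem isOpen_chDom (hG6 : Stmt_G6) (d : Prop) : IsOpen (chDom d) := by
  have h := (contDiffOn_chU d).continuousOn.isOpen_inter_preimage isOpen_ne hG6.2.2.1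
  exact h

theorem contDiffOn_yy : ContDiff ℝ ∞ (fun x : ℂ × ℂ => yy x.1 x.2) := by
  unfold yy
  refine ContDiff.mul ?_ contDiff_snd
  refine Complex.ofRealCLM.contDiff.comp (ContDiff.sqrt ?_ (fun x => (qq_pos _).ne'))
  exact contDiff_qq.comp ((contDiff_fst.norm_sq ℝ).sub contDiff_const)

theorem contDiffOn_chG (d : Prop) :
    ContDiffOn ℝ ∞ (fun x : ℂ × ℂ => chG d x.1 x.2) {x | d → x.1 ≠ 0} := by
  by_cases hd : d
  · have h : (fun x : ℂ × ℂ => chG d x.1 x.2) =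
        fun x : ℂ × ℂ => (((((yy x.1 x.2).re + 10) / ‖x.1‖ : ℝ) : ℂ) * x.1, (yy x.1 x.2).im) :=
      funext fun x => chG_true hd x.1 x.2
    rw [h]
    have hre : ContDiff ℝ ∞ (fun x : ℂ × ℂ => (yy x.1 x.2).re) :=
      Complex.reCLM.contDiff.comp contDiffOn_yy
    have him : ContDiff ℝ ∞ (fun x : ℂ × ℂ => (yy x.1 x.2).im) :=
      Complex.imCLM.contDiff.comp contDiffOn_yy
    refine ContDiffOn.prodMk ?_ him.contDiffOn
    refine (contDiff_ofReal_comp ?_).mul contDiff_fst.contDiffOn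
    exact ContDiffOn.div (hre.add contDiff_const).contDiffOn
      (contDiff_fst.contDiffOn.norm ℝ (fun x hx => hx hd))
      (fun x hx => norm_ne_zero_iff.mpr (hx hd))
  · have h : (fun x : ℂ × ℂ => chG d x.1 x.2) =
        fun x : ℂ × ℂ => (((x.1.re + 10 : ℝ) : ℂ) * x.2, x.1.im) :=
      funext fun x => chG_false hd x.1 x.2
    rw [h]
    have hre : ContDiff ℝ ∞ (fun x : ℂ × ℂ => x.1.re) := Complex.reCLM.contDiff.comp contDiff_fst
    have him : ContDiff ℝ ∞ (fun x : ℂ × ℂ => x.1.im) := Complex.imCLM.contDiff.comp contDiff_fst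
    exact (((Complex.ofRealCLM.contDiff.comp (hre.add contDiff_const)).mul
      contDiff_snd).prodMk him).contDiffOn

/-! ## The charts map into `Loc` -/

theorem norm_chU_true {d : Prop} (hd : d) {e : ℂ × ℝ} (he : e.1 ≠ 0) :
    ‖chU d e‖ = √(1 + ‖zz e‖ ^ 2) := by
  have h1 : ‖e.1‖ ≠ 0 := norm_ne_zero_iff.mpr he
  rw [chU_true hd, norm_mul, Complex.norm_real, Real.norm_of_nonneg (by positivity)]
  field_simp

theorem norm_chU_true_sq {d : Prop} (hd : d) {e : ℂ × ℝ} (he : e.1 ≠ 0) :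
    ‖chU d e‖ ^ 2 - 1 = ‖zz e‖ ^ 2 := by
  rw [norm_chU_true hd he, Real.sq_sqrt (by positivity)]; ring

theorem maps {d : Prop} {e : ℂ × ℝ} (he : e ∈ chDom d) : (chU d e, chV d e) ∈ Loc d := by
  refine ⟨he.2, ?_, ?_⟩
  · intro hd
    have h1 : ‖e.1‖ ≠ 0 := norm_ne_zero_iff.mpr he.1
    change ‖chV d e‖ = 1
    rw [chV_false hd, norm_mul, Complex.norm_real, Real.norm_of_nonneg (by positivity)]
    field_simp
  · intro hd
    constructor
    · change 1 ≤ ‖chU d e‖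
      rw [norm_chU_true hd he.1]
      apply Real.one_le_sqrt.mpr
      have : 0 ≤ ‖zz e‖ ^ 2 := by positivity
      linarith
    · change ‖chV d e‖ ^ 2 * qq (‖chU d e‖ ^ 2 - 1) = ‖chU d e‖ ^ 2 - 1
      rw [norm_chU_true_sq hd he.1, chV_true hd, norm_mul, Complex.norm_real,
        Real.norm_of_nonneg (by positivity), mul_pow, div_pow, Real.sq_sqrt (qq_pos _).le]
      have := (qq_pos (‖zz e‖ ^ 2)).ne'
      field_simp

theorem ofReal_div_mul_cancel {a b : ℝ} (hb : b ≠ 0) (z : ℂ) (c : ℝ) (h : a * c = b) :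
    ((a : ℝ) : ℂ) * (((c / b : ℝ) : ℂ) * z) = z := by
  rw [← mul_assoc, ← Complex.ofReal_mul]
  have h1 : a * (c / b) = 1 := by rw [mul_div_assoc', h, div_self hb]
  rw [h1]; simp

theorem left_inv {d : Prop} {e : ℂ × ℝ} (he : e ∈ chDom d) : chG d (chU d e) (chV d e) = e := by
  have h1 : ‖e.1‖ ≠ 0 := norm_ne_zero_iff.mpr he.1
  by_cases hd : d
  · have hq : √(qq (‖zz e‖ ^ 2)) ≠ 0 := Real.sqrt_ne_zero'.mpr (qq_pos _)
    have hyy : yy (chU d e) (chV d e) = zz e := by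
      rw [yy, norm_chU_true_sq hd he.1, chV_true hd]
      exact ofReal_div_mul_cancel hq _ _ (mul_one _)
    have hs : √(1 + ‖zz e‖ ^ 2) ≠ 0 := Real.sqrt_ne_zero'.mpr (by positivity)
    rw [chG_true hd, hyy, norm_chU_true hd he.1, chU_true hd]
    refine Prod.ext ?_ rfl
    change ((((zz e).re + 10) / √(1 + ‖zz e‖ ^ 2) : ℝ) : ℂ) * _ = e.1
    refine ofReal_div_mul_cancel h1 _ _ ?_
    change (‖e.1‖ - 10 + 10) / √(1 + ‖zz e‖ ^ 2) * √(1 + ‖zz e‖ ^ 2) = ‖e.1‖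
    field_simp
    ring
  · rw [chG_false hd, chU_false hd, chV_false hd]
    refine Prod.ext ?_ rfl
    change (((‖e.1‖ - 10) + 10 : ℝ) : ℂ) * _ = e.1
    refine ofReal_div_mul_cancel h1 _ _ ?_
    ring

theorem abs_re_lt {u : ℂ} {r : ℝ} (h : ‖u‖ < r) : |u.re| < r :=
  lt_of_le_of_lt (Complex.abs_re_le_norm u) h

theorem right_inv (hG6 : Stmt_G6) {d : Prop} {x : ℂ × ℂ} (hx : x ∈ Loc d) :
    chG d x.1 x.2 ∈ chDom d ∧ chU d (chG d x.1 x.2) = x.1 ∧ chV d (chG d x.1 x.2) = x.2 := by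
  obtain ⟨u, v⟩ := x
  obtain ⟨hu, hnd, hdf⟩ := hx
  change u ∈ PPo at hu
  change ¬ d → ‖v‖ = 1 at hnd
  change d → 1 ≤ ‖u‖ ∧ ‖v‖ ^ 2 * qq (‖u‖ ^ 2 - 1) = ‖u‖ ^ 2 - 1 at hdf
  change chG d u v ∈ chDom d ∧ chU d (chG d u v) = u ∧ chV d (chG d u v) = v
  have hu9 : ‖u‖ < 9 := hG6.1 u hu
  suffices h : (chG d u v).1 ≠ 0 ∧ chU d (chG d u v) = u ∧ chV d (chG d u v) = v by
    refine ⟨⟨h.1, ?_⟩, h.2⟩
    rw [h.2.1]
    exact hu
  by_cases hd : d
  · obtain ⟨h1, h2⟩ := hdf hd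
    have hun : ‖u‖ ≠ 0 := by linarith
    set s := ‖u‖ ^ 2 - 1 with hs
    have hyn : ‖yy u v‖ ^ 2 = s := by
      rw [yy, norm_mul, Complex.norm_real, Real.norm_of_nonneg (by positivity), mul_pow,
        Real.sq_sqrt (qq_pos _).le, mul_comm]
      exact h2
    have hy9 : ‖yy u v‖ < 9 := by
      have : ‖yy u v‖ ^ 2 < 9 ^ 2 := by rw [hyn, hs]; nlinarith [norm_nonneg u]
      exact lt_of_pow_lt_pow_left₀ 2 (by norm_num) this
    have hre := abs_re_lt hy9
    rw [abs_lt] at hre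
    have hpos : 0 < (yy u v).re + 10 := by linarith [hre.1]
    have hw : ‖(chG d u v).1‖ = (yy u v).re + 10 := by
      rw [chG_true hd]
      change ‖((((yy u v).re + 10) / ‖u‖ : ℝ) : ℂ) * u‖ = _
      rw [norm_mul, Complex.norm_real, Real.norm_of_nonneg (by positivity)]
      field_simp
    have hz : zz (chG d u v) = yy u v := by
      unfold zz
      rw [hw, chG_true hd]
      apply Complex.ext
      · simp
      · simp
    refine ⟨?_, ?_, ?_⟩
    · rw [← norm_ne_zero_iff, hw]; exact hpos.ne'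
    · rw [chU_true hd, hz, hyn, hw]
      have h3 : √(1 + s) = ‖u‖ := by
        rw [hs]
        have : 1 + (‖u‖ ^ 2 - 1) = ‖u‖ ^ 2 := by ring
        rw [this, Real.sqrt_sq (norm_nonneg u)]
      rw [h3, chG_true hd]
      refine ofReal_div_mul_cancel hun _ _ ?_
      field_simp
    · rw [chV_true hd, hz, hyn, yy, ← mul_assoc, ← Complex.ofReal_mul]
      have hq : √(qq s) ≠ 0 := Real.sqrt_ne_zero'.mpr (qq_pos _)
      have h3 : 1 / √(qq s) * √(qq (‖u‖ ^ 2 - 1)) = 1 := by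
        rw [← hs]; field_simp
      rw [h3]; simp
  · have hv := hnd hd
    have hre := abs_re_lt hu9
    rw [abs_lt] at hre
    have hpos : 0 < u.re + 10 := by linarith [hre.1]
    have hw : ‖(chG d u v).1‖ = u.re + 10 := by
      rw [chG_false hd]
      change ‖((u.re + 10 : ℝ) : ℂ) * v‖ = _
      rw [norm_mul, Complex.norm_real, Real.norm_of_nonneg hpos.le, hv, mul_one]
    refine ⟨?_, ?_, ?_⟩
    · rw [← norm_ne_zero_iff, hw]; exact hpos.ne'
    · rw [chU_false hd, zz, hw, chG_false hd]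
      apply Complex.ext
      · simp
      · simp
    · rw [chV_false hd, hw, chG_false hd]
      change ((1 / (u.re + 10) : ℝ) : ℂ) * (((u.re + 10 : ℝ) : ℂ) * v) = v
      rw [← mul_assoc, ← Complex.ofReal_mul]
      have h3 : 1 / (u.re + 10) * (u.re + 10) = 1 := by field_simp
      rw [h3]; simp

end C1

theorem stmt_C1 (_hG4 : Stmt_G4) (hG6 : Stmt_G6) : Stmt_C1 :=
  ⟨C1.qq_pos, C1.contDiff_qq, fun _ h => C1.qq_of_le h, fun _ h => C1.qq_of_ge h, fun d =>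
    ⟨C1.isOpen_chDom hG6 d, (C1.contDiffOn_chU d).mono (C1.chDom_subset d),
      (C1.contDiffOn_chV d).mono (C1.chDom_subset d), fun _ he => C1.maps he,
      fun _ he => C1.left_inv he, fun _ hx => C1.right_inv hG6 hx, C1.contDiffOn_chG d⟩⟩

end Pool.CX
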