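import Pool.Agent.Work.MP_727c87_cx.E1.Flag
import Pool.Agent.Work.MP_727c87_cx.E1.GeoProofs
import Pool.Agent.Work.MP_727c87_cx.E1.C1

/-!
# Block AK (helper45): the anchors and the closed kites
-/

open Set Complex ComplexConjugate Bundle Topology
open scoped ContDiff NNReal Manifold unitInterval ENNReal
open Pool.Agent.Work.MP_bc4532_gt (ClosedRiemannianManifold)

noncomputable section

namespace Pool.CX

namespace AK

theorem im_neg (a b : ℂ) : (a * conj b).im = -(b * conj a).im := by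
  simp only [mul_im, conj_re, conj_im]
  ring

/-- a point of the kite is in the neighbourhood of the sector -/
theorem sec_of_kite {k : ZMod 12} {u : ℂ} (h : u ∈ kite k) : Sec k u := by
  obtain ⟨_, h1, h2⟩ := h
  right
  refine ⟨by linarith, ?_⟩
  rw [im_neg]
  linarith

theorem rr_nonneg : 0 ≤ rho / √tau2 :=
  div_nonneg (Real.sqrt_nonneg _) (Real.sqrt_nonneg _)

theorem mid_kite (hCO : Stmt_CO) (i : ZMod 12) : mid i ∈ kite i := by
  refine ⟨(hCO.1 i).1, ?_, ?_⟩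
  · have h : (mid i * conj (ctr i)).im = 0 := by
      have h1 : mid i * conj (ctr i) = ((rho / √tau2 * normSq (ctr i) : ℝ) : ℂ) := by
        rw [mid, mul_assoc, mul_conj, ofReal_mul]
      rw [h1, ofReal_im]
    rw [h]
  · have h1 : ctr (i + 1) * conj (mid i) =
        ((rho / √tau2 : ℝ) : ℂ) * (ctr (i + 1) * conj (ctr i)) := by
      rw [mid, map_mul, conj_ofReal]
      ring
    rw [h1, im_ofReal_mul, stmt_G1.2.2.1 i]
    have := rr_nonneg
    positivity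

theorem mid_succ_kite (hCO : Stmt_CO) (i : ZMod 12) : mid (i + 1) ∈ kite i := by
  refine ⟨(hCO.1 (i + 1)).1, ?_, ?_⟩
  · have h1 : mid (i + 1) * conj (ctr i) =
        ((rho / √tau2 : ℝ) : ℂ) * (ctr (i + 1) * conj (ctr i)) := by
      rw [mid]
      ring
    rw [h1, im_ofReal_mul, stmt_G1.2.2.1 i]
    have := rr_nonneg
    positivity
  · have h : (ctr (i + 1) * conj (mid (i + 1))).im = 0 := by
      have h1 : ctr (i + 1) * conj (mid (i + 1)) =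
          ((rho / √tau2 * normSq (ctr (i + 1)) : ℝ) : ℂ) := by
        rw [mid, map_mul, conj_ofReal, ofReal_mul, ← mul_conj]
        ring
      rw [h1, ofReal_im]
    rw [h]

theorem mid_loc (hCO : Stmt_CO) (d : Prop) (i : ZMod 12) : (mid i, (1 : ℂ)) ∈ Loc d := by
  obtain ⟨h1, h2, h3, h4⟩ := hCO.1 i
  have hG6 := stmt_G6
  refine ⟨hG6.2.2.2.1 h1, fun _ => norm_one, fun _ => ⟨?_, ?_⟩⟩
  · have h5 : (0 : ℝ) ≤ ‖mid i‖ := norm_nonneg _
    show 1 ≤ ‖mid i‖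
    nlinarith
  · show ‖(1 : ℂ)‖ ^ 2 * qq (‖mid i‖ ^ 2 - 1) = ‖mid i‖ ^ 2 - 1
    rw [norm_one, one_pow, one_mul, (stmt_C1 stmt_G4 stmt_G6).2.2.2.1 _ (by linarith)]

end AK

open AK in
theorem stmt_AK (hS2 : Stmt_S2) (hS3 : Stmt_S3) (hLC : Stmt_LC) (hCO : Stmt_CO) : Stmt_AK := by
  intro Mo ε Z
  obtain ⟨_, _, _, hPPo, hred, _, _, _⟩ := stmt_G6
  -- points of a chamber
  have key : ∀ (x : Z.M.Pt) (g : Mo.Q) (u v : ℂ), (u, v) ∈ Loc (g ∈ Mo.D) →
      (Z.e x : Amb Mo.Q) = Psi Mo.L g u v →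
      0 < ((Z.e x : Amb Mo.Q) g).1 ∧ pos g (Z.e x : Amb Mo.Q) = u := by
    intro x g u v h1 h2
    obtain ⟨a, b, _⟩ := (hLC Mo (Z.e x : Amb Mo.Q) (Z.e x).2).2.1 g u v h1 h2
    exact ⟨a, b⟩
  refine ⟨?_, ?_, ?_, ?_⟩
  · rintro f x ⟨u, v, h1, h2, h3⟩
    obtain ⟨a, b⟩ := key x f.1 u v h1 h3
    refine ⟨a, ?_⟩
    show Sec f.2 (pos f.1 (Z.e x : Amb Mo.Q))
    rw [b]
    exact sec_of_kite h2
  · intro m
    obtain ⟨g, u, v, h1, h2⟩ := (Z.e m).2
    obtain ⟨n, hn⟩ := hred u h1.1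
    have hn' : mv n u ∈ PPo := hPPo hn
    have h3 := (hS2 Mo g u v h1.1).2.2.2.1 n hn'
    have h4 : (mv n u, v) ∈ Loc (nbr Mo.L g n ∈ Mo.D) := by
      by_cases hnn : n = none
      · subst hnn
        exact h1
      · exact hS3 _ _ n u v h1 hnn hn'
    obtain ⟨i, hi1, hi2⟩ := stmt_G2.2 (mv n u)
    exact ⟨(nbr Mo.L g n, i), mv n u, v, h4, ⟨hn, hi1, hi2⟩, h2.trans h3.symm⟩
  · rintro q x ⟨u, v, h1, _, h3⟩
    exact (key x q u v h1 h3).1
  · have hmem : ∀ f : Mo.F, Psi Mo.L f.1 (mid f.2) 1 ∈ Mo.SS := fun f =>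
      ⟨f.1, mid f.2, 1, mid_loc hCO _ _, rfl⟩
    have hanc : ∀ f : Mo.F, (Z.e (Z.e.symm ⟨Psi Mo.L f.1 (mid f.2) 1, hmem f⟩) : Amb Mo.Q) =
        Psi Mo.L f.1 (mid f.2) 1 := by
      intro f
      rw [Homeomorph.apply_symm_apply]
    refine ⟨fun f => Z.e.symm ⟨Psi Mo.L f.1 (mid f.2) 1, hmem f⟩, hanc, ?_, ?_, ?_⟩
    · intro f
      exact ⟨mid f.2, 1, mid_loc hCO _ _, mid_kite hCO _, hanc f⟩
    · intro f
      exact ⟨mid (f.2 + 1), 1, mid_loc hCO _ _, mid_succ_kite hCO _, hanc (Mo.fr f)⟩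
    · intro f
      have h1 := (hS2 Mo f.1 (mid f.2) 1 (hPPo (hCO.1 f.2).1)).2.2.2.1 (some (f.2, false))
        (by
          show R f.2 (mid f.2) ∈ PPo
          rw [(hCO.1 f.2).2.2.1]
          exact hPPo (hCO.1 f.2).1)
      have h2 : Psi Mo.L (Mo.fa f).1 (mid (Mo.fa f).2) 1 = Psi Mo.L f.1 (mid f.2) 1 := by
        have h3 : mv (some (f.2, false)) (mid f.2) = mid f.2 := (hCO.1 f.2).2.2.1
        rw [h3] at h1
        exact h1
      show Z.e.symm _ = Z.e.symm _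
      congr 1
      exact Subtype.ext h2

end Pool.CX
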