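import Pool.Agent.Work.MP_727c87_cx.E1.C1

/-!
# Block C2: the charts of the manifold of a model
-/

set_option autoImplicit false

open Set Complex ComplexConjugate
open scoped ContDiff

noncomputable section

namespace Pool.CX

namespace C2

theorem contDiff_ofReal_comp {E : Type*} [NormedAddCommGroup E] [NormedSpace ℝ E] {f : E → ℝ}
    (h : ContDiff ℝ ∞ f) : ContDiff ℝ ∞ (fun x => ((f x : ℝ) : ℂ)) :=
  Complex.ofRealCLM.contDiff.comp h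

section smooth

variable {E : Type*} [NormedAddCommGroup E] [NormedSpace ℝ E] {f g : E → ℂ} {s : Set E}

/-- the blocks are smooth functions of `(u, v)` -/
theorem contDiffOn_blk (hG4 : Stmt_G4) (hf : ContDiffOn ℝ ∞ f s) (hg : ContDiffOn ℝ ∞ g s) :
    ContDiffOn ℝ ∞ (fun x => blk (f x) (g x)) s := by
  have hb : ContDiffOn ℝ ∞ (fun x => beta (f x)) s := hG4.2.2.2.1.comp_contDiffOn hf
  exact hb.prodMk (((C1.contDiff_ofReal_comp hb).mul hf).prodMk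
    ((C1.contDiff_ofReal_comp hb).mul hg))

/-- the point with the coordinates `(u, v)` is a smooth function of `(u, v)` -/
theorem contDiffOn_Psi (hG4 : Stmt_G4) {Q : Type} [Fintype Q] [DecidableEq Q]
    (L : Pool.CS.LS G12 Q) (q : Q) (hf : ContDiffOn ℝ ∞ f s) (hg : ContDiffOn ℝ ∞ g s) :
    ContDiffOn ℝ ∞ (fun x => Psi L q (f x) (g x)) s := by
  rw [contDiffOn_pi]
  intro h
  have hsum : (fun x => Psi L q (f x) (g x) h) =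
      fun x => ∑ n : Nbr, if nbr L q n = h then blk (mv n (f x)) (g x) else 0 := rfl
  rw [hsum]
  apply ContDiffOn.sum
  intro n _
  by_cases hn : nbr L q n = h
  · simp only [if_pos hn]
    exact contDiffOn_blk hG4 ((hG4.2.2.1 n).comp_contDiffOn hf) hg
  · simp only [if_neg hn]
    exact contDiffOn_const

theorem contDiffOn_chG_of (hC1 : Stmt_C1) (d : Prop) (hf : ContDiffOn ℝ ∞ f s)
    (hg : ContDiffOn ℝ ∞ g s) (h0 : ∀ x ∈ s, d → f x ≠ 0) :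
    ContDiffOn ℝ ∞ (fun x => chG d (f x) (g x)) s := by
  obtain ⟨_, _, _, _, _, _, hG⟩ := hC1.2.2.2.2 d
  exact ContDiffOn.comp (g := fun x : ℂ × ℂ => chG d x.1 x.2) (f := fun x => (f x, g x)) hG
    (hf.prodMk hg) (fun x hx => h0 x hx)

end smooth

theorem ne_zero_of_loc {d : Prop} {x : ℂ × ℂ} (hx : x ∈ Loc d) (hd : d) : x.1 ≠ 0 := by
  have h := (hx.2.2 hd).1
  intro h0
  rw [h0, norm_zero] at h
  norm_num at h

variable (Mo : Model)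

theorem nonempty (hG6 : Stmt_G6) : Mo.SS.Nonempty := by
  obtain ⟨g⟩ := Mo.nonempty
  have h1 : (1 : ℂ) ∈ PPo := by
    intro j
    have h := hG6.2.2.2.2.2.2.2 1 (by simp) j
    linarith
  classical
  refine ⟨_, g, 1, if g ∈ Mo.D then 0 else 1, ⟨h1, ?_, ?_⟩, rfl⟩
  · intro hd
    change ‖(if g ∈ Mo.D then 0 else 1 : ℂ)‖ = 1
    rw [if_neg hd]; simp
  · intro hd
    change 1 ≤ ‖(1 : ℂ)‖ ∧ ‖(if g ∈ Mo.D then 0 else 1 : ℂ)‖ ^ 2 * qq (‖(1 : ℂ)‖ ^ 2 - 1) =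
      ‖(1 : ℂ)‖ ^ 2 - 1
    rw [if_pos hd]; simp

theorem isOpen_VV (g : Mo.Q) : IsOpen (Mo.VV g) := by
  have hc : Continuous (fun p : Amb Mo.Q => p g) := continuous_apply g
  have h1 : IsOpen {p : Amb Mo.Q | 0 < (p g).1} :=
    isOpen_lt continuous_const (continuous_fst.comp hc)
  by_cases hd : g ∈ Mo.D
  · have h2 : IsOpen {p : Amb Mo.Q | (p g).2.1 ≠ 0} :=
      isOpen_ne_fun (continuous_fst.comp (continuous_snd.comp hc)) continuous_const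
    have h3 : Mo.VV g = {p : Amb Mo.Q | 0 < (p g).1} ∩ {p : Amb Mo.Q | (p g).2.1 ≠ 0} := by
      ext p
      exact ⟨fun h => ⟨h.1, h.2 hd⟩, fun h => ⟨h.1, fun _ => h.2⟩⟩
    rw [h3]
    exact h1.inter h2
  · have h3 : Mo.VV g = {p : Amb Mo.Q | 0 < (p g).1} := by
      ext p
      exact ⟨fun h => h.1, fun h => ⟨h, fun h' => absurd h' hd⟩⟩
    rw [h3]
    exact h1

theorem contDiffOn_PhiM (hG4 : Stmt_G4) (hC1 : Stmt_C1) (g : Mo.Q) :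
    ContDiffOn ℝ ∞ (Mo.PhiM g) (chDom (g ∈ Mo.D)) := by
  obtain ⟨_, hU, hV, _⟩ := hC1.2.2.2.2 (g ∈ Mo.D)
  exact contDiffOn_Psi hG4 Mo.L g hU hV

theorem contDiffOn_GG (hC1 : Stmt_C1) (g : Mo.Q) : ContDiffOn ℝ ∞ (Mo.GG g) (Mo.VV g) := by
  have hc : ContDiff ℝ ∞ (fun p : Amb Mo.Q => p g) := contDiff_apply ℝ (ℝ × ℂ × ℂ) g
  have h1 : ContDiff ℝ ∞ (fun p : Amb Mo.Q => (p g).1) := hc.fst
  have h2 : ContDiff ℝ ∞ (fun p : Amb Mo.Q => (p g).2.1) := hc.snd.fst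
  have h3 : ContDiff ℝ ∞ (fun p : Amb Mo.Q => (p g).2.2) := hc.snd.snd
  have h4 : ContDiffOn ℝ ∞ (fun p : Amb Mo.Q => (((p g).1 : ℂ))⁻¹) (Mo.VV g) := by
    refine ContDiffOn.inv (contDiff_ofReal_comp h1).contDiffOn ?_
    intro p hp
    exact_mod_cast hp.1.ne'
  have h5 : ∀ p ∈ Mo.VV g, g ∈ Mo.D → (((p g).1 : ℂ))⁻¹ * (p g).2.1 ≠ 0 := by
    intro p hp hd
    refine mul_ne_zero ?_ (hp.2 hd)
    have : ((p g).1 : ℂ) ≠ 0 := by exact_mod_cast hp.1.ne'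
    exact inv_ne_zero this
  exact contDiffOn_chG_of hC1 (g ∈ Mo.D) (h4.mul h2.contDiffOn) (h4.mul h3.contDiffOn) h5

theorem GG_Psi (hG4 : Stmt_G4) (hS2 : Stmt_S2) (g : Mo.Q) {u v : ℂ} (hu : u ∈ PPo) :
    Mo.GG g (Psi Mo.L g u v) = chG (g ∈ Mo.D) u v := by
  have h1 := (hS2 Mo g u v hu).1
  have hb : ((beta u : ℝ) : ℂ) ≠ 0 := by
    exact_mod_cast ((hG4.2.2.2.2.2.2.2 u).mpr hu).ne'
  unfold Model.GG
  rw [h1]
  change chG (g ∈ Mo.D) (((beta u : ℝ) : ℂ)⁻¹ * ((beta u : ℂ) * u))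
    (((beta u : ℝ) : ℂ)⁻¹ * ((beta u : ℂ) * v)) = _
  rw [inv_mul_cancel_left₀ hb, inv_mul_cancel_left₀ hb]

theorem Psi_mem_VV (hG4 : Stmt_G4) (hS2 : Stmt_S2) (g : Mo.Q) {u v : ℂ}
    (h : (u, v) ∈ Loc (g ∈ Mo.D)) : Psi Mo.L g u v ∈ Mo.VV g := by
  have hu : u ∈ PPo := h.1
  have h1 := (hS2 Mo g u v hu).1
  have hb : 0 < beta u := (hG4.2.2.2.2.2.2.2 u).mpr hu
  constructor
  · rw [h1]
    exact hb
  · intro hd
    rw [h1]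
    change (beta u : ℂ) * u ≠ 0
    refine mul_ne_zero (by exact_mod_cast hb.ne') (ne_zero_of_loc h hd)

theorem change_chamber (hS2 : Stmt_S2) (hS3 : Stmt_S3) {p : Amb Mo.Q} (hp : p ∈ Mo.SS) {g : Mo.Q}
    (hg : 0 < (p g).1) : ∃ u v : ℂ, (u, v) ∈ Loc (g ∈ Mo.D) ∧ p = Psi Mo.L g u v := by
  obtain ⟨g', u, v, hloc, rfl⟩ := hp
  obtain ⟨_, _, _, h4, h5⟩ := hS2 Mo g' u v hloc.1
  obtain ⟨n, hn, hm⟩ := h5 g hg
  by_cases h0 : n = none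
  · subst h0
    have hg' : g' = g := hn
    subst hg'
    exact ⟨u, v, hloc, rfl⟩
  · refine ⟨mv n u, v, hS3 _ _ n u v hloc h0 hm, ?_⟩
    rw [← hn]
    exact (h4 n hm).symm

theorem image (hG4 : Stmt_G4) (hS2 : Stmt_S2) (hS3 : Stmt_S3) (hC1 : Stmt_C1) (g : Mo.Q) :
    Mo.SS ∩ Mo.VV g = Mo.PhiM g '' chDom (g ∈ Mo.D) := by
  obtain ⟨_, _, _, hmaps, _, hsurj, _⟩ := hC1.2.2.2.2 (g ∈ Mo.D)
  ext p
  constructor
  · rintro ⟨hp, hV⟩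
    obtain ⟨u, v, hloc, rfl⟩ := change_chamber Mo hS2 hS3 hp hV.1
    obtain ⟨h1, h2, h3⟩ := hsurj (u, v) hloc
    refine ⟨_, h1, ?_⟩
    unfold Model.PhiM
    rw [h2, h3]
  · rintro ⟨e, he, rfl⟩
    exact ⟨⟨g, _, _, hmaps e he, rfl⟩, Psi_mem_VV Mo hG4 hS2 g (hmaps e he)⟩

end C2

theorem stmt_C2 (hG4 : Stmt_G4) (hG6 : Stmt_G6) (_hS1 : Stmt_S1) (hS2 : Stmt_S2) (hS3 : Stmt_S3)
    (hC1 : Stmt_C1) : Stmt_C2 := by
  intro Mo
  refine ⟨C2.nonempty Mo hG6, C2.isOpen_VV Mo, C2.contDiffOn_PhiM Mo hG4 hC1,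
    C2.contDiffOn_GG Mo hC1, ?_, C2.image Mo hG4 hS2 hS3 hC1, ?_⟩
  · intro g e he
    obtain ⟨_, _, _, _, hleft, _⟩ := hC1.2.2.2.2 (g ∈ Mo.D)
    unfold Model.PhiM
    rw [C2.GG_Psi Mo hG4 hS2 g he.2]
    exact hleft e he
  · rintro p ⟨g, u, v, hloc, rfl⟩
    exact ⟨g, C2.Psi_mem_VV Mo hG4 hS2 g hloc⟩

end Pool.CX
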