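import Pool.Agent.Work.MP_727c87_cx.E1.Met
import Pool.Agent.Work.MP_727c87_cx.E1.GeoProofs

/-!
# Block C3: the subset `SS` is compact and connected
-/

set_option autoImplicit false

open Set Complex ComplexConjugate
open scoped ContDiff

noncomputable section

namespace Pool.CX

namespace C3

/-- the coordinates of the points of a closed chamber -/
def KK (d : Prop) : Set (ℂ × ℂ) := {x | x ∈ Loc d ∧ x.1 ∈ PP}

theorem mem_KK (d : Prop) (x : ℂ × ℂ) : x ∈ KK d ↔ x.1 ∈ PP ∧ (¬ d → ‖x.2‖ = 1) ∧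
    (d → 1 ≤ ‖x.1‖ ∧ ‖x.2‖ ^ 2 * qq (‖x.1‖ ^ 2 - 1) = ‖x.1‖ ^ 2 - 1) := by
  constructor
  · rintro ⟨⟨_, h2, h3⟩, h4⟩
    exact ⟨h4, h2, h3⟩
  · rintro ⟨h1, h2, h3⟩
    exact ⟨⟨PP_subset_PPo h1, h2, h3⟩, h1⟩

theorem one_le_qq {s : ℝ} (h1 : ∀ s, s ≤ 1 → qq s = 1) : 1 ≤ qq s := by
  rcases le_total s 1 with h | h
  · rw [h1 s h]
  · unfold qq
    have h2 := Real.smoothTransition.nonneg (s - 1)
    nlinarith

theorem continuous_qq (h : ContDiff ℝ ∞ qq) : Continuous qq := h.continuous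

theorem isClosed_KK (hq : Continuous qq) (d : Prop) : IsClosed (KK d) := by
  have h1 : IsClosed {x : ℂ × ℂ | x.1 ∈ PP} := isCompact_PP.isClosed.preimage continuous_fst
  have h2 : IsClosed {x : ℂ × ℂ | ¬ d → ‖x.2‖ = 1} := by
    by_cases hd : d
    · have : {x : ℂ × ℂ | ¬ d → ‖x.2‖ = 1} = univ := by
        ext x
        simp [hd]
      rw [this]
      exact isClosed_univ
    · have : {x : ℂ × ℂ | ¬ d → ‖x.2‖ = 1} = {x : ℂ × ℂ | ‖x.2‖ = 1} := by
        ext x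
        simp [hd]
      rw [this]
      exact isClosed_eq (by fun_prop) continuous_const
  have h3 : IsClosed {x : ℂ × ℂ | d → 1 ≤ ‖x.1‖ ∧ ‖x.2‖ ^ 2 * qq (‖x.1‖ ^ 2 - 1) =
      ‖x.1‖ ^ 2 - 1} := by
    by_cases hd : d
    · have : {x : ℂ × ℂ | d → 1 ≤ ‖x.1‖ ∧ ‖x.2‖ ^ 2 * qq (‖x.1‖ ^ 2 - 1) = ‖x.1‖ ^ 2 - 1} =
          {x : ℂ × ℂ | 1 ≤ ‖x.1‖} ∩
            {x : ℂ × ℂ | ‖x.2‖ ^ 2 * qq (‖x.1‖ ^ 2 - 1) = ‖x.1‖ ^ 2 - 1} := by
        ext x
        simp [hd]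
      rw [this]
      refine (isClosed_le continuous_const (by fun_prop)).inter (isClosed_eq ?_ (by fun_prop))
      exact (by fun_prop : Continuous fun x : ℂ × ℂ => ‖x.2‖ ^ 2).mul
        (hq.comp (by fun_prop))
    · have : {x : ℂ × ℂ | d → 1 ≤ ‖x.1‖ ∧ ‖x.2‖ ^ 2 * qq (‖x.1‖ ^ 2 - 1) = ‖x.1‖ ^ 2 - 1} =
          univ := by
        ext x
        simp [hd]
      rw [this]
      exact isClosed_univ
  have e : KK d = ({x : ℂ × ℂ | x.1 ∈ PP} ∩ {x : ℂ × ℂ | ¬ d → ‖x.2‖ = 1}) ∩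
      {x : ℂ × ℂ | d → 1 ≤ ‖x.1‖ ∧ ‖x.2‖ ^ 2 * qq (‖x.1‖ ^ 2 - 1) = ‖x.1‖ ^ 2 - 1} := by
    ext x
    rw [mem_KK]
    constructor
    · rintro ⟨a, b, c⟩
      exact ⟨⟨a, b⟩, c⟩
    · rintro ⟨⟨a, b⟩, c⟩
      exact ⟨a, b, c⟩
  rw [e]
  exact (h1.inter h2).inter h3

theorem isCompact_KK (hq : Continuous qq) (h1 : ∀ s, s ≤ 1 → qq s = 1) (d : Prop) :
    IsCompact (KK d) := by
  refine IsCompact.of_isClosed_subset
    ((isCompact_closedBall (0 : ℂ) 9).prod (isCompact_closedBall (0 : ℂ) 9))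
    (isClosed_KK hq d) ?_
  intro x hx
  rw [mem_KK] at hx
  obtain ⟨ha, hb, hc⟩ := hx
  have h9 := PPo_bound (PP_subset_PPo ha)
  refine ⟨?_, ?_⟩
  · rw [mem_closedBall_zero_iff]
    exact h9.le
  · rw [mem_closedBall_zero_iff]
    by_cases hd : d
    · obtain ⟨hc1, hc2⟩ := hc hd
      have h2 : 1 ≤ qq (‖x.1‖ ^ 2 - 1) := one_le_qq h1
      have h3 : ‖x.2‖ ^ 2 ≤ ‖x.1‖ ^ 2 - 1 := by
        rw [← hc2]
        nlinarith [sq_nonneg ‖x.2‖]
      have h4 : 0 ≤ ‖x.2‖ := norm_nonneg _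
      have h5 : 0 ≤ ‖x.1‖ := norm_nonneg _
      nlinarith
    · rw [hb hd]
      norm_num

theorem continuous_Psi {Q : Type} [DecidableEq Q] (L : Pool.CS.LS G12 Q) (g : Q) :
    Continuous (fun x : ℂ × ℂ => Psi L g x.1 x.2) := by
  unfold Psi
  refine continuous_pi fun h => continuous_finsetSum _ fun n _ => ?_
  split_ifs
  · have h1 : Continuous fun x : ℂ × ℂ => mv n x.1 := (contDiff_mv n).continuous.comp continuous_fst
    have h2 : Continuous fun x : ℂ × ℂ => beta (mv n x.1) := contDiff_beta.continuous.comp h1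
    have h3 : Continuous fun x : ℂ × ℂ => ((beta (mv n x.1) : ℝ) : ℂ) :=
      continuous_ofReal.comp h2
    unfold blk
    exact h2.prodMk ((h3.mul h1).prodMk (h3.mul continuous_snd))
  · exact continuous_const

/-! ### Connectedness -/

theorem one_lt_rank : 1 < Module.rank ℝ ℂ := by
  rw [Complex.rank_real_complex]
  norm_num

theorem isPreconnected_circle : IsPreconnected (Metric.sphere (0 : ℂ) 1) :=
  isPreconnected_sphere one_lt_rank 0 1

theorem small_mem_PP {u : ℂ} (hu : ‖u‖ ^ 2 ≤ 3) : u ∈ PP := fun j => by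
  have := lv_large hu j
  linarith

theorem smul_mem_PP {u : ℂ} (hu : u ∈ PP) {t : ℝ} (h0 : 0 ≤ t) (h1 : t ≤ 1) :
    (t : ℂ) * u ∈ PP := stmt_G6.2.2.2.2.2.1 u hu t h0 h1

theorem isPreconnected_PP : IsPreconnected PP := by
  have h : StarConvex ℝ (0 : ℂ) PP := by
    intro y hy a b ha hb hab
    rw [smul_zero, zero_add]
    have : b • y = (b : ℂ) * y := by simp
    rw [this]
    exact smul_mem_PP hy hb (by linarith)
  exact (h.isPathConnected (small_mem_PP (by simp))).isConnected.isPreconnected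

theorem isPreconnected_KK_false {d : Prop} (hd : ¬ d) : IsPreconnected (KK d) := by
  have e : KK d = PP ×ˢ Metric.sphere (0 : ℂ) 1 := by
    ext x
    rw [mem_KK]
    constructor
    · rintro ⟨a, b, _⟩
      exact ⟨a, by rw [mem_sphere_zero_iff_norm]; exact b hd⟩
    · rintro ⟨a, b⟩
      exact ⟨a, fun _ => by rwa [mem_sphere_zero_iff_norm] at b, fun h => absurd h hd⟩
  rw [e]
  exact isPreconnected_PP.prod isPreconnected_circle

/-- directions and heights of the points of a closed defect chamber -/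
def TT : Set (ℂ × ℂ) := {e | ‖e.1‖ = 1 ∧ ((√(1 + ‖e.2‖ ^ 2) : ℝ) : ℂ) * e.1 ∈ PP}

theorem isPreconnected_TT : IsPreconnected TT := by
  have h0 : ∀ w : ℂ, ‖w‖ = 1 → (w, (0 : ℂ)) ∈ TT := by
    intro w hw
    refine ⟨hw, ?_⟩
    have : ((√(1 + ‖((w, (0 : ℂ)) : ℂ × ℂ).2‖ ^ 2) : ℝ) : ℂ) * ((w, (0 : ℂ)) : ℂ × ℂ).1 = w := by
      simp
    rw [this]
    exact small_mem_PP (by rw [hw]; norm_num)
  have hs : ∀ (w z : ℂ) (t : ℝ), (w, z) ∈ TT → 0 ≤ t → t ≤ 1 → (w, (t : ℂ) * z) ∈ TT := by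
    rintro w z t ⟨h1, h2⟩ ht0 ht1
    refine ⟨h1, ?_⟩
    simp only at h1 h2 ⊢
    have hz : 0 < 1 + ‖z‖ ^ 2 := by positivity
    have hp : 0 < √(1 + ‖z‖ ^ 2) := Real.sqrt_pos.mpr hz
    have e : ((√(1 + ‖(t : ℂ) * z‖ ^ 2) : ℝ) : ℂ) * w =
        ((√(1 + ‖(t : ℂ) * z‖ ^ 2) / √(1 + ‖z‖ ^ 2) : ℝ) : ℂ) * (((√(1 + ‖z‖ ^ 2) : ℝ) : ℂ) * w) := by
      rw [← mul_assoc, ← ofReal_mul, div_mul_cancel₀ _ hp.ne']
    rw [e]
    refine smul_mem_PP h2 (by positivity) ?_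
    rw [div_le_one hp]
    apply Real.sqrt_le_sqrt
    have : ‖(t : ℂ) * z‖ ≤ ‖z‖ := by
      rw [norm_mul, norm_real, Real.norm_of_nonneg ht0]
      nlinarith [norm_nonneg z]
    have h3 := norm_nonneg ((t : ℂ) * z)
    nlinarith
  refine isPreconnected_of_forall ((1 : ℂ), (0 : ℂ)) ?_
  rintro ⟨w, z⟩ hy
  refine ⟨(Metric.sphere (0 : ℂ) 1 ×ˢ {0}) ∪ ((fun t : ℝ => (w, (t : ℂ) * z)) '' Icc 0 1),
    ?_, ?_, ?_, ?_⟩
  · rintro x (⟨hx1, hx2⟩ | ⟨t, ⟨ht0, ht1⟩, rfl⟩)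
    · obtain ⟨x1, x2⟩ := x
      simp only [mem_singleton_iff] at hx2
      subst hx2
      exact h0 x1 (by simpa using hx1)
    · exact hs w z t hy ht0 ht1
  · left
    exact ⟨by simp, by simp⟩
  · right
    exact ⟨1, ⟨zero_le_one, le_rfl⟩, by simp⟩
  · refine IsPreconnected.union (w, (0 : ℂ)) ?_ ?_ ?_ ?_
    · exact ⟨by rw [mem_sphere_zero_iff_norm]; exact hy.1, by simp⟩
    · exact ⟨0, ⟨le_rfl, zero_le_one⟩, by simp⟩
    · exact isPreconnected_circle.prod isPreconnected_singleton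
    · refine isPreconnected_Icc.image _ ?_
      exact (by fun_prop : Continuous fun t : ℝ => (w, (t : ℂ) * z)).continuousOn

theorem isPreconnected_KK_true (hq : Continuous qq) (hpos : ∀ s, 0 < qq s) {d : Prop} (hd : d) :
    IsPreconnected (KK d) := by
  have e : KK d = (fun e : ℂ × ℂ => (((√(1 + ‖e.2‖ ^ 2) : ℝ) : ℂ) * e.1,
      ((1 / √(qq (‖e.2‖ ^ 2)) : ℝ) : ℂ) * e.2)) '' TT := by
    ext ⟨u, v⟩
    rw [mem_KK]
    constructor
    · rintro ⟨ha, _, hc⟩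
      obtain ⟨hc1, hc2⟩ := hc hd
      simp only at ha hc1 hc2
      have hu0 : 0 < ‖u‖ := by linarith
      have hQ : 0 < qq (‖u‖ ^ 2 - 1) := hpos _
      have hsQ : 0 < √(qq (‖u‖ ^ 2 - 1)) := Real.sqrt_pos.mpr hQ
      have hz : ‖((√(qq (‖u‖ ^ 2 - 1)) : ℝ) : ℂ) * v‖ ^ 2 = ‖u‖ ^ 2 - 1 := by
        rw [norm_mul, norm_real, Real.norm_of_nonneg hsQ.le, mul_pow, Real.sq_sqrt hQ.le,
          mul_comm, hc2]
      have hsu : √(1 + (‖u‖ ^ 2 - 1)) = ‖u‖ := by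
        rw [add_sub_cancel, Real.sqrt_sq hu0.le]
      refine ⟨(((1 / ‖u‖ : ℝ) : ℂ) * u, ((√(qq (‖u‖ ^ 2 - 1)) : ℝ) : ℂ) * v), ⟨?_, ?_⟩, ?_⟩
      · simp only
        rw [norm_mul, norm_real, Real.norm_of_nonneg (by positivity)]
        field_simp
      · simp only
        rw [hz, hsu, ← mul_assoc, ← ofReal_mul, mul_one_div_cancel hu0.ne', ofReal_one, one_mul]
        exact ha
      · simp only
        rw [hz, hsu, ← mul_assoc, ← ofReal_mul, mul_one_div_cancel hu0.ne', ofReal_one, one_mul,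
          ← mul_assoc, ← ofReal_mul, one_div_mul_cancel hsQ.ne', ofReal_one, one_mul]
    · rintro ⟨⟨w, z⟩, ⟨h1, h2⟩, h3⟩
      simp only [Prod.mk.injEq] at h1 h2 h3
      obtain ⟨rfl, rfl⟩ := h3
      have hz : 0 < 1 + ‖z‖ ^ 2 := by positivity
      have hp : 0 < √(1 + ‖z‖ ^ 2) := Real.sqrt_pos.mpr hz
      have hQ : 0 < qq (‖z‖ ^ 2) := hpos _
      have hsQ : 0 < √(qq (‖z‖ ^ 2)) := Real.sqrt_pos.mpr hQ
      have hn : ‖((√(1 + ‖z‖ ^ 2) : ℝ) : ℂ) * w‖ = √(1 + ‖z‖ ^ 2) := by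
        rw [norm_mul, norm_real, Real.norm_of_nonneg hp.le, h1, mul_one]
      refine ⟨h2, fun h => absurd hd h, fun _ => ?_⟩
      simp only
      rw [hn, Real.sq_sqrt hz.le, add_sub_cancel_left]
      refine ⟨?_, ?_⟩
      · rw [Real.one_le_sqrt]
        nlinarith [sq_nonneg ‖z‖]
      · rw [norm_mul, norm_real, Real.norm_of_nonneg (by positivity), mul_pow, div_pow,
          Real.sq_sqrt hQ.le]
        field_simp
  rw [e]
  refine isPreconnected_TT.image _ (Continuous.continuousOn ?_)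
  refine Continuous.prodMk (by fun_prop) (Continuous.mul ?_ continuous_snd)
  refine continuous_ofReal.comp (Continuous.div continuous_const ?_ ?_)
  · exact Real.continuous_sqrt.comp (hq.comp (by fun_prop))
  · intro x
    exact (Real.sqrt_pos.mpr (hpos _)).ne'

theorem isPreconnected_KK (hq : Continuous qq) (hpos : ∀ s, 0 < qq s) (d : Prop) :
    IsPreconnected (KK d) := by
  by_cases hd : d
  · exact isPreconnected_KK_true hq hpos hd
  · exact isPreconnected_KK_false hd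

/-- the midpoint of a side -/
theorem mid_props (j : ZMod 12) : mid j ∈ PP ∧ lv j (mid j) = 0 ∧ 3 ≤ ‖mid j‖ ^ 2 := by
  have ht := tau2_pos
  have hst : 0 < √tau2 := Real.sqrt_pos.mpr ht
  have hr := rho_pos
  have hn : ‖mid j‖ = rho / √tau2 := by
    unfold mid
    rw [norm_mul, norm_ctr, mul_one, norm_real, Real.norm_of_nonneg (by positivity)]
  have hn2 : ‖mid j‖ ^ 2 = rho ^ 2 / tau2 := by
    rw [hn, div_pow, Real.sq_sqrt ht.le]
  have hs : √(1 + ‖mid j‖ ^ 2) = 1 / √tau2 := by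
    have : 1 + ‖mid j‖ ^ 2 = 1 / tau2 := by
      rw [hn2, eq_div_iff ht.ne', add_mul, div_mul_cancel₀ _ ht.ne', tau2_eq]
      ring
    rw [this, Real.sqrt_div zero_le_one, Real.sqrt_one]
  have hre : ∀ k, (mid j * conj (ctr k)).re = rho / √tau2 * (ctr j * conj (ctr k)).re := by
    intro k
    unfold mid
    rw [mul_assoc, re_ofReal_mul]
  have hlv : ∀ k, lv k (mid j) = 1 / √tau2 * (1 - (ctr j * conj (ctr k)).re) := by
    intro k
    unfold lv
    rw [hs, hre]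
    field_simp
  refine ⟨fun k => ?_, ?_, ?_⟩
  · rw [hlv]
    have h1 : (ctr j * conj (ctr k)).re ≤ 1 := by
      refine (re_le_norm _).trans ?_
      rw [norm_mul, norm_ctr, RCLike.norm_conj, norm_ctr, one_mul]
    have : 0 ≤ 1 - (ctr j * conj (ctr k)).re := by linarith
    positivity
  · rw [hlv, dot_self]
    ring
  · rw [hn2, le_div_iff₀ ht]
    linarith [tau2_lt, lt_rho_sq]

end C3

open C3

theorem stmt_C3 (_hG3 : Stmt_G3) (_hG4 : Stmt_G4) (hG6 : Stmt_G6) (_hS1 : Stmt_S1)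
    (hS2 : Stmt_S2) (hS3 : Stmt_S3) (hC1 : Stmt_C1) : Stmt_C3 := by
  intro Mo
  obtain ⟨hpos, hsm, hq1, hq2, -⟩ := hC1
  have hqc : Continuous qq := hsm.continuous
  set A : Mo.Q → Set (Amb Mo.Q) := fun g => (fun x : ℂ × ℂ => Psi Mo.L g x.1 x.2) '' KK (g ∈ Mo.D)
    with hA
  have hSS : Mo.SS = ⋃ g, A g := by
    ext p
    rw [mem_iUnion]
    constructor
    · rintro ⟨g, u, v, hL, rfl⟩
      obtain ⟨n, hn⟩ := hG6.2.2.2.2.1 u hL.1
      by_cases h0 : n = none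
      · subst h0
        exact ⟨g, (u, v), ⟨hL, hn⟩, rfl⟩
      · have h1 : mv n u ∈ PPo := PP_subset_PPo hn
        refine ⟨nbr Mo.L g n, (mv n u, v), ⟨hS3 _ _ n u v hL h0 h1, hn⟩, ?_⟩
        exact (hS2 Mo g u v hL.1).2.2.2.1 n h1
    · rintro ⟨g, ⟨u, v⟩, ⟨hL, _⟩, rfl⟩
      exact ⟨g, u, v, hL, rfl⟩
  have hint : ∀ (g : Mo.Q) (j : ZMod 12), (A g ∩ A (Mo.L.τ j g)).Nonempty := by
    intro g j
    obtain ⟨h1, h2, h3⟩ := mid_props j
    have hKK : ∀ d : Prop, (mid j, (1 : ℂ)) ∈ KK d := by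
      intro d
      rw [mem_KK]
      refine ⟨h1, fun _ => by simp, fun _ => ⟨?_, ?_⟩⟩
      · simp only
        nlinarith [norm_nonneg (mid j)]
      · simp only
        rw [hq2 _ (by linarith)]
        simp
    have hR : R j (mid j) = mid j := by
      unfold R
      rw [h2]
      simp
    refine ⟨Psi Mo.L g (mid j) 1, ⟨(mid j, 1), hKK _, rfl⟩, ⟨(mid j, 1), hKK _, ?_⟩⟩
    have h4 := (hS2 Mo g (mid j) 1 (PP_subset_PPo h1)).2.2.2.1 (some (j, false))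
      (by
        change R j (mid j) ∈ PPo
        rw [hR]
        exact PP_subset_PPo h1)
    change Psi Mo.L (Mo.L.τ j g) (R j (mid j)) 1 = _ at h4
    rw [hR] at h4
    exact h4
  have hpre : ∀ g, IsPreconnected (A g) := fun g =>
    (isPreconnected_KK hqc hpos _).image _ (continuous_Psi Mo.L g).continuousOn
  refine ⟨?_, ?_, ?_⟩
  · rw [hSS]
    exact isCompact_iUnion fun g => (isCompact_KK hqc hq1 _).image (continuous_Psi Mo.L g)
  · obtain ⟨g⟩ := Mo.nonempty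
    obtain ⟨x, hx, _⟩ := hint g 0
    rw [hSS]
    exact ⟨x, mem_iUnion.mpr ⟨g, hx⟩⟩
  · rw [hSS]
    refine IsPreconnected.iUnion_of_reflTransGen hpre ?_
    intro g g'
    obtain ⟨l, hl⟩ := Mo.conn g g'
    have key : ∀ (l : List (ZMod 12)) (q : Mo.Q),
        Relation.ReflTransGen (fun i j => (A i ∩ A j).Nonempty) q (act Mo.L q l) := by
      intro l
      induction l with
      | nil => intro q; exact Relation.ReflTransGen.refl
      | cons a l ih =>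
        intro q
        exact Relation.ReflTransGen.head (hint q a) (ih (Mo.L.τ a q))
    rw [← hl]
    exact key l g

end Pool.CX
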