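import Pool.Agent.Work.MP_727c87_cx.E1.Met

/-!
# Block CO: the model functions at the points of a core
-/

open Set Complex ComplexConjugate
open scoped ContDiff

noncomputable section

namespace Pool.CX

namespace CO

theorem sqrt3_sq : (√3 : ℝ) ^ 2 = 3 := Real.sq_sqrt (by norm_num)

theorem sqrt3_nonneg : (0 : ℝ) ≤ √3 := Real.sqrt_nonneg _

theorem sqrt3_lt : (√3 : ℝ) < 1.7408 := by
  have h := sqrt3_sq
  have h0 := sqrt3_nonneg
  by_contra hc
  have h1 := not_lt.1 hc
  nlinarith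

theorem lt_sqrt3 : (1.73 : ℝ) < √3 := by
  have h := sqrt3_sq
  have h0 := sqrt3_nonneg
  by_contra hc
  have h1 := not_lt.1 hc
  nlinarith

theorem rho_sq : rho ^ 2 = √3 / 2 := by
  unfold rho
  exact Real.sq_sqrt (by have := sqrt3_nonneg; positivity)

theorem rho_pos : 0 < rho := by
  unfold rho
  have := lt_sqrt3
  exact Real.sqrt_pos.2 (by linarith)

theorem tau2_eq : tau2 = 1 - rho ^ 2 := by
  rw [rho_sq]
  rfl

theorem tau2_lb : (9 / 25 : ℝ) ^ 2 ≤ tau2 := by
  unfold tau2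
  have := sqrt3_lt
  linarith

theorem tau2_pos : 0 < tau2 := lt_of_lt_of_le (by norm_num) tau2_lb

/-- `τ` -/
def tau : ℝ := √tau2

theorem tau_sq : tau ^ 2 = tau2 := Real.sq_sqrt tau2_pos.le

theorem tau_pos : 0 < tau := Real.sqrt_pos.2 tau2_pos

theorem tau_lb : (9 / 25 : ℝ) ≤ tau := Real.le_sqrt_of_sq_le tau2_lb

theorem re_le (hG1 : Stmt_G1) {i k : ZMod 12} (h : i ≠ k) :
    (ctr i * conj (ctr k)).re ≤ rho ^ 2 := by
  obtain ⟨-, h2, -, h4, -⟩ := hG1
  rw [rho_sq]
  by_cases h1 : k = i + 1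
  · rw [h1, h2]
  · by_cases h3 : i = k + 1
    · have h5 : (ctr i * conj (ctr k)).re = (ctr k * conj (ctr i)).re := by
        simp only [mul_re, conj_re, conj_im]
        ring
      rw [h5, h3, h2]
    · have := h4 i k h h1 h3
      have h5 := lt_sqrt3
      linarith

theorem re_self (hG1 : Stmt_G1) (i : ZMod 12) : (ctr i * conj (ctr i)).re = 1 := by
  rw [mul_conj, normSq_eq_norm_sq, hG1.1 i]
  simp

theorem lv_smul (hG1 : Stmt_G1) (s : ℝ) (i k : ZMod 12) :
    lv k ((s : ℂ) * ctr i) = √(1 + s ^ 2) - s * (ctr i * conj (ctr k)).re / rho := by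
  unfold lv
  have h1 : ‖(s : ℂ) * ctr i‖ ^ 2 = s ^ 2 := by
    rw [norm_mul, hG1.1 i, mul_one, norm_real, Real.norm_eq_abs, sq_abs]
  have h2 : ((s : ℂ) * ctr i * conj (ctr k)).re = s * (ctr i * conj (ctr k)).re := by
    rw [mul_assoc, re_ofReal_mul]
  rw [h1, h2]

theorem lv_ne (hG1 : Stmt_G1) {s : ℝ} (hs : 0 ≤ s) {i k : ZMod 12} (h : k ≠ i) :
    9 / 25 ≤ lv k ((s : ℂ) * ctr i) := by
  rw [lv_smul hG1]
  have h1 := re_le hG1 (Ne.symm h)
  have h2 : s * (ctr i * conj (ctr k)).re / rho ≤ s * rho := by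
    rw [div_le_iff₀ rho_pos]
    have : s * (ctr i * conj (ctr k)).re ≤ s * rho ^ 2 := mul_le_mul_of_nonneg_left h1 hs
    calc s * (ctr i * conj (ctr k)).re ≤ s * rho ^ 2 := this
      _ = s * rho * rho := by ring
  have h3 : tau + s * rho ≤ √(1 + s ^ 2) := by
    apply Real.le_sqrt_of_sq_le
    have h4 : tau ^ 2 + rho ^ 2 = 1 := by rw [tau_sq, tau2_eq]; ring
    have h5 : 1 + s ^ 2 = (tau ^ 2 + rho ^ 2) * (1 + s ^ 2) := by rw [h4]; ring
    rw [h5]
    nlinarith [sq_nonneg (tau * s - rho)]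
  have h4 := tau_lb
  linarith

theorem lv_self (hG1 : Stmt_G1) (s : ℝ) (i : ZMod 12) :
    lv i ((s : ℂ) * ctr i) = √(1 + s ^ 2) - s / rho := by
  rw [lv_smul hG1, re_self hG1, mul_one]

theorem tmid (i : ZMod 12) (t : ℝ) : (t : ℂ) * mid i = ((t * (rho / tau) : ℝ) : ℂ) * ctr i := by
  unfold mid tau
  push_cast
  ring

theorem mid_eq (i : ZMod 12) : mid i = ((rho / tau : ℝ) : ℂ) * ctr i := rfl

theorem s_nonneg {t : ℝ} (h : 0 ≤ t) : 0 ≤ t * (rho / tau) :=
  mul_nonneg h (div_nonneg rho_pos.le tau_pos.le)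

theorem lv_self_nonneg (hG1 : Stmt_G1) (i : ZMod 12) {t : ℝ} (h0 : 0 ≤ t) (h1 : t ≤ 1) :
    0 ≤ lv i ((t : ℂ) * mid i) := by
  rw [tmid, lv_self hG1, sub_nonneg]
  apply Real.le_sqrt_of_sq_le
  have hr := rho_pos
  have ht := tau_pos
  have e1 : t * (rho / tau) / rho = t / tau := by field_simp
  rw [e1, mul_pow, div_pow, div_pow, tau_sq, tau2_eq]
  have h2 : 0 < 1 - rho ^ 2 := by rw [← tau2_eq]; exact tau2_pos
  have h3 : 1 + t ^ 2 * (rho ^ 2 / (1 - rho ^ 2)) - t ^ 2 / (1 - rho ^ 2) = 1 - t ^ 2 := by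
    field_simp
    ring
  have h4 : t ^ 2 ≤ 1 := by nlinarith
  linarith

theorem lv_self_mid (hG1 : Stmt_G1) (i : ZMod 12) : lv i (mid i) = 0 := by
  rw [mid_eq, lv_self hG1]
  have hr := rho_pos
  have ht := tau_pos
  have h1 : (1 : ℝ) + (rho / tau) ^ 2 = (1 / tau) ^ 2 := by
    have h4 : tau ^ 2 + rho ^ 2 = 1 := by rw [tau_sq, tau2_eq]; ring
    field_simp
    linarith
  rw [h1, Real.sqrt_sq (by positivity)]
  field_simp
  ring

theorem sidef_zero {x : ℝ} (h : 3 / 10 ≤ x) : sidef x = 0 := by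
  unfold sidef
  rw [Real.smoothTransition.one_of_one_le (by linarith)]
  ring

theorem sidef_one {x : ℝ} (h : x ≤ 1 / 4) : sidef x = 1 := by
  unfold sidef
  rw [Real.smoothTransition.zero_of_nonpos (by linarith)]
  ring

theorem cenf_zero {x : ℝ} (h : x ≤ 1 / 10) : cenf x = 0 := by
  unfold cenf
  rw [Real.smoothTransition.zero_of_nonpos (by linarith)]

theorem cenf_one {x : ℝ} (h : 1 / 5 ≤ x) : cenf x = 1 := by
  unfold cenf
  rw [Real.smoothTransition.one_of_one_le (by linarith)]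

theorem Gf_zero {u : ℂ} (i : ZMod 12) (h : lv i u ≤ 1 / 10) : Gf u = 0 :=
  Finset.prod_eq_zero (Finset.mem_univ i) (cenf_zero h)

theorem Gf_one {u : ℂ} (h : ∀ i, 1 / 5 ≤ lv i u) : Gf u = 1 :=
  Finset.prod_eq_one (fun i _ => cenf_one (h i))

theorem ef_one (h : ZMod 12) : ef h (ctr h) = 1 := by
  unfold ef
  rw [sub_self, norm_zero]
  exact Real.smoothTransition.one_of_one_le (by norm_num)

theorem ef_zero (hG1 : Stmt_G1) {h h' : ZMod 12} (hh : h ≠ h') : ef h' (ctr h) = 0 := by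
  unfold ef
  have h1 := hG1.2.2.2.2 h h' hh
  refine Real.smoothTransition.zero_of_nonpos ?_
  nlinarith

theorem tf_zero {d : Prop} {i h : ZMod 12} {u v : ℂ} (h1 : 3 / 10 ≤ lv i u)
    (h2 : ¬ d → ef h v * Gf u = 0) : tf d i h u v = 0 := by
  unfold tf
  rw [sidef_zero h1]
  by_cases hd : d
  · rw [if_pos hd]
    ring
  · rw [if_neg hd, h2 hd]
    ring

theorem tf_one {d : Prop} {i h : ZMod 12} {u v : ℂ} (h1 : lv i u ≤ 1 / 4) : tf d i h u v = 1 := by
  unfold tf
  rw [sidef_one h1]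
  ring

end CO

theorem stmt_CO (hG1 : Stmt_G1) (hG3 : Stmt_G3) (hG4 : Stmt_G4) (hG5 : Stmt_G5) : Stmt_CO := by
  have hlv : ∀ (i k : ZMod 12) (t : ℝ), k ≠ i → 0 ≤ t → 9 / 25 ≤ lv k (t * mid i) := by
    intro i k t hk ht
    rw [CO.tmid]
    exact CO.lv_ne hG1 (CO.s_nonneg ht) hk
  have hlv1 : ∀ (i k : ZMod 12), k ≠ i → 9 / 25 ≤ lv k (mid i) := by
    intro i k hk
    have := hlv i k 1 hk zero_le_one
    rwa [ofReal_one, one_mul] at this
  refine ⟨?_, ?_, ?_, ?_, ?_, ?_, ?_, ?_⟩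
  · intro i
    have h0 := CO.lv_self_mid hG1 i
    refine ⟨?_, h0, ?_, ?_⟩
    · intro k
      by_cases hk : k = i
      · rw [hk, h0]
      · have := hlv1 i k hk
        linarith
    · unfold R
      rw [h0]
      simp
    · rw [CO.mid_eq, norm_mul, hG1.1 i, mul_one, norm_real, Real.norm_eq_abs, sq_abs, div_pow,
        CO.tau_sq, CO.rho_sq]
      have h1 := CO.tau2_pos
      rw [lt_div_iff₀ h1]
      unfold tau2
      have := CO.lt_sqrt3
      linarith
  · intro i k t hk h0 _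
    exact hlv i k t hk h0
  · intro d i k h v hk
    have h1 := hlv1 i k hk
    refine CO.tf_zero (by linarith) ?_
    intro _
    rw [CO.Gf_zero i (by rw [CO.lv_self_mid hG1 i]; norm_num), mul_zero]
  · intro d i h v
    exact CO.tf_one (by rw [CO.lv_self_mid hG1 i]; norm_num)
  · intro i h t h0 h1
    by_cases hx : lv i (t * mid i) ≤ 1 / 4
    · exact CO.tf_one hx
    · have hG : Gf (t * mid i) = 1 := by
        refine CO.Gf_one ?_
        intro k
        by_cases hk : k = i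
        · rw [hk]
          linarith [not_le.1 hx]
        · have := hlv i k t hk h0
          linarith
      unfold tf
      rw [if_neg not_false, CO.ef_one, hG]
      ring
  · intro i k h h' t hk hh h0 h1
    have h2 := hlv i k t hk h0
    refine CO.tf_zero (by linarith) ?_
    intro _
    rw [CO.ef_zero hG1 hh, zero_mul]
  · intro d i k h v t hk h0 h1 _
    have h2 := hlv i k t hk h0
    have h3 := CO.lv_self_nonneg hG1 i h0 h1
    have h4 : 3 / 10 ≤ lv k (R i (t * mid i)) := by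
      rw [hG3.1 k i]
      have h5 : 0 ≤ (rho ^ 2 - (ctr k * conj (ctr i)).re) / tau2 :=
        div_nonneg (sub_nonneg.2 (CO.re_le hG1 hk)) CO.tau2_pos.le
      have h6 := mul_nonneg h5 h3
      linarith
    refine CO.tf_zero h4 ?_
    intro _
    rw [CO.Gf_zero i (by rw [hG3.2.1 i]; linarith), mul_zero]
  · intro i n t h0 h1 hn
    rcases n with _ | ⟨k, _ | _⟩
    · exact Or.inl rfl
    · right
      by_cases hk : k = i
      · rw [hk]
      · exfalso
        have h2 : -(1 / 100) < lv k (R k (t * mid i)) := hn k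
        rw [hG3.2.1 k] at h2
        have := hlv i k t hk h0
        linarith
    · exfalso
      by_cases hk : k = i
      · have hk' : k + 1 ≠ i := by
          rw [hk]
          intro h
          have h3 : (1 : ZMod 12) = 0 := by
            have h4 : i + 1 = i + 0 := by rw [h, add_zero]
            exact add_left_cancel h4
          exact absurd h3 (by decide)
        have h2 : -(1 / 100) < lv (k + 1) (R k (R (k + 1) (t * mid i))) := hn (k + 1)
        rw [hG3.2.2.1 k, hG3.2.1 (k + 1)] at h2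
        have := hlv i (k + 1) t hk' h0
        linarith
      · have h2 : -(1 / 100) < lv k (R k (R (k + 1) (t * mid i))) := hn k
        rw [hG3.2.1 k, hG3.2.2.2.1 k] at h2
        have := hlv i k t hk h0
        linarith

end Pool.CX
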