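import Pool.Agent.Work.MP_727c87_cx.E1.SPathLib

/-!
# Block CP: the core path of a chord is short (helper63)
-/

open Set Complex ComplexConjugate Filter Topology
open scoped ContDiff NNReal

noncomputable section

namespace Pool.CX

/-- coordinates in a non-defect chamber -/
theorem PhiM_nd (Mo : Model) (g : Mo.Q) (hg : g ∉ Mo.D) (u v : ℂ) (hu : ‖u‖ < 9) (hv : ‖v‖ = 1) :
    (((u.re + 10 : ℝ) : ℂ) * v ≠ 0) ∧ chU (g ∈ Mo.D) (((u.re + 10 : ℝ) : ℂ) * v, u.im) = u ∧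
      Mo.PhiM g (((u.re + 10 : ℝ) : ℂ) * v, u.im) = Psi Mo.L g u v := by
  have h1 : 0 < u.re + 10 := by
    have h2 := Complex.abs_re_le_norm u
    have h3 := (abs_le.mp h2).1
    linarith
  have hn : ‖((u.re + 10 : ℝ) : ℂ) * v‖ = u.re + 10 := by
    rw [norm_mul, hv, mul_one, Complex.norm_real, Real.norm_eq_abs, abs_of_pos h1]
  have hU : chU (g ∈ Mo.D) (((u.re + 10 : ℝ) : ℂ) * v, u.im) = u := by
    unfold chU
    rw [if_neg hg]
    simp only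
    rw [hn]
    apply Complex.ext
    · simp
    · simp
  have hV : chV (g ∈ Mo.D) (((u.re + 10 : ℝ) : ℂ) * v, u.im) = v := by
    unfold chV
    rw [if_neg hg]
    simp only
    rw [hn]
    have h4 : ((u.re + 10 : ℝ) : ℂ) ≠ 0 := by exact_mod_cast h1.ne'
    rw [Complex.ofReal_div, Complex.ofReal_one]
    field_simp
  refine ⟨?_, hU, ?_⟩
  · intro h
    rw [h, norm_zero] at hn
    exact h1.ne hn
  · unfold Model.PhiM
    rw [hU, hV]

/-- rotation at the midpoint of a side -/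
theorem Realz.ch_rot (hM1 : Stmt_M1) (hG4 : Stmt_G4) (hG6 : Stmt_G6) (hC1 : Stmt_C1)
    (hCO : Stmt_CO) (hCT : Stmt_CT) {C : ℝ≥0}
    (hU : U1c C) {Mo : Model} {ε : ℝ≥0} (Z : Realz Mo ε) (h0 : 0 < ε) (h1 : ε ≤ 1) (f : Mo.F)
    (hf : f.1 ∉ Mo.D) (v : ℂ) (hv : ‖v‖ = 1) (x y : Z.M.Pt)
    (hx : (Z.e x : Amb Mo.Q) = Psi Mo.L f.1 (mid f.2) 1)
    (hy : (Z.e y : Amb Mo.Q) = Psi Mo.L f.1 (mid f.2) v) :
    SPath (Z.Ch f.1) (ε * (C * 63)) x y := by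
  have hP : mid f.2 ∈ PP := (hCO.1 f.2).1
  have hu9 : ‖mid f.2‖ < 9 := hG6.1 _ (hG6.2.2.2.1 hP)
  have hev : Complex.exp (v.arg * I) = v := by
    have := Complex.norm_mul_exp_arg_mul_I v
    rw [hv, Complex.ofReal_one, one_mul] at this
    exact this
  set u := mid f.2 with hu
  set σ : ℝ → ℂ × ℝ := fun t =>
    (((u.re + 10 : ℝ) : ℂ) * Complex.exp (((t * v.arg : ℝ) : ℂ) * I), u.im) with hσ
  have key : ∀ t, (σ t).1 ≠ 0 ∧ chU (f.1 ∈ Mo.D) (σ t) = u ∧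
      Mo.PhiM f.1 (σ t) = Psi Mo.L f.1 u (Complex.exp (((t * v.arg : ℝ) : ℂ) * I)) := by
    intro t
    exact PhiM_nd Mo f.1 hf u _ hu9 (Complex.norm_exp_ofReal_mul_I _)
  refine Z.ch_path hM1 hG4 hG6 hC1 hU h0 h1 f.1 σ ?_ (fun t _ => (key t).1) ?_
    (fun b => if b = Mo.arc f then 1 else 0) ?_ ?_ 63 ?_ x y ?_ ?_
  · have h2 : ContDiff ℝ ∞ (fun t : ℝ => (((t * v.arg : ℝ) : ℂ) * I)) :=
      (Complex.ofRealCLM.contDiff.comp (contDiff_id.mul contDiff_const)).mul contDiff_const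
    exact (contDiff_const.mul h2.cexp).prodMk contDiff_const
  · intro t _
    rw [(key t).2.1]
    exact hP
  · intro t _ b
    rw [(key t).2.2]
    exact (hCT Mo f hf _ (Or.inl ⟨_, Complex.norm_exp_ofReal_mul_I _, rfl⟩)).1 b
  · intro t _ h
    rw [(key t).2.2]
    exact (hCT Mo f hf _ (Or.inl ⟨_, Complex.norm_exp_ofReal_mul_I _, rfl⟩)).2 h
  · intro t _
    have h2 : HasDerivAt (fun t : ℝ => (((t * v.arg : ℝ) : ℂ) * I)) (((v.arg : ℝ) : ℂ) * I) t := by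
      have h3 : HasDerivAt (fun t : ℝ => t * v.arg) v.arg t := by
        have h4 := (hasDerivAt_id t).mul_const v.arg
        rw [one_mul] at h4
        exact h4
      exact (h3.ofReal_comp).mul_const I
    have h3 := ((h2.cexp).const_mul ((u.re + 10 : ℝ) : ℂ)).prodMk (hasDerivAt_const t u.im)
    have h4 : deriv σ t = _ := h3.deriv
    rw [h4, Prod.norm_def]
    refine max_le ?_ ?_
    · simp only
      rw [norm_mul, norm_mul, norm_mul, Complex.norm_exp_ofReal_mul_I, Complex.norm_real,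
        Complex.norm_real, Complex.norm_I, one_mul, mul_one, Real.norm_eq_abs, Real.norm_eq_abs]
      have b1 := Complex.abs_arg_le_pi v
      have b2 := Complex.abs_re_le_norm u
      have b3 := abs_le.mp b2
      have b4 := Real.pi_lt_d2
      have b5 : (((63 : ℝ≥0) : ℝ)) = 63 := by norm_num
      have b6 : |u.re + 10| ≤ 19 := abs_le.mpr ⟨by linarith, by linarith⟩
      rw [b5]
      have b7 : |u.re + 10| * |v.arg| ≤ 19 * 3.15 :=
        mul_le_mul b6 (by linarith) (abs_nonneg _) (by norm_num)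
      linarith
    · simp
  · rw [(key 0).2.2, hx]
    simp
  · rw [(key 1).2.2, hy, one_mul, hev]

/-- radial segment from the centre to the midpoint of a side at the height of the chord -/
theorem Realz.ch_rad (hM1 : Stmt_M1) (hG1 : Stmt_G1) (hG4 : Stmt_G4) (hG6 : Stmt_G6) (hC1 : Stmt_C1)
    (hCO : Stmt_CO) (hCT : Stmt_CT) {C : ℝ≥0}
    (hU : U1c C) {Mo : Model} {ε : ℝ≥0} (Z : Realz Mo ε) (h0 : 0 < ε) (h1 : ε ≤ 1) (f : Mo.F)
    (hf : f.1 ∉ Mo.D) (x y : Z.M.Pt)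
    (hx : (Z.e x : Amb Mo.Q) = Psi Mo.L f.1 0 (ctr (Mo.hgt f)))
    (hy : (Z.e y : Amb Mo.Q) = Psi Mo.L f.1 (mid f.2) (ctr (Mo.hgt f))) :
    SPath (Z.Ch f.1) (ε * (C * 63)) x y := by
  have hP : mid f.2 ∈ PP := (hCO.1 f.2).1
  have hu9 : ‖mid f.2‖ < 9 := hG6.1 _ (hG6.2.2.2.1 hP)
  have hv : ‖ctr (Mo.hgt f)‖ = 1 := hG1.1 _
  set v := ctr (Mo.hgt f) with hvd
  set u := mid f.2 with hu
  set σ : ℝ → ℂ × ℝ := fun t => (((t * u.re + 10 : ℝ) : ℂ) * v, t * u.im) with hσ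
  have key : ∀ t ∈ Icc (0 : ℝ) 1, (σ t).1 ≠ 0 ∧ chU (f.1 ∈ Mo.D) (σ t) = (t : ℂ) * u ∧
      Mo.PhiM f.1 (σ t) = Psi Mo.L f.1 ((t : ℂ) * u) v := by
    intro t ht
    have h2 : ‖(t : ℂ) * u‖ < 9 := by
      rw [norm_mul, Complex.norm_real, Real.norm_eq_abs, abs_of_nonneg ht.1]
      nlinarith [norm_nonneg u, ht.2]
    have h3 := PhiM_nd Mo f.1 hf ((t : ℂ) * u) v h2 hv
    rw [Complex.re_ofReal_mul, Complex.im_ofReal_mul] at h3
    exact h3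
  refine Z.ch_path hM1 hG4 hG6 hC1 hU h0 h1 f.1 σ ?_ (fun t ht => (key t ht).1) ?_
    (fun b => if b = Mo.arc f then 1 else 0) ?_ ?_ 63 ?_ x y ?_ ?_
  · have h2 : ContDiff ℝ ∞ (fun t : ℝ => ((t * u.re + 10 : ℝ) : ℂ)) :=
      Complex.ofRealCLM.contDiff.comp ((contDiff_id.mul contDiff_const).add contDiff_const)
    exact (h2.mul contDiff_const).prodMk (contDiff_id.mul contDiff_const)
  · intro t ht
    rw [(key t ht).2.1]
    exact hG6.2.2.2.2.2.1 u hP t ht.1 ht.2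
  · intro t ht b
    rw [(key t ht).2.2]
    exact (hCT Mo f hf _ (Or.inr ⟨t, ht.1, ht.2, rfl⟩)).1 b
  · intro t ht h
    rw [(key t ht).2.2]
    exact (hCT Mo f hf _ (Or.inr ⟨t, ht.1, ht.2, rfl⟩)).2 h
  · intro t _
    have h2 : HasDerivAt (fun t : ℝ => ((t * u.re + 10 : ℝ) : ℂ)) ((u.re : ℝ) : ℂ) t := by
      have h3 : HasDerivAt (fun t : ℝ => t * u.re + 10) u.re t := by
        have h4 := ((hasDerivAt_id t).mul_const u.re).add_const 10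
        rw [one_mul] at h4
        exact h4
      exact h3.ofReal_comp
    have h3 := (h2.mul_const v).prodMk ((hasDerivAt_id t).mul_const u.im)
    have h4 : deriv σ t = _ := h3.deriv
    rw [h4, Prod.norm_def]
    have b5 : (((63 : ℝ≥0) : ℝ)) = 63 := by norm_num
    rw [b5]
    refine max_le ?_ ?_
    · simp only
      rw [norm_mul, hv, mul_one, Complex.norm_real, Real.norm_eq_abs]
      have b2 := Complex.abs_re_le_norm u
      linarith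
    · simp only
      rw [one_mul, Real.norm_eq_abs]
      have b2 := Complex.abs_im_le_norm u
      linarith
  · rw [(key 0 ⟨le_rfl, zero_le_one⟩).2.2, hx]
    simp
  · rw [(key 1 ⟨zero_le_one, le_rfl⟩).2.2, hy]
    simp

theorem hgt_mu (Mo : Model) (f : Mo.F) : Mo.hgt (f.1, Mo.mu f.1 f.2) = Mo.hgt f := by
  have hinv := (Mo.good f.1).inv f.2
  have hfar := (Mo.good f.1).far f.2
  have hne : f.2 ≠ Mo.mu f.1 f.2 := by
    intro h
    rw [← h] at hfar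
    unfold Far cd at hfar
    rw [sub_self] at hfar
    revert hfar
    decide
  have hval : f.2.val ≠ (Mo.mu f.1 f.2).val := fun h => hne (ZMod.val_injective 12 h)
  unfold Model.hgt
  simp only
  rw [hinv]
  split_ifs with h2 h3 h3
  · omega
  · rfl
  · rfl
  · omega

theorem stmt_CP (hM1 : Stmt_M1) (hG1 : Stmt_G1) (hG4 : Stmt_G4) (hG6 : Stmt_G6)
    (hS2 : Stmt_S2) (hC1 : Stmt_C1) (hU1 : Stmt_U1) (hCO : Stmt_CO) (hCT : Stmt_CT) :
    Stmt_CP := by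
  obtain ⟨C, hU⟩ := exists_U1c hU1
  refine ⟨2 * (2 * (C * 63)), ?_⟩
  intro Mo ε Z f x y h0 h1 hf hx hy
  set f' : Mo.F := (f.1, Mo.mu f.1 f.2) with hf'
  have hh : Mo.hgt f' = Mo.hgt f := hgt_mu Mo f
  have hv : ‖ctr (Mo.hgt f)‖ = 1 := hG1.1 _
  have hLoc : ∀ u : ℂ, u ∈ PP → (u, ctr (Mo.hgt f)) ∈ Loc (f.1 ∈ Mo.D) := fun u hu =>
    ⟨hG6.2.2.2.1 hu, fun _ => hv, fun h => absurd h hf⟩
  have hP0 : (0 : ℂ) ∈ PP := by
    intro j
    have h3 : ‖(0 : ℂ)‖ ^ 2 ≤ 3 := by norm_num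
    linarith [hG6.2.2.2.2.2.2.2 0 h3 j]
  have hPi : mid f.2 ∈ PP := (hCO.1 f.2).1
  have hPj : mid f'.2 ∈ PP := (hCO.1 f'.2).1
  have hS0 : Psi Mo.L f.1 0 (ctr (Mo.hgt f)) ∈ Mo.SS := ⟨f.1, _, _, hLoc _ hP0, rfl⟩
  have hSi : Psi Mo.L f.1 (mid f.2) (ctr (Mo.hgt f)) ∈ Mo.SS := ⟨f.1, _, _, hLoc _ hPi, rfl⟩
  have hSj : Psi Mo.L f.1 (mid f'.2) (ctr (Mo.hgt f)) ∈ Mo.SS := ⟨f.1, _, _, hLoc _ hPj, rfl⟩
  have e0 : (Z.e (Z.e.symm ⟨_, hS0⟩) : Amb Mo.Q) = Psi Mo.L f.1 0 (ctr (Mo.hgt f)) := by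
    rw [Homeomorph.apply_symm_apply]
  have ei : (Z.e (Z.e.symm ⟨_, hSi⟩) : Amb Mo.Q) = Psi Mo.L f.1 (mid f.2) (ctr (Mo.hgt f)) := by
    rw [Homeomorph.apply_symm_apply]
  have ej : (Z.e (Z.e.symm ⟨_, hSj⟩) : Amb Mo.Q) = Psi Mo.L f.1 (mid f'.2) (ctr (Mo.hgt f)) := by
    rw [Homeomorph.apply_symm_apply]
  have p1 := Z.ch_rot hM1 hG4 hG6 hC1 hCO hCT hU h0 h1 f hf _ hv x _ hx ei
  have p2 := Z.ch_rad hM1 hG1 hG4 hG6 hC1 hCO hCT hU h0 h1 f hf _ _ e0 ei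
  have p3 := Z.ch_rad hM1 hG1 hG4 hG6 hC1 hCO hCT hU h0 h1 f' hf (Z.e.symm ⟨_, hS0⟩)
    (Z.e.symm ⟨_, hSj⟩) (by rw [hh]; exact e0) (by rw [hh]; exact ej)
  have p4 := Z.ch_rot hM1 hG4 hG6 hC1 hCO hCT hU h0 h1 f' hf _ hv y _ hy ej
  have p5 := (p1.trans p2.symm).trans (p3.trans p4.symm)
  refine p5.mono le_rfl (le_of_eq ?_)
  ring

end Pool.CX
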