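import Pool.Agent.Work.MP_727c87_cx.E1.Met

/-!
# Block CT: the functions `tb`, `th` are constant on the cores
-/

open Set Complex ComplexConjugate
open scoped ContDiff

noncomputable section

namespace Pool.CX

namespace CT

theorem lv_smul_ge (j : ZMod 12) (u : ℂ) {t : ℝ} (h0 : 0 ≤ t) (h1 : t ≤ 1) :
    t * lv j u ≤ lv j (t * u) := by
  unfold lv
  have e1 : ((t : ℂ) * u * conj (ctr j)).re = t * (u * conj (ctr j)).re := by
    rw [mul_assoc, re_ofReal_mul]
  have e2 : ‖(t : ℂ) * u‖ ^ 2 = t ^ 2 * ‖u‖ ^ 2 := by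
    rw [norm_mul, norm_real, Real.norm_eq_abs, mul_pow, sq_abs]
  rw [e1, e2]
  have h2 : t * √(1 + ‖u‖ ^ 2) ≤ √(1 + t ^ 2 * ‖u‖ ^ 2) := by
    apply Real.le_sqrt_of_sq_le
    rw [mul_pow, Real.sq_sqrt (by positivity)]
    nlinarith
  have h3 : t * (u * conj (ctr j)).re / rho = t * ((u * conj (ctr j)).re / rho) := by
    ring
  rw [h3]
  nlinarith

theorem smul_mem_PP {u : ℂ} (hu : u ∈ PP) {t : ℝ} (h0 : 0 ≤ t) (h1 : t ≤ 1) : (t : ℂ) * u ∈ PP := by
  intro j
  exact (mul_nonneg h0 (hu j)).trans (lv_smul_ge j u h0 h1)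

theorem PP_sub {u : ℂ} (hu : u ∈ PP) : u ∈ PPo := by
  intro j
  have := hu j
  linarith

theorem fr_pow (Mo : Model) (g : Mo.Q) (i : ZMod 12) (n : ℕ) : (Mo.fr ^ n) (g, i) = (g, i + n) := by
  induction n with
  | zero => simp
  | succ n ih =>
    rw [pow_succ', Equiv.Perm.mul_apply, ih]
    simp only [Model.fr, Equiv.coe_fn_mk, Nat.cast_succ, add_assoc]

theorem base_m (Mo : Model) (g : Mo.Q) (i : ZMod 12) : Mo.base.m (g, i) = (g, Mo.mu g i) := by
  change (Mo.fr ^ (Mo.mu g i - i).val) (g, i) = (g, Mo.mu g i)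
  rw [fr_pow, ZMod.natCast_zmod_val]
  simp

theorem arc_m (Mo : Model) (g : Mo.Q) (i : ZMod 12) (hg : g ∉ Mo.D) :
    Mo.arc (g, Mo.mu g i) = Mo.arc (g, i) := by
  symm
  refine Quot.sound (Relation.EqvGen.rel _ _ (Or.inr ⟨hg, ?_⟩))
  exact (base_m Mo g i).symm

theorem arc_a (Mo : Model) (g : Mo.Q) (i : ZMod 12) :
    Mo.arc (Mo.L.τ i g, i) = Mo.arc (g, i) := by
  symm
  exact Quot.sound (Relation.EqvGen.rel _ _ (Or.inl rfl))

theorem hgt_cases (Mo : Model) (g : Mo.Q) (i : ZMod 12) :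
    Mo.hgt (g, i) = i ∨ Mo.hgt (g, i) = Mo.mu g i := by
  unfold Model.hgt
  split_ifs
  · exact Or.inl rfl
  · exact Or.inr rfl

theorem hgt_eq (Mo : Model) (g : Mo.Q) (i k : ZMod 12) (h : Mo.hgt (g, i) = Mo.hgt (g, k)) :
    k = i ∨ k = Mo.mu g i := by
  have hinv := (Mo.good g).inv
  rcases hgt_cases Mo g i with h1 | h1 <;> rcases hgt_cases Mo g k with h2 | h2 <;>
    rw [h1, h2] at h
  · exact Or.inl h.symm
  · right
    rw [h, hinv]
  · exact Or.inr h.symm
  · left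
    rw [← hinv k, ← h, hinv]

theorem ph_zero (d : Prop) (i h : ZMod 12) : ph d i h 0 = 0 := by
  unfold ph
  rw [Real.smoothTransition.zero_of_nonpos (by simp), zero_mul]

theorem ph_blk (d : Prop) (i h : ZMod 12) {u v : ℂ} (hb : 0 < beta u) :
    ph d i h (blk u v) = Real.smoothTransition (4 * beta u - 1) * tf d i h u v := by
  unfold ph blk
  have hb' : (beta u : ℂ) ≠ 0 := by
    exact_mod_cast hb.ne'
  simp only
  rw [← mul_assoc, ← mul_assoc, inv_mul_cancel₀ hb', one_mul, one_mul]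

theorem ph_blk_one (d : Prop) (i h : ZMod 12) {u v : ℂ} (hb : beta u = 1) :
    ph d i h (blk u v) = tf d i h u v := by
  rw [ph_blk d i h (by rw [hb]; norm_num), hb,
    Real.smoothTransition.one_of_one_le (by norm_num), one_mul]

theorem blk_eq_zero (hG4 : Stmt_G4) {u v : ℂ} (hu : u ∉ PPo) : blk u v = 0 := by
  obtain ⟨-, -, -, -, h0, -, -, hP⟩ := hG4
  have h1 : beta u = 0 := by
    have h2 : ¬ 0 < beta u := fun h => hu ((hP u).1 h)
    exact le_antisymm (not_lt.1 h2) (h0 u)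
  simp [blk, h1]

/-- The main lemma: values of `phi`. -/
theorem phi_val (hG4 : Stmt_G4) (hS2 : Stmt_S2) (hCO : Stmt_CO) (Mo : Model) (g : Mo.Q)
    (i : ZMod 12) (hg : g ∉ Mo.D) (t : ℝ) (h0 : 0 ≤ t) (h1 : t ≤ 1) (v : ℂ)
    (hself : tf False i (Mo.hgt (g, i)) (t * mid i) v = 1)
    (hoth : ∀ k, k ≠ i → Mo.hgt (g, i) ≠ Mo.hgt (g, k) →
      tf False k (Mo.hgt (g, k)) (t * mid i) v = 0) :
    Mo.phi (g, i) (Psi Mo.L g (t * mid i) v) = 1 ∧
    ∀ y : Mo.F, Mo.arc y ≠ Mo.arc (g, i) → Mo.phi y (Psi Mo.L g (t * mid i) v) = 0 := by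
  have hPP : (t : ℂ) * mid i ∈ PP := smul_mem_PP (hCO.1 i).1 h0 h1
  have hb : beta (t * mid i) = 1 := (hG4.2.2.2.2.2.2.1 _).2 hPP
  have hgF : (g ∈ Mo.D) = False := eq_false hg
  obtain ⟨hA, hB, hC, -, -⟩ := hS2 Mo g (t * mid i) v (PP_sub hPP)
  constructor
  · change ph (g ∈ Mo.D) i (Mo.hgt (g, i)) (Psi Mo.L g (t * mid i) v g) = 1
    rw [hA, ph_blk_one _ _ _ hb, hgF]
    exact hself
  · rintro ⟨h, k⟩ hy
    change ph (h ∈ Mo.D) k (Mo.hgt (h, k)) (Psi Mo.L g (t * mid i) v h) = 0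
    by_cases hgh : h = g
    · subst hgh
      rw [hA, ph_blk_one _ _ _ hb, hgF]
      have hk : k ≠ i := by
        rintro rfl
        exact hy rfl
      refine hoth k hk ?_
      intro he
      rcases hgt_eq Mo h i k he with h2 | h2
      · exact hk h2
      · rw [h2] at hy
        exact hy (arc_m Mo h i hg)
    · by_cases hr : ∃ n, nbr Mo.L g n = h
      · obtain ⟨n, hn⟩ := hr
        have hpn : Psi Mo.L g (t * mid i) v h = blk (mv n (t * mid i)) v := by
          rw [← hn]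
          exact hB n
        rw [hpn]
        by_cases hm : mv n (t * mid i) ∈ PPo
        · have h3 := hCO.2.2.2.2.2.2.2 i n t h0 h1 hm
          rcases h3 with h3 | h3
          · exfalso
            rw [h3] at hn
            exact hgh hn.symm
          · subst h3
            have hn' : Mo.L.τ i g = h := hn
            have hk : k ≠ i := by
              rintro rfl
              rw [← hn'] at hy
              exact hy (arc_a Mo g k)
            have hm' : R i (t * mid i) ∈ PPo := hm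
            change ph (h ∈ Mo.D) k (Mo.hgt (h, k)) (blk (R i (t * mid i)) v) = 0
            rw [ph_blk _ _ _ ((hG4.2.2.2.2.2.2.2 _).2 hm'),
              hCO.2.2.2.2.2.2.1 (h ∈ Mo.D) i k (Mo.hgt (h, k)) v t hk h0 h1 hm', mul_zero]
        · rw [blk_eq_zero hG4 hm, ph_zero]
      · have hz : Psi Mo.L g (t * mid i) v h = 0 := hC h (fun n hn => hr ⟨n, hn⟩)
        rw [hz, ph_zero]

theorem concl (Mo : Model) (f : Mo.F) (p : Amb Mo.Q) (h1 : Mo.phi f p = 1)
    (h2 : ∀ y : Mo.F, Mo.arc y ≠ Mo.arc f → Mo.phi y p = 0) :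
    (∀ b, Mo.tb b p = if b = Mo.arc f then 1 else 0) ∧ ∀ g, Mo.th g p = 0 := by
  constructor
  · intro b
    unfold Model.tb
    by_cases hb : b = Mo.arc f
    · rw [if_pos hb, Finset.prod_eq_zero (Finset.mem_univ f), sub_zero]
      rw [if_pos hb.symm, h1, sub_self]
    · rw [if_neg hb, Finset.prod_eq_one, sub_self]
      intro y _
      by_cases hy : Mo.arc y = b
      · rw [if_pos hy, h2 y (by rw [hy]; exact hb), sub_zero]
      · rw [if_neg hy]
  · intro g
    unfold Model.th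
    rw [Finset.prod_eq_zero (Finset.mem_univ f), mul_zero]
    rw [h1, sub_self]

end CT

theorem stmt_CT (hG4 : Stmt_G4) (hS1 : Stmt_S1) (hS2 : Stmt_S2) (hM1 : Stmt_M1)
    (hCO : Stmt_CO) : Stmt_CT := by
  rintro Mo ⟨g, i⟩ hg p hp
  rcases hp with ⟨v, -, rfl⟩ | ⟨t, h0, h1, rfl⟩
  · have key := CT.phi_val hG4 hS2 hCO Mo g i hg 1 zero_le_one le_rfl v
      (by
        rw [ofReal_one, one_mul]
        exact hCO.2.2.2.1 False i _ v)
      (by
        intro k hk _
        rw [ofReal_one, one_mul]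
        exact hCO.2.2.1 False i k _ v hk)
    rw [ofReal_one, one_mul] at key
    exact CT.concl Mo (g, i) _ key.1 key.2
  · have key := CT.phi_val hG4 hS2 hCO Mo g i hg t h0 h1 (ctr (Mo.hgt (g, i)))
      (hCO.2.2.2.2.1 i _ t h0 h1)
      (by
        intro k hk he
        exact hCO.2.2.2.2.2.1 i k _ _ t hk he h0 h1)
    exact CT.concl Mo (g, i) _ key.1 key.2

end Pool.CX
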