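import Pool.Agent.Work.MP_727c87_cx.E1.Flag
import Pool.Agent.Work.MP_727c87_cx.E1.GeoProofs
import Pool.Agent.Work.MP_727c87_cx.E1.C1

set_option autoImplicit false

/-! # Block CV: openness, covering, corners, midpoints and centres of the sets `U f` -/

open Set Complex ComplexConjugate Bundle Topology
open scoped ContDiff NNReal Manifold unitInterval ENNReal
open Pool.Agent.Work.MP_bc4532_gt (ClosedRiemannianManifold)

noncomputable section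

namespace Pool.CX

namespace CV

theorem isOpen_sec (k : ZMod 12) : IsOpen {u : ℂ | Sec k u} := by
  have h1 : Continuous fun u : ℂ => (u * conj (ctr k)).im := by fun_prop
  have h2 : Continuous fun u : ℂ => (u * conj (ctr (k + 1))).im := by fun_prop
  exact (isOpen_lt continuous_norm continuous_const).union
    ((isOpen_lt continuous_const h1).inter (isOpen_lt h2 continuous_const))

theorem isOpen_UU (Mo : Model) (y : Mo.F) : IsOpen (Mo.UU y) := by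
  have h1 : Continuous fun p : Amb Mo.Q => (p y.1).1 := by fun_prop
  have h2 : Continuous fun p : Amb Mo.Q => (p y.1).2.1 := by fun_prop
  have h3 : IsOpen {p : Amb Mo.Q | 0 < (p y.1).1} := isOpen_lt continuous_const h1
  have h4 : ContinuousOn (fun p : Amb Mo.Q => pos y.1 p) {p : Amb Mo.Q | 0 < (p y.1).1} := by
    have h5 : ContinuousOn (fun p : Amb Mo.Q => (((p y.1).1 : ℝ) : ℂ)⁻¹) {p : Amb Mo.Q | 0 < (p y.1).1} := by
      apply ContinuousOn.inv₀ (continuous_ofReal.comp h1).continuousOn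
      intro p hp
      exact ofReal_ne_zero.mpr (ne_of_gt hp)
    exact h5.mul h2.continuousOn
  exact h4.isOpen_inter_preimage h3 (isOpen_sec y.2)

/-- the closed sector condition implies `Sec` -/
theorem sec_of_closed {k : ZMod 12} {u : ℂ} (h1 : 0 ≤ (u * conj (ctr k)).im) (h2 : 0 ≤ (ctr (k + 1) * conj u).im) :
    Sec k u := by
  right
  have h3 : (u * conj (ctr (k + 1))).im = -(ctr (k + 1) * conj u).im := by
    simp only [mul_im, conj_re, conj_im]; ring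
  exact ⟨by linarith, by rw [h3]; linarith⟩

theorem kite_sec {k : ZMod 12} {u : ℂ} (h : u ∈ kite k) : Sec k u := sec_of_closed h.2.1 h.2.2

theorem R_fix {j : ZMod 12} {u : ℂ} (h : lv j u = 0) : R j u = u := by simp [R, h]

theorem loc_of_side {j : ZMod 12} {u : ℂ} (hu : u ∈ PP) (h : lv j u = 0) (d : Prop) : (u, (1 : ℂ)) ∈ Loc d := by
  have h3 : 3 < ‖u‖ ^ 2 := by
    by_contra h4
    have := stmt_G6.2.2.2.2.2.2.2 u (not_lt.mp h4) j
    rw [h] at this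
    norm_num at this
  refine ⟨stmt_G6.2.2.2.1 hu, fun _ => by simp, fun _ => ⟨?_, ?_⟩⟩
  · show 1 ≤ ‖u‖
    nlinarith [norm_nonneg u]
  · show ‖(1 : ℂ)‖ ^ 2 * qq (‖u‖ ^ 2 - 1) = ‖u‖ ^ 2 - 1
    rw [(stmt_C1 stmt_G4 stmt_G6).2.2.2.1 (‖u‖ ^ 2 - 1) (by linarith), norm_one, one_pow, one_mul]

variable {Mo : Model} {ε : ℝ} (Z : Realz Mo ε)

theorem mem_U (hLC : Stmt_LC) {g : Mo.Q} {k : ZMod 12} {u v : ℂ} (hl : (u, v) ∈ Loc (g ∈ Mo.D)) (hs : Sec k u)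
    {m : Z.M.Pt} (hm : (Z.e m : Amb Mo.Q) = Psi Mo.L g u v) : m ∈ Z.U (g, k) := by
  obtain ⟨h1, h2, -⟩ := (hLC Mo (Z.e m : Amb Mo.Q) (Z.e m).2).2.1 g u v hl hm
  refine ⟨h1, ?_⟩
  show Sec k (pos g (Z.e m : Amb Mo.Q))
  rw [h2]
  exact hs

theorem cross (hS2 : Stmt_S2) {g : Mo.Q} {u v : ℂ} {i : ZMod 12} (hu : u ∈ PP) (h : lv i u = 0) :
    Psi Mo.L g u v = Psi Mo.L (Mo.L.τ i g) u v := by
  have huo : u ∈ PPo := stmt_G6.2.2.2.1 hu
  have h1 := (hS2 Mo g u v huo).2.2.2.1 (some (i, false)) (by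
    show R i u ∈ PPo
    rw [R_fix h]; exact huo)
  rw [← h1]
  show Psi Mo.L (Mo.L.τ i g) (R i u) v = _
  rw [R_fix h]

theorem fb_eq (g : Mo.Q) (i : ZMod 12) : Mo.base.b (g, i) = ((Mo.L.τ (i + 1) g, i) : Mo.Q × ZMod 12) := by
  change ((Mo.L.τ (i + 1) g, i + 1 - 1) : Mo.Q × ZMod 12) = _
  rw [add_sub_cancel_right]

end CV

open CV

theorem stmt_CV (hS2 : Stmt_S2) (hLC : Stmt_LC) (_hSE : Stmt_SE) (hKM : Stmt_KM) : Stmt_CV := by
  intro Mo ε Z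
  have hpre : ∀ f, Z.U f = (fun x => (Z.e x : Amb Mo.Q)) ⁻¹' Mo.UU f := fun f => rfl
  have hcont : Continuous fun x => (Z.e x : Amb Mo.Q) := continuous_subtype_val.comp Z.e.continuous
  obtain ⟨κ, -, hκ⟩ := hKM
  refine ⟨fun f => ?_, fun m => ?_, ?_, ?_, ?_⟩
  · rw [hpre]
    exact (isOpen_UU Mo f).preimage hcont
  · obtain ⟨g, u, v, hl, hp⟩ := (Z.e m).2
    obtain ⟨k, hk1, hk2⟩ := stmt_G2.2 u
    exact ⟨(g, k), mem_U Z hLC hl (sec_of_closed hk1 hk2) hp⟩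
  · rintro ⟨g, i⟩
    obtain ⟨hk, -, h1, -⟩ := hκ i 1 1 zero_le_one le_rfl zero_le_one le_rfl
    obtain ⟨-, -, -, h2⟩ := hκ i 1 1 zero_le_one le_rfl zero_le_one le_rfl
    set u := κ i 1 1 with hu
    have hP : u ∈ PP := hk.1
    have hl := loc_of_side hP h1
    have hs := kite_sec hk
    have hSS : Psi Mo.L g u 1 ∈ Mo.SS := ⟨g, u, 1, hl _, rfl⟩
    have he : (Z.e (Z.e.symm ⟨_, hSS⟩) : Amb Mo.Q) = Psi Mo.L g u 1 := by rw [Homeomorph.apply_symm_apply]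
    have e1 : (Z.e (Z.e.symm ⟨_, hSS⟩) : Amb Mo.Q) = Psi Mo.L (Mo.L.τ i g) u 1 := he.trans (cross hS2 hP h1)
    have e2 : (Z.e (Z.e.symm ⟨_, hSS⟩) : Amb Mo.Q) = Psi Mo.L (Mo.L.τ (i + 1) g) u 1 := he.trans (cross hS2 hP h2)
    have e3 : (Z.e (Z.e.symm ⟨_, hSS⟩) : Amb Mo.Q) = Psi Mo.L (Mo.L.τ i (Mo.L.τ (i + 1) g)) u 1 :=
      e2.trans (cross hS2 hP h1)
    refine ⟨Z.e.symm ⟨_, hSS⟩, mem_U Z hLC (hl _) hs he, mem_U Z hLC (hl _) hs e1, ?_, ?_⟩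
    · rw [fb_eq]
      exact mem_U Z hLC (hl _) hs e2
    · rw [fb_eq]
      exact mem_U Z hLC (hl _) hs e3
  · rintro ⟨g, i⟩
    obtain ⟨hk, h0, h1, -⟩ := hκ (i + 1) 1 0 zero_le_one le_rfl le_rfl zero_le_one
    obtain ⟨hk', h0', -, -⟩ := hκ i 0 1 le_rfl zero_le_one zero_le_one le_rfl
    have h2 : κ (i + 1) 1 0 = κ i 0 1 := (hκ i 1 0 zero_le_one le_rfl le_rfl zero_le_one).2.1
    rw [← h2] at hk'
    set u := κ (i + 1) 1 0 with hu
    have hP : u ∈ PP := hk.1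
    have hl := loc_of_side hP h1
    have hs := kite_sec hk
    have hs' := kite_sec hk'
    have hSS : Psi Mo.L g u 1 ∈ Mo.SS := ⟨g, u, 1, hl _, rfl⟩
    have he : (Z.e (Z.e.symm ⟨_, hSS⟩) : Amb Mo.Q) = Psi Mo.L g u 1 := by rw [Homeomorph.apply_symm_apply]
    have e2 : (Z.e (Z.e.symm ⟨_, hSS⟩) : Amb Mo.Q) = Psi Mo.L (Mo.L.τ (i + 1) g) u 1 := he.trans (cross hS2 hP h1)
    refine ⟨Z.e.symm ⟨_, hSS⟩, mem_U Z hLC (hl _) hs' he, mem_U Z hLC (hl _) hs he, ?_,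
      mem_U Z hLC (hl _) hs e2⟩
    rw [fb_eq]
    exact mem_U Z hLC (hl _) hs' e2
  · intro q hq
    have h0 : (0 : ℂ) ∈ PPo := by
      intro j
      have h : lv j 0 = 1 := by simp [lv]
      rw [h]; norm_num
    have hl : ((0 : ℂ), (1 : ℂ)) ∈ Loc (q ∈ Mo.D) := ⟨h0, fun _ => by simp, fun h => absurd h hq⟩
    have hSS : Psi Mo.L q 0 1 ∈ Mo.SS := ⟨q, 0, 1, hl, rfl⟩
    have he : (Z.e (Z.e.symm ⟨_, hSS⟩) : Amb Mo.Q) = Psi Mo.L q 0 1 := by rw [Homeomorph.apply_symm_apply]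
    exact ⟨Z.e.symm ⟨_, hSS⟩, fun k => mem_U Z hLC hl (Or.inl (by simp)) he⟩

end Pool.CX
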