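import Pool.Agent.Work.MP_727c87_cx.Defs

/-! # Elementary properties of the coarse distance -/

namespace Pool.CX

namespace Cov
variable {Mo : Model} (C : Cov Mo)

theorem SameArc.refl' (y : C.Y) : C.SameArc y y := Relation.EqvGen.refl y

theorem SameArc.symm' {y z : C.Y} (h : C.SameArc y z) : C.SameArc z y := Relation.EqvGen.symm _ _ h

theorem SameArc.trans' {y z w : C.Y} (h : C.SameArc y z) (h' : C.SameArc z w) : C.SameArc y w :=
  Relation.EqvGen.trans _ _ _ h h'

theorem sameArc_a' (y : C.Y) : C.SameArc y (C.a y) := Relation.EqvGen.rel _ _ (Or.inl rfl)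

theorem Step.refl' (y : C.Y) : C.Step y y := Or.inl rfl

theorem Step.symm' {y z : C.Y} (h : C.Step y z) : C.Step z y := by
  rcases h with h | h | h | h
  · exact Or.inl h.symm
  · exact Or.inr (Or.inr (Or.inl h))
  · exact Or.inr (Or.inl h)
  · exact Or.inr (Or.inr (Or.inr (SameArc.symm' C h)))

theorem Dle.zero' (y : C.Y) : C.Dle 0 y y := rfl

theorem Dle.snoc {k : ℕ} {y z w : C.Y} (h : C.Dle k y z) (h' : C.Step z w) : C.Dle (k + 1) y w :=
  ⟨z, h, h'⟩

theorem Dle.one' {y z : C.Y} (h : C.Step y z) : C.Dle 1 y z := ⟨y, rfl, h⟩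

theorem Dle.trans' {k l : ℕ} {y z w : C.Y} (h : C.Dle k y z) (h' : C.Dle l z w) :
    C.Dle (k + l) y w := by
  induction l generalizing w with
  | zero =>
    have : z = w := h'
    rw [← this]; exact h
  | succ l ih =>
    obtain ⟨v, h1, h2⟩ := h'
    exact ⟨v, ih h1, h2⟩

theorem Dle.mono' {k l : ℕ} {y z : C.Y} (hkl : k ≤ l) (h : C.Dle k y z) : C.Dle l y z := by
  induction l, hkl using Nat.le_induction with
  | base => exact h
  | succ l _ ih => exact ⟨z, ih, Or.inl rfl⟩

theorem Dle.symm' {k : ℕ} {y z : C.Y} (h : C.Dle k y z) : C.Dle k z y := by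
  induction k generalizing z with
  | zero => exact Eq.symm h
  | succ k ih =>
    obtain ⟨w, h1, h2⟩ := h
    have := Dle.trans' C (Dle.one' C (Step.symm' C h2)) (ih h1)
    rwa [add_comm] at this

end Cov

namespace Model
variable (Mo : Model)

theorem dle_rot (q : Mo.Q) (i : ZMod 12) (n : ℕ) : Mo.base.Dle n (q, i) (q, i + (n : ZMod 12)) := by
  induction n with
  | zero =>
    change ((q, i) : Mo.Q × ZMod 12) = (q, i + ((0 : ℕ) : ZMod 12))
    simp
  | succ n ih =>
    refine ⟨_, ih, Or.inr (Or.inl ?_)⟩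
    change _ = Mo.fr _
    simp [Model.fr, add_assoc]

/-- two flags of the same chamber -/
theorem dle_same (q : Mo.Q) (i j : ZMod 12) : Mo.base.Dle 11 (q, i) (q, j) := by
  have h := Mo.dle_rot q i (j - i).val
  rw [ZMod.natCast_zmod_val, add_sub_cancel] at h
  refine Cov.Dle.mono' _ ?_ h
  have := ZMod.val_lt (j - i)
  omega

/-- cross a side -/
theorem dle_cross (q : Mo.Q) (i : ZMod 12) : Mo.base.Dle 1 (q, i) (Mo.L.τ i q, i) :=
  Cov.Dle.one' _ (Or.inr (Or.inr (Or.inr (Cov.sameArc_a' _ _))))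

end Model

end Pool.CX
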