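import Pool.Agent.Work.MP_727c87_gt_helper49.Main

/-!
# From the Urysohn 1-width to labels

If `M` is compact and `UW_1(M) < L`, then the points of `M` can be labelled so that two points with the same label are at
distance less than `L` and three points which are pairwise close have at most two different labels.
-/

set_option autoImplicit false

namespace UW727

open Set Filter Topology
open scoped ENNReal

universe u

/-- **Labels from the width.** -/
theorem labels_of_width {M : Type u} [MetricSpace M] [CompactSpace M] {L : ℝ} (hL : 0 < L)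
    (hw : urysohnWidth 1 M < ENNReal.ofReal L) :
    ∃ (δ : ℝ) (Λ : Type u) (lb : M → Λ), 0 < δ ∧ (∀ x y, lb x = lb y → dist x y < L) ∧
      ∀ x y z, dist x y < δ → dist y z < δ → dist x z < δ →
        lb x = lb y ∨ lb y = lb z ∨ lb x = lb z := by
  unfold urysohnWidth at hw
  simp only [iInf_lt_iff] at hw
  obtain ⟨V, K, hK, f, hf, hlt⟩ := hw
  obtain ⟨e, he1, he2⟩ := exists_between hlt
  have he : e ≠ ⊤ := (lt_of_lt_of_le he2 le_top).ne
  set C : ℝ := e.toReal with hCdef
  have hC0 : 0 ≤ C := ENNReal.toReal_nonneg
  have hCL : C < L := by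
    have h1 : e.toReal < (ENNReal.ofReal L).toReal :=
      (ENNReal.toReal_lt_toReal he ENNReal.ofReal_ne_top).2 he2
    rwa [ENNReal.toReal_ofReal hL.le] at h1
  have hfv : ∀ v, Continuous fun x => (f x).1 v := fun v =>
    (continuous_apply v).comp (continuous_subtype_val.comp hf)
  have hon : ∀ x, OnEdge (f x).1 := fun x => onEdge_of_realization hK (f x)
  have hfib : ∀ x y, (f x).1 = (f y).1 → dist x y ≤ C := by
    intro x y h
    have h' : f x = f y := Subtype.ext h
    have h1 : edist x y ≤ Metric.ediam (f ⁻¹' {f y}) :=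
      Metric.edist_le_ediam_of_mem (by rw [mem_preimage, mem_singleton_iff]; exact h')
        (by rw [mem_preimage, mem_singleton_iff])
    have h2 : edist x y ≤ e :=
      (h1.trans (le_iSup (fun y => Metric.ediam (f ⁻¹' {y})) (f y))).trans he1.le
    rw [edist_dist] at h2
    have h3 := (ENNReal.toReal_le_toReal ENNReal.ofReal_ne_top he).2 h2
    rwa [ENNReal.toReal_ofReal dist_nonneg] at h3
  obtain ⟨η, hη, hclose⟩ := fib_close (Z := M) (X := M) (V := V) (φ := fun x => (f x).1) hfv
    (g := fun x => x) continuous_id hfib (ε := L - C) (by linarith)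
  obtain ⟨n, hn⟩ := exists_nat_gt (1 / η)
  have hn0 : 0 < n := by
    have : (0 : ℝ) < n := lt_trans (by positivity) hn
    exact_mod_cast this
  have hn0' : (0 : ℝ) < n := by exact_mod_cast hn0
  have hnη : (1 : ℝ) / n ≤ η := by
    rw [div_lt_iff₀ hη] at hn
    rw [div_le_iff₀ hn0']
    linarith
  obtain ⟨δ, hδ, hunif⟩ := equi_unif (Z := M) (V := V) (φ := fun x => (f x).1) hfv hon
    (ε := 1 / (8 * n)) (by positivity)
  refine ⟨δ, V → ℤ, fun x => lab n (f x).1, hδ, ?_, ?_⟩
  · intro x y hxy
    have h1 := hclose x y (fun v => (lab_close hn0 hxy v).trans hnη)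
    simpa using h1
  · intro x y z hxy hyz hxz
    have h8 : (0 : ℝ) ≤ 1 / (8 * n) := by positivity
    have hself : ∀ w v, |(f w).1 v - (f w).1 v| ≤ 1 / (8 * n) := by
      intro w v
      rw [sub_self, abs_zero]
      exact h8
    have hxy' := hunif x y hxy
    have hyz' := hunif y z hyz
    have hxz' := hunif x z hxz
    have key := lab_two (V := V) hn0 (y := ![(f x).1, (f y).1, (f z).1]) (by
      intro i
      fin_cases i
      · exact hon x
      · exact hon y
      · exact hon z) (by
      intro i j v
      fin_cases i <;> fin_cases j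
      · exact hself x v
      · exact hxy' v
      · exact hxz' v
      · rw [abs_sub_comm]; exact hxy' v
      · exact hself y v
      · exact hyz' v
      · rw [abs_sub_comm]; exact hxz' v
      · rw [abs_sub_comm]; exact hyz' v
      · exact hself z v)
    exact key

/-- Lower bound for the width: if every labelling with at most two labels on `δ`-close triples has two points with the same
label at distance at least `L`, then `L ≤ UW_1(M)`. -/
theorem le_width_of_labels {M : Type u} [MetricSpace M] [CompactSpace M] {L : ℝ} (hL : 0 < L)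
    (h : ∀ (δ : ℝ) (Λ : Type u) (lb : M → Λ), 0 < δ →
      (∀ x y z, dist x y < δ → dist y z < δ → dist x z < δ →
        lb x = lb y ∨ lb y = lb z ∨ lb x = lb z) → ∃ x y, lb x = lb y ∧ L ≤ dist x y) :
    ENNReal.ofReal L ≤ urysohnWidth 1 M := by
  by_contra hcon
  obtain ⟨δ, Λ, lb, hδ, h1, h2⟩ := labels_of_width hL (not_le.1 hcon)
  obtain ⟨x, y, hxy, hd⟩ := h δ Λ lb hδ h2
  exact absurd (h1 x y hxy) (not_lt.2 hd)

end UW727
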