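import Pool.Agent.Work.MP_727c87_cx.E1.Met
import Pool.Agent.Work.MP_727c87_cx.E1.LabelsOfWidth

/-!
# No small labelling implies large width (block FIN, helper53)
-/

set_option autoImplicit false

open Set Complex
open scoped ContDiff NNReal

noncomputable section

namespace Pool.CX

namespace FIN

lemma qq_eq (s : ℝ) (hs : 2 ≤ s) : qq s = s := by
  unfold qq
  rw [Real.smoothTransition.one_of_one_le (by linarith)]
  ring

lemma mem_SS (Mo : Model) (hG6 : Stmt_G6) (g : Mo.Q) (u : ℂ) (hu : u ∈ PP)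
    (h : g ∉ Mo.D ∨ ∃ j, lv j u = 0) : Psi Mo.L g u 1 ∈ Mo.SS := by
  refine ⟨g, u, 1, ⟨hG6.2.2.2.1 hu, fun _ => by simp, fun hd => ?_⟩, rfl⟩
  rcases h with h | ⟨j, hj⟩
  · exact absurd hd h
  · have h3 : 3 < ‖u‖ ^ 2 := by
      by_contra hcon
      have := hG6.2.2.2.2.2.2.2 u (not_lt.1 hcon) j
      rw [hj] at this
      norm_num at this
    refine ⟨?_, ?_⟩
    · show 1 ≤ ‖u‖
      nlinarith [norm_nonneg u]
    · show ‖(1 : ℂ)‖ ^ 2 * qq (‖u‖ ^ 2 - 1) = ‖u‖ ^ 2 - 1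
      rw [qq_eq _ (by linarith)]; simp

lemma Psi_cross (Mo : Model) (hG6 : Stmt_G6) (hS2 : Stmt_S2) (g : Mo.Q) (j : ZMod 12) (u v : ℂ)
    (hu : u ∈ PP) (hj : lv j u = 0) : Psi Mo.L (Mo.L.τ j g) u v = Psi Mo.L g u v := by
  have hR : R j u = u := by unfold R; rw [hj]; simp
  have hu' : u ∈ PPo := hG6.2.2.2.1 hu
  have e1 : nbr Mo.L g (some (j, false)) = Mo.L.τ j g := rfl
  have e2 : mv (some (j, false)) u = u := hR
  have h := (hS2 Mo g u v hu').2.2.2.1 (some (j, false)) (by rw [e2]; exact hu')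
  rwa [e1, e2] at h

lemma blk_cont (hG4 : Stmt_G4) (v : ℂ) : Continuous (fun u : ℂ => blk u v) := by
  have hb : Continuous beta := hG4.2.2.2.1.continuous
  unfold blk
  fun_prop

lemma Psi_cont (hG4 : Stmt_G4) (Mo : Model) (g : Mo.Q) (v : ℂ) :
    Continuous (fun u : ℂ => Psi Mo.L g u v) := by
  refine continuous_pi (fun h => ?_)
  unfold Psi
  refine continuous_finsetSum _ (fun n _ => ?_)
  by_cases hn : nbr Mo.L g n = h
  · simp only [if_pos hn]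
    exact (blk_cont hG4 v).comp (hG4.2.2.1 n).continuous
  · simp only [if_neg hn]
    exact continuous_const

variable {Mo : Model} {ε : ℝ}

open Classical in
/-- points of the ambient space as points of the manifold -/
def toM (Z : Realz Mo ε) (p : Amb Mo.Q) : Z.M.Pt :=
  if h : p ∈ Mo.SS then Z.e.symm ⟨p, h⟩ else Classical.choice Z.M.connectedSpace.toNonempty

lemma e_toM (Z : Realz Mo ε) {p : Amb Mo.Q} (hp : p ∈ Mo.SS) :
    (Z.e (toM Z p) : Amb Mo.Q) = p := by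
  unfold toM
  rw [dif_pos hp, Homeomorph.apply_symm_apply]

lemma toM_cont (Z : Realz Mo ε) : ContinuousOn (toM Z) Mo.SS := by
  rw [continuousOn_iff_continuous_domRestrict]
  have h : Mo.SS.domRestrict (toM Z) = Z.e.symm := by
    funext p
    show toM Z p = _
    unfold toM
    rw [dif_pos p.2]
  rw [h]
  exact Z.e.symm.continuous

/-- the hypotheses on the kite maps -/
def KMap (κ : ZMod 12 → ℝ → ℝ → ℂ) : Prop :=
  (∀ i, ContinuousOn (fun x : ℝ × ℝ => κ i x.1 x.2) (Icc 0 1 ×ˢ Icc 0 1)) ∧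
    ∀ i s t, 0 ≤ s → s ≤ 1 → 0 ≤ t → t ≤ 1 →
      κ i s t ∈ kite i ∧ κ (i + 1) s 0 = κ i 0 s ∧ lv i (κ i 1 t) = 0 ∧ lv (i + 1) (κ i s 1) = 0

/-- the point of the ambient space with the kite coordinates `s`, `t` in the flag `y` -/
def gp (κ : ZMod 12 → ℝ → ℝ → ℂ) (y : Mo.F) (s t : ℝ) : Amb Mo.Q := Psi Mo.L y.1 (κ y.2 s t) 1

/-- uniform continuity -/
lemma unif (hG4 : Stmt_G4) (hG6 : Stmt_G6) (Z : Realz Mo ε) {κ : ZMod 12 → ℝ → ℝ → ℂ}
    (hκ : KMap κ) (δ : ℝ) (hδ : 0 < δ) :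
    ∃ η : ℝ, 0 < η ∧ ∀ y : Mo.F, y.1 ∉ Mo.D → ∀ x x' : ℝ × ℝ, x ∈ Icc (0 : ℝ) 1 ×ˢ Icc (0 : ℝ) 1 →
      x' ∈ Icc (0 : ℝ) 1 ×ˢ Icc (0 : ℝ) 1 → dist x x' < η →
      dist (toM Z (gp κ y x.1 x.2)) (toM Z (gp κ y x'.1 x'.2)) < δ := by
  have h1 : ∀ y : Mo.F, ∃ η : ℝ, 0 < η ∧ (y.1 ∉ Mo.D → ∀ x x' : ℝ × ℝ,
      x ∈ Icc (0 : ℝ) 1 ×ˢ Icc (0 : ℝ) 1 → x' ∈ Icc (0 : ℝ) 1 ×ˢ Icc (0 : ℝ) 1 → dist x x' < η →
      dist (toM Z (gp κ y x.1 x.2)) (toM Z (gp κ y x'.1 x'.2)) < δ) := by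
    intro y
    by_cases hy : y.1 ∈ Mo.D
    · exact ⟨1, one_pos, fun h => absurd hy h⟩
    · have hc : ContinuousOn (fun x : ℝ × ℝ => toM Z (gp κ y x.1 x.2))
          (Icc (0 : ℝ) 1 ×ˢ Icc (0 : ℝ) 1) := by
        have hc1 : ContinuousOn (fun x : ℝ × ℝ => (gp κ y x.1 x.2 : Amb Mo.Q))
            (Icc (0 : ℝ) 1 ×ˢ Icc (0 : ℝ) 1) :=
          (Psi_cont hG4 Mo y.1 1).comp_continuousOn (hκ.1 y.2)
        refine (toM_cont Z).comp hc1 ?_
        intro x hx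
        exact mem_SS Mo hG6 y.1 _ (hκ.2 y.2 x.1 x.2 hx.1.1 hx.1.2 hx.2.1 hx.2.2).1.1 (Or.inl hy)
      have hcomp : IsCompact (Icc (0 : ℝ) 1 ×ˢ Icc (0 : ℝ) 1) := isCompact_Icc.prod isCompact_Icc
      have hu := hcomp.uniformContinuousOn_of_continuous hc
      rw [Metric.uniformContinuousOn_iff] at hu
      obtain ⟨η, hη, h⟩ := hu δ hδ
      exact ⟨η, hη, fun _ x x' hx hx' hd => h x hx x' hx' hd⟩
  choose η hη h2 using h1
  have : Nonempty Mo.F := ⟨(Classical.choice Mo.nonempty, 0)⟩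
  obtain ⟨y0, hmin⟩ := Finite.exists_min η
  exact ⟨η y0, hη y0, fun y hy x x' hx hx' hd => h2 y hy x x' hx hx' (hd.trans_le (hmin y))⟩

lemma frac_mem {h i : ℕ} (hh : 0 < h) (hi : i ≤ h) : (i : ℝ) / h ∈ Icc (0 : ℝ) 1 := by
  have h0 : (0 : ℝ) < h := by exact_mod_cast hh
  refine ⟨by positivity, ?_⟩
  rw [div_le_one h0]
  exact_mod_cast hi

lemma frac_self {h : ℕ} (hh : 0 < h) : (h : ℝ) / h = 1 :=
  div_self (by exact_mod_cast hh.ne')

lemma Dle_mono (C : Cov Mo) {k k' : ℕ} (hk : k ≤ k') {y y' : C.Y} (h : C.Dle k y y') :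
    C.Dle k' y y' := by
  induction hk with
  | refl => exact h
  | step _ ih => exact ⟨y', ih, Or.inl rfl⟩

/-- the labelling of the grid -/
def lab (hG6 : Stmt_G6) (hS2 : Stmt_S2) (Z : Realz Mo ε) {κ : ZMod 12 → ℝ → ℝ → ℂ}
    (hκ : KMap κ) {Λ : Type} (lb : Z.M.Pt → Λ) (δ : ℝ)
    (hlb : ∀ x y z, dist x y < δ → dist y z < δ → dist x z < δ →
        lb x = lb y ∨ lb y = lb z ∨ lb x = lb z) (h : ℕ) (hh : 0 < h)
    (hun : ∀ y : Mo.F, y.1 ∉ Mo.D → ∀ x x' : ℝ × ℝ, x ∈ Icc (0 : ℝ) 1 ×ˢ Icc (0 : ℝ) 1 →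
      x' ∈ Icc (0 : ℝ) 1 ×ˢ Icc (0 : ℝ) 1 → dist x x' ≤ 1 / h →
      dist (toM Z (gp κ y x.1 x.2)) (toM Z (gp κ y x'.1 x'.2)) < δ) : Lab Mo h Λ where
  l y i j := lb (toM Z (gp κ y ((i : ℝ) / h) ((j : ℝ) / h)))
  ray := by
    intro y i hi _
    have hi' := frac_mem hh hi
    have h1 := (hκ.2 y.2 ((i : ℝ) / h) 0 hi'.1 hi'.2 le_rfl zero_le_one).2.1
    have h2 : (gp κ (Mo.fr y) ((i : ℝ) / h) (((0 : ℕ) : ℝ) / h) : Amb Mo.Q) =
        gp κ y (((0 : ℕ) : ℝ) / h) ((i : ℝ) / h) := by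
      show Psi Mo.L y.1 (κ (y.2 + 1) ((i : ℝ) / h) (((0 : ℕ) : ℝ) / h)) 1 =
        Psi Mo.L y.1 (κ y.2 (((0 : ℕ) : ℝ) / h) ((i : ℝ) / h)) 1
      rw [Nat.cast_zero, zero_div, h1]
    rw [h2]
  side := by
    intro y j hj
    have hj' := frac_mem hh hj
    have hk := hκ.2 y.2 1 ((j : ℝ) / h) zero_le_one le_rfl hj'.1 hj'.2
    have h2 : (gp κ (Mo.fa y) ((h : ℝ) / h) ((j : ℝ) / h) : Amb Mo.Q) =
        gp κ y ((h : ℝ) / h) ((j : ℝ) / h) := by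
      rw [frac_self hh]
      exact Psi_cross Mo hG6 hS2 y.1 y.2 _ 1 hk.1.1 hk.2.2.1
    rw [h2]
  side' := by
    intro y i hi
    have hi' := frac_mem hh hi
    have hk := hκ.2 y.2 ((i : ℝ) / h) 1 hi'.1 hi'.2 zero_le_one le_rfl
    have hb : Mo.base.b y = (Mo.L.τ (y.2 + 1) y.1, y.2) := by
      show Mo.fr.symm (Mo.fa (Mo.fr y)) = _
      simp only [Model.fa, Model.fr, Equiv.coe_fn_mk, Equiv.coe_fn_symm_mk, add_sub_cancel_right]
    have h2 : (gp κ (Mo.base.b y) ((i : ℝ) / h) ((h : ℝ) / h) : Amb Mo.Q) =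
        gp κ y ((i : ℝ) / h) ((h : ℝ) / h) := by
      rw [frac_self hh, hb]
      exact Psi_cross Mo hG6 hS2 y.1 (y.2 + 1) _ 1 hk.1.1 hk.2.2.2
    rw [h2]
  tri := by
    intro y hy i j hi hj
    have h0 : (0 : ℝ) < h := by exact_mod_cast hh
    have key : ∀ a b a' b' : ℕ, a ≤ h → b ≤ h → a' ≤ h → b' ≤ h → a' ≤ a + 1 → a ≤ a' + 1 →
        b' ≤ b + 1 → b ≤ b' + 1 →
        dist (toM Z (gp κ y ((a : ℝ) / h) ((b : ℝ) / h)))
          (toM Z (gp κ y ((a' : ℝ) / h) ((b' : ℝ) / h))) < δ := by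
      intro a b a' b' ha hb ha' hb' c1 c2 c3 c4
      refine hun y hy ((a : ℝ) / h, (b : ℝ) / h) ((a' : ℝ) / h, (b' : ℝ) / h)
        ⟨frac_mem hh ha, frac_mem hh hb⟩ ⟨frac_mem hh ha', frac_mem hh hb'⟩ ?_
      have aux : ∀ c c' : ℕ, c' ≤ c + 1 → c ≤ c' + 1 →
          dist ((c : ℝ) / h) ((c' : ℝ) / h) ≤ 1 / h := by
        intro c c' e1 e2
        rw [Real.dist_eq, ← sub_div, abs_div, abs_of_pos h0]
        apply div_le_div_of_nonneg_right _ h0.le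
        rw [abs_le]
        have e1' : (c' : ℝ) ≤ c + 1 := by exact_mod_cast e1
        have e2' : (c : ℝ) ≤ c' + 1 := by exact_mod_cast e2
        constructor <;> linarith
      rw [Prod.dist_eq]
      exact max_le (aux a a' c1 c2) (aux b b' c3 c4)
    refine ⟨?_, ?_⟩
    · exact hlb _ _ _ (key i j (i + 1) j (by omega) (by omega) (by omega) (by omega) (by omega)
        (by omega) (by omega) (by omega)) (key (i + 1) j (i + 1) (j + 1) (by omega) (by omega)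
        (by omega) (by omega) (by omega) (by omega) (by omega) (by omega)) (key i j (i + 1) (j + 1)
        (by omega) (by omega) (by omega) (by omega) (by omega) (by omega) (by omega) (by omega))
    · exact hlb _ _ _ (key i j i (j + 1) (by omega) (by omega) (by omega) (by omega) (by omega)
        (by omega) (by omega) (by omega)) (key i (j + 1) (i + 1) (j + 1) (by omega) (by omega)
        (by omega) (by omega) (by omega) (by omega) (by omega) (by omega)) (key i j (i + 1) (j + 1)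
        (by omega) (by omega) (by omega) (by omega) (by omega) (by omega) (by omega) (by omega))

/-- grid points lie in the manifold -/
lemma gp_mem (hG6 : Stmt_G6) {κ : ZMod 12 → ℝ → ℝ → ℂ} (hκ : KMap κ) (h : ℕ) (hh : 0 < h)
    (y : Mo.F) (i j : ℕ) (hp : Mo.PV h y i j) :
    κ y.2 ((i : ℝ) / h) ((j : ℝ) / h) ∈ PP ∧
      (gp κ y ((i : ℝ) / h) ((j : ℝ) / h) : Amb Mo.Q) ∈ Mo.SS := by
  obtain ⟨hi, hj, hd⟩ := hp
  have hi' := frac_mem hh hi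
  have hj' := frac_mem hh hj
  have hk := hκ.2 y.2 ((i : ℝ) / h) ((j : ℝ) / h) hi'.1 hi'.2 hj'.1 hj'.2
  refine ⟨hk.1.1, mem_SS Mo hG6 y.1 _ hk.1.1 ?_⟩
  rcases hd with hd | hd | hd
  · exact Or.inl hd
  · refine Or.inr ⟨y.2, ?_⟩
    have h1 := hk.2.2.1
    rw [hd, frac_self hh]
    exact h1
  · refine Or.inr ⟨y.2 + 1, ?_⟩
    have h1 := hk.2.2.2
    rw [hd, frac_self hh]
    exact h1

end FIN

theorem stmt_FIN (hG4 : Stmt_G4) (hG6 : Stmt_G6) (_hS1 : Stmt_S1) (hS2 : Stmt_S2) (hM5 : Stmt_M5)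
    (hKM : Stmt_KM) : Stmt_FIN := by
  obtain ⟨N, hN⟩ := hM5
  obtain ⟨κ, hκ1, hκ2⟩ := hKM
  have hκ : FIN.KMap κ := ⟨hκ1, hκ2⟩
  refine ⟨N + 1, Nat.succ_pos N, ?_⟩
  intro Mo ε Z L K hns hK
  rcases Nat.eq_zero_or_pos L with hL | hL
  · subst hL
    simp
  · have hL' : (0 : ℝ) < L := by exact_mod_cast hL
    have key : ENNReal.ofReal (L : ℝ) ≤ UW727.urysohnWidth 1 Z.M.Pt := by
      apply UW727.le_width_of_labels hL'
      intro δ Λ lb hδ hlb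
      obtain ⟨η, hη, hun⟩ := FIN.unif hG4 hG6 Z hκ δ hδ
      obtain ⟨n, hn⟩ := exists_nat_one_div_lt hη
      have hh : 0 < n + 1 := Nat.succ_pos n
      obtain ⟨y, y', i, j, i', j', hp, hp', hl, hD⟩ := hns (n + 1) Λ
        (FIN.lab hG6 hS2 Z hκ lb δ hlb (n + 1) hh (by
          intro y hy x x' hx hx' hd
          refine hun y hy x x' hx hx' (lt_of_le_of_lt hd ?_)
          push_cast
          exact hn)) hh
      obtain ⟨m1, m2⟩ := FIN.gp_mem hG6 hκ (n + 1) hh y i j hp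
      obtain ⟨m1', m2'⟩ := FIN.gp_mem hG6 hκ (n + 1) hh y' i' j' hp'
      refine ⟨_, _, hl, ?_⟩
      by_contra hcon
      push Not at hcon
      apply hD
      refine FIN.Dle_mono Mo.base ?_ (hN Mo ε Z _ _ y y' L ?_ ?_ hcon.le)
      · refine le_trans (Nat.mul_le_mul_right _ (Nat.le_succ N)) hK
      · show 0 < ((Z.e _ : Amb Mo.Q) y.1).1
        rw [FIN.e_toM Z m2]
        have hb := (hS2 Mo y.1 _ 1 (hG6.2.2.2.1 m1)).1
        show 0 < (Psi Mo.L y.1 (κ y.2 _ _) 1 y.1).1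
        rw [hb]
        show 0 < beta _
        exact (hG4.2.2.2.2.2.2.2 _).2 (hG6.2.2.2.1 m1)
      · show 0 < ((Z.e _ : Amb Mo.Q) y'.1).1
        rw [FIN.e_toM Z m2']
        have hb := (hS2 Mo y'.1 _ 1 (hG6.2.2.2.1 m1')).1
        show 0 < (Psi Mo.L y'.1 (κ y'.2 _ _) 1 y'.1).1
        rw [hb]
        show 0 < beta _
        exact (hG4.2.2.2.2.2.2.2 _).2 (hG6.2.2.2.1 m1')
    rwa [ENNReal.ofReal_natCast] at key

end Pool.CX
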