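import Pool.Agent.Work.MP_727c87_cx.E1.Mfd
import Pool.Agent.Work.MP_bc4532_gt.Manifold
import Pool.Agent.Work.MP_727c87_gt_helper49.Defs

/-!
# The metric of the 3-manifold of a model

The Riemannian metric is induced by the smooth map `FF ε` from the ambient space to a Euclidean
space; its components are

* `ε` times the coordinates of the ambient space,
* for every arc `b` the tube function `tb b` (equal to `1` on the core of the arc `b`),
* for every chamber `g` the function `th g = beta_g * ∏ (1 - phi)`.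

The tube functions are built from the functions `phi y`, `y = (g, i)` a flag; `phi y` depends only
on the block of `g`: it is `1` near the side `i` of `g`, and, if `g` is not a defect, also in the
central part of the chamber at the height `ctr (hgt y)` of the chord through the side `i`. -/

open Set Complex ComplexConjugate Bundle
open scoped ContDiff NNReal Manifold
open Pool.Agent.Work.MP_bc4532_gt (ClosedRiemannianManifold)

noncomputable section

namespace Pool.CX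

/-- `1` for `x ≤ 1/4`, `0` for `x ≥ 3/10` -/
def sidef (x : ℝ) : ℝ := 1 - Real.smoothTransition (20 * (x - 1 / 4))

/-- `0` for `x ≤ 1/10`, `1` for `x ≥ 1/5` -/
def cenf (x : ℝ) : ℝ := Real.smoothTransition (10 * (x - 1 / 10))

/-- `1` where all the levels are at least `1/5`, `0` where one of them is at most `1/10` -/
def Gf (u : ℂ) : ℝ := ∏ k : ZMod 12, cenf (lv k u)

/-- bump function around the height `ctr h` of the circle (support: distance at most `1/4`) -/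
def ef (h : ZMod 12) (v : ℂ) : ℝ := Real.smoothTransition (2 - 32 * ‖v - ctr h‖ ^ 2)

open Classical in
/-- model of `phi` in the coordinates `(u, v)` -/
def tf (d : Prop) (i h : ZMod 12) (u v : ℂ) : ℝ :=
  1 - (1 - sidef (lv i u)) * (1 - if d then 0 else ef h v * Gf u)

/-- model of `phi` on the blocks `(b, b u, b v)`; zero for `b ≤ 1/4` -/
def ph (d : Prop) (i h : ZMod 12) (y : ℝ × ℂ × ℂ) : ℝ :=
  Real.smoothTransition (4 * y.1 - 1) * tf d i h ((y.1⁻¹ : ℂ) * y.2.1) ((y.1⁻¹ : ℂ) * y.2.2)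

/-- the midpoint of the side `i` -/
def mid (i : ZMod 12) : ℂ := ((rho / √tau2 : ℝ) : ℂ) * ctr i

namespace Model
variable (Mo : Model)

/-- the height of the chord through the side of a flag -/
def hgt (y : Mo.F) : ZMod 12 := if y.2.val < (Mo.mu y.1 y.2).val then y.2 else Mo.mu y.1 y.2

/-- arcs -/
def Arc : Type := Quot Mo.base.SameArc

instance : Finite Mo.Arc :=
  haveI : Finite Mo.base.Y := inferInstanceAs (Finite (Mo.Q × ZMod 12))
  Finite.of_surjective (Quot.mk Mo.base.SameArc) Quot.mk_surjective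

instance : Fintype Mo.Arc := Fintype.ofFinite _

instance : DecidableEq Mo.Arc := Classical.decEq _

/-- the arc which crosses the side of a flag -/
def arc (y : Mo.F) : Mo.Arc := Quot.mk _ y

/-- the function of a flag -/
def phi (y : Mo.F) (p : Amb Mo.Q) : ℝ := ph (y.1 ∈ Mo.D) y.2 (Mo.hgt y) (p y.1)

/-- the tube function of an arc -/
def tb (b : Mo.Arc) (p : Amb Mo.Q) : ℝ := 1 - ∏ y : Mo.F, if Mo.arc y = b then 1 - Mo.phi y p else 1

/-- the function of a chamber -/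
def th (g : Mo.Q) (p : Amb Mo.Q) : ℝ := (p g).1 * ∏ y : Mo.F, (1 - Mo.phi y p)

/-- indices of the components -/
abbrev J : Type := (Mo.Q × Fin 5) ⊕ (Mo.Arc ⊕ Mo.Q)

/-- the components of the immersion -/
def comp (ε : ℝ) (p : Amb Mo.Q) : Mo.J → ℝ
  | Sum.inl (g, k) => ε * ![(p g).1, (p g).2.1.re, (p g).2.1.im, (p g).2.2.re, (p g).2.2.im] k
  | Sum.inr (Sum.inl b) => Mo.tb b p
  | Sum.inr (Sum.inr g) => Mo.th g p

/-- the map which induces the metric -/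
def FF (ε : ℝ) (p : Amb Mo.Q) : EuclideanSpace ℝ Mo.J := WithLp.toLp 2 (Mo.comp ε p)

end Model

/-- A realisation of the model by a closed Riemannian 3-manifold: the manifold `M`, a homeomorphism
`e` with the subset `SS` of the ambient space, and the relation of the distance with the map `FF ε`. -/
structure Realz (Mo : Model) (ε : ℝ) where
  M : ClosedRiemannianManifold
  finrank : Module.finrank ℝ M.E = 3
  e : M.Pt ≃ₜ Mo.SS
  /-- `FF ε` is `1`-Lipschitz for the Riemannian distance -/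
  low : ∀ x y : M.Pt, ‖Mo.FF ε (e x) - Mo.FF ε (e y)‖ ≤ dist x y
  /-- curves in a chart -/
  up : ∀ (g : Mo.Q) (σ : ℝ → ℂ × ℝ) (a b B : ℝ), ContDiff ℝ ∞ σ → a ≤ b → 0 ≤ B →
    (∀ t ∈ Icc a b, σ t ∈ chDom (g ∈ Mo.D)) →
    (∀ t ∈ Ioo a b, ‖deriv (fun t => Mo.FF ε (Mo.PhiM g (σ t))) t‖ ≤ B) →
    ∀ x y : M.Pt, (e x : Amb Mo.Q) = Mo.PhiM g (σ a) → (e y : Amb Mo.Q) = Mo.PhiM g (σ b) →
      dist x y ≤ B * (b - a)
  /-- curves in a chart: regularity and length -/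
  crv : ∀ (g : Mo.Q) (σ : ℝ → ℂ × ℝ) (a b B : ℝ) (γ : ℝ → M.Pt), ContDiff ℝ ∞ σ → a ≤ b → 0 ≤ B →
    (∀ t ∈ Icc a b, σ t ∈ chDom (g ∈ Mo.D)) →
    (∀ t ∈ Ioo a b, ‖deriv (fun t => Mo.FF ε (Mo.PhiM g (σ t))) t‖ ≤ B) →
    (∀ t ∈ Icc a b, (e (γ t) : Amb Mo.Q) = Mo.PhiM g (σ t)) →
      ContMDiffOn 𝓘(ℝ) M.I 1 γ (Icc a b) ∧
        Manifold.pathELength M.I γ a b ≤ ENNReal.ofReal (B * (b - a))
  /-- `M` is a length space -/
  len : ∀ (x y : M.Pt) (r η : ℝ), 0 ≤ r → r ≤ dist x y → 0 < η →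
    ∃ z, dist x z ≤ r + η ∧ dist z y ≤ dist x y - r + η

namespace Realz
variable {Mo : Model} {ε : ℝ} (Z : Realz Mo ε)

/-- the closed chamber `g` -/
def Ch (g : Mo.Q) : Set Z.M.Pt :=
  {x | ∃ u v, (u, v) ∈ Loc (g ∈ Mo.D) ∧ u ∈ PP ∧ (Z.e x : Amb Mo.Q) = Psi Mo.L g u v}

/-- the closed kite of a flag (times the circle) -/
def Kt (y : Mo.F) : Set Z.M.Pt :=
  {x | ∃ u v, (u, v) ∈ Loc (y.1 ∈ Mo.D) ∧ u ∈ kite y.2 ∧ (Z.e x : Amb Mo.Q) = Psi Mo.L y.1 u v}

/-- the open chart of the chamber `g` -/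
def Op (g : Mo.Q) : Set Z.M.Pt := {x | 0 < ((Z.e x : Amb Mo.Q) g).1}

end Realz

/-- `x` and `y` are joined by an `ℓ`-Lipschitz path `[0,1] → A` -/
def SPath {M : Type} [PseudoEMetricSpace M] (A : Set M) (ℓ : ℝ≥0) (x y : M) : Prop :=
  ∃ γ : Path x y, (∀ t, γ t ∈ A) ∧ LipschitzWith ℓ γ

/-! ## Statements -/

/-- Block M1 (150 lines, deps G4): `FF ε` is smooth; elementary properties of `phi`. -/
def Stmt_M1 : Prop :=
  (∀ (d : Prop) (i h : ZMod 12), ContDiff ℝ ∞ (ph d i h)) ∧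
  (∀ (Mo : Model) (ε : ℝ), ContDiff ℝ ∞ (Mo.FF ε)) ∧
  (∀ (Mo : Model) (y : Mo.F) (p : Amb Mo.Q), 0 ≤ Mo.phi y p ∧ Mo.phi y p ≤ 1) ∧
  (∀ (Mo : Model) (y : Mo.F) (p : Amb Mo.Q), Mo.phi y p ≠ 0 → 1 / 4 < (p y.1).1)

/-- Block M0 (120 lines, deps C2, C3, M1): the realisation, from `Param.toRM` (ParamMetric.lean):
`E = ℂ × ℝ`, `W = Amb Mo.Q`, `F = FF ε ∘ incl`, derivative injective because a linear map
from `J → ℝ` to `Amb` recovers `ε • incl`. -/
def Stmt_M0 : Prop := ∀ (Mo : Model) (ε : ℝ), 0 < ε → Nonempty (Realz Mo ε)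

/-- Block M2 (150 lines, deps G3-G6, S1-S3, M1): some coordinate is large: take the chamber `g` with
`u ∈ PP`, so `(p g).1 = 1`.  At most `48` of the `phi y p` are different from `0` (at most four
chambers with nonzero block), `∏ (1 - phi y p) = ∏_b (1 - tb b p)`: if all `tb b p ≤ 1/2` then
`th g p ≥ 2⁻⁴⁸`. -/
def Stmt_M2 : Prop :=
  ∀ (Mo : Model) (p : Amb Mo.Q), p ∈ Mo.SS →
    (∃ b, (2 : ℝ)⁻¹ ^ 48 ≤ Mo.tb b p) ∨ ∃ g, (2 : ℝ)⁻¹ ^ 48 ≤ Mo.th g p

/-- Block M3 (60 lines, deps M1, M2): close points are in chambers touched by a common arc (or in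
the same chart): a component `≥ 2⁻⁴⁸` at `x` is positive at `y`. -/
def Stmt_M3 : Prop :=
  ∀ (Mo : Model) (ε : ℝ) (Z : Realz Mo ε) (x y : Z.M.Pt), dist x y < (2 : ℝ)⁻¹ ^ 48 →
    ∃ f f' : Mo.F, Mo.base.SameArc f f' ∧ x ∈ Z.Op f.1 ∧ y ∈ Z.Op f'.1

/-- Block M4 (80 lines, deps S1, S2): flags of chambers whose charts contain the same point are
within 40 steps. -/
def Stmt_M4 : Prop :=
  ∀ (Mo : Model) (p : Amb Mo.Q) (f f' : Mo.F), p ∈ Mo.SS → 0 < (p f.1).1 → 0 < (p f'.1).1 →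
    Mo.base.Dle 40 f f'

/-- Block M5 (80 lines, deps M3, M4): LOWER bound of the distance (chain of points from `len`). -/
def Stmt_M5 : Prop :=
  ∃ N : ℕ, ∀ (Mo : Model) (ε : ℝ) (Z : Realz Mo ε) (x y : Z.M.Pt) (f f' : Mo.F) (L : ℕ),
    x ∈ Z.Op f.1 → y ∈ Z.Op f'.1 → dist x y ≤ L → Mo.base.Dle (N * (L + 1)) f f'

/-- Block U0 (150 lines, deps G4, G6, C1, M1): the finitely many model functions have bounded
derivatives on the compact sets `{e ∈ chDom d, chU d e ∈ PP}` (compact: image under `chG` of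
the compact set `{x ∈ Loc d, x.1 ∈ PP}`). -/
def Stmt_U0 : Prop :=
  (∀ d : Prop, IsCompact {e | e ∈ chDom d ∧ chU d e ∈ PP}) ∧
  ∃ C : ℝ, ∀ (d d' : Prop) (n : Nbr) (i h : ZMod 12) (e : ℂ × ℝ), e ∈ chDom d → chU d e ∈ PP →
    ‖fderiv ℝ (fun e => blk (mv n (chU d e)) (chV d e)) e‖ ≤ C ∧
    ‖fderiv ℝ (fun e => ph d' i h (blk (mv n (chU d e)) (chV d e))) e‖ ≤ C

/-- Block U1 (200 lines, deps U0, S1, S2, M1): uniform bound of the derivative of `FF ε` in the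
charts; in directions in which the functions `tb`, `th` are constant to first order there is a factor `ε`. -/
def Stmt_U1 : Prop :=
  ∃ C : ℝ, 0 ≤ C ∧ ∀ (Mo : Model) (g : Mo.Q) (ε : ℝ) (e w : ℂ × ℝ), 0 < ε → ε ≤ 1 →
    e ∈ chDom (g ∈ Mo.D) → chU (g ∈ Mo.D) e ∈ PP →
    ‖fderiv ℝ (fun e => Mo.FF ε (Mo.PhiM g e)) e w‖ ≤ C * ‖w‖ ∧
    ((∀ b, fderiv ℝ (fun e => Mo.tb b (Mo.PhiM g e)) e w = 0) →
      (∀ h, fderiv ℝ (fun e => Mo.th h (Mo.PhiM g e)) e w = 0) →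
      ‖fderiv ℝ (fun e => Mo.FF ε (Mo.PhiM g e)) e w‖ ≤ ε * C * ‖w‖)

/-- Block KP (200 lines, deps U1, G6, C1): two points of a kite are joined by a short path in the
kite: radial segment to the core circle of the solid torus (`|w| = 10, h = 0`), rotation
(non-defect: of `v`, at `u = 0`; defect: of `u/|u|`, inside the sector), radial segment. -/
def Stmt_KP : Prop :=
  ∃ C : ℝ≥0, ∀ (Mo : Model) (ε : ℝ) (Z : Realz Mo ε) (f : Mo.F) (x y : Z.M.Pt), 0 < ε → ε ≤ 1 →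
    x ∈ Z.Kt f → y ∈ Z.Kt f → SPath (Z.Kt f) C x y

/-- Block CO (150 lines, deps G1, G3, G5): the model function `tf` at the points of a core: on the side
midpoint at every height `v`, and on the segment from the side midpoint to the centre at the height
of the chord; the values in the neighbour chamber across the side. `mid i` has `lv i = 0`,
`lv (i±1) = √τ² ≈ 0.366`; `lv k (t mid i) ≥ 0.36` for `k ≠ i`, `0 ≤ t ≤ 1`. -/
def Stmt_CO : Prop :=
  (∀ i, mid i ∈ PP ∧ lv i (mid i) = 0 ∧ R i (mid i) = mid i ∧ 3 < ‖mid i‖ ^ 2) ∧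
  (∀ i k (t : ℝ), k ≠ i → 0 ≤ t → t ≤ 1 → 9 / 25 ≤ lv k (t * mid i)) ∧
  (∀ (d : Prop) i k h v, k ≠ i → tf d k h (mid i) v = 0) ∧
  (∀ (d : Prop) i h v, tf d i h (mid i) v = 1) ∧
  (∀ i h (t : ℝ), 0 ≤ t → t ≤ 1 → tf False i h (t * mid i) (ctr h) = 1) ∧
  (∀ i k h h' (t : ℝ), k ≠ i → h ≠ h' → 0 ≤ t → t ≤ 1 → tf False k h' (t * mid i) (ctr h) = 0) ∧
  (∀ (d : Prop) i k h v (t : ℝ), k ≠ i → 0 ≤ t → t ≤ 1 → R i (t * mid i) ∈ PPo →
    tf d k h (R i (t * mid i)) v = 0) ∧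
  (∀ i (n : Nbr) (t : ℝ), 0 ≤ t → t ≤ 1 → mv n (t * mid i) ∈ PPo → n = none ∨ n = some (i, false))

/-- Block CT (150 lines, deps CO, S1, S2, M1): the functions `tb`, `th` are constant on the cores: for `f` a
flag over a non-defect chamber, `tb (arc f) = 1`, the other `tb` and all `th` vanish at the points
`(mid i, v)`, `‖v‖ = 1`, and `(t mid i, ctr (hgt f))` of the chamber. -/
def Stmt_CT : Prop :=
  ∀ (Mo : Model) (f : Mo.F), f.1 ∉ Mo.D → ∀ p : Amb Mo.Q,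
    ((∃ v : ℂ, ‖v‖ = 1 ∧ p = Psi Mo.L f.1 (mid f.2) v) ∨
      (∃ t : ℝ, 0 ≤ t ∧ t ≤ 1 ∧ p = Psi Mo.L f.1 (t * mid f.2) (ctr (Mo.hgt f)))) →
    (∀ b, Mo.tb b p = if b = Mo.arc f then 1 else 0) ∧ ∀ g, Mo.th g p = 0

/-- Block CP (200 lines, deps CT, U1, C1, G6): the core path of a chord is short. -/
def Stmt_CP : Prop :=
  ∃ C : ℝ≥0, ∀ (Mo : Model) (ε : ℝ≥0) (Z : Realz Mo ε) (f : Mo.F) (x y : Z.M.Pt), 0 < ε → ε ≤ 1 →
    f.1 ∉ Mo.D → (Z.e x : Amb Mo.Q) = Psi Mo.L f.1 (mid f.2) 1 →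
    (Z.e y : Amb Mo.Q) = Psi Mo.L f.1 (mid (Mo.mu f.1 f.2)) 1 → SPath (Z.Ch f.1) (ε * C) x y

/-- Block KM (120 lines, deps G1): the kite maps
`κ i (s,t) = (s ctr i + t ctr (i+1)) / (τ √(1/ρ² + 2st - s²t²))`.
`lv i (κ) ≥ 0` is `0 ≤ (1-s²)(1/ρ²+t²)`; the levels of the other sides are at least the smaller
of `lv i`, `lv (i+1)` (their scalar products with `ctr i`, `ctr (i+1)` are at most `√3/2`). -/
def Stmt_KM : Prop :=
  ∃ κ : ZMod 12 → ℝ → ℝ → ℂ,
    (∀ i, ContinuousOn (fun x : ℝ × ℝ => κ i x.1 x.2) (Icc 0 1 ×ˢ Icc 0 1)) ∧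
    ∀ i s t, 0 ≤ s → s ≤ 1 → 0 ≤ t → t ≤ 1 →
      κ i s t ∈ kite i ∧ κ (i + 1) s 0 = κ i 0 s ∧ lv i (κ i 1 t) = 0 ∧ lv (i + 1) (κ i s 1) = 0

/-- Block FIN (200 lines, deps KM, M5, S2, S3 and `le_width_of_labels` of LabelsOfWidth.lean): no small
labelling implies large width.  Given a labelling `lb` of `M` with two equal labels on `δ`-close triples:
`h` large such that the points `Psi g (κ i (a/h) (b/h)) 1` of neighbouring grid points are
`δ`-close (uniform continuity, finitely many flags); `l (g,i) a b` := label of this point. -/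
def Stmt_FIN : Prop :=
  ∃ c : ℕ, 0 < c ∧ ∀ (Mo : Model) (ε : ℝ) (Z : Realz Mo ε) (L K : ℕ), Mo.NoSmallLabelling K →
    c * (L + 1) ≤ K → (L : ENNReal) ≤ UW727.urysohnWidth 1 Z.M.Pt

end Pool.CX
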