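import Pool.Agent.Work.MP_727c87_cx.E1.Met
import Pool.Agent.Work.MP_727c87_cx.E2.Defs

/-!
# The flag cover of the realisation

`UU y`, `y = (g, k)` a flag: the points of the chart of `g` whose position `u` is in the open
neighbourhood `{|u| < 1} ∪ {-1/5 < Im (u conj ctr k), Im (u conj ctr (k+1)) < 1/5}` of the
sector between the directions `k` and `k + 1`.

The border of the parts E1 and E2 is `Stmt_MFC` (Final.lean). -/

open Set Complex ComplexConjugate Bundle Topology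
open scoped ContDiff NNReal Manifold unitInterval ENNReal
open Pool.Agent.Work.MP_bc4532_gt (ClosedRiemannianManifold)

noncomputable section

namespace Pool.CX

/-- `√(1 + |u|²)` -/
def hh (u : ℂ) : ℝ := √(1 + ‖u‖ ^ 2)

/-- neighbourhood of the sector between the directions `k` and `k + 1` -/
def Sec (k : ZMod 12) (u : ℂ) : Prop :=
  ‖u‖ < 1 ∨ (-(1 / 5) < (u * conj (ctr k)).im ∧ (u * conj (ctr (k + 1))).im < 1 / 5)

/-- position of a point in the chart `g` -/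
def pos {Q : Type} (g : Q) (p : Amb Q) : ℂ := ((p g).1⁻¹ : ℂ) * (p g).2.1

/-- rotation of the fibres -/
def rot {Q : Type} (z : ℂ) (p : Amb Q) : Amb Q := fun g => ((p g).1, (p g).2.1, z * (p g).2.2)

namespace Model
variable (Mo : Model)

/-- the open set of a flag, in the ambient space -/
def UU (y : Mo.F) : Set (Amb Mo.Q) := {p | 0 < (p y.1).1 ∧ Sec y.2 (pos y.1 p)}

end Model

namespace Realz
variable {Mo : Model} {ε : ℝ} (Z : Realz Mo ε)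

/-- the open set of a flag -/
def U (y : Mo.F) : Set Z.M.Pt := {x | (Z.e x : Amb Mo.Q) ∈ Mo.UU y}

end Realz

/-! ## Statements -/

/-- Block HG (80 lines): geodesics of the hyperboloid: `Z = (1-s)(u, hh u) + s (u', hh u')`,
`N = √(Z₀² - |Z_u|²) ≥ 1`, `γ u u' s = Z_u / N` (then `hh (γ u u' s) = Z₀ / N`).  Conditions
`a hh u + Re (u b) < c` with `c ≥ 0` are preserved, and the same with `≤`. -/
def Stmt_HG : Prop :=
  ∃ γ : ℂ → ℂ → ℝ → ℂ, (∀ u u', ContinuousOn (γ u u') (Icc 0 1)) ∧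
    (∀ u', ContinuousOn (fun x : ℂ × ℝ => γ x.1 u' x.2) (univ ×ˢ Icc 0 1)) ∧
    (∀ u u', γ u u' 0 = u) ∧ (∀ u u', γ u u' 1 = u') ∧
    (∀ (a : ℝ) (b : ℂ) (c : ℝ) (u u' : ℂ), 0 ≤ c → a * hh u + (u * b).re < c →
      a * hh u' + (u' * b).re < c →
      ∀ s : ℝ, 0 ≤ s → s ≤ 1 → a * hh (γ u u' s) + (γ u u' s * b).re < c)

/-- Block LC (120 lines, deps G3, G4, S1, S2, S3): local coordinates of a point of `SS` in every chart
which contains it; uniqueness; the fibre coordinate is the same in all charts. -/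
def Stmt_LC : Prop :=
  ∀ (Mo : Model) (p : Amb Mo.Q), p ∈ Mo.SS →
    (∀ g, 0 < (p g).1 → ((pos g p, ((p g).1⁻¹ : ℂ) * (p g).2.2) ∈ Loc (g ∈ Mo.D) ∧
      p = Psi Mo.L g (pos g p) (((p g).1⁻¹ : ℂ) * (p g).2.2))) ∧
    (∀ g u v, (u, v) ∈ Loc (g ∈ Mo.D) → p = Psi Mo.L g u v →
      0 < (p g).1 ∧ pos g p = u ∧ ((p g).1⁻¹ : ℂ) * (p g).2.2 = v) ∧
    (∀ g h, 0 < (p g).1 → 0 < (p h).1 → ∃ n : Nbr, nbr Mo.L g n = h ∧ pos h p = mv n (pos g p) ∧
      mv n (pos g p) ∈ PPo ∧ ((p h).1⁻¹ : ℂ) * (p h).2.2 = ((p g).1⁻¹ : ℂ) * (p g).2.2)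

/-- Block SE (150 lines, deps G1, G2, G3, G5): the sectors.  Write `u = s ctr i + t ctr (i+1)`,
`s, t ≥ 0` (`Im (u conj ctr i) = t/2`, `Im (u conj ctr (i+1)) = -s/2`, `|u| ≤ s + t`).  For `|u| ≥ 1`:
`u` in the closed sector `i` implies that `Sec k u` only for `k ∈ {i-1, i, i+1}` and not for both
`i-1`, `i+1`.  Near the side `j` (`u, R j u ∈ PPo`): `Sec k u ↔ Sec k (R j u)`, and `Sec k u` implies
`k = j - 1` or `k = j`.  Near the corner `j`: only `k = j`, at `u`, `R j u`, `R (j+1) u`, `R j (R (j+1) u)`. -/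
def Stmt_SE : Prop :=
  (∀ u : ℂ, 1 ≤ ‖u‖ → ∃ k, (∀ l, Sec l u ↔ l = k) ∨ (∀ l, Sec l u ↔ (l = k ∨ l = k + 1))) ∧
  (∀ j u, u ∈ PPo → R j u ∈ PPo → 1 ≤ ‖u‖ ∧ ∀ l, (Sec l u ↔ Sec l (R j u)) ∧ (Sec l u → l = j - 1 ∨ l = j)) ∧
  (∀ j u, u ∈ PPo → R j (R (j + 1) u) ∈ PPo → ∀ l,
    (Sec l u ↔ l = j) ∧ (Sec l (R j (R (j + 1) u)) ↔ l = j)) ∧
  (∀ j u, u ∈ PPo → lv j u < 1 / 100 → lv (j + 1) u < 1 / 100 → ∀ l, Sec l u ↔ l = j)

/-- Block NS (150 lines, deps LC, SE, G3, G5, S1): the near shapes. -/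
def Stmt_NS : Prop :=
  ∀ (Mo : Model) (p : Amb Mo.Q), p ∈ Mo.SS → NearShape Mo {f | p ∈ Mo.UU f}

/-- Block CV (100 lines, deps LC, SE, CO, KM, S2, G4, G6): the special points (corner, midpoint, centre) at height `1`,
the anchors, openness, covering. -/
def Stmt_CV : Prop :=
  ∀ (Mo : Model) (ε : ℝ) (Z : Realz Mo ε),
    (∀ f, IsOpen (Z.U f)) ∧ (∀ m, ∃ f, m ∈ Z.U f) ∧
    (∀ f, ∃ m, m ∈ Z.U f ∧ m ∈ Z.U (Mo.fa f) ∧ m ∈ Z.U (Mo.base.b f) ∧ m ∈ Z.U (Mo.fa (Mo.base.b f))) ∧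
    (∀ f, ∃ m, m ∈ Z.U f ∧ m ∈ Z.U (Mo.fr f) ∧ m ∈ Z.U (Mo.base.b f) ∧ m ∈ Z.U (Mo.fa (Mo.fr f))) ∧
    (∀ q : Mo.Q, q ∉ Mo.D → ∃ m, ∀ k, m ∈ Z.U (q, k))

/-- Block PC (150 lines, deps G1, G4, G6, C1, LC, S2): path connectedness of `U f` and `U f ∩ U (fr f)`:
radial retraction in the chart to the core circle (non-defect: `u = 0`; defect: `|u| = 1`, where
the admissible directions form an arc). -/
def Stmt_PC : Prop :=
  ∀ (Mo : Model) (ε : ℝ) (Z : Realz Mo ε), (∀ f, IsPathConnected (Z.U f)) ∧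
    ∀ f, IsPathConnected (Z.U f ∩ Z.U (Mo.fr f))

/-- Block PA (150 lines, deps HG, LC, SE, G1, G3, G4, G5, S1, S2, S3): path connectedness of `U f ∩ U (fa f)` and
`U f ∩ U (b f)`: all the conditions (`u ∈ PPo`, `R j u ∈ PPo`, sector) are of the form treated in HG;
`|v| = 1` there. -/
def Stmt_PA : Prop :=
  ∀ (Mo : Model) (ε : ℝ) (Z : Realz Mo ε), (∀ f, IsPathConnected (Z.U f ∩ Z.U (Mo.fa f))) ∧
    ∀ f, IsPathConnected (Z.U f ∩ Z.U (Mo.base.b f))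

/-- Block RO (100 lines, deps LC, S2, C1): the circle acts on `SS`, with a fixed point on the core of a
defect chamber (`v = 0`, `|u| = 1`; there is a defect by `Mo.cut`). -/
def Stmt_RO : Prop :=
  ∀ (Mo : Model), (∀ (z : ℂ) (p : Amb Mo.Q), ‖z‖ = 1 → p ∈ Mo.SS → rot z p ∈ Mo.SS) ∧
    ∃ p ∈ Mo.SS, ∀ z : ℂ, rot z p = p

/-- Block NU (200 lines, deps RO, LC, C1, G4, G6, HG, S2): null-homotopic inclusions.  Non-defect: contract
`u` to `0` in the chart (`PPo` and the sectors are star-shaped), then `(z, s) ↦ rot z (β s)` where `β` is a path in `M`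
from the centre of the chamber (`u = 0, v = 1`) to the fixed point of RO (`M` is path connected).  Defect: contract
the chart radially to the core (`|u| = 1, v = 0`), then the arc of directions to a point. -/
def Stmt_NU : Prop :=
  ∀ (Mo : Model) (ε : ℝ) (Z : Realz Mo ε), (∀ f, NullIncl (Z.U f)) ∧ ∀ q, q ∉ Mo.D → NullIncl (Z.Op q)

/-- The anchors and the closed kites (deps G1, G4, G6, S2, LC, CO; 80 lines): block AK. -/
def Stmt_AK : Prop :=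
  ∀ (Mo : Model) (ε : ℝ) (Z : Realz Mo ε),
    (∀ f, Z.Kt f ⊆ Z.U f) ∧ (∀ m, ∃ f, m ∈ Z.Kt f) ∧ (∀ q, Z.Ch q ⊆ Z.Op q) ∧
    ∃ anchor : Mo.F → Z.M.Pt,
      (∀ f, (Z.e (anchor f) : Amb Mo.Q) = Psi Mo.L f.1 (mid f.2) 1) ∧
      (∀ f, anchor f ∈ Z.Kt f) ∧ (∀ f, anchor (Mo.fr f) ∈ Z.Kt f) ∧
      ∀ f, anchor (Mo.fa f) = anchor f

end Pool.CX
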