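import Pool.Agent.Work.MP_727c87_cx.Defs

/-!
# The right-angled 12-gon in hyperboloid coordinates

The plane `ℂ` (a point `u` stands for the point `(u, √(1+|u|²))` of the hyperboloid), the twelve
centres `ctr j`, the level functions `lv j`, the reflections `R j`, the closed polygon `PP` and its
open neighbourhood `PPo`, the cut-off function `beta`.
-/

open Set Complex ComplexConjugate
open scoped ContDiff

noncomputable section

namespace Pool.CX

/-- `ρ = √(cos (π/6))` -/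
def rho : ℝ := √(√3 / 2)

/-- `τ² = 1 - cos (π/6)` -/
def tau2 : ℝ := 1 - √3 / 2

/-- the direction `exp(iπj/6)` of the side `j` -/
def ctr (j : ZMod 12) : ℂ := ZMod.stdAddChar j

/-- the level function of the side `j`: zero on the side, positive on the side of the polygon -/
def lv (j : ZMod 12) (u : ℂ) : ℝ := √(1 + ‖u‖ ^ 2) - (u * conj (ctr j)).re / rho

/-- the reflection in the side `j` -/
def R (j : ZMod 12) (u : ℂ) : ℂ := u + ((2 * rho / tau2 * lv j u : ℝ) : ℂ) * ctr j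

/-- the closed right-angled 12-gon -/
def PP : Set ℂ := {u | ∀ j, 0 ≤ lv j u}

/-- an open neighbourhood of the 12-gon -/
def PPo : Set ℂ := {u | ∀ j, -(1 / 100) < lv j u}

/-- the cut-off function: `1` exactly on `PP`, positive exactly on `PPo` -/
def beta (u : ℂ) : ℝ := ∏ j : ZMod 12, Real.smoothTransition (1 + 100 * lv j u)

/-- the closed kite between the sides `i` and `i + 1` -/
def kite (i : ZMod 12) : Set ℂ :=
  {u | u ∈ PP ∧ 0 ≤ (u * conj (ctr i)).im ∧ 0 ≤ (ctr (i + 1) * conj u).im}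

/-- the words of length at most two in commuting letters: `none` = empty word, `some (j, false)` =
`s_j`, `some (j, true)` = `s_j s_{j+1}` -/
abbrev Nbr : Type := Option (ZMod 12 × Bool)

/-- the action of the words on the plane -/
def mv : Nbr → ℂ → ℂ
  | none, u => u
  | some (j, false), u => R j u
  | some (j, true), u => R j (R (j + 1) u)

/-- the action of the words on the chambers -/
def nbr {Q : Type} (L : Pool.CS.LS G12 Q) (g : Q) : Nbr → Q
  | none => g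
  | some (j, false) => L.τ j g
  | some (j, true) => L.τ j (L.τ (j + 1) g)

/-! ## Statements -/

/-- Block G1 (120 lines): the directions. `ctr (i+j) = ctr i * ctr j` is `AddChar.map_add_eq_mul`,
`‖ctr j‖ = 1`; `(ctr i * conj (ctr j)).re = cos (2π (i-j)/12)`: the value is `√3/2` for
neighbours and at most `1/2` otherwise (`i ≠ j`).  Values by `fin_cases` on `i - j`. -/
def Stmt_G1 : Prop :=
  (∀ j, ‖ctr j‖ = 1) ∧
  (∀ j, (ctr j * conj (ctr (j + 1))).re = √3 / 2) ∧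
  (∀ j, (ctr (j + 1) * conj (ctr j)).im = 1 / 2) ∧
  (∀ i j, i ≠ j → j ≠ i + 1 → i ≠ j + 1 → (ctr i * conj (ctr j)).re ≤ 1 / 2) ∧
  (∀ i j, i ≠ j → 1 / 2 ≤ ‖ctr i - ctr j‖)

/-- Block G2 (100 lines): every direction is within 15 degrees of one of the twelve:
`u = |u| e^{iθ}`, `j` = nearest integer to `6θ/π`; `cos 15° ≥ 0.965`.  Moreover `u` lies in one of
the twelve closed sectors. -/
def Stmt_G2 : Prop :=
  (∀ u : ℂ, ∃ j, 0.965 * ‖u‖ ≤ (u * conj (ctr j)).re) ∧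
  (∀ u : ℂ, ∃ i, 0 ≤ (u * conj (ctr i)).im ∧ 0 ≤ (ctr (i + 1) * conj u).im)

/-- Block G3 (150 lines): the reflections.  Key identity (i): with `g = (ρ² - ctr i · ctr j)/τ²`,
`lv i (R j u) = lv i u + 2 g lv j u`; it follows from
`1 + |R j u|² = (√(1+|u|²) + (2ρ²/τ²) lv j u)²` (expand; `1 - ρ² = τ²`), the bracket being
positive: it equals `((1+ρ²) √(1+|u|²) - 2ρ Re(u conj c))/τ²`, and
`(1+ρ²)² - (2ρ)² = (1-ρ²)² > 0`. -/
def Stmt_G3 : Prop :=
  (∀ i j u, lv i (R j u) = lv i u + 2 * ((rho ^ 2 - (ctr i * conj (ctr j)).re) / tau2) * lv j u) ∧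
  (∀ j u, lv j (R j u) = -lv j u) ∧
  (∀ j u, lv (j + 1) (R j u) = lv (j + 1) u) ∧
  (∀ j u, lv j (R (j + 1) u) = lv j u) ∧
  (∀ j u, R j (R j u) = u) ∧
  (∀ j u, R j (R (j + 1) u) = R (j + 1) (R j u))

/-- Block G4 (80 lines): smoothness: `lv j`, `R j` and `mv n` are smooth on `ℂ`; `beta` is smooth
with values in `[0,1]`, `beta u = 1 ↔ u ∈ PP`, `0 < beta u ↔ u ∈ PPo`. -/
def Stmt_G4 : Prop :=
  (∀ j, ContDiff ℝ ∞ (lv j)) ∧ (∀ j, ContDiff ℝ ∞ (R j)) ∧ (∀ n, ContDiff ℝ ∞ (mv n)) ∧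
  ContDiff ℝ ∞ beta ∧ (∀ u, 0 ≤ beta u) ∧ (∀ u, beta u ≤ 1) ∧ (∀ u, beta u = 1 ↔ u ∈ PP) ∧
  (∀ u, 0 < beta u ↔ u ∈ PPo)

/-- Block G5 (120 lines): separation.  For non-adjacent `i ≠ k`:
`lv i u + lv k u ≥ 2√(1+|u|²) - |u| |ctr i + ctr k| / ρ` and `|ctr i + ctr k| ≤ √3`, so
`lv i u + lv k u ≥ √(4 - 3/ρ²) = 0.732`.
Hence for `u ∈ PPo` there is `j` such that all words `n` with `mv n u ∈ PPo` are among
`none, s_j, s_{j+1}, s_j s_{j+1}` (use `lv k (R k u) = - lv k u`,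
`lv k (R k (R (k+1) u)) = - lv k u`, `lv (k+1) (R k (R (k+1) u)) = - lv (k+1) u`). -/
def Stmt_G5 : Prop :=
  (∀ i k u, i ≠ k → k ≠ i + 1 → i ≠ k + 1 → 7 / 10 ≤ lv i u + lv k u) ∧
  (∀ u ∈ PPo, ∃ j : ZMod 12, (∀ k, lv k u < 1 / 100 → k = j ∨ k = j + 1) ∧
    ∀ n : Nbr, mv n u ∈ PPo →
      n = none ∨ n = some (j, false) ∨ n = some (j + 1, false) ∨ n = some (j, true))

/-- Block G6 (150 lines): boundedness and reduction to the closed polygon.  `PPo` lies in the ball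
of radius `9` (G2).  For `u ∈ PPo` some word `n` moves `u` into `PP`: apply `R j` for the (at most
two, adjacent) sides `j` with `lv j u < 0`; other levels: `g ≤ 14` and `|lv j u| < 1/100`, the
levels of the sides not adjacent to `j` are at least `0.69`, after the first reflection at least
`0.69 - 0.28`. -/
def Stmt_G6 : Prop :=
  (∀ u ∈ PPo, ‖u‖ < 9) ∧ IsCompact PP ∧ IsOpen PPo ∧ PP ⊆ PPo ∧
  (∀ u ∈ PPo, ∃ n : Nbr, mv n u ∈ PP) ∧
  (∀ u ∈ PP, ∀ t : ℝ, 0 ≤ t → t ≤ 1 → (t : ℂ) * u ∈ PP) ∧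
  (∀ u ∈ PPo, ∀ t : ℝ, 0 ≤ t → t ≤ 1 → (t : ℂ) * u ∈ PPo) ∧
  (∀ u, ‖u‖ ^ 2 ≤ 3 → ∀ j, 1 / 10 < lv j u)

end Pool.CX
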