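import Pool.Agent.Work.MP_727c87_cx.E1.Flag

/-! # Block HG: geodesics of the hyperboloid (helper44) -/

open Set Complex ComplexConjugate

noncomputable section

namespace Pool.CX

namespace HG

theorem hh_pos (u : ℂ) : 0 < hh u := by
  unfold hh
  exact Real.sqrt_pos.2 (by positivity)

theorem hh_sq (u : ℂ) : hh u ^ 2 = 1 + (u.re ^ 2 + u.im ^ 2) := by
  unfold hh
  rw [Real.sq_sqrt (by positivity), Complex.sq_norm, Complex.normSq_apply]
  ring

theorem hh_cont : Continuous hh := by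
  unfold hh
  fun_prop

theorem key (u u' : ℂ) : 1 + (u.re * u'.re + u.im * u'.im) ≤ hh u * hh u' := by
  apply abs_le_of_sq_le_sq' _ (mul_pos (hh_pos u) (hh_pos u')).le |>.2
  rw [mul_pow, hh_sq, hh_sq]
  nlinarith [sq_nonneg (u.re - u'.re), sq_nonneg (u.im - u'.im),
    sq_nonneg (u.re * u'.im - u.im * u'.re)]

/-- the height of the chord -/
def Z0 (u u' : ℂ) (s : ℝ) : ℝ := (1 - s) * hh u + s * hh u'

/-- the horizontal part of the chord -/
def Zu (u u' : ℂ) (s : ℝ) : ℂ := ((1 - s : ℝ) : ℂ) * u + (s : ℂ) * u'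

/-- square of the Lorentz norm of the chord -/
def Q (u u' : ℂ) (s : ℝ) : ℝ := Z0 u u' s ^ 2 - ‖Zu u u' s‖ ^ 2

theorem one_le_Q (u u' : ℂ) {s : ℝ} (h0 : 0 ≤ s) (h1 : s ≤ 1) : 1 ≤ Q u u' s := by
  have hk := key u u'
  have h2 := hh_sq u
  have h3 := hh_sq u'
  have e : Q u u' s = (1 - s) ^ 2 * (hh u ^ 2 - (u.re ^ 2 + u.im ^ 2)) +
      s ^ 2 * (hh u' ^ 2 - (u'.re ^ 2 + u'.im ^ 2)) +
      2 * (s * (1 - s)) * (hh u * hh u' - (u.re * u'.re + u.im * u'.im)) := by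
    unfold Q Z0 Zu
    rw [Complex.sq_norm, Complex.normSq_apply]
    simp only [Complex.add_re, Complex.mul_re, Complex.ofReal_re, Complex.ofReal_im, Complex.add_im,
      Complex.mul_im, zero_mul, sub_zero, add_zero]
    ring
  rw [e, h2, h3]
  have h4 : 0 ≤ s * (1 - s) := mul_nonneg h0 (by linarith)
  have h5 : 2 * (s * (1 - s)) * 1 ≤
      2 * (s * (1 - s)) * (hh u * hh u' - (u.re * u'.re + u.im * u'.im)) :=
    mul_le_mul_of_nonneg_left (by linarith) (by linarith)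
  have e2 : (1 - s) ^ 2 * (1 + (u.re ^ 2 + u.im ^ 2) - (u.re ^ 2 + u.im ^ 2)) +
      s ^ 2 * (1 + (u'.re ^ 2 + u'.im ^ 2) - (u'.re ^ 2 + u'.im ^ 2)) + 2 * (s * (1 - s)) * 1 = 1 := by
    ring
  linarith

theorem one_le_N (u u' : ℂ) {s : ℝ} (h0 : 0 ≤ s) (h1 : s ≤ 1) : 1 ≤ √(Q u u' s) :=
  Real.one_le_sqrt.2 (one_le_Q u u' h0 h1)

/-- the geodesic -/
def ga (u u' : ℂ) (s : ℝ) : ℂ := (((√(Q u u' s))⁻¹ : ℝ) : ℂ) * Zu u u' s

theorem hh_ga (u u' : ℂ) {s : ℝ} (h0 : 0 ≤ s) (h1 : s ≤ 1) :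
    hh (ga u u' s) = (√(Q u u' s))⁻¹ * Z0 u u' s := by
  have hN := one_le_N u u' h0 h1
  have hNp : 0 < √(Q u u' s) := by linarith
  have hZ : 0 ≤ Z0 u u' s :=
    add_nonneg (mul_nonneg (by linarith) (hh_pos u).le) (mul_nonneg h0 (hh_pos u').le)
  have hr : 0 ≤ (√(Q u u' s))⁻¹ * Z0 u u' s := mul_nonneg (inv_nonneg.2 hNp.le) hZ
  have hQ : √(Q u u' s) ^ 2 = Q u u' s :=
    Real.sq_sqrt (by linarith [one_le_Q u u' h0 h1])
  unfold hh
  rw [Real.sqrt_eq_iff_mul_self_eq (by positivity) hr]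
  unfold ga
  rw [norm_mul, Complex.norm_real, Real.norm_of_nonneg (inv_nonneg.2 hNp.le)]
  have e : ‖Zu u u' s‖ ^ 2 = Z0 u u' s ^ 2 - √(Q u u' s) ^ 2 := by
    rw [hQ]; unfold Q; ring
  rw [mul_pow, e]
  field_simp
  ring

end HG

open HG in
/-- block HG -/
theorem stmt_HG : Stmt_HG := by
  have hQ : Continuous fun x : (ℂ × ℂ) × ℝ => Q x.1.1 x.1.2 x.2 := by
    unfold Q Z0 Zu
    have := hh_cont
    fun_prop
  have hZ : Continuous fun x : (ℂ × ℂ) × ℝ => Zu x.1.1 x.1.2 x.2 := by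
    unfold Zu
    fun_prop
  have hc : ContinuousOn (fun x : (ℂ × ℂ) × ℝ => ga x.1.1 x.1.2 x.2) (univ ×ˢ Icc 0 1) := by
    unfold ga
    refine ContinuousOn.mul (Complex.continuous_ofReal.comp_continuousOn
      (ContinuousOn.inv₀ (Real.continuous_sqrt.comp hQ).continuousOn ?_)) hZ.continuousOn
    rintro ⟨⟨u, u'⟩, s⟩ ⟨-, h0, h1⟩
    have := one_le_N u u' h0 h1
    intro h
    simp only at h
    rw [h] at this
    linarith
  refine ⟨ga, ?_, ?_, ?_, ?_, ?_⟩
  · intro u u'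
    exact hc.comp (f := fun s : ℝ => ((u, u'), s)) (by fun_prop) (fun s hs => ⟨mem_univ _, hs⟩)
  · intro u'
    exact hc.comp (f := fun x : ℂ × ℝ => ((x.1, u'), x.2)) (by fun_prop)
      (fun x hx => ⟨mem_univ _, hx.2⟩)
  · intro u u'
    have e : Q u u' 0 = 1 := by
      unfold Q Z0 Zu
      have := hh_sq u
      simp only [sub_zero, one_mul, zero_mul, add_zero, Complex.ofReal_one, Complex.ofReal_zero]
      rw [Complex.sq_norm, Complex.normSq_apply, this]
      ring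
    simp [ga, e, Zu]
  · intro u u'
    have e : Q u u' 1 = 1 := by
      unfold Q Z0 Zu
      have := hh_sq u'
      simp only [sub_self, one_mul, zero_mul, zero_add, Complex.ofReal_one, Complex.ofReal_zero]
      rw [Complex.sq_norm, Complex.normSq_apply, this]
      ring
    simp [ga, e, Zu]
  · intro a b c u u' hc0 h1 h2 s hs0 hs1
    have hN := one_le_N u u' hs0 hs1
    have hNp : 0 < √(Q u u' s) := by linarith
    have e : a * hh (ga u u' s) + (ga u u' s * b).re =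
        (√(Q u u' s))⁻¹ * ((1 - s) * (a * hh u + (u * b).re) + s * (a * hh u' + (u' * b).re)) := by
      rw [hh_ga u u' hs0 hs1]
      have e1 : (ga u u' s * b).re = (√(Q u u' s))⁻¹ * ((1 - s) * (u * b).re + s * (u' * b).re) := by
        unfold ga Zu
        rw [mul_assoc, Complex.re_ofReal_mul, add_mul, Complex.add_re, mul_assoc,
          Complex.re_ofReal_mul, mul_assoc, Complex.re_ofReal_mul]
      rw [e1]
      unfold Z0
      ring
    rw [e]
    have h3 : (1 - s) * (a * hh u + (u * b).re) + s * (a * hh u' + (u' * b).re) < c := by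
      rcases eq_or_lt_of_le hs0 with h | h
      · subst h; linarith
      · have h4 : s * (a * hh u' + (u' * b).re) < s * c := mul_lt_mul_of_pos_left h2 h
        have h5 : (1 - s) * (a * hh u + (u * b).re) ≤ (1 - s) * c :=
          mul_le_mul_of_nonneg_left h1.le (by linarith)
        linarith
    have h6 : (√(Q u u' s))⁻¹ ≤ 1 := inv_le_one_of_one_le₀ hN
    have h7 : 0 < (√(Q u u' s))⁻¹ := inv_pos.2 hNp
    calc _ < (√(Q u u' s))⁻¹ * c := mul_lt_mul_of_pos_left h3 h7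
      _ ≤ 1 * c := mul_le_mul_of_nonneg_right h6 hc0
      _ = c := one_mul c

end Pool.CX
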