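import Pool.Agent.Work.MP_727c87_cx.E1.Met

set_option autoImplicit false

open Set Complex ComplexConjugate
open scoped ContDiff NNReal

noncomputable section

namespace Pool.CX

namespace KMaux

theorem rho_sq : rho ^ 2 = √3 / 2 := by
  unfold rho
  exact Real.sq_sqrt (by positivity)

theorem rho_pos : 0 < rho := by
  unfold rho
  exact Real.sqrt_pos.mpr (by positivity)

theorem rho_sq_lt : rho ^ 2 < 1 := by
  rw [rho_sq]
  have : √3 < 2 := by
    rw [Real.sqrt_lt' (by norm_num)]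
    norm_num
  linarith

theorem tau2_eq : tau2 = 1 - rho ^ 2 := by
  rw [rho_sq]; rfl

theorem tau2_pos : 0 < tau2 := by
  rw [tau2_eq]
  have := rho_sq_lt
  linarith

/-- the quantity under the root -/
def E (a b : ℝ) : ℝ := 1 / rho ^ 2 + 2 * (a * b) - (a * b) ^ 2

theorem E_pos {a b : ℝ} (ha : 0 ≤ a) (ha1 : a ≤ 1) (hb : 0 ≤ b) (hb1 : b ≤ 1) : 0 < E a b := by
  unfold E
  have h1 : 0 ≤ a * b := mul_nonneg ha hb
  have h2 : a * b ≤ 1 := mul_le_one₀ ha1 hb hb1
  have h3 : 0 < 1 / rho ^ 2 := by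
    have := rho_pos
    positivity
  nlinarith

/-- the scalar factor -/
def fac (a b : ℝ) : ℝ := (√tau2 * √(E a b))⁻¹

theorem fac_pos {a b : ℝ} (ha : 0 ≤ a) (ha1 : a ≤ 1) (hb : 0 ≤ b) (hb1 : b ≤ 1) :
    0 < fac a b := by
  unfold fac
  have := Real.sqrt_pos.mpr tau2_pos
  have := Real.sqrt_pos.mpr (E_pos ha ha1 hb hb1)
  positivity

theorem fac_sq {a b : ℝ} (ha : 0 ≤ a) (ha1 : a ≤ 1) (hb : 0 ≤ b) (hb1 : b ≤ 1) :
    fac a b ^ 2 * (tau2 * E a b) = 1 := by
  unfold fac
  have h1 : √tau2 ^ 2 = tau2 := Real.sq_sqrt tau2_pos.le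
  have h2 : √(E a b) ^ 2 = E a b := Real.sq_sqrt (E_pos ha ha1 hb hb1).le
  have h3 := tau2_pos
  have h4 := E_pos ha ha1 hb hb1
  rw [inv_pow, mul_pow, h1, h2]
  exact inv_mul_cancel₀ (mul_pos h3 h4).ne'

/-- the kite maps -/
def kap (i : ZMod 12) (a b : ℝ) : ℂ :=
  ((fac a b : ℝ) : ℂ) * ((a : ℂ) * ctr i + (b : ℂ) * ctr (i + 1))

theorem kap_mul (i : ZMod 12) (a b : ℝ) (c : ℂ) :
    (kap i a b * conj c).re =
      fac a b * (a * (ctr i * conj c).re + b * (ctr (i + 1) * conj c).re) := by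
  unfold kap
  simp only [Complex.mul_re, Complex.add_re, Complex.add_im, Complex.mul_im, Complex.ofReal_re,
    Complex.ofReal_im, Complex.conj_re, Complex.conj_im]
  ring

variable (G1 : Stmt_G1)

include G1

theorem self_mul (j : ZMod 12) : (ctr j * conj (ctr j)).re = 1 := by
  rw [Complex.mul_conj, Complex.normSq_eq_norm_sq, G1.1 j]
  simp

theorem cross (j : ZMod 12) : (ctr (j + 1) * conj (ctr j)).re = rho ^ 2 := by
  have h := G1.2.1 j
  rw [rho_sq, ← h]
  simp only [Complex.mul_re, Complex.conj_re, Complex.conj_im]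
  ring

theorem cross' (j : ZMod 12) : (ctr j * conj (ctr (j + 1))).re = rho ^ 2 := by
  rw [rho_sq]; exact G1.2.1 j

theorem le_rho (i k : ZMod 12) (h : i ≠ k) : (ctr i * conj (ctr k)).re ≤ rho ^ 2 := by
  by_cases h1 : k = i + 1
  · rw [h1, cross' G1]
  · by_cases h2 : i = k + 1
    · rw [h2, cross G1]
    · have h3 := G1.2.2.2.1 i k h h1 h2
      have h4 : (1 : ℝ) / 2 ≤ rho ^ 2 := by
        rw [rho_sq]
        have : (1 : ℝ) ≤ √3 := by
          rw [Real.one_le_sqrt]; norm_num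
        linarith
      linarith

theorem kap_normSq (i : ZMod 12) (a b : ℝ) :
    ‖kap i a b‖ ^ 2 = fac a b ^ 2 * (a ^ 2 + b ^ 2 + 2 * (a * b) * rho ^ 2) := by
  have h1 : ‖kap i a b‖ ^ 2 = (kap i a b * conj (kap i a b)).re := by
    rw [Complex.mul_conj, Complex.ofReal_re, Complex.normSq_eq_norm_sq]
  have hi : (ctr i).re * (ctr i).re + (ctr i).im * (ctr i).im = 1 := by
    have := self_mul G1 i
    simpa [Complex.mul_re] using this
  have hi1 : (ctr (i + 1)).re * (ctr (i + 1)).re + (ctr (i + 1)).im * (ctr (i + 1)).im = 1 := by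
    have := self_mul G1 (i + 1)
    simpa [Complex.mul_re] using this
  have hc : (ctr i).re * (ctr (i + 1)).re + (ctr i).im * (ctr (i + 1)).im = rho ^ 2 := by
    have := cross' G1 i
    simpa [Complex.mul_re] using this
  rw [h1]
  unfold kap
  simp only [Complex.mul_re, Complex.add_re, Complex.add_im, Complex.mul_im, Complex.ofReal_re,
    Complex.ofReal_im, Complex.conj_re, Complex.conj_im]
  linear_combination (fac a b ^ 2 * a ^ 2) * hi + (fac a b ^ 2 * b ^ 2) * hi1 +
    (fac a b ^ 2 * (2 * (a * b))) * hc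

omit G1 in
/-- the central identity: the value `p = Re (κ conj c)` with coefficient `(a + b ρ²)` -/
theorem key (a b : ℝ) (ha : 0 ≤ a) (ha1 : a ≤ 1) (hb : 0 ≤ b) (hb1 : b ≤ 1) :
    1 + fac a b ^ 2 * (a ^ 2 + b ^ 2 + 2 * (a * b) * rho ^ 2) -
      (fac a b * (a + b * rho ^ 2) / rho) ^ 2 =
      fac a b ^ 2 * (tau2 * ((1 - a ^ 2) * (1 / rho ^ 2 + b ^ 2))) := by
  have h := fac_sq ha ha1 hb hb1
  have hr := rho_pos
  have hid : (a ^ 2 + b ^ 2 + 2 * (a * b) * rho ^ 2) - ((a + b * rho ^ 2) / rho) ^ 2 +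
      tau2 * E a b = tau2 * ((1 - a ^ 2) * (1 / rho ^ 2 + b ^ 2)) := by
    unfold E
    rw [tau2_eq]
    field_simp
    ring
  linear_combination (fac a b) ^ 2 * hid - h

theorem lv_nonneg_of {i j : ZMod 12} {a b : ℝ} (ha : 0 ≤ a) (ha1 : a ≤ 1) (hb : 0 ≤ b)
    (hb1 : b ≤ 1) (a' b' : ℝ) (ha' : 0 ≤ a') (ha1' : a' ≤ 1) (hb' : 0 ≤ b')
    (hsym : fac a' b' = fac a b) (hs2 : a' ^ 2 + b' ^ 2 + 2 * (a' * b') * rho ^ 2
      = a ^ 2 + b ^ 2 + 2 * (a * b) * rho ^ 2) (hb1' : b' ≤ 1)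
    (hle : (kap i a b * conj (ctr j)).re ≤ fac a b * (a' + b' * rho ^ 2)) :
    0 ≤ lv j (kap i a b) := by
  unfold lv
  have hr := rho_pos
  have hk := key a' b' ha' ha1' hb' hb1'
  have hf := fac_pos ha ha1 hb hb1
  have h0 : 0 ≤ fac a' b' ^ 2 * (tau2 * ((1 - a' ^ 2) * (1 / rho ^ 2 + b' ^ 2))) := by
    have := tau2_pos
    have h1 : 0 ≤ 1 - a' ^ 2 := by nlinarith
    positivity
  rw [sub_nonneg, kap_normSq G1]
  have h2 : (kap i a b * conj (ctr j)).re / rho ≤ fac a b * (a' + b' * rho ^ 2) / rho := by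
    gcongr
  refine h2.trans ?_
  apply Real.le_sqrt_of_sq_le
  rw [hsym, hs2] at hk
  rw [hsym] at h0
  linarith

theorem lv_zero_of {i j : ZMod 12} {a b : ℝ} (ha : 0 ≤ a) (ha1 : a ≤ 1) (hb : 0 ≤ b)
    (hb1 : b ≤ 1) (b' : ℝ) (hb' : 0 ≤ b')
    (hsym : fac 1 b' = fac a b) (hs2 : (1 : ℝ) ^ 2 + b' ^ 2 + 2 * (1 * b') * rho ^ 2
      = a ^ 2 + b ^ 2 + 2 * (a * b) * rho ^ 2) (hb1' : b' ≤ 1)
    (hle : (kap i a b * conj (ctr j)).re = fac a b * (1 + b' * rho ^ 2)) :
    lv j (kap i a b) = 0 := by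
  unfold lv
  have hr := rho_pos
  have hk := key 1 b' (by norm_num) (by norm_num) hb' hb1'
  have hf := fac_pos ha ha1 hb hb1
  rw [sub_eq_zero, kap_normSq G1, hle]
  rw [Real.sqrt_eq_iff_mul_self_eq_of_pos (by positivity)]
  rw [hsym, hs2] at hk
  nlinarith

omit G1 in
theorem E_comm (a b : ℝ) : E a b = E b a := by unfold E; ring

omit G1 in
theorem fac_comm (a b : ℝ) : fac a b = fac b a := by unfold fac; rw [E_comm]

end KMaux

open KMaux

theorem stmt_KM (hG1 : Stmt_G1) : Stmt_KM := by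
  refine ⟨kap, ?_, ?_⟩
  · intro i
    unfold kap fac
    have hE : Continuous fun x : ℝ × ℝ => E x.1 x.2 := by
      unfold E
      fun_prop
    have h1 : ContinuousOn (fun x : ℝ × ℝ => (√tau2 * √(E x.1 x.2))⁻¹) (Icc 0 1 ×ˢ Icc 0 1) := by
      apply ContinuousOn.inv₀
      · exact (continuous_const.mul (Real.continuous_sqrt.comp hE)).continuousOn
      · rintro ⟨a, b⟩ ⟨⟨ha, ha1⟩, hb, hb1⟩
        have h3 := Real.sqrt_pos.mpr tau2_pos
        have h4 := Real.sqrt_pos.mpr (E_pos ha ha1 hb hb1)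
        exact (mul_pos h3 h4).ne'
    apply ContinuousOn.mul
    · exact Complex.continuous_ofReal.comp_continuousOn h1
    · apply Continuous.continuousOn
      fun_prop
  · intro i s t hs hs1 ht ht1
    have hf := fac_pos hs hs1 ht ht1
    have c1 : 0 ≤ lv i (kap i s t) := by
      apply lv_nonneg_of hG1 hs hs1 ht ht1 s t hs hs1 ht rfl rfl ht1
      rw [kap_mul, self_mul hG1, cross hG1]
      linarith
    have c2 : 0 ≤ lv (i + 1) (kap i s t) := by
      apply lv_nonneg_of hG1 hs hs1 ht ht1 t s ht ht1 hs (fac_comm _ _) (by ring) hs1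
      rw [kap_mul, self_mul hG1, cross' hG1]
      linarith
    refine ⟨⟨?_, ?_, ?_⟩, ?_, ?_, ?_⟩
    · intro k
      by_cases hk : k = i
      · rw [hk]; exact c1
      · by_cases hk1 : k = i + 1
        · rw [hk1]; exact c2
        · apply lv_nonneg_of hG1 hs hs1 ht ht1 s t hs hs1 ht rfl rfl ht1
          rw [kap_mul]
          have e1 := le_rho hG1 i k (fun h => hk h.symm)
          have e2 := le_rho hG1 (i + 1) k (fun h => hk1 h.symm)
          have e3 := rho_sq_lt
          have e4 : s * (ctr i * conj (ctr k)).re + t * (ctr (i + 1) * conj (ctr k)).re ≤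
              s + t * rho ^ 2 := by
            have e5 : s * (ctr i * conj (ctr k)).re ≤ s * 1 :=
              mul_le_mul_of_nonneg_left (by linarith) hs
            have e6 : t * (ctr (i + 1) * conj (ctr k)).re ≤ t * rho ^ 2 :=
              mul_le_mul_of_nonneg_left e2 ht
            linarith
          exact mul_le_mul_of_nonneg_left e4 hf.le
    · -- im (κ conj c_i)
      have h := hG1.2.2.1 i
      have h2 : (kap i s t * conj (ctr i)).im = fac s t * (t * (ctr (i + 1) * conj (ctr i)).im) := by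
        unfold kap
        simp only [Complex.mul_re, Complex.add_re, Complex.add_im, Complex.mul_im,
          Complex.ofReal_re, Complex.ofReal_im, Complex.conj_re, Complex.conj_im]
        ring
      rw [h2, h]
      positivity
    · have h := hG1.2.2.1 i
      have h2 : (ctr (i + 1) * conj (kap i s t)).im =
          fac s t * (s * (ctr (i + 1) * conj (ctr i)).im) := by
        unfold kap
        simp only [Complex.mul_re, Complex.add_re, Complex.add_im, Complex.mul_im,
          Complex.ofReal_re, Complex.ofReal_im, Complex.conj_re, Complex.conj_im]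
        ring
      rw [h2, h]
      positivity
    · unfold kap
      rw [fac_comm s 0]
      simp
    · have hf1 := fac_pos zero_le_one le_rfl ht ht1
      apply lv_zero_of hG1 zero_le_one le_rfl ht ht1 t ht rfl rfl ht1
      rw [kap_mul, self_mul hG1, cross hG1]
      ring
    · apply lv_zero_of hG1 hs hs1 zero_le_one le_rfl s hs (fac_comm _ _) (by ring) hs1
      rw [kap_mul, self_mul hG1, cross' hG1]
      ring

end Pool.CX
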