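import Pool.Agent.Work.MP_727c87_cx.E1.SPathLib

/-!
# Block KP: two points of a kite are joined by a short path in the kite (helper63)
-/

open Set Complex ComplexConjugate Filter Topology
open scoped ContDiff NNReal

noncomputable section

namespace Pool.CX

theorem im_smul_mul_conj (t : ℝ) (u c : ℂ) : ((t : ℂ) * u * conj c).im = t * (u * conj c).im := by
  rw [mul_assoc, Complex.im_ofReal_mul]

theorem im_mul_conj_smul (t : ℝ) (u c : ℂ) : (c * conj ((t : ℂ) * u)).im = t * (c * conj u).im := by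
  rw [map_mul, Complex.conj_ofReal, mul_left_comm, Complex.im_ofReal_mul]

theorem kite_smul (hG6 : Stmt_G6) {i : ZMod 12} {u : ℂ} (hu : u ∈ kite i) {t : ℝ} (h0 : 0 ≤ t)
    (h1 : t ≤ 1) : (t : ℂ) * u ∈ kite i := by
  obtain ⟨hPP, h2, h3⟩ := hu
  obtain ⟨-, -, -, -, -, hs, -⟩ := hG6
  refine ⟨hs u hPP t h0 h1, ?_, ?_⟩
  · rw [im_smul_mul_conj]
    exact mul_nonneg h0 h2
  · rw [im_mul_conj_smul]
    exact mul_nonneg h0 h3

theorem chU_nd {d : Prop} (h : ¬ d) (e : ℂ × ℝ) : chU d e = ⟨‖e.1‖ - 10, e.2⟩ := by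
  unfold chU
  rw [if_neg h]

theorem chU_d {d : Prop} (h : d) (e : ℂ × ℝ) :
    chU d e = ((√(1 + ((‖e.1‖ - 10) ^ 2 + e.2 ^ 2)) / ‖e.1‖ : ℝ) : ℂ) * e.1 := by
  unfold chU
  rw [if_pos h]

/-- squared norm of `chU` -/
theorem normSq_chU (d : Prop) (e : ℂ × ℝ) (he : e.1 ≠ 0) :
    (‖e.1‖ - 10) ^ 2 + e.2 ^ 2 ≤ ‖chU d e‖ ^ 2 := by
  by_cases h : d
  · rw [chU_d h, norm_mul, Complex.norm_real, Real.norm_eq_abs,
      abs_of_nonneg (by positivity)]
    have hn : ‖e.1‖ ≠ 0 := norm_ne_zero_iff.mpr he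
    rw [div_mul_cancel₀ _ hn, Real.sq_sqrt (by positivity)]
    linarith
  · rw [chU_nd h, Complex.sq_norm, Complex.normSq_mk]
    apply le_of_eq
    ring

/-- the radial segment -/
theorem chU_radial (d : Prop) (e : ℂ × ℝ) (he : e.1 ≠ 0) (t : ℝ) (h0 : 0 ≤ t) (h1 : t ≤ 1) :
    (((10 + t * (‖e.1‖ - 10) : ℝ) : ℂ) * (e.1 / ‖e.1‖)) ≠ 0 ∧
    ∃ s : ℝ, 0 ≤ s ∧ s ≤ 1 ∧
      chU d (((10 + t * (‖e.1‖ - 10) : ℝ) : ℂ) * (e.1 / ‖e.1‖), t * e.2) = s * chU d e := by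
  have hn : 0 < ‖e.1‖ := norm_pos_iff.mpr he
  have hnC : (‖e.1‖ : ℂ) ≠ 0 := by
    exact_mod_cast hn.ne'
  have hr : 0 < 10 + t * (‖e.1‖ - 10) := by
    rcases h1.lt_or_eq with h | h
    · nlinarith [mul_nonneg h0 hn.le]
    · subst h
      linarith
  have hu : ‖e.1 / (‖e.1‖ : ℂ)‖ = 1 := by
    rw [norm_div, Complex.norm_real, norm_norm, div_self hn.ne']
  have hnorm : ‖((10 + t * (‖e.1‖ - 10) : ℝ) : ℂ) * (e.1 / ‖e.1‖)‖ = 10 + t * (‖e.1‖ - 10) := by
    rw [norm_mul, hu, mul_one, Complex.norm_real, Real.norm_eq_abs, abs_of_pos hr]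
  constructor
  · intro h
    rw [h, norm_zero] at hnorm
    exact hr.ne hnorm
  by_cases h : d
  · refine ⟨√(1 + t ^ 2 * ((‖e.1‖ - 10) ^ 2 + e.2 ^ 2)) / √(1 + ((‖e.1‖ - 10) ^ 2 + e.2 ^ 2)),
      by positivity, ?_, ?_⟩
    · rw [div_le_one (by positivity)]
      refine Real.sqrt_le_sqrt ?_
      have h2 : t ^ 2 ≤ 1 := by nlinarith
      have h3 : 0 ≤ (‖e.1‖ - 10) ^ 2 + e.2 ^ 2 := by positivity
      nlinarith
    · rw [chU_d h, chU_d h]
      simp only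
      rw [hnorm]
      have h4 : 1 + ((10 + t * (‖e.1‖ - 10) - 10) ^ 2 + (t * e.2) ^ 2) =
          1 + t ^ 2 * ((‖e.1‖ - 10) ^ 2 + e.2 ^ 2) := by ring
      rw [h4]
      have h5 : √(1 + ((‖e.1‖ - 10) ^ 2 + e.2 ^ 2)) ≠ 0 := by positivity
      have h5C : ((√(1 + ((‖e.1‖ - 10) ^ 2 + e.2 ^ 2)) : ℝ) : ℂ) ≠ 0 := by
        exact_mod_cast h5
      have hrC : ((10 + t * (‖e.1‖ - 10) : ℝ) : ℂ) ≠ 0 := by
        exact_mod_cast hr.ne'
      rw [Complex.ofReal_div, Complex.ofReal_div, Complex.ofReal_div]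
      field_simp
  · refine ⟨t, h0, h1, ?_⟩
    rw [chU_nd h, chU_nd h]
    simp only
    rw [hnorm]
    apply Complex.ext
    · rw [Complex.re_ofReal_mul]
      ring
    · rw [Complex.im_ofReal_mul]

/-- a segment in the coordinates of the chart -/
theorem Realz.kt_seg (hM1 : Stmt_M1) (hG4 : Stmt_G4) (hG6 : Stmt_G6) (hC1 : Stmt_C1) {C : ℝ≥0}
    (hU : U1c C) {Mo : Model} {ε : ℝ} (Z : Realz Mo ε) (h0 : 0 < ε) (h1 : ε ≤ 1) (f : Mo.F)
    (e w : ℂ × ℝ) (hne : ∀ t ∈ Icc (0 : ℝ) 1, (e + t • w).1 ≠ 0)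
    (hk : ∀ t ∈ Icc (0 : ℝ) 1, chU (f.1 ∈ Mo.D) (e + t • w) ∈ kite f.2) (B : ℝ≥0)
    (hB : ‖w‖ ≤ B) (x y : Z.M.Pt)
    (hx : (Z.e x : Amb Mo.Q) = Mo.PhiM f.1 e) (hy : (Z.e y : Amb Mo.Q) = Mo.PhiM f.1 (e + w)) :
    SPath (Z.Kt f) (C * B) x y := by
  refine Z.kt_path hM1 hG4 hG6 hC1 hU h0 h1 f (fun t => e + t • w) ?_ hne hk B ?_ x y ?_ ?_
  · fun_prop
  · intro t _
    have h2 : HasDerivAt (fun t : ℝ => e + t • w) w t := by
      have h3 := ((hasDerivAt_id t).smul_const w).const_add e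
      rw [one_smul] at h3
      exact h3
    rw [h2.deriv]
    exact hB
  · simp only [zero_smul, add_zero]
    exact hx
  · simp only [one_smul]
    exact hy

/-- from a point of the kite to the core circle -/
theorem Realz.kt_radial (hM1 : Stmt_M1) (hG4 : Stmt_G4) (hG6 : Stmt_G6) (hC1 : Stmt_C1) {C : ℝ≥0}
    (hU : U1c C) {Mo : Model} {ε : ℝ} (Z : Realz Mo ε) (h0 : 0 < ε) (h1 : ε ≤ 1) (f : Mo.F)
    (x : Z.M.Pt) (hx : x ∈ Z.Kt f) :
    ∃ (a : ℂ) (x' : Z.M.Pt), ‖a‖ = 1 ∧ (Z.e x' : Amb Mo.Q) = Mo.PhiM f.1 (10 * a, 0) ∧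
      chU (f.1 ∈ Mo.D) (10 * a, 0) ∈ kite f.2 ∧ SPath (Z.Kt f) (C * 63) x' x := by
  obtain ⟨u, v, hL, hk, hx⟩ := hx
  obtain ⟨-, -, -, -, hd⟩ := id hC1
  obtain ⟨-, -, -, hLoc, -, hG, -⟩ := hd (f.1 ∈ Mo.D)
  obtain ⟨hdom, hu, hv⟩ := hG (u, v) hL
  simp only at hdom hu hv
  set e := chG (f.1 ∈ Mo.D) u v with he
  have hPhi : Mo.PhiM f.1 e = Psi Mo.L f.1 u v := by
    unfold Model.PhiM
    rw [hu, hv]
  have hne : e.1 ≠ 0 := hdom.1
  have hn : 0 < ‖e.1‖ := norm_pos_iff.mpr hne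
  have hnC : (‖e.1‖ : ℂ) ≠ 0 := by
    exact_mod_cast hn.ne'
  have hu1 : ‖e.1 / (‖e.1‖ : ℂ)‖ = 1 := by
    rw [norm_div, Complex.norm_real, norm_norm, div_self hn.ne']
  set a : ℂ := e.1 / ‖e.1‖ with ha
  have key : ∀ t ∈ Icc (0 : ℝ) 1, (((10 + t * (‖e.1‖ - 10) : ℝ) : ℂ) * a, t * e.2).1 ≠ 0 ∧
      chU (f.1 ∈ Mo.D) (((10 + t * (‖e.1‖ - 10) : ℝ) : ℂ) * a, t * e.2) ∈ kite f.2 := by
    intro t ht
    obtain ⟨h2, s, hs0, hs1, h3⟩ := chU_radial (f.1 ∈ Mo.D) e hne t ht.1 ht.2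
    refine ⟨h2, ?_⟩
    rw [← ha] at h3
    rw [h3, hu]
    exact kite_smul hG6 hk hs0 hs1
  have key0 := key 0 ⟨le_rfl, zero_le_one⟩
  rw [zero_mul, zero_mul, add_zero] at key0
  have h10 : ((10 : ℝ) : ℂ) = 10 := by norm_num
  rw [h10] at key0
  have hdom0 : ((10 * a, 0) : ℂ × ℝ) ∈ chDom (f.1 ∈ Mo.D) :=
    ⟨key0.1, hG6.2.2.2.1 key0.2.1⟩
  have hSS : Mo.PhiM f.1 (10 * a, 0) ∈ Mo.SS := ⟨f.1, _, _, hLoc _ hdom0, rfl⟩
  have hform : ∀ t : ℝ, ((10 * a, 0) : ℂ × ℝ) + t • (((‖e.1‖ - 10 : ℝ) : ℂ) * a, e.2) =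
      (((10 + t * (‖e.1‖ - 10) : ℝ) : ℂ) * a, t * e.2) := by
    intro t
    apply Prod.ext
    · simp only [Prod.fst_add, Prod.smul_fst, Complex.real_smul]
      push_cast
      ring
    · simp only [Prod.snd_add, Prod.smul_snd, smul_eq_mul]
      ring
  refine ⟨a, Z.e.symm ⟨_, hSS⟩, hu1, ?_, key0.2, ?_⟩
  · rw [Homeomorph.apply_symm_apply]
  · have hsq := normSq_chU (f.1 ∈ Mo.D) e hne
    rw [hu] at hsq
    have hu9 : ‖u‖ < 9 := hG6.1 u (hG6.2.2.2.1 hk.1)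
    have hu81 : ‖u‖ ^ 2 ≤ 81 := by nlinarith [norm_nonneg u]
    have hb1 : |‖e.1‖ - 10| ≤ 63 := by
      apply abs_le.mpr
      constructor <;> nlinarith [sq_nonneg e.2, sq_nonneg (‖e.1‖ - 10)]
    have hb2 : |e.2| ≤ 63 := by
      apply abs_le.mpr
      constructor <;> nlinarith [sq_nonneg e.2, sq_nonneg (‖e.1‖ - 10)]
    refine Z.kt_seg hM1 hG4 hG6 hC1 hU h0 h1 f (10 * a, 0) (((‖e.1‖ - 10 : ℝ) : ℂ) * a, e.2)
      ?_ ?_ 63 ?_ _ x ?_ ?_
    · intro t ht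
      rw [hform]
      exact (key t ht).1
    · intro t ht
      rw [hform]
      exact (key t ht).2
    · rw [Prod.norm_def]
      refine max_le ?_ ?_
      · simp only
        rw [norm_mul, hu1, mul_one, Complex.norm_real, Real.norm_eq_abs]
        exact hb1
      · simp only
        rw [Real.norm_eq_abs]
        exact hb2
    · rw [Homeomorph.apply_symm_apply]
    · rw [hx, ← hPhi]
      congr 1
      have h5 := hform 1
      rw [one_smul, one_mul, one_mul] at h5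
      rw [h5]
      apply Prod.ext
      · simp only [ha]
        rw [show (10 + (‖e.1‖ - 10) : ℝ) = ‖e.1‖ by ring]
        field_simp
      · rfl

/-- rotation in a non-defect chamber -/
theorem Realz.kt_rot_nd (hM1 : Stmt_M1) (hG4 : Stmt_G4) (hG6 : Stmt_G6) (hC1 : Stmt_C1) {C : ℝ≥0}
    (hU : U1c C) {Mo : Model} {ε : ℝ} (Z : Realz Mo ε) (h0 : 0 < ε) (h1 : ε ≤ 1) (f : Mo.F)
    (hf : f.1 ∉ Mo.D) (a a' : ℂ) (ha : ‖a‖ = 1) (ha' : ‖a'‖ = 1)
    (hk : chU (f.1 ∈ Mo.D) (10 * a, 0) ∈ kite f.2) (x y : Z.M.Pt)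
    (hx : (Z.e x : Amb Mo.Q) = Mo.PhiM f.1 (10 * a, 0))
    (hy : (Z.e y : Amb Mo.Q) = Mo.PhiM f.1 (10 * a', 0)) : SPath (Z.Kt f) (C * 63) x y := by
  have e1 : ∀ b : ℂ, ‖b‖ = 1 → Complex.exp (b.arg * I) = b := by
    intro b hb
    have := Complex.norm_mul_exp_arg_mul_I b
    rw [hb, Complex.ofReal_one, one_mul] at this
    exact this
  set σ : ℝ → ℂ × ℝ := fun t =>
    (10 * Complex.exp (((a.arg + t * (a'.arg - a.arg) : ℝ) : ℂ) * I), 0) with hσ
  have hn : ∀ t, ‖(σ t).1‖ = 10 := by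
    intro t
    simp only [hσ]
    rw [norm_mul, Complex.norm_exp_ofReal_mul_I]
    norm_num
  refine Z.kt_path hM1 hG4 hG6 hC1 hU h0 h1 f σ ?_ ?_ ?_ 63 ?_ x y ?_ ?_
  · have h2 : ContDiff ℝ ∞ (fun t : ℝ => (((a.arg + t * (a'.arg - a.arg) : ℝ) : ℂ) * I)) :=
      (Complex.ofRealCLM.contDiff.comp
        (contDiff_const.add (contDiff_id.mul contDiff_const))).mul contDiff_const
    have h3 : ContDiff ℝ ∞ (fun t : ℝ => Complex.exp (((a.arg + t * (a'.arg - a.arg) : ℝ) : ℂ) * I)) :=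
      h2.cexp
    exact (contDiff_const.mul h3).prodMk contDiff_const
  · intro t _ h
    have := hn t
    rw [h, norm_zero] at this
    norm_num at this
  · intro t _
    rw [chU_nd hf]
    rw [chU_nd hf] at hk
    simp only at hk
    rw [norm_mul, ha] at hk
    rw [hn t]
    have h10 : ‖(10 : ℂ)‖ = 10 := by norm_num
    rw [h10, mul_one] at hk
    exact hk
  · intro t _
    have h2 : HasDerivAt (fun t : ℝ => (((a.arg + t * (a'.arg - a.arg) : ℝ) : ℂ) * I))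
        (((a'.arg - a.arg : ℝ) : ℂ) * I) t := by
      have h3 : HasDerivAt (fun t : ℝ => a.arg + t * (a'.arg - a.arg)) (a'.arg - a.arg) t := by
        have h4 := ((hasDerivAt_id t).mul_const (a'.arg - a.arg)).const_add a.arg
        rw [one_mul] at h4
        exact h4
      exact (h3.ofReal_comp).mul_const I
    have h3 := ((h2.cexp).const_mul (10 : ℂ)).prodMk (hasDerivAt_const t (0 : ℝ))
    have h4 : deriv σ t = _ := h3.deriv
    rw [h4, Prod.norm_def]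
    refine max_le ?_ ?_
    · simp only
      rw [norm_mul, norm_mul, norm_mul, Complex.norm_exp_ofReal_mul_I, Complex.norm_real,
        Complex.norm_I, one_mul, mul_one, Real.norm_eq_abs]
      have h10 : ‖(10 : ℂ)‖ = 10 := by norm_num
      rw [h10]
      have b1 := Complex.abs_arg_le_pi a
      have b2 := Complex.abs_arg_le_pi a'
      have b3 := abs_sub a'.arg a.arg
      have b4 := Real.pi_lt_d2
      have b5 : (((63 : ℝ≥0) : ℝ)) = 63 := by norm_num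
      rw [b5]
      linarith
    · simp
  · simp only [hσ]
    rw [zero_mul, add_zero, e1 a ha]
    exact hx
  · simp only [hσ]
    rw [one_mul, add_sub_cancel, e1 a' ha']
    exact hy

/-- rotation in a defect chamber, to the direction `ctr i` -/
theorem Realz.kt_rot_d (hM1 : Stmt_M1) (hG1 : Stmt_G1) (hG4 : Stmt_G4) (hG6 : Stmt_G6) (hC1 : Stmt_C1) {C : ℝ≥0}
    (hU : U1c C) {Mo : Model} {ε : ℝ} (Z : Realz Mo ε) (h0 : 0 < ε) (h1 : ε ≤ 1) (f : Mo.F)
    (hf : f.1 ∈ Mo.D) (a : ℂ) (ha : ‖a‖ = 1)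
    (hk : chU (f.1 ∈ Mo.D) (10 * a, 0) ∈ kite f.2) (x y : Z.M.Pt)
    (hx : (Z.e x : Amb Mo.Q) = Mo.PhiM f.1 (10 * a, 0))
    (hy : (Z.e y : Amb Mo.Q) = Mo.PhiM f.1 (10 * ctr f.2, 0)) : SPath (Z.Kt f) (C * 63) x y := by
  obtain ⟨hG1a, hG1b, hG1c, -⟩ := hG1
  obtain ⟨-, -, -, -, -, -, -, hG6h⟩ := id hG6
  have h10 : ‖(10 : ℂ)‖ = 10 := by norm_num
  set c := ctr f.2 with hc
  set c' := ctr (f.2 + 1) with hc'
  have hcn : ‖c‖ = 1 := hG1a _
  have hcc : c * conj c = 1 := by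
    rw [Complex.mul_conj, Complex.normSq_eq_norm_sq, hcn]
    norm_num
  -- `a` lies in the sector
  have hchU : chU (f.1 ∈ Mo.D) (10 * a, 0) = a := by
    rw [chU_d hf]
    simp only
    rw [norm_mul, ha, h10]
    norm_num
    ring
  rw [hchU] at hk
  obtain ⟨-, hk1, hk2⟩ := hk
  rw [← hc] at hk1
  rw [← hc'] at hk2
  -- scalar product of `a` and `c`
  have hre : √3 / 2 ≤ (a * conj c).re := by
    set b := a * conj c with hb
    have hbn : b.re ^ 2 + b.im ^ 2 = 1 := by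
      have h2 : ‖b‖ = 1 := by
        rw [hb, norm_mul, ha, Complex.norm_conj, hcn, mul_one]
      have h3 := Complex.sq_norm b
      rw [h2, Complex.normSq_apply] at h3
      nlinarith
    have hω : (c' * conj a) = (c' * conj c) * conj b := by
      rw [hb, map_mul, Complex.conj_conj]
      calc c' * conj a = c' * conj a * (c * conj c) := by rw [hcc, mul_one]
        _ = _ := by ring
    have hω1 : (c' * conj c).re = √3 / 2 := by
      have h4 := hG1b f.2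
      rw [← hc, ← hc'] at h4
      have h5 : (c' * conj c) = conj (c * conj c') := by
        rw [map_mul, Complex.conj_conj, mul_comm]
      rw [h5, Complex.conj_re]
      exact h4
    have hω2 : (c' * conj c).im = 1 / 2 := hG1c f.2
    rw [hω, Complex.mul_im, hω1, hω2, Complex.conj_re, Complex.conj_im] at hk2
    have hs3 : √3 ^ 2 = 3 := Real.sq_sqrt (by norm_num)
    have hs30 : 0 < √3 := by positivity
    -- `b.re ≥ √3 b.im`
    have h6 : √3 * b.im ≤ b.re := by linarith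
    have h7 : 0 ≤ b.re := le_trans (mul_nonneg hs30.le hk1) h6
    have h8 : 3 * b.im ^ 2 ≤ b.re ^ 2 := by
      have h9 : (√3 * b.im) ^ 2 ≤ b.re ^ 2 := pow_le_pow_left₀ (mul_nonneg hs30.le hk1) h6 2
      rw [mul_pow, hs3] at h9
      exact h9
    have h10 : 3 / 4 ≤ b.re ^ 2 := by linarith
    apply le_of_sq_le_sq _ h7
    rw [div_pow, hs3]
    linarith
  have hs3l : (1.73 : ℝ) ≤ √3 := by
    apply Real.le_sqrt_of_sq_le
    norm_num
  -- the norm on the segment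
  have hm : ∀ t ∈ Icc (0 : ℝ) 1, 0.86 ≤ ‖a + t * (c - a)‖ ∧ ‖a + (t : ℂ) * (c - a)‖ ≤ 1 := by
    intro t ht
    constructor
    · have h2 : ((a + t * (c - a)) * conj c).re = (1 - t) * (a * conj c).re + t := by
        have h3 : (a + t * (c - a)) * conj c = ((1 - t : ℝ) : ℂ) * (a * conj c) + (t : ℂ) * (c * conj c) := by
          push_cast
          ring
        rw [h3, hcc, mul_one, Complex.add_re, Complex.re_ofReal_mul, Complex.ofReal_re]
      have h4 := Complex.re_le_norm ((a + t * (c - a)) * conj c)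
      rw [h2, norm_mul, Complex.norm_conj, hcn, mul_one] at h4
      have h5 : (1 - t) * (√3 / 2) ≤ (1 - t) * (a * conj c).re :=
        mul_le_mul_of_nonneg_left hre (by linarith [ht.2])
      have h6 : (1 - t) * 0.86 ≤ (1 - t) * (√3 / 2) :=
        mul_le_mul_of_nonneg_left (by linarith) (by linarith [ht.2])
      have h7 := ht.1
      linarith
    · have h2 : a + t * (c - a) = ((1 - t : ℝ) : ℂ) * a + (t : ℂ) * c := by
        push_cast
        ring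
      rw [h2]
      refine (norm_add_le _ _).trans ?_
      rw [norm_mul, norm_mul, ha, hcn, Complex.norm_real, Complex.norm_real, Real.norm_eq_abs,
        Real.norm_eq_abs, abs_of_nonneg (by linarith [ht.2]), abs_of_nonneg ht.1]
      linarith
  have hform : ∀ t : ℝ, ((10 * a, 0) : ℂ × ℝ) + t • (10 * (c - a), (0 : ℝ)) =
      (10 * (a + t * (c - a)), 0) := by
    intro t
    apply Prod.ext
    · simp only [Prod.fst_add, Prod.smul_fst, Complex.real_smul]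
      ring
    · simp only [Prod.snd_add, Prod.smul_snd, smul_eq_mul]
      ring
  refine Z.kt_seg hM1 hG4 hG6 hC1 hU h0 h1 f (10 * a, 0) (10 * (c - a), 0) ?_ ?_ 63 ?_ x y hx ?_
  · intro t ht
    rw [hform]
    intro h
    have h2 := (hm t ht).1
    simp only at h
    have h3 : a + t * (c - a) = 0 := by
      rcases mul_eq_zero.mp h with h | h
      · norm_num at h
      · exact h
    rw [h3, norm_zero] at h2
    norm_num at h2
  · intro t ht
    rw [hform]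
    obtain ⟨hm1, hm2⟩ := hm t ht
    rw [chU_d hf]
    simp only
    set q := a + t * (c - a) with hq
    have hq10 : ‖10 * q‖ = 10 * ‖q‖ := by rw [norm_mul, h10]
    rw [hq10]
    have hqp : 0 < ‖q‖ := by linarith
    have hqC : (‖q‖ : ℂ) ≠ 0 := by exact_mod_cast hqp.ne'
    set r : ℝ := √(1 + ((10 * ‖q‖ - 10) ^ 2 + 0 ^ 2)) / ‖q‖ with hr
    have hr0 : 0 ≤ r := by positivity
    have h2 : ((√(1 + ((10 * ‖q‖ - 10) ^ 2 + 0 ^ 2)) / (10 * ‖q‖) : ℝ) : ℂ) * (10 * q) = (r : ℂ) * q := by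
      rw [hr]
      push_cast
      field_simp
    rw [h2]
    refine ⟨?_, ?_, ?_⟩
    · intro j
      have h3 : ‖(r : ℂ) * q‖ ^ 2 ≤ 3 := by
        rw [norm_mul, Complex.norm_real, Real.norm_eq_abs, abs_of_nonneg hr0, hr,
          div_mul_cancel₀ _ hqp.ne', Real.sq_sqrt (by positivity)]
        nlinarith
      linarith [hG6h _ h3 j]
    · rw [im_smul_mul_conj]
      refine mul_nonneg hr0 ?_
      have h3 : (q * conj (ctr f.2)) = ((1 - t : ℝ) : ℂ) * (a * conj c) + (t : ℂ) * (c * conj c) := by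
        rw [hq, ← hc]
        push_cast
        ring
      rw [h3, hcc, mul_one, Complex.add_im, Complex.im_ofReal_mul, Complex.ofReal_im, add_zero]
      exact mul_nonneg (by linarith [ht.2]) hk1
    · rw [im_mul_conj_smul]
      refine mul_nonneg hr0 ?_
      have h3 : (ctr (f.2 + 1) * conj q) =
          ((1 - t : ℝ) : ℂ) * (c' * conj a) + (t : ℂ) * (c' * conj c) := by
        rw [hq, ← hc', map_add, map_mul, map_sub, Complex.conj_ofReal]
        push_cast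
        ring
      have h4 : (c' * conj c).im = 1 / 2 := hG1c f.2
      rw [h3, Complex.add_im, Complex.im_ofReal_mul, Complex.im_ofReal_mul, h4]
      have h5 := mul_nonneg (show 0 ≤ 1 - t by linarith [ht.2]) hk2
      have h6 := ht.1
      linarith
  · rw [Prod.norm_def]
    refine max_le ?_ ?_
    · simp only
      rw [norm_mul, h10]
      have h2 := norm_sub_le c a
      rw [ha, hcn] at h2
      have b5 : (((63 : ℝ≥0) : ℝ)) = 63 := by norm_num
      rw [b5]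
      linarith
    · simp
  · rw [hy]
    congr 1
    apply Prod.ext
    · simp only [Prod.fst_add]
      ring
    · simp only [Prod.snd_add, add_zero]

theorem stmt_KP (hM1 : Stmt_M1) (hG1 : Stmt_G1) (hG4 : Stmt_G4) (hG6 : Stmt_G6) (hS2 : Stmt_S2)
    (hC1 : Stmt_C1) (hU1 : Stmt_U1) : Stmt_KP := by
  obtain ⟨C, hU⟩ := exists_U1c hU1
  refine ⟨2 * (2 * (C * 63)), ?_⟩
  intro Mo ε Z f x y h0 h1 hx hy
  obtain ⟨a, x', ha, hx', hka, hpx⟩ := Z.kt_radial hM1 hG4 hG6 hC1 hU h0 h1 f x hx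
  obtain ⟨b, y', hb, hy', hkb, hpy⟩ := Z.kt_radial hM1 hG4 hG6 hC1 hU h0 h1 f y hy
  by_cases hf : f.1 ∈ Mo.D
  · -- a defect chamber
    obtain ⟨hG1a, hG1b, hG1c, -⟩ := id hG1
    have h10 : ‖(10 : ℂ)‖ = 10 := by norm_num
    have hcn : ‖ctr f.2‖ = 1 := hG1a _
    have hchU : chU (f.1 ∈ Mo.D) (10 * ctr f.2, 0) = ctr f.2 := by
      rw [chU_d hf]
      simp only
      rw [norm_mul, hcn, h10]
      norm_num
      ring
    have hcP : ctr f.2 ∈ PPo := by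
      apply hG6.2.2.2.1
      intro j
      have h3 : ‖ctr f.2‖ ^ 2 ≤ 3 := by
        rw [hcn]
        norm_num
      linarith [hG6.2.2.2.2.2.2.2 _ h3 j]
    have hdom0 : ((10 * ctr f.2, 0) : ℂ × ℝ) ∈ chDom (f.1 ∈ Mo.D) := by
      refine ⟨?_, ?_⟩
      · intro h
        have h2 : ‖(10 : ℂ) * ctr f.2‖ = 10 := by
          rw [norm_mul, hcn, h10, mul_one]
        simp only at h
        rw [h, norm_zero] at h2
        norm_num at h2
      · rw [hchU]
        exact hcP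
    obtain ⟨-, -, -, -, hd⟩ := id hC1
    have hSS : Mo.PhiM f.1 (10 * ctr f.2, 0) ∈ Mo.SS :=
      ⟨f.1, _, _, (hd _).2.2.2.1 _ hdom0, rfl⟩
    have hz : (Z.e (Z.e.symm ⟨_, hSS⟩) : Amb Mo.Q) = Mo.PhiM f.1 (10 * ctr f.2, 0) := by
      rw [Homeomorph.apply_symm_apply]
    have p1 := Z.kt_rot_d hM1 hG1 hG4 hG6 hC1 hU h0 h1 f hf a ha hka x' _ hx' hz
    have p2 := Z.kt_rot_d hM1 hG1 hG4 hG6 hC1 hU h0 h1 f hf b hb hkb y' _ hy' hz
    exact (hpx.symm.trans p1).trans (p2.symm.trans hpy)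
  · have p1 := Z.kt_rot_nd hM1 hG4 hG6 hC1 hU h0 h1 f hf a b ha hb hka x' y' hx' hy'
    have p2 : SPath (Z.Kt f) (2 * (C * 63)) x y' := hpx.symm.trans p1
    refine p2.trans (hpy.mono le_rfl ?_)
    exact le_mul_of_one_le_left zero_le (by norm_num)

end Pool.CX
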