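import Pool.Agent.Work.MP_727c87_cx.E1.Flag
import Pool.Agent.Work.MP_727c87_cx.E1.GeoProofs
import Pool.Agent.Work.MP_727c87_cx.E1.C2

/-! Block LC: local coordinates of a point in all the charts. -/

open Set Complex ComplexConjugate
open scoped ContDiff

noncomputable section

namespace Pool.CX

namespace LC

theorem beta_ne {u : ℂ} (hu : u ∈ PPo) : ((beta u : ℝ) : ℂ) ≠ 0 := by
  exact_mod_cast ((stmt_G4.2.2.2.2.2.2.2 u).mpr hu).ne'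

theorem of_Psi (hS2 : Stmt_S2) {Mo : Model} {p : Amb Mo.Q} {g : Mo.Q} {u v : ℂ} (hu : u ∈ PPo)
    (hp : p = Psi Mo.L g u v) :
    0 < (p g).1 ∧ pos g p = u ∧ ((p g).1⁻¹ : ℂ) * (p g).2.2 = v := by
  have h1 : p g = blk u v := by rw [hp]; exact (hS2 Mo g u v hu).1
  have hb := beta_ne hu
  refine ⟨?_, ?_, ?_⟩
  · rw [h1]
    exact (stmt_G4.2.2.2.2.2.2.2 u).mpr hu
  · unfold pos
    rw [h1]
    change ((beta u : ℝ) : ℂ)⁻¹ * (((beta u : ℝ) : ℂ) * u) = u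
    rw [← mul_assoc, inv_mul_cancel₀ hb, one_mul]
  · rw [h1]
    change ((beta u : ℝ) : ℂ)⁻¹ * (((beta u : ℝ) : ℂ) * v) = v
    rw [← mul_assoc, inv_mul_cancel₀ hb, one_mul]

end LC

theorem stmt_LC (hS2 : Stmt_S2) (hS3 : Stmt_S3) : Stmt_LC := by
  intro Mo p hp
  refine ⟨?_, ?_, ?_⟩
  · intro g hg
    obtain ⟨u, v, hloc, hpg⟩ := C2.change_chamber Mo hS2 hS3 hp hg
    obtain ⟨-, h2, h3⟩ := LC.of_Psi hS2 hloc.1 hpg
    rw [h2, h3]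
    exact ⟨hloc, hpg⟩
  · intro g u v hloc hpg
    exact LC.of_Psi hS2 hloc.1 hpg
  · intro g h hg hh
    obtain ⟨u, v, hloc, hpg⟩ := C2.change_chamber Mo hS2 hS3 hp hg
    obtain ⟨-, h2, h3⟩ := LC.of_Psi hS2 hloc.1 hpg
    obtain ⟨-, -, -, h4, h5⟩ := hS2 Mo g u v hloc.1
    rw [hpg] at hh
    obtain ⟨n, hn, hm⟩ := h5 h hh
    have h6 : p = Psi Mo.L h (mv n u) v := by rw [← hn, h4 n hm, hpg]
    obtain ⟨-, h7, h8⟩ := LC.of_Psi hS2 hm h6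
    refine ⟨n, hn, ?_, ?_, ?_⟩
    · rw [h7, h2]
    · rw [h2]; exact hm
    · rw [h8, h3]

end Pool.CX
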