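import Pool.Agent.Work.MP_727c87_cx.E1.Param
import Pool.Agent.Work.MP_bc4532_gt.Manifold
import Pool.Agent.Work.MP_bc4532_gt.RiemLength

/-!
# Smooth maps and Riemannian metrics on manifolds given by local parametrisations
-/

open Set Topology Manifold Filter Bundle
open scoped Manifold ContDiff

noncomputable section

namespace UW727.E1

open Pool.Agent.Work.MP_bc4532_gt (der immersionMetric IsInduced pathELength_eq
  enorm_mfderiv_eq ClosedRiemannianManifold)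

namespace Param

variable {E W : Type} [NormedAddCommGroup E] [NormedSpace ℝ E]
    [NormedAddCommGroup W] [NormedSpace ℝ W] (D : Param E W)

theorem chart_mem_maxAtlas (i : D.ι) :
    D.chart i ∈ IsManifold.maximalAtlas 𝓘(ℝ, E) ∞ D.Pt :=
  IsManifold.subset_maximalAtlas (mem_range_self i)

theorem contMDiffOn_par (i : D.ι) :
    ContMDiffOn 𝓘(ℝ, E) 𝓘(ℝ, E) ∞ (D.par i) (D.U i) :=
  contMDiffOn_symm_of_mem_maximalAtlas (D.chart_mem_maxAtlas i)

theorem isOpen_source (i : D.ι) : IsOpen (D.incl ⁻¹' D.V i) := (D.chart i).open_source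

theorem contMDiffAt_chart' {i : D.ι} {p : D.Pt} (hp : D.incl p ∈ D.V i) :
    ContMDiffAt 𝓘(ℝ, E) 𝓘(ℝ, E) ∞ (D.chart i) p :=
  (contMDiffOn_of_mem_maximalAtlas (D.chart_mem_maxAtlas i)).contMDiffAt
    ((D.isOpen_source i).mem_nhds hp)

theorem contMDiffAt_par {i : D.ι} {u : E} (hu : u ∈ D.U i) :
    ContMDiffAt 𝓘(ℝ, E) 𝓘(ℝ, E) ∞ (D.par i) u :=
  (D.contMDiffOn_par i).contMDiffAt ((D.isOpen_U i).mem_nhds hu)

theorem par_chart {i : D.ι} {p : D.Pt} (hp : D.incl p ∈ D.V i) :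
    D.par i (D.chart i p) = p := (D.chart i).left_inv hp

theorem chart_par {i : D.ι} {u : E} (hu : u ∈ D.U i) : D.chart i (D.par i u) = u :=
  (D.chart i).right_inv hu

theorem chart_mem {i : D.ι} {p : D.Pt} (hp : D.incl p ∈ D.V i) : D.chart i p ∈ D.U i :=
  (D.chart i).map_source hp

theorem incl_par_mem {i : D.ι} {u : E} (hu : u ∈ D.U i) : D.incl (D.par i u) ∈ D.V i :=
  (D.chart i).map_target hu

section maps

variable {W' : Type*} [NormedAddCommGroup W'] [NormedSpace ℝ W']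

theorem eventuallyEq_comp {i : D.ι} {p : D.Pt} (hp : D.incl p ∈ D.V i) {α : Type*}
    (T : D.Pt → α) : T =ᶠ[𝓝 p] (fun u => T (D.par i u)) ∘ D.chart i := by
  filter_upwards [(D.isOpen_source i).mem_nhds hp] with q hq
  simp only [Function.comp_apply]
  rw [D.par_chart hq]

/-- Smoothness at a point, read in a chart. -/
theorem contMDiffAt_iff_par {n : ℕ∞ω} (hn : n ≤ (∞ : ℕ∞ω)) {T : D.Pt → W'} {i : D.ι} {u : E}
    (hu : u ∈ D.U i) :
    ContMDiffAt 𝓘(ℝ, E) 𝓘(ℝ, W') n T (D.par i u) ↔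
      ContDiffAt ℝ n (fun u => T (D.par i u)) u := by
  constructor
  · intro h
    rw [← contMDiffAt_iff_contDiffAt]
    exact h.comp u ((D.contMDiffAt_par hu).of_le hn)
  · intro h
    rw [← contMDiffAt_iff_contDiffAt] at h
    have h1 : ContMDiffAt 𝓘(ℝ, E) 𝓘(ℝ, W') n (fun u => T (D.par i u))
        (D.chart i (D.par i u)) := by
      rw [D.chart_par hu]; exact h
    have h2 : ContMDiffAt 𝓘(ℝ, E) 𝓘(ℝ, W') n ((fun u => T (D.par i u)) ∘ D.chart i)
        (D.par i u) := h1.comp (D.par i u)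
          ((D.contMDiffAt_chart' (D.incl_par_mem hu)).of_le hn)
    exact h2.congr_of_eventuallyEq (D.eventuallyEq_comp (D.incl_par_mem hu) T)

/-- A map on the submanifold is smooth iff all its expressions in the charts are smooth. -/
theorem contMDiff_iff_par {n : ℕ∞ω} (hn : n ≤ (∞ : ℕ∞ω)) {T : D.Pt → W'} :
    ContMDiff 𝓘(ℝ, E) 𝓘(ℝ, W') n T ↔
      ∀ i, ContDiffOn ℝ n (fun u => T (D.par i u)) (D.U i) := by
  constructor
  · intro h i u hu
    exact ((D.contMDiffAt_iff_par hn hu).mp (h _)).contDiffWithinAt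
  · intro h p
    obtain ⟨i, hi⟩ := D.cover _ (D.incl_mem p)
    have h1 := (h i).contDiffAt ((D.isOpen_U i).mem_nhds (D.chart_mem hi))
    have h2 := (D.contMDiffAt_iff_par hn (D.chart_mem hi)).mpr h1
    rwa [D.par_chart hi] at h2

theorem contMDiff_incl : ContMDiff 𝓘(ℝ, E) 𝓘(ℝ, W) ∞ D.incl := by
  rw [D.contMDiff_iff_par le_rfl]
  intro i
  exact (D.smooth_Φ i).congr fun u hu => D.incl_par hu

/-- Restriction of a smooth map of the ambient space. -/
theorem contMDiff_comp_incl {T : W → W'} (hT : ∀ x ∈ D.S, ContDiffAt ℝ ∞ T x) :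
    ContMDiff 𝓘(ℝ, E) 𝓘(ℝ, W') ∞ (fun p => T (D.incl p)) := by
  intro p
  exact (contMDiffAt_iff_contDiffAt.mpr (hT _ (D.incl_mem p))).comp p (D.contMDiff_incl p)

end maps

section derivative

variable {W' : Type*} [NormedAddCommGroup W'] [InnerProductSpace ℝ W']

/-- The chart rule for the derivative. -/
theorem der_comp_par {T : D.Pt → W'} {i : D.ι} {u : E} (hu : u ∈ D.U i)
    (hT : MDifferentiableAt 𝓘(ℝ, E) 𝓘(ℝ, W') T (D.par i u)) :
    fderiv ℝ (fun u => T (D.par i u)) u =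
      (der 𝓘(ℝ, E) T (D.par i u)).comp (mfderiv 𝓘(ℝ, E) 𝓘(ℝ, E) (D.par i) u : E →L[ℝ] E) := by
  have h1 : MDifferentiableAt 𝓘(ℝ, E) 𝓘(ℝ, E) (D.par i) u :=
    (D.contMDiffAt_par hu).mdifferentiableAt (by simp)
  have h2 := mfderiv_comp u hT h1
  rw [← mfderiv_eq_fderiv]
  exact h2

theorem par_deriv_injective {i : D.ι} {u : E} (hu : u ∈ D.U i) :
    Function.Injective (mfderiv 𝓘(ℝ, E) 𝓘(ℝ, E) (D.par i) u : E →L[ℝ] E) := by
  have h1 : MDifferentiableAt 𝓘(ℝ, E) 𝓘(ℝ, E) (D.par i) u :=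
    (D.contMDiffAt_par hu).mdifferentiableAt (by simp)
  have h2 : MDifferentiableAt 𝓘(ℝ, E) 𝓘(ℝ, E) (D.chart i) (D.par i u) :=
    (D.contMDiffAt_chart' (D.incl_par_mem hu)).mdifferentiableAt (by simp)
  have h3 := mfderiv_comp u h2 h1
  have h4 : mfderiv 𝓘(ℝ, E) 𝓘(ℝ, E) (D.chart i ∘ D.par i) u = ContinuousLinearMap.id ℝ E := by
    have h5 : (D.chart i ∘ D.par i) =ᶠ[𝓝 u] id := by
      filter_upwards [(D.isOpen_U i).mem_nhds hu] with v hv
      exact D.chart_par hv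
    rw [h5.mfderiv_eq]
    exact mfderiv_id
  intro v w hvw
  have h6 : ∀ v : E, mfderiv 𝓘(ℝ, E) 𝓘(ℝ, E) (D.chart i ∘ D.par i) u v = v := by
    intro v; rw [h4]; rfl
  rw [← h6 v, ← h6 w, h3]
  simp only [ContinuousLinearMap.comp_apply]
  exact congrArg _ hvw

theorem par_deriv_surjective {i : D.ι} {u : E} (hu : u ∈ D.U i) :
    Function.Surjective (mfderiv 𝓘(ℝ, E) 𝓘(ℝ, E) (D.par i) u : E →L[ℝ] E) := by
  have h1 : MDifferentiableAt 𝓘(ℝ, E) 𝓘(ℝ, E) (D.par i) u :=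
    (D.contMDiffAt_par hu).mdifferentiableAt (by simp)
  have h2 : MDifferentiableAt 𝓘(ℝ, E) 𝓘(ℝ, E) (D.chart i) (D.par i u) :=
    (D.contMDiffAt_chart' (D.incl_par_mem hu)).mdifferentiableAt (by simp)
  have h1' : MDifferentiableAt 𝓘(ℝ, E) 𝓘(ℝ, E) (D.par i) (D.chart i (D.par i u)) := by
    rw [D.chart_par hu]; exact h1
  have h3 := mfderiv_comp (D.par i u) h1' h2
  have h4 : mfderiv 𝓘(ℝ, E) 𝓘(ℝ, E) (D.par i ∘ D.chart i) (D.par i u)
      = ContinuousLinearMap.id ℝ E := by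
    have h5 : (D.par i ∘ D.chart i) =ᶠ[𝓝 (D.par i u)] id := by
      filter_upwards [(D.isOpen_source i).mem_nhds (D.incl_par_mem hu)] with v hv
      exact D.par_chart hv
    rw [h5.mfderiv_eq]
    exact mfderiv_id
  intro w
  refine ⟨(mfderiv 𝓘(ℝ, E) 𝓘(ℝ, E) (D.chart i) (D.par i u) : E →L[ℝ] E) w, ?_⟩
  have h6 : mfderiv 𝓘(ℝ, E) 𝓘(ℝ, E) (D.par i ∘ D.chart i) (D.par i u) w = w := by
    rw [h4]; rfl
  rw [h3] at h6
  rw [D.chart_par hu] at h6
  exact h6

/-- Injectivity of the derivative, read in a chart. -/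
theorem der_injective_iff {T : D.Pt → W'} {i : D.ι} {u : E} (hu : u ∈ D.U i)
    (hT : MDifferentiableAt 𝓘(ℝ, E) 𝓘(ℝ, W') T (D.par i u)) :
    Function.Injective (der 𝓘(ℝ, E) T (D.par i u)) ↔
      Function.Injective (fderiv ℝ (fun u => T (D.par i u)) u) := by
  rw [D.der_comp_par hu hT]
  constructor
  · intro h
    exact h.comp (D.par_deriv_injective hu)
  · intro h v w hvw
    obtain ⟨v', rfl⟩ := D.par_deriv_surjective hu v
    obtain ⟨w', rfl⟩ := D.par_deriv_surjective hu w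
    have : v' = w' := h hvw
    rw [this]

/-- The derivative of a map is injective as soon as its expressions in the charts have injective
derivatives. -/
theorem der_injective {T : D.Pt → W'} (hT : ContMDiff 𝓘(ℝ, E) 𝓘(ℝ, W') ∞ T)
    (h : ∀ i, ∀ u ∈ D.U i, Function.Injective (fderiv ℝ (fun u => T (D.par i u)) u)) (p : D.Pt) :
    Function.Injective (der 𝓘(ℝ, E) T p) := by
  obtain ⟨i, hi⟩ := D.cover _ (D.incl_mem p)
  have h1 := (D.der_injective_iff (T := T) (D.chart_mem hi)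
    ((hT _).mdifferentiableAt (by simp))).mpr (h i _ (D.chart_mem hi))
  rwa [D.par_chart hi] at h1

/-- The inclusion has injective derivative. -/
theorem injective_fderiv_Φ {i : D.ι} {u : E} (hu : u ∈ D.U i) :
    Function.Injective (fderiv ℝ (D.Φ i) u) := by
  have h1 : DifferentiableAt ℝ (D.Φ i) u :=
    ((D.smooth_Φ i).contDiffAt ((D.isOpen_U i).mem_nhds hu)).differentiableAt (by simp)
  have h2 : DifferentiableAt ℝ (D.G i) (D.Φ i u) :=
    ((D.smooth_G i).contDiffAt ((D.isOpen_V i).mem_nhds (D.Φ_mem_V hu))).differentiableAt (by simp)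
  have h3 : fderiv ℝ (D.G i ∘ D.Φ i) u = ContinuousLinearMap.id ℝ E := by
    have h5 : (D.G i ∘ D.Φ i) =ᶠ[𝓝 u] id := by
      filter_upwards [(D.isOpen_U i).mem_nhds hu] with v hv
      exact D.left_inv i v hv
    rw [h5.fderiv_eq]
    exact fderiv_id
  rw [fderiv_comp u h2 h1] at h3
  intro v w hvw
  have h6 : ∀ v : E, (fderiv ℝ (D.G i) (D.Φ i u)) ((fderiv ℝ (D.Φ i) u) v) = v := by
    intro v
    exact congrArg (fun A : E →L[ℝ] E => A v) h3
  rw [← h6 v, ← h6 w, hvw]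

end derivative

section pairs

variable {W₁ W₂ : Type*} [NormedAddCommGroup W₁] [InnerProductSpace ℝ W₁]
  [NormedAddCommGroup W₂] [InnerProductSpace ℝ W₂]

/-- The composition of the inclusion with a linear map. -/
theorem contMDiff_lin (A : W →L[ℝ] W₁) :
    ContMDiff 𝓘(ℝ, E) 𝓘(ℝ, W₁) ∞ (fun p => A (D.incl p)) :=
  D.contMDiff_comp_incl (T := A) (fun _ _ => A.contDiff.contDiffAt)

/-- The composition of the inclusion with an injective linear map is an immersion. -/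
theorem der_lin_injective (A : W →L[ℝ] W₁) (hA : Function.Injective A) (p : D.Pt) :
    Function.Injective (der 𝓘(ℝ, E) (fun p => A (D.incl p)) p) := by
  refine D.der_injective (D.contMDiff_lin A) (fun i u hu => ?_) p
  have h1 : (fun u => A (D.incl (D.par i u))) =ᶠ[𝓝 u] (A ∘ D.Φ i) := by
    filter_upwards [(D.isOpen_U i).mem_nhds hu] with v hv
    simp only [Function.comp_apply]
    rw [D.incl_par hv]
  have h2 : DifferentiableAt ℝ (D.Φ i) u :=
    ((D.smooth_Φ i).contDiffAt ((D.isOpen_U i).mem_nhds hu)).differentiableAt (by simp)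
  rw [h1.fderiv_eq, fderiv_comp u A.differentiableAt h2, A.fderiv]
  exact hA.comp (D.injective_fderiv_Φ hu)

/-- Pairs of smooth maps. -/
theorem contMDiff_pair {F₁ : D.Pt → W₁} {F₂ : D.Pt → W₂}
    (h₁ : ContMDiff 𝓘(ℝ, E) 𝓘(ℝ, W₁) ∞ F₁) (h₂ : ContMDiff 𝓘(ℝ, E) 𝓘(ℝ, W₂) ∞ F₂) :
    ContMDiff 𝓘(ℝ, E) 𝓘(ℝ, WithLp 2 (W₁ × W₂)) ∞ (fun p => WithLp.toLp 2 (F₁ p, F₂ p)) := by
  rw [D.contMDiff_iff_par le_rfl] at h₁ h₂ ⊢
  intro i
  exact (WithLp.prodContinuousLinearEquiv 2 ℝ W₁ W₂).symm.contDiff.comp_contDiffOn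
    ((h₁ i).prodMk (h₂ i))

/-- A pair is an immersion as soon as the first map is. -/
theorem der_pair_injective {F₁ : D.Pt → W₁} {F₂ : D.Pt → W₂}
    (h₁ : ContMDiff 𝓘(ℝ, E) 𝓘(ℝ, W₁) ∞ F₁) (h₂ : ContMDiff 𝓘(ℝ, E) 𝓘(ℝ, W₂) ∞ F₂)
    (hinj : ∀ p, Function.Injective (der 𝓘(ℝ, E) F₁ p)) (p : D.Pt) :
    Function.Injective (der 𝓘(ℝ, E) (fun p => WithLp.toLp 2 (F₁ p, F₂ p)) p) := by
  refine D.der_injective (D.contMDiff_pair h₁ h₂) (fun i u hu => ?_) p
  have h3 := (D.der_injective_iff (T := F₁) hu ((h₁ _).mdifferentiableAt (by simp))).mp (hinj _)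
  have h₁' := ((D.contMDiff_iff_par le_rfl).mp h₁ i).contDiffAt ((D.isOpen_U i).mem_nhds hu)
  have h4 := ((D.contMDiff_iff_par le_rfl).mp (D.contMDiff_pair h₁ h₂) i).contDiffAt
    ((D.isOpen_U i).mem_nhds hu)
  have h5 : fderiv ℝ (fun u => F₁ (D.par i u)) u =
      ((ContinuousLinearMap.fst ℝ W₁ W₂).comp
        (WithLp.prodContinuousLinearEquiv 2 ℝ W₁ W₂ :
          WithLp 2 (W₁ × W₂) →L[ℝ] W₁ × W₂)).comp
        (fderiv ℝ (fun u => WithLp.toLp 2 (F₁ (D.par i u), F₂ (D.par i u))) u) := by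
    have h6 := fderiv_comp u (g := ((ContinuousLinearMap.fst ℝ W₁ W₂).comp
        (WithLp.prodContinuousLinearEquiv 2 ℝ W₁ W₂ :
          WithLp 2 (W₁ × W₂) →L[ℝ] W₁ × W₂)))
        (f := fun u => WithLp.toLp 2 (F₁ (D.par i u), F₂ (D.par i u)))
        (ContinuousLinearMap.differentiableAt _) (h4.differentiableAt (by simp))
    rw [ContinuousLinearMap.fderiv] at h6
    rw [← h6]
    rfl
  rw [h5] at h3
  exact Function.Injective.of_comp (f := ((ContinuousLinearMap.fst ℝ W₁ W₂).comp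
        (WithLp.prodContinuousLinearEquiv 2 ℝ W₁ W₂ :
          WithLp 2 (W₁ × W₂) →L[ℝ] W₁ × W₂))) h3

end pairs

end Param

/-- A compact connected parametrised manifold with an immersion in an inner product space. -/
structure RParam (E W W' : Type) [NormedAddCommGroup E] [NormedSpace ℝ E] [FiniteDimensional ℝ E]
    [NormedAddCommGroup W] [NormedSpace ℝ W] [NormedAddCommGroup W'] [InnerProductSpace ℝ W'] where
  /-- the parametrised manifold -/
  D : Param E W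
  /-- the immersion -/
  F : D.Pt → W'
  smooth : ContMDiff 𝓘(ℝ, E) 𝓘(ℝ, W') ∞ F
  inj : ∀ p, Function.Injective (der 𝓘(ℝ, E) F p)
  compact : IsCompact D.S
  connected : IsConnected D.S

namespace RParam

variable {E W W' : Type} [NormedAddCommGroup E] [NormedSpace ℝ E] [FiniteDimensional ℝ E]
    [NormedAddCommGroup W] [NormedSpace ℝ W] [NormedAddCommGroup W'] [InnerProductSpace ℝ W']
    (A : RParam E W W')

/-- The points of the manifold. -/
def Pt : Type := A.D.Pt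

instance : TopologicalSpace A.Pt := inferInstanceAs (TopologicalSpace A.D.Pt)

instance : Nonempty A.Pt := inferInstanceAs (Nonempty A.D.Pt)

instance : T3Space A.Pt := inferInstanceAs (T3Space A.D.Pt)

instance : ChartedSpace E A.Pt := inferInstanceAs (ChartedSpace E A.D.Pt)

instance : IsManifold 𝓘(ℝ, E) ∞ A.Pt := inferInstanceAs (IsManifold 𝓘(ℝ, E) ∞ A.D.Pt)

instance : CompactSpace A.Pt := isCompact_iff_compactSpace.mp A.compact

instance : ConnectedSpace A.Pt := isConnected_iff_connectedSpace.mp A.connected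

/-- The immersion. -/
def map (p : A.Pt) : W' := A.F p

/-- The local parametrisations. -/
def par (i : A.D.ι) (u : E) : A.Pt := A.D.par i u

theorem contMDiff_map : ContMDiff 𝓘(ℝ, E) 𝓘(ℝ, W') ∞ A.map := A.smooth

/-- The induced Riemannian metric. -/
def riem : ContMDiffRiemannianMetric 𝓘(ℝ, E) ∞ E (fun p : A.Pt => TangentSpace 𝓘(ℝ, E) p) :=
  immersionMetric 𝓘(ℝ, E) A.contMDiff_map A.inj

instance : RiemannianBundle (fun p : A.Pt => TangentSpace 𝓘(ℝ, E) p) :=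
  ⟨A.riem.toRiemannianMetric⟩

instance : IsContMDiffRiemannianBundle 𝓘(ℝ, E) ∞ E (fun p : A.Pt => TangentSpace 𝓘(ℝ, E) p) :=
  inferInstance

instance : IsContinuousRiemannianBundle E (fun p : A.Pt => TangentSpace 𝓘(ℝ, E) p) :=
  ⟨⟨A.riem.inner, A.riem.contMDiff.continuous, fun _ _ _ => rfl⟩⟩

/-- The extended metric space structure. -/
abbrev emetric : EMetricSpace A.Pt := EMetricSpace.ofRiemannianMetric 𝓘(ℝ, E) A.Pt

end RParam

/-- Distances are finite in a preconnected extended pseudometric space. -/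
theorem edist_ne_top_of_preconnected {X : Type*} [PseudoEMetricSpace X] [PreconnectedSpace X]
    (x y : X) : edist x y ≠ ⊤ := by
  have hopen : IsOpen {z : X | edist z x < ⊤} := Metric.isOpen_eball
  have hclosed : IsClosed {z : X | edist z x < ⊤} := by
    rw [← isOpen_compl_iff, EMetric.isOpen_iff]
    intro z hz
    refine ⟨1, one_pos, ?_⟩
    intro w hw hw2
    apply hz
    have h1 : edist w z < 1 := hw
    have h2 : edist w x < ⊤ := hw2
    calc edist z x ≤ edist z w + edist w x := edist_triangle _ _ _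
      _ < ⊤ := by
        rw [edist_comm z w]
        exact ENNReal.add_lt_top.mpr ⟨h1.trans ENNReal.one_lt_top, h2⟩
  have hclopen : IsClopen {z : X | edist z x < ⊤} := ⟨hclosed, hopen⟩
  have huniv := hclopen.eq_univ ⟨x, by simp⟩
  have : y ∈ {z : X | edist z x < ⊤} := by rw [huniv]; trivial
  rw [edist_comm]
  exact (this : edist y x < ⊤).ne

namespace RParam

variable {E W W' : Type} [NormedAddCommGroup E] [NormedSpace ℝ E] [FiniteDimensional ℝ E]
    [NormedAddCommGroup W] [NormedSpace ℝ W] [NormedAddCommGroup W'] [InnerProductSpace ℝ W']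
    (A : RParam E W W')

instance : MetricSpace A.Pt :=
  letI := A.emetric
  EMetricSpace.toMetricSpace (fun x y => edist_ne_top_of_preconnected x y)

instance : IsRiemannianManifold 𝓘(ℝ, E) A.Pt := ⟨fun _ _ => rfl⟩

theorem edist_eq (x y : A.Pt) : edist x y = riemannianEDist 𝓘(ℝ, E) x y := rfl

theorem isInduced : IsInduced 𝓘(ℝ, E) A.map := by
  intro x v
  have h1 : ‖v‖ ^ 2 = ‖der 𝓘(ℝ, E) A.map x v‖ ^ 2 := by
    rw [← real_inner_self_eq_norm_sq, ← real_inner_self_eq_norm_sq]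
    rfl
  have h2 := norm_nonneg v
  have h3 := norm_nonneg (der 𝓘(ℝ, E) A.map x v)
  exact (sq_eq_sq₀ h2 h3).mp h1

/-- The closed Riemannian manifold given by a parametrised manifold and an immersion. -/
def toRM : ClosedRiemannianManifold where
  E := E
  H := E
  I := 𝓘(ℝ, E)
  Pt := A.Pt

theorem toRM_Pt : A.toRM.Pt = A.Pt := rfl

theorem enorm_mfderiv_eq_deriv {γ : ℝ → A.Pt} {t : ℝ}
    (hγ : MDifferentiableAt 𝓘(ℝ) 𝓘(ℝ, E) γ t) :
    ‖mfderiv 𝓘(ℝ) 𝓘(ℝ, E) γ t 1‖ₑ = ‖deriv (A.map ∘ γ) t‖ₑ := by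
  have h1 : ‖mfderiv 𝓘(ℝ) 𝓘(ℝ, E) γ t 1‖
      = ‖der 𝓘(ℝ, E) A.map (γ t) (mfderiv 𝓘(ℝ) 𝓘(ℝ, E) γ t 1)‖ := A.isInduced _ _
  have h2 : der 𝓘(ℝ, E) A.map (γ t) (mfderiv 𝓘(ℝ) 𝓘(ℝ, E) γ t 1) = deriv (A.map ∘ γ) t := by
    have h3 : mfderiv 𝓘(ℝ) 𝓘(ℝ, W') (A.map ∘ γ) t
        = (mfderiv 𝓘(ℝ, E) 𝓘(ℝ, W') A.map (γ t)).comp (mfderiv 𝓘(ℝ) 𝓘(ℝ, E) γ t) :=
      mfderiv_comp t ((A.contMDiff_map.mdifferentiable (by simp)) (γ t)) hγ
    have h4 : mfderiv 𝓘(ℝ) 𝓘(ℝ, W') (A.map ∘ γ) t 1 = deriv (A.map ∘ γ) t := by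
      rw [mfderiv_eq_fderiv]
      rfl
    rw [← h4, h3]
    rfl
  rw [h2] at h1
  simp only [enorm, nnnorm, h1]

/-- The immersion is `1`-Lipschitz. -/
theorem enorm_map_sub_le (x y : A.Pt) : ‖A.map x - A.map y‖ₑ ≤ edist x y := by
  rw [A.edist_eq]
  refine le_of_forall_gt fun r hr => ?_
  obtain ⟨γ, h0, h1, hγ, hlen, -, -⟩ :=
    exists_lt_locally_constant_of_riemannianEDist_lt hr zero_lt_one
  rw [pathELength_eq A.contMDiff_map A.isInduced hγ] at hlen
  have h2 : ContDiff ℝ 1 (A.map ∘ γ) := by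
    rw [← contMDiff_iff_contDiff]
    exact (A.contMDiff_map.of_le (by simp)).comp hγ
  have h3 := enorm_sub_le_lintegral_deriv_of_contDiffOn_Icc (f := A.map ∘ γ) (a := 0) (b := 1)
    h2.contDiffOn zero_le_one
  simp only [Function.comp_apply, h0, h1] at h3
  rw [← enorm_neg, neg_sub]
  exact h3.trans_lt hlen

theorem norm_map_sub_le (x y : A.Pt) : ‖A.map x - A.map y‖ ≤ dist x y := by
  have h1 := A.enorm_map_sub_le x y
  rw [edist_dist, ← ofReal_norm] at h1
  exact (ENNReal.ofReal_le_ofReal_iff dist_nonneg).mp h1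

theorem lipschitz_map : LipschitzWith 1 A.map :=
  LipschitzWith.of_dist_le_mul fun x y => by
    rw [dist_eq_norm, NNReal.coe_one, one_mul]
    exact A.norm_map_sub_le x y

/-- Almost shortest paths. -/
theorem exists_path (x y : A.Pt) {r : ℝ} (hr : dist x y < r) :
    ∃ γ : ℝ → A.Pt, ContMDiff 𝓘(ℝ) 𝓘(ℝ, E) 1 γ ∧ γ 0 = x ∧ γ 1 = y ∧
      (∫⁻ t in Icc (0 : ℝ) 1, ‖deriv (A.map ∘ γ) t‖ₑ) < ENNReal.ofReal r ∧
      ∀ t ∈ Icc (0 : ℝ) 1, dist x (γ t) < r ∧ dist (γ t) y < r := by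
  have hr2 : riemannianEDist 𝓘(ℝ, E) x y < ENNReal.ofReal r := by
    rw [← A.edist_eq, edist_dist]
    exact (ENNReal.ofReal_lt_ofReal_iff (lt_of_le_of_lt dist_nonneg hr)).mpr hr
  obtain ⟨γ, h0, h1, hγ, hlen, -, -⟩ :=
    exists_lt_locally_constant_of_riemannianEDist_lt hr2 zero_lt_one
  have hr0 : 0 < r := lt_of_le_of_lt dist_nonneg hr
  refine ⟨γ, hγ, h0, h1, ?_, ?_⟩
  · rwa [pathELength_eq A.contMDiff_map A.isInduced hγ] at hlen
  · intro t ht
    constructor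
    · have h2 : riemannianEDist 𝓘(ℝ, E) x (γ t) ≤ pathELength 𝓘(ℝ, E) γ 0 t :=
        riemannianEDist_le_pathELength hγ.contMDiffOn h0 rfl ht.1
      have h3 : pathELength 𝓘(ℝ, E) γ 0 t ≤ pathELength 𝓘(ℝ, E) γ 0 1 :=
        pathELength_mono le_rfl ht.2
      have h4 := (h2.trans h3).trans_lt hlen
      rw [← A.edist_eq, edist_dist] at h4
      exact (ENNReal.ofReal_lt_ofReal_iff hr0).mp h4
    · have h2 : riemannianEDist 𝓘(ℝ, E) (γ t) y ≤ pathELength 𝓘(ℝ, E) γ t 1 :=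
        riemannianEDist_le_pathELength hγ.contMDiffOn rfl h1 ht.2
      have h3 : pathELength 𝓘(ℝ, E) γ t 1 ≤ pathELength 𝓘(ℝ, E) γ 0 1 :=
        pathELength_mono ht.1 le_rfl
      have h4 := (h2.trans h3).trans_lt hlen
      rw [← A.edist_eq, edist_dist] at h4
      exact (ENNReal.ofReal_lt_ofReal_iff hr0).mp h4

/-- The length of a curve in a chart bounds the distance of its ends. -/
theorem edist_par_le {i : A.D.ι} {σ : ℝ → E} {a b : ℝ} (hab : a ≤ b)
    (hσ : ContDiffOn ℝ 1 σ (Icc a b)) (hU : MapsTo σ (Icc a b) (A.D.U i)) :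
    edist (A.par i (σ a)) (A.par i (σ b)) ≤
      ∫⁻ t in Ioo a b, ‖deriv (fun s => A.map (A.par i (σ s))) t‖ₑ := by
  have hγ : ContMDiffOn 𝓘(ℝ) 𝓘(ℝ, E) 1 (fun t => A.par i (σ t)) (Icc a b) :=
    ((A.D.contMDiffOn_par i).of_le (by simp)).comp (contMDiffOn_iff_contDiffOn.mpr hσ) hU
  rw [A.edist_eq]
  refine (riemannianEDist_le_pathELength hγ rfl rfl hab).trans ?_
  rw [pathELength_eq_lintegral_mfderiv_Ioo]
  refine MeasureTheory.setLIntegral_mono' measurableSet_Ioo fun t ht => le_of_eq ?_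
  have h1 : MDifferentiableAt 𝓘(ℝ) 𝓘(ℝ, E) (fun t => A.par i (σ t)) t :=
    (hγ.contMDiffAt (Icc_mem_nhds ht.1 ht.2)).mdifferentiableAt one_ne_zero
  exact A.enorm_mfderiv_eq_deriv h1

/-- The distance of the ends of a curve in a chart, from a bound of the speed. -/
theorem dist_par_le_of_speed {i : A.D.ι} {σ : ℝ → E} {a b : ℝ} (hab : a ≤ b)
    (hσ : ContDiffOn ℝ 1 σ (Icc a b)) (hU : MapsTo σ (Icc a b) (A.D.U i)) {C : ℝ}
    (hC : ∀ t ∈ Ioo a b, ‖deriv (fun s => A.map (A.par i (σ s))) t‖ ≤ C) (hC0 : 0 ≤ C) :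
    dist (A.par i (σ a)) (A.par i (σ b)) ≤ C * (b - a) := by
  have h1 := A.edist_par_le hab hσ hU
  have h2 : (∫⁻ t in Ioo a b, ‖deriv (fun s => A.map (A.par i (σ s))) t‖ₑ) ≤
      ∫⁻ _ in Ioo a b, ENNReal.ofReal C := by
    refine MeasureTheory.setLIntegral_mono' measurableSet_Ioo fun t ht => ?_
    rw [← ofReal_norm]
    exact ENNReal.ofReal_le_ofReal (hC t ht)
  have h3 := h1.trans h2
  rw [MeasureTheory.setLIntegral_const, Real.volume_Ioo, edist_dist,
    ← ENNReal.ofReal_mul hC0] at h3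
  exact (ENNReal.ofReal_le_ofReal_iff (mul_nonneg hC0 (sub_nonneg.mpr hab))).mp h3

/-- The parametrisations are Lipschitz on convex sets on which the derivative of the immersion is
bounded. -/
theorem dist_par_le_of_convex {i : A.D.ι} {K : Set E} (hK : Convex ℝ K) (hKU : K ⊆ A.D.U i)
    {C : ℝ} (hC : ∀ u ∈ K, ‖fderiv ℝ (fun u => A.map (A.par i u)) u‖ ≤ C) {u u' : E}
    (hu : u ∈ K) (hu' : u' ∈ K) :
    dist (A.par i u) (A.par i u') ≤ C * ‖u - u'‖ := by
  have hC0 : 0 ≤ C := (norm_nonneg _).trans (hC u hu)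
  set σ : ℝ → E := fun t => AffineMap.lineMap u u' t with hσdef
  have hmem : ∀ t ∈ Icc (0 : ℝ) 1, σ t ∈ K := fun t ht => hK.lineMap_mem hu hu' ht
  have hσ : ContDiff ℝ 1 σ := by
    simp only [hσdef, AffineMap.lineMap_apply_module']
    fun_prop
  have hF : ∀ v ∈ A.D.U i, DifferentiableAt ℝ (fun u => A.map (A.par i u)) v := by
    intro v hv
    have h1 := ((A.D.contMDiff_iff_par le_rfl).mp A.smooth i).contDiffAt
      ((A.D.isOpen_U i).mem_nhds hv)
    exact h1.differentiableAt (by simp)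
  have h1 := A.dist_par_le_of_speed (i := i) (σ := σ) zero_le_one hσ.contDiffOn
    (fun t ht => hKU (hmem t ht)) (C := C * ‖u - u'‖) ?_ (mul_nonneg hC0 (norm_nonneg _))
  · simpa [hσdef] using h1
  · intro t ht
    have h2 : HasDerivAt σ (u' - u) t := by
      simpa [hσdef] using (AffineMap.hasDerivAt_lineMap (a := u) (b := u') (x := t))
    have h3 := (hF (σ t) (hKU (hmem t (Ioo_subset_Icc_self ht)))).hasFDerivAt.comp_hasDerivAt t h2
    have h4 : deriv (fun s => A.map (A.par i (σ s))) t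
        = (fderiv ℝ (fun u => A.map (A.par i u)) (σ t)) (u' - u) := h3.deriv
    rw [h4]
    refine (ContinuousLinearMap.le_opNorm _ _).trans ?_
    rw [norm_sub_rev u u']
    exact mul_le_mul_of_nonneg_right (hC _ (hmem t (Ioo_subset_Icc_self ht))) (norm_nonneg _)

end RParam

namespace Param

variable {E W W' : Type} [NormedAddCommGroup E] [NormedSpace ℝ E] [FiniteDimensional ℝ E]
    [NormedAddCommGroup W] [NormedSpace ℝ W] [NormedAddCommGroup W'] [InnerProductSpace ℝ W']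
    (D : Param E W)

/-- The closed Riemannian manifold given by a parametrised manifold and an immersion; its points
are `D.Pt`. -/
def toRM (F : D.Pt → W') (hF : ContMDiff 𝓘(ℝ, E) 𝓘(ℝ, W') ∞ F)
    (hinj : ∀ p, Function.Injective (der 𝓘(ℝ, E) F p)) (hc : IsCompact D.S)
    (hconn : IsConnected D.S) : ClosedRiemannianManifold :=
  (RParam.mk D F hF hinj hc hconn).toRM

end Param

end UW727.E1
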