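import Pool.Agent.Work.MP_727c87_cx.E1.Met
import Pool.Agent.Work.MP_727c87_cx.E1.ParamMetric

/-! Block M0: the realisation. -/

open Set Complex ComplexConjugate Manifold Topology Bundle
open scoped ContDiff NNReal Manifold ENNReal
open UW727.E1
open Pool.Agent.Work.MP_bc4532_gt (der)

noncomputable section

namespace Pool.CX

namespace M0

/-- the local parametrisations -/
def dat (hC1 : Stmt_C1) (hC2 : Stmt_C2) (Mo : Model) : Param (ℂ × ℝ) (Amb Mo.Q) where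
  ι := Mo.Q
  S := Mo.SS
  U g := chDom (g ∈ Mo.D)
  Φ g := Mo.PhiM g
  V g := Mo.VV g
  G g := Mo.GG g
  nonempty := (hC2 Mo).1
  isOpen_U g := (hC1.2.2.2.2 (g ∈ Mo.D)).1
  isOpen_V := (hC2 Mo).2.1
  smooth_Φ := (hC2 Mo).2.2.1
  smooth_G := (hC2 Mo).2.2.2.1
  left_inv := (hC2 Mo).2.2.2.2.1
  image := (hC2 Mo).2.2.2.2.2.1
  cover := (hC2 Mo).2.2.2.2.2.2

/-- linear map recovering the ambient coordinates -/
def lin (Mo : Model) : EuclideanSpace ℝ Mo.J →L[ℝ] Amb Mo.Q :=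
  LinearMap.toContinuousLinearMap
    { toFun := fun x g => (x (Sum.inl (g, 0)), ⟨x (Sum.inl (g, 1)), x (Sum.inl (g, 2))⟩,
        ⟨x (Sum.inl (g, 3)), x (Sum.inl (g, 4))⟩)
      map_add' := by
        intro x y
        funext g
        refine Prod.ext ?_ (Prod.ext ?_ ?_)
        · rfl
        · apply Complex.ext <;> rfl
        · apply Complex.ext <;> rfl
      map_smul' := by
        intro c x
        funext g
        refine Prod.ext ?_ (Prod.ext ?_ ?_)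
        · rfl
        · apply Complex.ext
          · simp
          · simp
        · apply Complex.ext
          · simp
          · simp }

theorem lin_FF (Mo : Model) (ε : ℝ) (p : Amb Mo.Q) : lin Mo (Mo.FF ε p) = ε • p := by
  funext g
  refine Prod.ext ?_ (Prod.ext ?_ ?_)
  · simp [lin, Model.FF, Model.comp]
  · apply Complex.ext <;> simp [lin, Model.FF, Model.comp]
  · apply Complex.ext <;> simp [lin, Model.FF, Model.comp]

variable (hC1 : Stmt_C1) (hC2 : Stmt_C2) (hM1 : Stmt_M1)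

include hM1 in
theorem smoothF (Mo : Model) (ε : ℝ) : ContMDiff 𝓘(ℝ, ℂ × ℝ) 𝓘(ℝ, EuclideanSpace ℝ Mo.J) ∞
    (fun p : (dat hC1 hC2 Mo).Pt => Mo.FF ε ((dat hC1 hC2 Mo).incl p)) :=
  (dat hC1 hC2 Mo).contMDiff_comp_incl (T := Mo.FF ε) (fun _ _ => (hM1.2.1 Mo ε).contDiffAt)

include hM1 in
theorem injF (Mo : Model) {ε : ℝ} (hε : 0 < ε) (p : (dat hC1 hC2 Mo).Pt) :
    Function.Injective (der 𝓘(ℝ, ℂ × ℝ)
      (fun p : (dat hC1 hC2 Mo).Pt => Mo.FF ε ((dat hC1 hC2 Mo).incl p)) p) := by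
  refine (dat hC1 hC2 Mo).der_injective (smoothF hC1 hC2 hM1 Mo ε) (fun i u hu => ?_) p
  have h1 : (fun u => Mo.FF ε ((dat hC1 hC2 Mo).incl ((dat hC1 hC2 Mo).par i u)))
      =ᶠ[𝓝 u] (Mo.FF ε ∘ (dat hC1 hC2 Mo).Φ i) := by
    filter_upwards [((dat hC1 hC2 Mo).isOpen_U i).mem_nhds hu] with v hv
    simp only [Function.comp_apply]
    rw [(dat hC1 hC2 Mo).incl_par hv]
  have h2 : DifferentiableAt ℝ ((dat hC1 hC2 Mo).Φ i) u :=
    (((dat hC1 hC2 Mo).smooth_Φ i).contDiffAt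
      (((dat hC1 hC2 Mo).isOpen_U i).mem_nhds hu)).differentiableAt (by simp)
  have h3 : DifferentiableAt ℝ (Mo.FF ε) ((dat hC1 hC2 Mo).Φ i u) :=
    ((hM1.2.1 Mo ε).contDiffAt).differentiableAt (by simp)
  rw [h1.fderiv_eq]
  have h4 : DifferentiableAt ℝ (Mo.FF ε ∘ (dat hC1 hC2 Mo).Φ i) u := h3.comp u h2
  have h5 : fderiv ℝ (lin Mo ∘ (Mo.FF ε ∘ (dat hC1 hC2 Mo).Φ i)) u =
      (lin Mo).comp (fderiv ℝ (Mo.FF ε ∘ (dat hC1 hC2 Mo).Φ i) u) := by
    rw [fderiv_comp u (lin Mo).differentiableAt h4, ContinuousLinearMap.fderiv]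
  have h6 : (lin Mo ∘ (Mo.FF ε ∘ (dat hC1 hC2 Mo).Φ i)) = ε • (dat hC1 hC2 Mo).Φ i := by
    funext v
    exact lin_FF Mo ε _
  rw [h6, fderiv_const_smul h2] at h5
  intro v w hvw
  have h7 : (lin Mo) (fderiv ℝ (Mo.FF ε ∘ (dat hC1 hC2 Mo).Φ i) u v) =
      (lin Mo) (fderiv ℝ (Mo.FF ε ∘ (dat hC1 hC2 Mo).Φ i) u w) := by rw [hvw]
  have h8 : ∀ v, ε • (fderiv ℝ ((dat hC1 hC2 Mo).Φ i) u v) =
      (lin Mo) (fderiv ℝ (Mo.FF ε ∘ (dat hC1 hC2 Mo).Φ i) u v) := fun v =>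
    congrArg (fun A : (ℂ × ℝ) →L[ℝ] Amb Mo.Q => A v) h5
  rw [← h8, ← h8] at h7
  exact (dat hC1 hC2 Mo).injective_fderiv_Φ hu (smul_right_injective _ hε.ne' h7)

/-- the parametrised Riemannian manifold -/
def rp (hC3 : Stmt_C3) (Mo : Model) {ε : ℝ} (hε : 0 < ε) :
    RParam (ℂ × ℝ) (Amb Mo.Q) (EuclideanSpace ℝ Mo.J) where
  D := dat hC1 hC2 Mo
  F p := Mo.FF ε ((dat hC1 hC2 Mo).incl p)
  smooth := smoothF hC1 hC2 hM1 Mo ε
  inj := injF hC1 hC2 hM1 Mo hε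
  compact := (hC3 Mo).1
  connected := (hC3 Mo).2

theorem crv_aux {E W W' : Type} [NormedAddCommGroup E] [NormedSpace ℝ E] [FiniteDimensional ℝ E]
    [NormedAddCommGroup W] [NormedSpace ℝ W] [NormedAddCommGroup W'] [InnerProductSpace ℝ W']
    (A : RParam E W W') {i : A.D.ι} {σ : ℝ → E} {a b B : ℝ} (hab : a ≤ b)
    (hσ : ContDiffOn ℝ 1 σ (Icc a b)) (hU : MapsTo σ (Icc a b) (A.D.U i)) (hB : 0 ≤ B)
    (hC : ∀ t ∈ Ioo a b, ‖deriv (fun s => A.map (A.par i (σ s))) t‖ ≤ B) (γ : ℝ → A.Pt)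
    (hγ : ∀ t ∈ Icc a b, γ t = A.par i (σ t)) :
    ContMDiffOn 𝓘(ℝ) 𝓘(ℝ, E) 1 γ (Icc a b) ∧
      pathELength 𝓘(ℝ, E) γ a b ≤ ENNReal.ofReal (B * (b - a)) := by
  have h0 : ContMDiffOn 𝓘(ℝ) 𝓘(ℝ, E) 1 (fun t => A.par i (σ t)) (Icc a b) :=
    ((A.D.contMDiffOn_par i).of_le (by simp)).comp (contMDiffOn_iff_contDiffOn.mpr hσ) hU
  refine ⟨h0.congr hγ, ?_⟩
  rw [pathELength_congr (γ' := fun t => A.par i (σ t)) hγ, pathELength_eq_lintegral_mfderiv_Ioo]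
  have h2 : (∫⁻ t in Ioo a b, ‖mfderiv 𝓘(ℝ) 𝓘(ℝ, E) (fun t => A.par i (σ t)) t 1‖ₑ) ≤
      ∫⁻ _ in Ioo a b, ENNReal.ofReal B := by
    refine MeasureTheory.setLIntegral_mono' measurableSet_Ioo fun t ht => ?_
    have h1 : MDifferentiableAt 𝓘(ℝ) 𝓘(ℝ, E) (fun t => A.par i (σ t)) t :=
      (h0.contMDiffAt (Icc_mem_nhds ht.1 ht.2)).mdifferentiableAt one_ne_zero
    rw [A.enorm_mfderiv_eq_deriv h1, ← ofReal_norm]
    exact ENNReal.ofReal_le_ofReal (hC t ht)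
  refine h2.trans (le_of_eq ?_)
  rw [MeasureTheory.setLIntegral_const, Real.volume_Ioo, ← ENNReal.ofReal_mul hB]

theorem len_aux {E W W' : Type} [NormedAddCommGroup E] [NormedSpace ℝ E] [FiniteDimensional ℝ E]
    [NormedAddCommGroup W] [NormedSpace ℝ W] [NormedAddCommGroup W'] [InnerProductSpace ℝ W']
    (A : RParam E W W') (x y : A.Pt) (r η : ℝ) (hr : 0 ≤ r) (hrd : r ≤ dist x y) (hη : 0 < η) :
    ∃ z, dist x z ≤ r + η ∧ dist z y ≤ dist x y - r + η := by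
  have hd : dist x y < dist x y + η := by linarith
  have hr2 : riemannianEDist 𝓘(ℝ, E) x y < ENNReal.ofReal (dist x y + η) := by
    rw [← A.edist_eq, edist_dist]
    exact (ENNReal.ofReal_lt_ofReal_iff (lt_of_le_of_lt dist_nonneg hd)).mpr hd
  obtain ⟨γ, h0, h1, hγ, hlen, -, -⟩ :=
    exists_lt_locally_constant_of_riemannianEDist_lt hr2 zero_lt_one
  have hc : ContinuousOn (fun t => dist x (γ t)) (Icc (0 : ℝ) 1) :=
    (continuous_const.dist hγ.continuous).continuousOn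
  have h2 : r ∈ Icc (dist x (γ 0)) (dist x (γ 1)) := by
    rw [h0, h1, dist_self]
    exact ⟨hr, hrd⟩
  obtain ⟨t, ht, htr⟩ := intermediate_value_Icc zero_le_one hc h2
  refine ⟨γ t, by simp only at htr; rw [htr]; linarith, ?_⟩
  have h3 : riemannianEDist 𝓘(ℝ, E) x (γ t) ≤ pathELength 𝓘(ℝ, E) γ 0 t :=
    riemannianEDist_le_pathELength hγ.contMDiffOn h0 rfl ht.1
  have h4 : riemannianEDist 𝓘(ℝ, E) (γ t) y ≤ pathELength 𝓘(ℝ, E) γ t 1 :=
    riemannianEDist_le_pathELength hγ.contMDiffOn rfl h1 ht.2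
  have h5 : pathELength 𝓘(ℝ, E) γ 0 t + pathELength 𝓘(ℝ, E) γ t 1 = pathELength 𝓘(ℝ, E) γ 0 1 :=
    pathELength_add ht.1 ht.2
  have h6 : edist x (γ t) + edist (γ t) y < ENNReal.ofReal (dist x y + η) := by
    refine lt_of_le_of_lt ?_ hlen
    rw [← h5]
    exact add_le_add (by rw [A.edist_eq]; exact h3) (by rw [A.edist_eq]; exact h4)
  rw [edist_dist, edist_dist, ← ENNReal.ofReal_add dist_nonneg dist_nonneg] at h6
  have h7 := (ENNReal.ofReal_lt_ofReal_iff (by linarith [dist_nonneg (x := x) (y := y)])).mp h6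
  simp only at htr
  rw [htr] at h7
  linarith

end M0

open M0 in
theorem stmt_M0 (hC1 : Stmt_C1) (hC2 : Stmt_C2) (hC3 : Stmt_C3) (hM1 : Stmt_M1) : Stmt_M0 := by
  intro Mo ε hε
  let A := rp hC1 hC2 hM1 hC3 Mo hε
  refine ⟨{ M := A.toRM, finrank := ?_, e := Homeomorph.refl _, low := ?_, up := ?_, crv := ?_, len := ?_ }⟩
  · change Module.finrank ℝ (ℂ × ℝ) = 3
    simp
  · intro x y
    exact A.norm_map_sub_le x y
  · intro g σ a b B hσ hab hB hU hC x y hx hy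
    have ha : σ a ∈ (dat hC1 hC2 Mo).U g := hU a ⟨le_rfl, hab⟩
    have hb : σ b ∈ (dat hC1 hC2 Mo).U g := hU b ⟨hab, le_rfl⟩
    have hx' : x = A.par g (σ a) := by
      apply (dat hC1 hC2 Mo).injective_incl
      refine Eq.trans ?_ ((dat hC1 hC2 Mo).incl_par ha).symm
      exact hx
    have hy' : y = A.par g (σ b) := by
      apply (dat hC1 hC2 Mo).injective_incl
      refine Eq.trans ?_ ((dat hC1 hC2 Mo).incl_par hb).symm
      exact hy
    rw [hx', hy']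
    refine A.dist_par_le_of_speed (i := g) hab ((hσ.of_le (by simp)).contDiffOn) hU ?_ hB
    intro t ht
    refine le_trans (le_of_eq ?_) (hC t ht)
    congr 1
    apply Filter.EventuallyEq.deriv_eq
    filter_upwards [Icc_mem_nhds ht.1 ht.2] with s hs
    change Mo.FF ε ((dat hC1 hC2 Mo).incl ((dat hC1 hC2 Mo).par g (σ s))) = _
    rw [(dat hC1 hC2 Mo).incl_par (hU s hs)]
    rfl
  · intro g σ a b B γ hσ hab hB hU hC hγ
    refine crv_aux A (i := g) hab ((hσ.of_le (by simp)).contDiffOn) hU hB ?_ γ ?_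
    · intro t ht
      refine le_trans (le_of_eq ?_) (hC t ht)
      congr 1
      apply Filter.EventuallyEq.deriv_eq
      filter_upwards [Icc_mem_nhds ht.1 ht.2] with s hs
      change Mo.FF ε ((dat hC1 hC2 Mo).incl ((dat hC1 hC2 Mo).par g (σ s))) = _
      rw [(dat hC1 hC2 Mo).incl_par (hU s hs)]
      rfl
    · intro t ht
      apply (dat hC1 hC2 Mo).injective_incl
      refine Eq.trans ?_ ((dat hC1 hC2 Mo).incl_par (hU t ht)).symm
      exact hγ t ht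
  · intro x y r η hr hrd hη
    exact len_aux A x y r η hr hrd hη

end Pool.CX
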