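import Pool.Agent.Work.MP_727c87_cx.E1.Met

/-! # Block M1 (helper13): `FF ε` is smooth, elementary properties of `phi` -/

open Set Complex ComplexConjugate
open scoped ContDiff NNReal

noncomputable section

namespace Pool.CX

namespace M1

theorem st_smooth : ContDiff ℝ ∞ Real.smoothTransition := Real.smoothTransition.contDiff

theorem sidef_smooth : ContDiff ℝ ∞ sidef := by
  unfold sidef
  exact contDiff_const.sub (st_smooth.comp (by fun_prop))

theorem cenf_smooth : ContDiff ℝ ∞ cenf := by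
  unfold cenf
  exact st_smooth.comp (by fun_prop)

theorem ef_smooth (h : ZMod 12) : ContDiff ℝ ∞ (ef h) := by
  unfold ef
  refine st_smooth.comp (contDiff_const.sub (contDiff_const.mul ?_))
  exact (contDiff_norm_sq ℝ).comp (contDiff_id.sub contDiff_const)

theorem Gf_smooth (hlv : ∀ j, ContDiff ℝ ∞ (lv j)) : ContDiff ℝ ∞ Gf := by
  unfold Gf
  exact contDiff_prod fun k _ => cenf_smooth.comp (hlv k)

theorem sidef_mem (x : ℝ) : 0 ≤ sidef x ∧ sidef x ≤ 1 := by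
  unfold sidef
  constructor
  · linarith [Real.smoothTransition.le_one (20 * (x - 1 / 4))]
  · linarith [Real.smoothTransition.nonneg (20 * (x - 1 / 4))]

theorem cenf_mem (x : ℝ) : 0 ≤ cenf x ∧ cenf x ≤ 1 :=
  ⟨Real.smoothTransition.nonneg _, Real.smoothTransition.le_one _⟩

theorem ef_mem (h : ZMod 12) (v : ℂ) : 0 ≤ ef h v ∧ ef h v ≤ 1 :=
  ⟨Real.smoothTransition.nonneg _, Real.smoothTransition.le_one _⟩

theorem Gf_mem (u : ℂ) : 0 ≤ Gf u ∧ Gf u ≤ 1 :=
  ⟨Finset.prod_nonneg fun _ _ => (cenf_mem _).1,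
    Finset.prod_le_one (fun _ _ => (cenf_mem _).1) fun _ _ => (cenf_mem _).2⟩

theorem tf_smooth (hlv : ∀ j, ContDiff ℝ ∞ (lv j)) (d : Prop) (i h : ZMod 12) :
    ContDiff ℝ ∞ (fun x : ℂ × ℂ => tf d i h x.1 x.2) := by
  unfold tf
  have h1 : ContDiff ℝ ∞ (fun x : ℂ × ℂ => sidef (lv i x.1)) :=
    sidef_smooth.comp ((hlv i).comp contDiff_fst)
  have h2 : ContDiff ℝ ∞ (fun x : ℂ × ℂ => ef h x.2 * Gf x.1) :=
    ((ef_smooth h).comp contDiff_snd).mul ((Gf_smooth hlv).comp contDiff_fst)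
  by_cases hd : d
  · simp only [hd, if_true]
    exact contDiff_const.sub ((contDiff_const.sub h1).mul (contDiff_const.sub contDiff_const))
  · simp only [hd, if_false]
    exact contDiff_const.sub ((contDiff_const.sub h1).mul (contDiff_const.sub h2))

theorem tf_mem (d : Prop) (i h : ZMod 12) (u v : ℂ) : 0 ≤ tf d i h u v ∧ tf d i h u v ≤ 1 := by
  obtain ⟨a1, a2⟩ := sidef_mem (lv i u)
  have h2 : 0 ≤ ef h v * Gf u ∧ ef h v * Gf u ≤ 1 :=
    ⟨mul_nonneg (ef_mem h v).1 (Gf_mem u).1,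
      mul_le_one₀ (ef_mem h v).2 (Gf_mem u).1 (Gf_mem u).2⟩
  unfold tf
  by_cases hd : d
  · simp only [hd, if_true]
    constructor <;> nlinarith
  · simp only [hd, if_false]
    constructor
    · nlinarith [mul_nonneg (sub_nonneg.2 a2) (sub_nonneg.2 h2.2), h2.1, h2.2,
        mul_le_one₀ (show 1 - sidef (lv i u) ≤ 1 by linarith) (sub_nonneg.2 h2.2)
          (show 1 - ef h v * Gf u ≤ 1 by linarith [h2.1])]
    · nlinarith [mul_nonneg (sub_nonneg.2 a2) (sub_nonneg.2 h2.2)]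

theorem ph_mem (d : Prop) (i h : ZMod 12) (y : ℝ × ℂ × ℂ) : 0 ≤ ph d i h y ∧ ph d i h y ≤ 1 := by
  unfold ph
  have h1 := Real.smoothTransition.nonneg (4 * y.1 - 1)
  have h2 := Real.smoothTransition.le_one (4 * y.1 - 1)
  obtain ⟨h3, h4⟩ := tf_mem d i h ((y.1⁻¹ : ℂ) * y.2.1) ((y.1⁻¹ : ℂ) * y.2.2)
  exact ⟨mul_nonneg h1 h3, mul_le_one₀ h2 h3 h4⟩

theorem ph_zero (d : Prop) (i h : ZMod 12) (y : ℝ × ℂ × ℂ) (hy : y.1 ≤ 1 / 4) :
    ph d i h y = 0 := by
  unfold ph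
  rw [Real.smoothTransition.zero_of_nonpos (by linarith), zero_mul]

theorem ph_smooth (hlv : ∀ j, ContDiff ℝ ∞ (lv j)) (d : Prop) (i h : ZMod 12) :
    ContDiff ℝ ∞ (ph d i h) := by
  rw [contDiff_iff_contDiffAt]
  intro y
  rcases lt_or_ge y.1 (1 / 4) with hy | hy
  · have h1 : ph d i h =ᶠ[nhds y] fun _ => (0 : ℝ) := by
      have : {z : ℝ × ℂ × ℂ | z.1 < 1 / 4} ∈ nhds y :=
        (isOpen_lt continuous_fst continuous_const).mem_nhds hy
      filter_upwards [this] with z hz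
      exact ph_zero d i h z (le_of_lt hz)
    exact contDiffAt_const.congr_of_eventuallyEq h1
  · have hy0 : y.1 ≠ 0 := by linarith
    have g1 : ContDiffAt ℝ ∞ (fun z : ℝ × ℂ × ℂ => ((z.1 : ℂ))⁻¹) y := by
      have e1 : ContDiffAt ℝ ∞ (fun z : ℝ × ℂ × ℂ => ((z.1)⁻¹ : ℝ)) y :=
        contDiffAt_fst.inv hy0
      have e2 : (fun z : ℝ × ℂ × ℂ => ((z.1 : ℂ))⁻¹) =
          fun z => Complex.ofRealCLM ((z.1)⁻¹ : ℝ) := by
        ext z; simp
      rw [e2]
      exact (Complex.ofRealCLM.contDiff (n := ∞)).contDiffAt.comp y e1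
    have g2 : ContDiffAt ℝ ∞ (fun z : ℝ × ℂ × ℂ => (((z.1 : ℂ))⁻¹ * z.2.1, ((z.1 : ℂ))⁻¹ * z.2.2)) y :=
      (g1.mul (contDiff_snd.fst.contDiffAt)).prodMk (g1.mul (contDiff_snd.snd.contDiffAt))
    have g3 := (tf_smooth hlv d i h).comp_contDiffAt y g2
    have g4 : ContDiffAt ℝ ∞ (fun z : ℝ × ℂ × ℂ => Real.smoothTransition (4 * z.1 - 1)) y :=
      (st_smooth.comp ((contDiff_const.mul contDiff_fst).sub contDiff_const)).contDiffAt
    exact g4.mul g3

end M1

open M1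

theorem stmt_M1 (hG4 : Stmt_G4) : Stmt_M1 := by
  have hlv := hG4.1
  have hph := ph_smooth hlv
  refine ⟨hph, ?_, ?_, ?_⟩
  · intro Mo ε
    have happ : ∀ g : Mo.Q, ContDiff ℝ ∞ (fun p : Amb Mo.Q => p g) := fun g =>
      contDiff_pi.1 contDiff_id g
    have hphi : ∀ y : Mo.F, ContDiff ℝ ∞ (Mo.phi y) := fun y => (hph _ _ _).comp (happ y.1)
    have h1 : ∀ g, ContDiff ℝ ∞ (fun p : Amb Mo.Q => (p g).1) := fun g => (happ g).fst
    have h2 : ∀ g, ContDiff ℝ ∞ (fun p : Amb Mo.Q => (p g).2.1) := fun g => (happ g).snd.fst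
    have h3 : ∀ g, ContDiff ℝ ∞ (fun p : Amb Mo.Q => (p g).2.2) := fun g => (happ g).snd.snd
    rw [contDiff_euclidean]
    rintro (⟨g, k⟩ | b | g)
    · show ContDiff ℝ ∞ (fun p : Amb Mo.Q => ε * ![(p g).1, (p g).2.1.re, (p g).2.1.im,
        (p g).2.2.re, (p g).2.2.im] k)
      refine contDiff_const.mul ?_
      fin_cases k
      · exact h1 g
      · exact Complex.reCLM.contDiff.comp (h2 g)
      · exact Complex.imCLM.contDiff.comp (h2 g)
      · exact Complex.reCLM.contDiff.comp (h3 g)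
      · exact Complex.imCLM.contDiff.comp (h3 g)
    · show ContDiff ℝ ∞ (fun p : Amb Mo.Q => Mo.tb b p)
      unfold Model.tb
      refine contDiff_const.sub (contDiff_prod fun y _ => ?_)
      by_cases hy : Mo.arc y = b
      · simp only [hy, if_true]
        exact contDiff_const.sub (hphi y)
      · simp only [hy, if_false]
        exact contDiff_const
    · show ContDiff ℝ ∞ (fun p : Amb Mo.Q => Mo.th g p)
      unfold Model.th
      exact (h1 g).mul (contDiff_prod fun y _ => contDiff_const.sub (hphi y))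
  · intro Mo y p
    exact ph_mem _ _ _ _
  · intro Mo y p hne
    by_contra hlt
    exact hne (ph_zero _ _ _ _ (not_lt.1 hlt))

end Pool.CX
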