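import Pool.Agent.Work.MP_727c87_cx.E1.Met

open Set Complex ComplexConjugate
open scoped ContDiff NNReal

namespace Pool.CX

theorem M2.prod_tb (Mo : Model) (p : Amb Mo.Q) :
    ∏ b : Mo.Arc, (1 - Mo.tb b p) = ∏ y : Mo.F, (1 - Mo.phi y p) := by
  unfold Model.tb
  simp only [sub_sub_cancel]
  rw [Finset.prod_comm]
  refine Finset.prod_congr rfl fun y _ => ?_
  rw [Finset.prod_ite_eq]
  simp

theorem M2.tb_eq_zero (Mo : Model) (p : Amb Mo.Q) (b : Mo.Arc)
    (h : ∀ y, Mo.arc y = b → Mo.phi y p = 0) : Mo.tb b p = 0 := by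
  unfold Model.tb
  rw [Finset.prod_eq_one, sub_self]
  intro y _
  split_ifs with hy
  · rw [h y hy, sub_zero]
  · rfl

open Classical in
theorem stmt_M2 (hG3 : Stmt_G3) (hG4 : Stmt_G4) (hG5 : Stmt_G5) (hG6 : Stmt_G6) (hS1 : Stmt_S1)
    (hS2 : Stmt_S2) (hS3 : Stmt_S3) (hM1 : Stmt_M1) : Stmt_M2 := by
  obtain ⟨-, -, h01, hq⟩ := hM1
  intro Mo p hp
  obtain ⟨g, u, v, hL, rfl⟩ := hp
  obtain ⟨n, hn⟩ := hG6.2.2.2.2.1 u hL.1
  have hnP : mv n u ∈ PPo := hG6.2.2.2.1 hn
  have hp' := (hS2 Mo g u v hL.1).2.2.2.1 n hnP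
  rw [← hp']
  set g' := nbr Mo.L g n with hg'
  set u' := mv n u with hu'
  obtain ⟨hself, -, -, -, hS⟩ := hS2 Mo g' u' v hnP
  set p := Psi Mo.L g' u' v with hpdef
  have hpg : (p g').1 = 1 := by
    rw [hself]
    exact (hG4.2.2.2.2.2.2.1 u').2 hn
  obtain ⟨j, -, hj⟩ := hG5.2 u' hnP
  -- the flags with nonzero phi
  let S : Finset Mo.F := Finset.univ.filter fun y => Mo.phi y p ≠ 0
  let N : Finset Nbr := {none, some (j, false), some (j + 1, false), some (j, true)}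
  have hN : N.card ≤ 4 := Finset.card_le_four
  have hS' : S ⊆ (N.image (nbr Mo.L g')) ×ˢ (Finset.univ : Finset (ZMod 12)) := by
    intro y hy
    have hy1 : Mo.phi y p ≠ 0 := (Finset.mem_filter.1 hy).2
    have hy2 : 0 < (p y.1).1 := by linarith [hq Mo y p hy1]
    obtain ⟨m, hm, hm'⟩ := hS y.1 hy2
    rw [Finset.mem_product]
    refine ⟨Finset.mem_image.2 ⟨m, ?_, hm⟩, Finset.mem_univ _⟩
    rcases hj m hm' with h | h | h | h <;> simp [N, h]
  have hScard : S.card ≤ 48 := by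
    refine (Finset.card_le_card hS').trans ?_
    rw [Finset.card_product]
    have h1 : (N.image (nbr Mo.L g')).card ≤ 4 := Finset.card_image_le.trans hN
    have h2 : (Finset.univ : Finset (ZMod 12)).card = 12 := by decide
    rw [h2]
    omega
  by_cases hall : ∀ b, Mo.tb b p ≤ 1 / 2
  · right
    refine ⟨g', ?_⟩
    have hB : ∀ b, b ∉ S.image Mo.arc → Mo.tb b p = 0 := by
      intro b hb
      refine M2.tb_eq_zero Mo p b fun y hy => ?_
      by_contra hne
      exact hb (Finset.mem_image.2 ⟨y, Finset.mem_filter.2 ⟨Finset.mem_univ _, hne⟩, hy⟩)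
    have hprod : (2 : ℝ)⁻¹ ^ 48 ≤ ∏ b : Mo.Arc, (1 - Mo.tb b p) := by
      have h1 : ∏ b ∈ S.image Mo.arc, (1 - Mo.tb b p) = ∏ b : Mo.Arc, (1 - Mo.tb b p) := by
        refine Finset.prod_subset (Finset.subset_univ _) fun b _ hb => ?_
        rw [hB b hb, sub_zero]
      rw [← h1]
      calc (2 : ℝ)⁻¹ ^ 48 ≤ (2 : ℝ)⁻¹ ^ (S.image Mo.arc).card :=
            pow_le_pow_of_le_one (by norm_num) (by norm_num) (Finset.card_image_le.trans hScard)
        _ = ∏ b ∈ S.image Mo.arc, (2 : ℝ)⁻¹ := by rw [Finset.prod_const]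
        _ ≤ _ := Finset.prod_le_prod (fun _ _ => by norm_num) fun b _ => by
            have := hall b
            norm_num at this ⊢
            linarith
    unfold Model.th
    rw [hpg, one_mul, ← M2.prod_tb]
    exact hprod
  · push Not at hall
    obtain ⟨b, hb⟩ := hall
    left
    refine ⟨b, le_trans ?_ hb.le⟩
    norm_num

end Pool.CX
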