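import Pool.Agent.Work.MP_727c87_cx.E1.Met
import Pool.Agent.Work.MP_727c87_cx.E1.DLib

open Set Complex ComplexConjugate
open scoped ContDiff NNReal

namespace Pool.CX

theorem M3.sameArc_of_eqvGen (Mo : Model) {f f' : Mo.base.Y}
    (h : Relation.EqvGen Mo.base.SameArc f f') : Mo.base.SameArc f f' := by
  induction h with
  | rel _ _ h => exact h
  | refl _ => exact Cov.SameArc.refl' _ _
  | symm _ _ _ ih => exact Cov.SameArc.symm' _ ih
  | trans _ _ _ _ _ ih1 ih2 => exact Cov.SameArc.trans' _ ih1 ih2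

theorem M3.sameArc_of_arc (Mo : Model) {f f' : Mo.F} (h : Mo.arc f = Mo.arc f') :
    Mo.base.SameArc f f' :=
  M3.sameArc_of_eqvGen Mo (Quot.eqvGen_exact h)

theorem M3.exists_flag_of_tb (Mo : Model) (h1 : ∀ (y : Mo.F) (p : Amb Mo.Q), Mo.phi y p ≠ 0 → 1 / 4 < (p y.1).1)
    (b : Mo.Arc) (p : Amb Mo.Q) (h : 0 < Mo.tb b p) : ∃ f : Mo.F, Mo.arc f = b ∧ 0 < (p f.1).1 := by
  by_contra hcon
  push Not at hcon
  have : Mo.tb b p = 0 := by
    unfold Model.tb
    rw [Finset.prod_eq_one, sub_self]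
    intro y _
    split_ifs with hy
    · have h2 : Mo.phi y p = 0 := by
        by_contra h3
        have := h1 y p h3
        have := hcon y hy
        linarith
      rw [h2, sub_zero]
    · rfl
  linarith

theorem M3.pos_of_th (Mo : Model) (h1 : ∀ (y : Mo.F) (p : Amb Mo.Q), 0 ≤ Mo.phi y p ∧ Mo.phi y p ≤ 1)
    (g : Mo.Q) (p : Amb Mo.Q) (h : 0 < Mo.th g p) : 0 < (p g).1 := by
  unfold Model.th at h
  have h2 : 0 ≤ ∏ y : Mo.F, (1 - Mo.phi y p) :=
    Finset.prod_nonneg fun y _ => by linarith [(h1 y p).2]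
  by_contra h3
  push Not at h3
  have := mul_nonpos_of_nonpos_of_nonneg h3 h2
  linarith

theorem stmt_M3 (hM1 : Stmt_M1) (hM2 : Stmt_M2) : Stmt_M3 := by
  obtain ⟨-, -, hb, hq⟩ := hM1
  intro Mo ε Z x y hd
  have key : ∀ i : Mo.J, |Mo.comp ε (Z.e x) i - Mo.comp ε (Z.e y) i| ≤ dist x y := by
    intro i
    refine le_trans ?_ (Z.low x y)
    have := PiLp.norm_apply_le (p := 2) (Mo.FF ε (Z.e x) - Mo.FF ε (Z.e y)) i
    simpa [Model.FF, Real.norm_eq_abs] using this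
  rcases hM2 Mo (Z.e x) (Z.e x).2 with ⟨b, hb1⟩ | ⟨g, hg⟩
  · have h1 := key (Sum.inr (Sum.inl b))
    simp only [Model.comp] at h1
    have h2 := (abs_le.1 h1).2
    have hx : 0 < Mo.tb b (Z.e x) := lt_of_lt_of_le (by positivity) hb1
    have hy : 0 < Mo.tb b (Z.e y) := by linarith
    obtain ⟨f, hf, hf1⟩ := M3.exists_flag_of_tb Mo (hq Mo) b _ hx
    obtain ⟨f', hf', hf1'⟩ := M3.exists_flag_of_tb Mo (hq Mo) b _ hy
    exact ⟨f, f', M3.sameArc_of_arc Mo (hf.trans hf'.symm), hf1, hf1'⟩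
  · have h1 := key (Sum.inr (Sum.inr g))
    simp only [Model.comp] at h1
    have h2 := (abs_le.1 h1).2
    have hx : 0 < Mo.th g (Z.e x) := lt_of_lt_of_le (by positivity) hg
    have hy : 0 < Mo.th g (Z.e y) := by linarith
    exact ⟨(g, 0), (g, 0), Cov.SameArc.refl' _ _, M3.pos_of_th Mo (hb Mo) g _ hx,
      M3.pos_of_th Mo (hb Mo) g _ hy⟩

end Pool.CX
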