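import Pool.Agent.Work.MP_727c87_cx.E1.Met
import Pool.Agent.Work.MP_727c87_cx.E1.DLib

open Set Complex ComplexConjugate
open scoped ContDiff NNReal

namespace Pool.CX

/-- from a neighbouring chamber (at most two crossings) to the chamber itself -/
theorem M4.dle_nbr (Mo : Model) (g : Mo.Q) (n : Nbr) (f : Mo.F) (h : nbr Mo.L g n = f.1) :
    ∃ i, Mo.base.Dle 14 f (g, i) := by
  obtain ⟨q, i⟩ := f
  simp only at h
  subst h
  rcases n with _ | ⟨j, b⟩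
  · exact ⟨i, Cov.Dle.mono' _ (by norm_num) (Cov.Dle.zero' _ _)⟩
  · cases b
    · refine ⟨j, Cov.Dle.mono' _ (show 11 + 1 ≤ 14 by norm_num) ?_⟩
      refine Cov.Dle.trans' _ (Mo.dle_same _ i j) ?_
      exact Cov.Dle.symm' _ (Mo.dle_cross g j)
    · refine ⟨j + 1, Cov.Dle.mono' _ (show 11 + (1 + (1 + 1)) ≤ 14 by norm_num) ?_⟩
      refine Cov.Dle.trans' _ (Mo.dle_same _ i j) ?_
      refine Cov.Dle.trans' _ (Cov.Dle.symm' _ (Mo.dle_cross (Mo.L.τ (j + 1) g) j)) ?_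
      refine Cov.Dle.trans' _ ?_ (Cov.Dle.symm' _ (Mo.dle_cross g (j + 1)))
      have := Mo.dle_rot (Mo.L.τ (j + 1) g) j 1
      simpa using this

theorem stmt_M4 (hG4 : Stmt_G4) (hS1 : Stmt_S1) (hS2 : Stmt_S2) : Stmt_M4 := by
  intro Mo p f f' hp h h'
  obtain ⟨g, u, v, hL, rfl⟩ := hp
  obtain ⟨-, -, -, -, hS⟩ := hS2 Mo g u v hL.1
  obtain ⟨n, hn, -⟩ := hS f.1 h
  obtain ⟨n', hn', -⟩ := hS f'.1 h'
  obtain ⟨i, hi⟩ := M4.dle_nbr Mo g n f hn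
  obtain ⟨i', hi'⟩ := M4.dle_nbr Mo g n' f' hn'
  refine Cov.Dle.mono' _ (show 14 + (11 + 14) ≤ 40 by norm_num) ?_
  exact Cov.Dle.trans' _ hi (Cov.Dle.trans' _ (Mo.dle_same g i i') (Cov.Dle.symm' _ hi'))

end Pool.CX
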