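import Pool.Agent.Work.MP_727c87_cx.E1.Met
import Pool.Agent.Work.MP_727c87_cx.E1.DLib

open Set Complex ComplexConjugate
open scoped ContDiff NNReal

namespace Pool.CX

theorem M5.near (hM3 : Stmt_M3) (hM4 : Stmt_M4) (Mo : Model) (ε : ℝ) (Z : Realz Mo ε) (x y : Z.M.Pt)
    (f f' : Mo.F) (hx : x ∈ Z.Op f.1) (hy : y ∈ Z.Op f'.1) (hd : dist x y < (2 : ℝ)⁻¹ ^ 48) :
    Mo.base.Dle 81 f f' := by
  obtain ⟨f1, f1', hs, hx1, hy1⟩ := hM3 Mo ε Z x y hd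
  have h1 : Mo.base.Dle 40 f f1 := hM4 Mo _ f f1 (Z.e x).2 hx hx1
  have h2 : Mo.base.Dle 40 f1' f' := hM4 Mo _ f1' f' (Z.e y).2 hy1 hy
  exact Cov.Dle.trans' _ (Cov.Dle.snoc _ h1 (Or.inr (Or.inr (Or.inr hs)))) h2

theorem M5.chain (hM3 : Stmt_M3) (hM4 : Stmt_M4) (Mo : Model) (ε : ℝ) (Z : Realz Mo ε) (k : ℕ) :
    ∀ (x y : Z.M.Pt) (f f' : Mo.F), x ∈ Z.Op f.1 → y ∈ Z.Op f'.1 →
      dist x y < (2 : ℝ)⁻¹ ^ 48 + k * ((2 : ℝ)⁻¹ ^ 48 / 8) → Mo.base.Dle (81 * (k + 1)) f f' := by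
  have hδ : (0 : ℝ) < (2 : ℝ)⁻¹ ^ 48 := by positivity
  induction k with
  | zero =>
    intro x y f f' hx hy hd
    simpa using M5.near hM3 hM4 Mo ε Z x y f f' hx hy (by simpa using hd)
  | succ k ih =>
    intro x y f f' hx hy hd
    by_cases h : dist x y < (2 : ℝ)⁻¹ ^ 48
    · exact Cov.Dle.mono' _ (by omega) (M5.near hM3 hM4 Mo ε Z x y f f' hx hy h)
    · push Not at h
      obtain ⟨z, hz1, hz2⟩ := Z.len x y ((2 : ℝ)⁻¹ ^ 48 / 4) ((2 : ℝ)⁻¹ ^ 48 / 8) (by positivity)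
        (by linarith) (by positivity)
      obtain ⟨g, g', -, -, hg'⟩ := hM3 Mo ε Z x z (by linarith)
      have h1 := M5.near hM3 hM4 Mo ε Z x z f g' hx hg' (by linarith)
      have h2 := ih z y g' f' hg' hy (by push_cast at hd; linarith)
      have h3 := Cov.Dle.trans' _ h1 h2
      exact Cov.Dle.mono' _ (by omega) h3

theorem stmt_M5 (hM3 : Stmt_M3) (hM4 : Stmt_M4) : Stmt_M5 := by
  obtain ⟨D, hD, hD1⟩ : ∃ D : ℕ, (D : ℝ) * ((2 : ℝ)⁻¹ ^ 48 / 8) = 1 ∧ 1 ≤ D :=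
    ⟨8 * 2 ^ 48, by norm_num, by norm_num⟩
  refine ⟨81 * D, ?_⟩
  intro Mo ε Z x y f f' L hx hy hd
  have h := M5.chain hM3 hM4 Mo ε Z (D * L) x y f f' hx hy ?_
  · refine Cov.Dle.mono' _ ?_ h
    have : 81 * (D * L + 1) ≤ 81 * (D * L + D) := by omega
    calc 81 * (D * L + 1) ≤ 81 * (D * L + D) := this
      _ = 81 * D * (L + 1) := by ring
  · have h1 : ((D * L : ℕ) : ℝ) * ((2 : ℝ)⁻¹ ^ 48 / 8) = L := by
      push_cast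
      rw [mul_right_comm, hD, one_mul]
    rw [h1]
    have : (0 : ℝ) < (2 : ℝ)⁻¹ ^ 48 := by positivity
    linarith

end Pool.CX
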