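import Mathlib

/-!
# Smooth manifolds given by local parametrisations

`UW727.E1.Param E W` : a subset `S` of the normed space `W` together with local parametrisations
`Φ i : U i → S`, `U i` open in `E`, and smooth left inverses `G i : V i → E`.
The points of `S` form a smooth manifold modelled on `E`, the inclusion in `W` is a smooth
immersion.
-/

open Set Topology Manifold
open scoped Manifold ContDiff

noncomputable section

namespace UW727.E1

/-- Local parametrisations of a subset of a normed space, with smooth left inverses. -/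
structure Param (E W : Type) [NormedAddCommGroup E] [NormedSpace ℝ E]
    [NormedAddCommGroup W] [NormedSpace ℝ W] where
  /-- indices of the charts -/
  ι : Type
  /-- the subset -/
  S : Set W
  /-- domains of the parametrisations -/
  U : ι → Set E
  /-- the parametrisations -/
  Φ : ι → E → W
  /-- open subsets of the ambient space -/
  V : ι → Set W
  /-- the left inverses -/
  G : ι → W → E
  nonempty : S.Nonempty
  isOpen_U : ∀ i, IsOpen (U i)
  isOpen_V : ∀ i, IsOpen (V i)
  smooth_Φ : ∀ i, ContDiffOn ℝ ∞ (Φ i) (U i)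
  smooth_G : ∀ i, ContDiffOn ℝ ∞ (G i) (V i)
  left_inv : ∀ i, ∀ u ∈ U i, G i (Φ i u) = u
  image : ∀ i, S ∩ V i = Φ i '' U i
  cover : ∀ p ∈ S, ∃ i, p ∈ V i

namespace Param

variable {E W : Type} [NormedAddCommGroup E] [NormedSpace ℝ E]
    [NormedAddCommGroup W] [NormedSpace ℝ W] (D : Param E W)

/-- The points of the manifold. -/
def Pt : Type := D.S

instance : TopologicalSpace D.Pt := inferInstanceAs (TopologicalSpace D.S)

instance : Nonempty D.Pt := D.nonempty.to_subtype

instance : T3Space D.Pt := inferInstanceAs (T3Space D.S)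

/-- The inclusion in the ambient space. -/
def incl (p : D.Pt) : W := p.1

/-- The point of the manifold given by a point of `S`. -/
def mkPt (w : W) (h : w ∈ D.S) : D.Pt := ⟨w, h⟩

@[simp]
theorem incl_mkPt (w : W) (h : w ∈ D.S) : D.incl (D.mkPt w h) = w := rfl

theorem isEmbedding_incl : IsEmbedding D.incl := IsEmbedding.subtypeVal

theorem continuous_incl : Continuous D.incl := D.isEmbedding_incl.continuous

theorem injective_incl : Function.Injective D.incl := Subtype.val_injective

theorem incl_mem (p : D.Pt) : D.incl p ∈ D.S := p.2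

theorem Φ_mem {i : D.ι} {u : E} (hu : u ∈ D.U i) : D.Φ i u ∈ D.S :=
  ((D.image i).symm ▸ mem_image_of_mem _ hu : D.Φ i u ∈ D.S ∩ D.V i).1

theorem Φ_mem_V {i : D.ι} {u : E} (hu : u ∈ D.U i) : D.Φ i u ∈ D.V i :=
  ((D.image i).symm ▸ mem_image_of_mem _ hu : D.Φ i u ∈ D.S ∩ D.V i).2

open Classical in
/-- The parametrisations, with values in the manifold. -/
def par (i : D.ι) (u : E) : D.Pt :=
  if h : u ∈ D.U i then D.mkPt (D.Φ i u) (D.Φ_mem h) else Classical.arbitrary _

theorem incl_par {i : D.ι} {u : E} (hu : u ∈ D.U i) : D.incl (D.par i u) = D.Φ i u := by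
  unfold par
  rw [dif_pos hu]
  rfl

theorem exists_par {i : D.ι} {p : D.Pt} (hp : D.incl p ∈ D.V i) :
    ∃ u ∈ D.U i, D.par i u = p := by
  have h1 : D.incl p ∈ D.S ∩ D.V i := ⟨D.incl_mem p, hp⟩
  rw [D.image i] at h1
  obtain ⟨u, hu, h⟩ := h1
  refine ⟨u, hu, D.injective_incl ?_⟩
  rw [D.incl_par hu, h]

theorem continuousOn_par (i : D.ι) : ContinuousOn (D.par i) (D.U i) := by
  rw [D.isEmbedding_incl.continuousOn_iff]
  refine (D.smooth_Φ i).continuousOn.congr ?_
  intro u hu
  exact D.incl_par hu

/-- The charts. -/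
def chart (i : D.ι) : OpenPartialHomeomorph D.Pt E where
  toFun p := D.G i (D.incl p)
  invFun := D.par i
  source := D.incl ⁻¹' D.V i
  target := D.U i
  map_source' := by
    intro p hp
    obtain ⟨u, hu, rfl⟩ := D.exists_par hp
    rw [D.incl_par hu, D.left_inv i u hu]
    exact hu
  map_target' := by
    intro u hu
    change D.incl (D.par i u) ∈ D.V i
    rw [D.incl_par hu]
    exact D.Φ_mem_V hu
  left_inv' := by
    intro p hp
    obtain ⟨u, hu, rfl⟩ := D.exists_par hp
    rw [D.incl_par hu, D.left_inv i u hu]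
  right_inv' := by
    intro u hu
    rw [D.incl_par hu, D.left_inv i u hu]
  open_source := (D.isOpen_V i).preimage D.continuous_incl
  open_target := D.isOpen_U i
  continuousOn_toFun := (D.smooth_G i).continuousOn.comp D.continuous_incl.continuousOn
    (fun _ h => h)
  continuousOn_invFun := D.continuousOn_par i

/-- Index of the preferred chart at a point. -/
def idx (p : D.Pt) : D.ι := Classical.choose (D.cover p.1 p.2)

theorem incl_mem_V (p : D.Pt) : D.incl p ∈ D.V (D.idx p) :=
  Classical.choose_spec (D.cover p.1 p.2)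

instance : ChartedSpace E D.Pt where
  atlas := range D.chart
  chartAt p := D.chart (D.idx p)
  mem_chart_source p := D.incl_mem_V p
  chart_mem_atlas _ := mem_range_self _

theorem chartAt_eq (p : D.Pt) : chartAt E p = D.chart (D.idx p) := rfl

instance : IsManifold 𝓘(ℝ, E) ∞ D.Pt := by
  refine isManifold_of_contDiffOn _ _ _ ?_
  rintro e e' ⟨i, rfl⟩ ⟨j, rfl⟩
  have h1 : ContDiffOn ℝ ∞ (D.G j ∘ D.Φ i) (D.U i ∩ {u | D.Φ i u ∈ D.V j}) :=
    (D.smooth_G j).comp ((D.smooth_Φ i).mono inter_subset_left) (fun u hu => hu.2)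
  have h2 : ContDiffOn ℝ ∞ ((D.chart j) ∘ (D.chart i).symm)
      (D.U i ∩ {u | D.incl (D.par i u) ∈ D.V j}) := by
    refine (h1.congr ?_).mono ?_
    · intro u hu
      change D.G j (D.incl (D.par i u)) = D.G j (D.Φ i u)
      rw [D.incl_par hu.1]
    · intro u hu
      refine ⟨hu.1, ?_⟩
      have h := hu.2
      rw [mem_ofPred_eq, D.incl_par hu.1] at h
      exact h
  have h3 : ContDiffOn ℝ ∞ ((D.chart j) ∘ (D.chart i).symm)
      ((D.chart i).target ∩ (D.chart i).symm ⁻¹' (D.chart j).source) := h2
  simpa using h3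

end Param

end UW727.E1
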