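import Pool.Agent.Work.MP_727c87_cx.E1.Geo
import Pool.Agent.Work.MP_727c87_cx.E1.Param

/-!
# The 3-manifold of a model as a subset of a vector space

A point of the manifold in the chamber `g` is a pair `(u, v) ∈ ℂ × ℂ` with `u ∈ PPo` and

* `|v| = 1` if `g` is not a defect,
* `|u| ≥ 1`, `|v|² qq(|u|² - 1) = |u|² - 1` if `g` is a defect (so `|v| = 1` for `|u|² ≥ 3`).

`(g, u, v)` and `(s_j g, R j u, v)` are the same point (`u, R j u ∈ PPo`). -/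

open Set Complex ComplexConjugate
open scoped ContDiff

noncomputable section

namespace Pool.CX

/-- the ambient vector space -/
abbrev Amb (Q : Type) : Type := Q → ℝ × ℂ × ℂ

/-- the block `beta u • (1, u, v)` -/
def blk (u v : ℂ) : ℝ × ℂ × ℂ := (beta u, (beta u : ℂ) * u, (beta u : ℂ) * v)

/-- The point of the ambient space with the coordinates `(u, v)` in the chamber `g`. -/
def Psi {Q : Type} [DecidableEq Q] (L : Pool.CS.LS G12 Q) (g : Q) (u v : ℂ) : Amb Q :=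
  fun h => ∑ n : Nbr, if nbr L g n = h then blk (mv n u) v else 0

/-- a smooth positive function, equal to `1` for `s ≤ 1` and to `s` for `s ≥ 2` -/
def qq (s : ℝ) : ℝ := Real.smoothTransition (s - 1) * s + (1 - Real.smoothTransition (s - 1))

/-- coordinates of points of a chamber (`d` = the chamber is a defect) -/
def Loc (d : Prop) : Set (ℂ × ℂ) :=
  {x | x.1 ∈ PPo ∧ (¬ d → ‖x.2‖ = 1) ∧
    (d → 1 ≤ ‖x.1‖ ∧ ‖x.2‖ ^ 2 * qq (‖x.1‖ ^ 2 - 1) = ‖x.1‖ ^ 2 - 1)}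

open Classical in
/-- the parametrisation of `Loc d` by an open solid torus in `ℂ × ℝ`, first component:
`u = |w| - 10 + i h`, resp. `u = √(1+|z|²) w/|w|` with `z = |w| - 10 + i h` -/
def chU (d : Prop) (e : ℂ × ℝ) : ℂ :=
  if d then ((√(1 + ((‖e.1‖ - 10) ^ 2 + e.2 ^ 2)) / ‖e.1‖ : ℝ) : ℂ) * e.1
  else ⟨‖e.1‖ - 10, e.2⟩

open Classical in
/-- second component: `v = w/|w|`, resp. `v = z / √(qq |z|²)` -/
def chV (d : Prop) (e : ℂ × ℝ) : ℂ :=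
  if d then ((1 / √(qq ((‖e.1‖ - 10) ^ 2 + e.2 ^ 2)) : ℝ) : ℂ) * ⟨‖e.1‖ - 10, e.2⟩
  else ((1 / ‖e.1‖ : ℝ) : ℂ) * e.1

/-- the domain of the parametrisation -/
def chDom (d : Prop) : Set (ℂ × ℝ) := {e | e.1 ≠ 0 ∧ chU d e ∈ PPo}

open Classical in
/-- the left inverse of the parametrisation -/
def chG (d : Prop) (u v : ℂ) : ℂ × ℝ :=
  if d then
    (((((√(qq (‖u‖ ^ 2 - 1)) : ℂ) * v).re + 10) / ‖u‖ : ℝ) * u, ((√(qq (‖u‖ ^ 2 - 1)) : ℂ) * v).im)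
  else (((u.re + 10 : ℝ) : ℂ) * v, u.im)

namespace Model
variable (Mo : Model)

/-- the underlying set of the manifold -/
def SS : Set (Amb Mo.Q) := {p | ∃ (g : Mo.Q) (u v : ℂ), (u, v) ∈ Loc (g ∈ Mo.D) ∧ p = Psi Mo.L g u v}

/-- the points in the chart of the chamber `g` -/
def VV (g : Mo.Q) : Set (Amb Mo.Q) := {p | 0 < (p g).1 ∧ (g ∈ Mo.D → (p g).2.1 ≠ 0)}

/-- the parametrisation of the chart of `g` -/
def PhiM (g : Mo.Q) (e : ℂ × ℝ) : Amb Mo.Q :=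
  Psi Mo.L g (chU (g ∈ Mo.D) e) (chV (g ∈ Mo.D) e)

/-- the chart of `g` -/
def GG (g : Mo.Q) (p : Amb Mo.Q) : ℂ × ℝ :=
  chG (g ∈ Mo.D) ((((p g).1)⁻¹ : ℂ) * (p g).2.1) ((((p g).1)⁻¹ : ℂ) * (p g).2.2)

end Model

/-! ## Statements -/

/-- Block S1 (200 lines): star lemma.  Injectivity: `nbr L g` is injective for a model (`Mo.inj`
with words of length `≤ 4`).  If `u` and `mv n u` are in `PPo` then the words moving `mv n u` into
`PPo` correspond to the words moving `u` into `PPo` (G5: all are in one Klein four-group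
`{none, s_j, s_{j+1}, s_j s_{j+1}}`), with the same chambers and the same positions. -/
def Stmt_S1 : Prop :=
  (∀ (Mo : Model) (g : Mo.Q), Function.Injective (nbr Mo.L g)) ∧
  (∀ (Mo : Model) (g : Mo.Q) (u : ℂ) (n n' : Nbr), u ∈ PPo → mv n u ∈ PPo → mv n' u ∈ PPo →
    ∃ n'' : Nbr, nbr Mo.L (nbr Mo.L g n) n'' = nbr Mo.L g n' ∧ mv n'' (mv n u) = mv n' u)

/-- Block S2 (150 lines): consequences for `Psi` (deps G3, G4, G5, S1). -/
def Stmt_S2 : Prop :=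
  ∀ (Mo : Model) (g : Mo.Q) (u v : ℂ), u ∈ PPo →
    (Psi Mo.L g u v g = blk u v) ∧
    (∀ n : Nbr, Psi Mo.L g u v (nbr Mo.L g n) = blk (mv n u) v) ∧
    (∀ h, (∀ n, nbr Mo.L g n ≠ h) → Psi Mo.L g u v h = 0) ∧
    (∀ n, mv n u ∈ PPo → Psi Mo.L (nbr Mo.L g n) (mv n u) v = Psi Mo.L g u v) ∧
    (∀ h, 0 < (Psi Mo.L g u v h).1 → ∃ n, nbr Mo.L g n = h ∧ mv n u ∈ PPo)

/-- Block S3 (100 lines): change of chamber preserves `Loc` (both types of chambers coincide near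
the sides: `|lv j u| < 1/100` implies `|u|² > 3`; also for `R j u`; then `|v| = 1`). -/
def Stmt_S3 : Prop :=
  ∀ (d d' : Prop) (n : Nbr) (u v : ℂ), (u, v) ∈ Loc d → n ≠ none → mv n u ∈ PPo →
    (mv n u, v) ∈ Loc d'

/-- Block C1 (200 lines): the model charts: `(chU, chV)` maps `chDom d` onto `Loc d`, smooth, with
smooth left inverse `chG` (`qq > 0` smooth; for a defect on `u ≠ 0`). -/
def Stmt_C1 : Prop :=
  (∀ s, 0 < qq s) ∧ ContDiff ℝ ∞ qq ∧ (∀ s, s ≤ 1 → qq s = 1) ∧ (∀ s, 2 ≤ s → qq s = s) ∧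
  ∀ d : Prop,
    IsOpen (chDom d) ∧ ContDiffOn ℝ ∞ (chU d) (chDom d) ∧ ContDiffOn ℝ ∞ (chV d) (chDom d) ∧
    (∀ e ∈ chDom d, (chU d e, chV d e) ∈ Loc d) ∧
    (∀ e ∈ chDom d, chG d (chU d e) (chV d e) = e) ∧
    (∀ x ∈ Loc d, chG d x.1 x.2 ∈ chDom d ∧ chU d (chG d x.1 x.2) = x.1 ∧
      chV d (chG d x.1 x.2) = x.2) ∧
    ContDiffOn ℝ ∞ (fun x : ℂ × ℂ => chG d x.1 x.2) {x | d → x.1 ≠ 0}

/-- Block C2 (150 lines): all the fields of `Param` (deps S2, S3, C1, G4). -/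
def Stmt_C2 : Prop :=
  ∀ Mo : Model, Mo.SS.Nonempty ∧
    (∀ g, IsOpen (Mo.VV g)) ∧
    (∀ g, ContDiffOn ℝ ∞ (Mo.PhiM g) (chDom (g ∈ Mo.D))) ∧
    (∀ g, ContDiffOn ℝ ∞ (Mo.GG g) (Mo.VV g)) ∧
    (∀ g, ∀ e ∈ chDom (g ∈ Mo.D), Mo.GG g (Mo.PhiM g e) = e) ∧
    (∀ g, Mo.SS ∩ Mo.VV g = Mo.PhiM g '' chDom (g ∈ Mo.D)) ∧
    (∀ p ∈ Mo.SS, ∃ g, p ∈ Mo.VV g)

/-- Block C3 (150 lines): compact and connected (deps G6, S2, S3, C1).  `SS` is the union of the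
images of the compact sets `{(u,v) ∈ Loc, u ∈ PP}`, each of them path connected, images for
`g` and `s_j g` intersect. -/
def Stmt_C3 : Prop := ∀ Mo : Model, IsCompact Mo.SS ∧ IsConnected Mo.SS

end Pool.CX
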