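import Pool.Agent.Work.MP_727c87_cx.E1.Mfd

/-! # Block S1: the star lemma -/

set_option autoImplicit false

open Set Complex ComplexConjugate
open scoped ContDiff

noncomputable section

namespace Pool.CX

namespace S1

open Pool.CS

/-- the word of a neighbour -/
def wd : Nbr → List (ZMod 12)
  | none => []
  | some (j, false) => [j]
  | some (j, true) => [j + 1, j]

theorem nbr_eq_act {Q : Type} (L : LS G12 Q) (g : Q) (n : Nbr) : nbr L g n = act L g (wd n) := by
  match n with
  | none => rfl
  | some (j, false) => rfl
  | some (j, true) => rfl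

theorem wd_length (n : Nbr) : (wd n).length ≤ 2 := by
  match n with
  | none => simp [wd]
  | some (j, false) => simp [wd]
  | some (j, true) => simp [wd]

theorem act_append {Q : Type} (L : LS G12 Q) (g : Q) (l l' : List (ZMod 12)) :
    act L g (l ++ l') = act L (act L g l) l' := by
  simp [act, List.foldl_append]

theorem act_reverse {Q : Type} (L : LS G12 Q) (l : List (ZMod 12)) :
    ∀ g, act L (act L g l) l.reverse = g := by
  induction l with
  | nil => intro g; rfl
  | cons a l ih =>
    intro g
    rw [List.reverse_cons, act_append]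
    have h1 : act L g (a :: l) = act L (L.τ a g) l := rfl
    rw [h1, ih]
    exact L.inv a g

/-- parity of the letters -/
def par : RC G12 →* Multiplicative (ZMod 12 → ZMod 2) :=
  rlift G12 (fun a => Multiplicative.ofAdd (Pi.single a 1))
    (fun a => by
      rw [← ofAdd_add, ← Pi.single_add]
      have : (1 + 1 : ZMod 2) = 0 := by decide
      rw [this, Pi.single_zero, ofAdd_zero])
    (fun a b _ => mul_comm _ _)

/-- number of letters mod 2 -/
def cnt (l : List (ZMod 12)) (k : ZMod 12) : ZMod 2 := (l.map fun a => if a = k then 1 else 0).sum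

theorem par_wp (l : List (ZMod 12)) (k : ZMod 12) :
    Multiplicative.toAdd (par (wp G12 l)) k = cnt l k := by
  induction l with
  | nil => simp [wp_nil, cnt]
  | cons a l ih =>
    rw [wp_cons, map_mul, toAdd_mul, Pi.add_apply, ih]
    have h1 : par (rg G12 a) = Multiplicative.ofAdd (Pi.single a 1) := rlift_rg _ _ _ _ _
    rw [h1, toAdd_ofAdd]
    simp only [cnt, List.map_cons, List.sum_cons, Pi.single_apply, eq_comm]

theorem cnt_append (l l' : List (ZMod 12)) (k : ZMod 12) :
    cnt (l ++ l') k = cnt l k + cnt l' k := by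
  simp [cnt, List.map_append, List.sum_append]

theorem cnt_reverse (l : List (ZMod 12)) (k : ZMod 12) : cnt l.reverse k = cnt l k := by
  simp only [cnt, List.map_reverse, List.sum_reverse]

theorem wd_inj : ∀ n n' : Nbr, (∀ k, cnt (wd n) k = cnt (wd n') k) → n = n' := by
  have key : ∀ n n' : Option (Fin 12 × Bool), (∀ k, cnt (wd n) k = cnt (wd n') k) → n = n' := by
    decide +kernel
  exact key

theorem nbr_injective (Mo : Model) (g : Mo.Q) : Function.Injective (nbr Mo.L g) := by
  intro n n' h
  rw [nbr_eq_act, nbr_eq_act] at h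
  have h1 : act Mo.L g (wd n ++ (wd n').reverse) = g := by
    rw [act_append, h, act_reverse]
  have h2 := Mo.inj g _ (by
    rw [List.length_append, List.length_reverse]
    have := wd_length n
    have := wd_length n'
    omega) h1
  apply wd_inj
  intro k
  have h3 := par_wp (wd n ++ (wd n').reverse) k
  rw [h2, map_one, toAdd_one, Pi.zero_apply, cnt_append, cnt_reverse] at h3
  have h4 : ∀ x y : ZMod 2, 0 = x + y → x = y := by decide
  exact h4 _ _ h3

/-- the Klein four-group of the corner `j` -/
def K (j : ZMod 12) : Bool → Bool → Nbr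
  | false, false => none
  | true, false => some (j, false)
  | false, true => some (j + 1, false)
  | true, true => some (j, true)

theorem exists_K {j : ZMod 12} {n : Nbr} (h : n = none ∨ n = some (j, false) ∨
    n = some (j + 1, false) ∨ n = some (j, true)) : ∃ a b, n = K j a b := by
  rcases h with rfl | rfl | rfl | rfl
  · exact ⟨false, false, rfl⟩
  · exact ⟨true, false, rfl⟩
  · exact ⟨false, true, rfl⟩
  · exact ⟨true, true, rfl⟩

end S1

/-- Block S1. -/
theorem stmt_S1 (hG3 : Stmt_G3) (hG5 : Stmt_G5) : Stmt_S1 := by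
  obtain ⟨_, _, _, _, hRR, hcom⟩ := hG3
  refine ⟨S1.nbr_injective, ?_⟩
  intro Mo g u n n' hu hn hn'
  obtain ⟨j, _, hj⟩ := hG5.2 u hu
  obtain ⟨a, b, rfl⟩ := S1.exists_K (hj n hn)
  obtain ⟨a', b', rfl⟩ := S1.exists_K (hj n' hn')
  refine ⟨S1.K j (xor a a') (xor b b'), ?_, ?_⟩
  · have hadj : G12.Adj j (j + 1) := Or.inl rfl
    have hi := Mo.L.inv
    have hc := Mo.L.com j (j + 1) hadj
    cases a <;> cases b <;> cases a' <;> cases b' <;>
      simp [S1.K, nbr, hi, hc]
  · cases a <;> cases b <;> cases a' <;> cases b' <;>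
      simp [S1.K, mv, hRR, hcom]

end Pool.CX
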