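import Pool.Agent.Work.MP_727c87_cx.E1.Met

/-!
# Block S2: consequences of the star lemma for `Psi`
-/

open Set Complex ComplexConjugate
open scoped ContDiff

noncomputable section

namespace Pool.CX

namespace S2

theorem blk_eq_zero (hG4 : Stmt_G4) {u v : ℂ} (hu : u ∉ PPo) : blk u v = 0 := by
  obtain ⟨-, -, -, -, h0, -, -, hP⟩ := hG4
  have h1 : beta u = 0 := by
    have h2 : ¬ 0 < beta u := fun h => hu ((hP u).1 h)
    exact le_antisymm (not_lt.1 h2) (h0 u)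
  simp [blk, h1]

theorem Psi_nbr (hS1 : Stmt_S1) (Mo : Model) (g : Mo.Q) (u v : ℂ) (n : Nbr) :
    Psi Mo.L g u v (nbr Mo.L g n) = blk (mv n u) v := by
  have hi := hS1.1 Mo g
  unfold Psi
  rw [Finset.sum_eq_single n]
  · rw [if_pos rfl]
  · intro n' _ hn'
    rw [if_neg]
    intro h
    exact hn' (hi h)
  · intro h
    exact absurd (Finset.mem_univ n) h

theorem Psi_zero (Mo : Model) (g : Mo.Q) (u v : ℂ) (h : Mo.Q) (hh : ∀ n, nbr Mo.L g n ≠ h) :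
    Psi Mo.L g u v h = 0 := by
  unfold Psi
  refine Finset.sum_eq_zero ?_
  intro n _
  rw [if_neg (hh n)]

theorem Psi_eq_zero (hG4 : Stmt_G4) (hS1 : Stmt_S1) (Mo : Model) (g : Mo.Q) (u v : ℂ) (h : Mo.Q)
    (hh : ∀ n, nbr Mo.L g n = h → mv n u ∉ PPo) : Psi Mo.L g u v h = 0 := by
  by_cases hr : ∃ n, nbr Mo.L g n = h
  · obtain ⟨n, hn⟩ := hr
    have h1 := hh n hn
    subst hn
    rw [Psi_nbr hS1, blk_eq_zero hG4 h1]
  · exact Psi_zero Mo g u v h (fun n hn => hr ⟨n, hn⟩)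

end S2

theorem stmt_S2 (hG3 : Stmt_G3) (hG4 : Stmt_G4) (hG5 : Stmt_G5) (hS1 : Stmt_S1) : Stmt_S2 := by
  intro Mo g u v hu
  refine ⟨?_, ?_, ?_, ?_, ?_⟩
  · exact S2.Psi_nbr hS1 Mo g u v none
  · exact S2.Psi_nbr hS1 Mo g u v
  · exact S2.Psi_zero Mo g u v
  · intro n hn
    obtain ⟨m, hm1, hm2⟩ := hS1.2 Mo g u n none hu hn hu
    have hm1' : nbr Mo.L (nbr Mo.L g n) m = g := hm1
    have hm2' : mv m (mv n u) = u := hm2
    funext h
    by_cases hr : ∃ n', nbr Mo.L g n' = h ∧ mv n' u ∈ PPo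
    · obtain ⟨n', h1, h2⟩ := hr
      obtain ⟨n'', h3, h4⟩ := hS1.2 Mo g u n n' hu hn h2
      have e1 : Psi Mo.L g u v h = blk (mv n' u) v := by
        rw [← h1]
        exact S2.Psi_nbr hS1 Mo g u v n'
      have e2 : Psi Mo.L (nbr Mo.L g n) (mv n u) v h = blk (mv n'' (mv n u)) v := by
        rw [← h1, ← h3]
        exact S2.Psi_nbr hS1 Mo _ _ v n''
      rw [e1, e2, h4]
    · rw [S2.Psi_eq_zero hG4 hS1 Mo g u v h (fun n' h1 h2 => hr ⟨n', h1, h2⟩)]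
      refine S2.Psi_eq_zero hG4 hS1 Mo _ _ v h ?_
      intro n'' h1 h2
      have hm3 : mv m (mv n u) ∈ PPo := by
        rw [hm2']
        exact hu
      obtain ⟨n', h3, h4⟩ := hS1.2 Mo (nbr Mo.L g n) (mv n u) m n'' hn hm3 h2
      rw [hm1'] at h3
      rw [hm2'] at h4
      refine hr ⟨n', h3.trans h1, ?_⟩
      rw [h4]
      exact h2
  · intro h hpos
    by_contra hc
    have h1 := S2.Psi_eq_zero hG4 hS1 Mo g u v h (fun n' h1 h2 => hc ⟨n', h1, h2⟩)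
    rw [h1] at hpos
    exact lt_irrefl _ hpos

end Pool.CX
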