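import Pool.Agent.Work.MP_727c87_cx.E1.LC
import Pool.Agent.Work.MP_727c87_cx.E1.S1
import Pool.Agent.Work.MP_727c87_cx.E1.S2

/-!
# Block NS: the near shapes (helper89)
-/

open Set Complex ComplexConjugate

noncomputable section

namespace Pool.CX

namespace NSB

theorem R_mem {u : ℂ} (hu : u ∈ PPo) {j : ZMod 12} (h : lv j u < 1 / 100) : R j u ∈ PPo := by
  intro i
  have hj : -(1 / 100) < lv j u := hu j
  have hi : -(1 / 100) < lv i u := hu i
  by_cases h0 : i = j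
  · rw [h0, lv_R_self]
    linarith
  by_cases h1 : i = j + 1
  · rw [h1, lv_R_succ]
    exact hu (j + 1)
  by_cases h2 : j = i + 1
  · rw [h2, lv_R_pred]
    exact hi
  · rw [lv_R]
    have g0 := gg_nonneg h0
    have g1 := gg_le i j
    have k1 := stmt_G5.1 i j u h0 h2 h1
    by_cases h3 : 0 ≤ lv j u
    · have := mul_nonneg (mul_nonneg (by norm_num : (0 : ℝ) ≤ 2) g0) h3
      linarith
    · push Not at h3
      have k2 : -(28 / 100) ≤ 2 * gg i j * lv j u := by nlinarith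
      linarith

theorem R_mem_iff {u : ℂ} (hu : u ∈ PPo) (j : ZMod 12) : R j u ∈ PPo ↔ lv j u < 1 / 100 := by
  constructor
  · intro h
    have h1 : -(1 / 100) < lv j (R j u) := h j
    rw [lv_R_self] at h1
    linarith
  · exact R_mem hu

theorem RR_mem_iff {u : ℂ} (hu : u ∈ PPo) (j : ZMod 12) :
    R j (R (j + 1) u) ∈ PPo ↔ lv j u < 1 / 100 ∧ lv (j + 1) u < 1 / 100 := by
  constructor
  · intro h
    have h1 : -(1 / 100) < lv j (R j (R (j + 1) u)) := h j
    have h2 : -(1 / 100) < lv (j + 1) (R j (R (j + 1) u)) := h (j + 1)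
    rw [lv_R_self, lv_R_pred] at h1
    rw [lv_R_succ, lv_R_self] at h2
    constructor <;> linarith
  · rintro ⟨h1, h2⟩
    refine R_mem (R_mem hu h2) ?_
    rw [lv_R_pred]
    exact h1

theorem mem_iff (hS2 : Stmt_S2) {Mo : Model} {p : Amb Mo.Q} {g : Mo.Q} {u v : ℂ} (hu : u ∈ PPo)
    (hp : p = Psi Mo.L g u v) (f : Mo.F) :
    p ∈ Mo.UU f ↔ ∃ n, nbr Mo.L g n = f.1 ∧ mv n u ∈ PPo ∧ Sec f.2 (mv n u) := by
  obtain ⟨-, -, -, h4, h5⟩ := hS2 Mo g u v hu
  constructor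
  · rintro ⟨h1, h2⟩
    rw [hp] at h1
    obtain ⟨n, hn, hm⟩ := h5 f.1 h1
    have h6 : p = Psi Mo.L f.1 (mv n u) v := by rw [← hn, h4 n hm, hp]
    obtain ⟨-, h7, -⟩ := LC.of_Psi hS2 hm h6
    rw [h7] at h2
    exact ⟨n, hn, hm, h2⟩
  · rintro ⟨n, hn, hm, h2⟩
    have h6 : p = Psi Mo.L f.1 (mv n u) v := by rw [← hn, h4 n hm, hp]
    obtain ⟨h8, h7, -⟩ := LC.of_Psi hS2 hm h6
    refine ⟨h8, ?_⟩
    rw [h7]
    exact h2

theorem fa_eq (Mo : Model) (g : Mo.Q) (k : ZMod 12) : Mo.fa (g, k) = (Mo.L.τ k g, k) := rfl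

theorem fr_eq (Mo : Model) (g : Mo.Q) (k : ZMod 12) : Mo.fr (g, k) = (g, k + 1) := rfl

theorem b_eq (Mo : Model) (g : Mo.Q) (k : ZMod 12) :
    Mo.base.b (g, k) = (Mo.L.τ (k + 1) g, k) := by
  show ((Mo.L.τ (k + 1) g, k + 1 - 1) : Mo.F) = _
  rw [add_sub_cancel_right]

theorem shape_a {Mo : Model} {N : Set Mo.F} (g : Mo.Q) (m : ZMod 12)
    (h : ∀ x l, ((x, l) : Mo.F) ∈ N ↔ (x = g ∧ l = m) ∨ (x = Mo.L.τ m g ∧ l = m)) :
    NearShape Mo N := by
  refine ⟨(g, m), Or.inr (Or.inr (Or.inl ?_))⟩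
  ext ⟨x, l⟩
  rw [h]
  show _ ↔ ((x, l) : Mo.F) = (g, m) ∨ ((x, l) : Mo.F) = Mo.fa (g, m)
  rw [fa_eq, Prod.mk.injEq, Prod.mk.injEq]

theorem shape_b {Mo : Model} {N : Set Mo.F} (g : Mo.Q) (m : ZMod 12)
    (h : ∀ x l, ((x, l) : Mo.F) ∈ N ↔ (x = g ∧ l = m) ∨ (x = Mo.L.τ (m + 1) g ∧ l = m)) :
    NearShape Mo N := by
  refine ⟨(g, m), Or.inr (Or.inr (Or.inr (Or.inl ?_)))⟩
  ext ⟨x, l⟩
  rw [h]
  show _ ↔ ((x, l) : Mo.F) = (g, m) ∨ ((x, l) : Mo.F) = Mo.base.b (g, m)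
  rw [b_eq, Prod.mk.injEq, Prod.mk.injEq]

theorem shape_mid {Mo : Model} {N : Set Mo.F} (g : Mo.Q) (m : ZMod 12)
    (h : ∀ x l, ((x, l) : Mo.F) ∈ N ↔ (x = g ∧ l = m) ∨ (x = g ∧ l = m + 1) ∨
      (x = Mo.L.τ (m + 1) g ∧ l = m) ∨ (x = Mo.L.τ (m + 1) g ∧ l = m + 1)) :
    NearShape Mo N := by
  refine ⟨(g, m), Or.inr (Or.inr (Or.inr (Or.inr (Or.inl ?_))))⟩
  ext ⟨x, l⟩
  rw [h]
  show _ ↔ ((x, l) : Mo.F) = (g, m) ∨ ((x, l) : Mo.F) = Mo.fr (g, m) ∨
    ((x, l) : Mo.F) = Mo.base.b (g, m) ∨ ((x, l) : Mo.F) = Mo.fa (Mo.fr (g, m))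
  rw [b_eq, fr_eq, fa_eq, Prod.mk.injEq, Prod.mk.injEq, Prod.mk.injEq, Prod.mk.injEq]

theorem shape_cor {Mo : Model} {N : Set Mo.F} (g : Mo.Q) (m : ZMod 12)
    (h : ∀ x l, ((x, l) : Mo.F) ∈ N ↔ (x = g ∧ l = m) ∨ (x = Mo.L.τ m g ∧ l = m) ∨
      (x = Mo.L.τ (m + 1) g ∧ l = m) ∨ (x = Mo.L.τ m (Mo.L.τ (m + 1) g) ∧ l = m)) :
    NearShape Mo N := by
  refine ⟨(g, m), Or.inr (Or.inr (Or.inr (Or.inr (Or.inr (Or.inl ?_)))))⟩
  ext ⟨x, l⟩
  rw [h]
  show _ ↔ ((x, l) : Mo.F) = (g, m) ∨ ((x, l) : Mo.F) = Mo.fa (g, m) ∨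
    ((x, l) : Mo.F) = Mo.base.b (g, m) ∨ ((x, l) : Mo.F) = Mo.fa (Mo.base.b (g, m))
  rw [b_eq, fa_eq, fa_eq, Prod.mk.injEq, Prod.mk.injEq, Prod.mk.injEq, Prod.mk.injEq]

/-- the flags near a point of one or two chambers -/
theorem single (hSE : Stmt_SE) {Mo : Model} {g : Mo.Q} {u : ℂ} (hu : u ∈ PPo) {N : Set Mo.F}
    (hN : ∀ f : Mo.F, f ∈ N ↔ ∃ n, nbr Mo.L g n = f.1 ∧ mv n u ∈ PPo ∧ Sec f.2 (mv n u))
    {k : ZMod 12} (hk : lv k u < 1 / 100) (hk' : ∀ k', lv k' u < 1 / 100 → k' = k) :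
    NearShape Mo N := by
  obtain ⟨h1, h2⟩ := hSE.2.1 k u hu (R_mem hu hk)
  have hN' : ∀ f : Mo.F, f ∈ N ↔ (f.1 = g ∨ f.1 = Mo.L.τ k g) ∧ Sec f.2 u := by
    intro f
    rw [hN]
    constructor
    · rintro ⟨n, hn, hm, hs⟩
      match n, hn, hm, hs with
      | none, hn, _, hs => exact ⟨Or.inl hn.symm, hs⟩
      | some (j, false), hn, hm, hs =>
        have e : j = k := hk' j ((R_mem_iff hu j).1 hm)
        subst e
        exact ⟨Or.inr hn.symm, (h2 _).1.2 hs⟩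
      | some (j, true), _, hm, _ =>
        obtain ⟨k1, k2⟩ := (RR_mem_iff hu j).1 hm
        have e1 := hk' _ k1
        have e2 := hk' _ k2
        exfalso
        rw [e1] at e2
        have : (1 : ZMod 12) = 0 := by linear_combination e2
        revert this
        decide
    · rintro ⟨h3 | h3, h4⟩
      · exact ⟨none, h3.symm, hu, h4⟩
      · exact ⟨some (k, false), h3.symm, R_mem hu hk, (h2 _).1.1 h4⟩
  obtain ⟨m, hm | hm⟩ := hSE.1 u h1
  · rcases (h2 m).2 ((hm m).2 rfl) with h5 | h5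
    · -- side `k = m + 1`
      have e : m + 1 = k := by rw [h5]; ring
      refine shape_b g m (fun x l => ?_)
      rw [hN', e]
      show (x = g ∨ x = Mo.L.τ k g) ∧ Sec l u ↔ _
      rw [hm]
      tauto
    · refine shape_a g m (fun x l => ?_)
      rw [hN', h5]
      show (x = g ∨ x = Mo.L.τ k g) ∧ Sec l u ↔ _
      rw [hm, h5]
      tauto
  · have e : m + 1 = k := by
      have h6 := (h2 m).2 ((hm m).2 (Or.inl rfl))
      have h7 := (h2 (m + 1)).2 ((hm (m + 1)).2 (Or.inr rfl))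
      rcases h7 with h7 | h7
      · exfalso
        rcases h6 with h6 | h6
        · rw [h6] at h7
          have : (1 : ZMod 12) = 0 := by linear_combination h7
          revert this
          decide
        · rw [h6] at h7
          have : (2 : ZMod 12) = 0 := by linear_combination h7
          revert this
          decide
      · exact h7
    refine shape_mid g m (fun x l => ?_)
    rw [hN', e]
    show (x = g ∨ x = Mo.L.τ k g) ∧ Sec l u ↔ _
    rw [hm, e]
    tauto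

end NSB

open NSB in
/-- NS -/
theorem stmt_NS (_hLC : Stmt_LC) (hSE : Stmt_SE) : Stmt_NS := by
  have hS2 : Stmt_S2 := stmt_S2 stmt_G3 stmt_G4 stmt_G5 (stmt_S1 stmt_G3 stmt_G5)
  rintro Mo p ⟨g, u, v, hloc, hp⟩
  have hu : u ∈ PPo := hloc.1
  have hN : ∀ f : Mo.F, f ∈ {f | p ∈ Mo.UU f} ↔
      ∃ n, nbr Mo.L g n = f.1 ∧ mv n u ∈ PPo ∧ Sec f.2 (mv n u) := fun f =>
    mem_iff hS2 hu hp f
  generalize {f | p ∈ Mo.UU f} = N at hN
  obtain ⟨j, hj, -⟩ := stmt_G5.2 u hu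
  by_cases ha : lv j u < 1 / 100
  · by_cases hb : lv (j + 1) u < 1 / 100
    · -- corner
      have hR := (RR_mem_iff hu j).2 ⟨ha, hb⟩
      have h3 := hSE.2.2.1 j u hu hR
      have h1 := (hSE.2.1 j u hu (R_mem hu ha)).2
      have h2 := (hSE.2.1 (j + 1) u hu (R_mem hu hb)).2
      refine shape_cor g j (fun x l => ?_)
      rw [hN]
      show (∃ n, nbr Mo.L g n = x ∧ mv n u ∈ PPo ∧ Sec l (mv n u)) ↔ _
      constructor
      · rintro ⟨n, hn, hm, hs⟩
        match n, hn, hm, hs with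
        | none, hn, _, hs => exact Or.inl ⟨hn.symm, (h3 l).1.1 hs⟩
        | some (i, false), hn, hm, hs =>
          rcases hj i ((R_mem_iff hu i).1 hm) with e | e
          · subst e
            exact Or.inr (Or.inl ⟨hn.symm, (h3 l).1.1 ((h1 l).1.2 hs)⟩)
          · subst e
            exact Or.inr (Or.inr (Or.inl ⟨hn.symm, (h3 l).1.1 ((h2 l).1.2 hs)⟩))
        | some (i, true), hn, hm, hs =>
          obtain ⟨k1, k2⟩ := (RR_mem_iff hu i).1 hm
          have e : i = j := by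
            rcases hj i k1 with e | e
            · exact e
            · exfalso
              rcases hj (i + 1) k2 with e' | e'
              · rw [e] at e'
                have : (2 : ZMod 12) = 0 := by linear_combination e'
                revert this
                decide
              · rw [e] at e'
                have : (1 : ZMod 12) = 0 := by linear_combination e'
                revert this
                decide
          subst e
          exact Or.inr (Or.inr (Or.inr ⟨hn.symm, (h3 l).2.1 hs⟩))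
      · rintro (⟨rfl, rfl⟩ | ⟨rfl, rfl⟩ | ⟨rfl, rfl⟩ | ⟨rfl, rfl⟩)
        · exact ⟨none, rfl, hu, (h3 l).1.2 rfl⟩
        · exact ⟨some (l, false), rfl, R_mem hu ha, (h1 l).1.1 ((h3 l).1.2 rfl)⟩
        · exact ⟨some (l + 1, false), rfl, R_mem hu hb, (h2 l).1.1 ((h3 l).1.2 rfl)⟩
        · exact ⟨some (l, true), rfl, hR, (h3 l).2.2 rfl⟩
    · refine single hSE hu hN ha (fun k' h => ?_)
      rcases hj k' h with e | e
      · exact e
      · rw [e] at h
        exact absurd h hb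
  · by_cases hb : lv (j + 1) u < 1 / 100
    · refine single hSE hu hN hb (fun k' h => ?_)
      rcases hj k' h with e | e
      · rw [e] at h
        exact absurd h ha
      · exact e
    · -- no other chamber
      have hno : ∀ k, ¬ lv k u < 1 / 100 := by
        intro k h
        rcases hj k h with e | e
        · rw [e] at h
          exact ha h
        · rw [e] at h
          exact hb h
      have hN' : ∀ f : Mo.F, f ∈ N ↔ f.1 = g ∧ Sec f.2 u := by
        intro f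
        rw [hN]
        constructor
        · rintro ⟨n, hn, hm, hs⟩
          match n, hn, hm, hs with
          | none, hn, _, hs => exact ⟨hn.symm, hs⟩
          | some (i, false), _, hm, _ => exact absurd ((R_mem_iff hu i).1 hm) (hno i)
          | some (i, true), _, hm, _ => exact absurd ((RR_mem_iff hu i).1 hm).1 (hno i)
        · rintro ⟨h3, h4⟩
          exact ⟨none, h3.symm, hu, h4⟩
      by_cases hu1 : 1 ≤ ‖u‖
      · obtain ⟨m, hm | hm⟩ := hSE.1 u hu1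
        · refine ⟨(g, m), Or.inl ?_⟩
          ext ⟨x, l⟩
          rw [hN']
          show x = g ∧ Sec l u ↔ ((x, l) : Mo.F) = (g, m)
          rw [hm, Prod.mk.injEq]
        · refine ⟨(g, m), Or.inr (Or.inl ?_)⟩
          ext ⟨x, l⟩
          rw [hN']
          show x = g ∧ Sec l u ↔ ((x, l) : Mo.F) = (g, m) ∨ ((x, l) : Mo.F) = Mo.fr (g, m)
          rw [fr_eq, hm, Prod.mk.injEq, Prod.mk.injEq]
          tauto
      · refine ⟨(g, 0), Or.inr (Or.inr (Or.inr (Or.inr (Or.inr (Or.inr ⟨?_, ?_⟩)))))⟩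
        · intro hd
          exact hu1 (hloc.2.2 hd).1
        · ext ⟨x, l⟩
          rw [hN']
          show x = g ∧ Sec l u ↔ x = g
          constructor
          · exact fun h => h.1
          · exact fun h => ⟨h, Or.inl (not_le.1 hu1)⟩

end Pool.CX
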