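import Pool.Agent.Work.MP_727c87_cx.E1.Flag
import Pool.Agent.Work.MP_727c87_cx.E1.GeoProofs
import Pool.Agent.Work.MP_727c87_cx.E1.C1
import Pool.Agent.Work.MP_727c87_cx.E1.C3

/-!
# Block NU: null-homotopic inclusions (helper51)
-/

set_option autoImplicit false

open Set Complex ComplexConjugate Bundle Topology
open scoped ContDiff NNReal Manifold unitInterval ENNReal
open Pool.Agent.Work.MP_bc4532_gt (ClosedRiemannianManifold)

noncomputable section

namespace Pool.CX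

namespace NU

theorem pathConnectedSpace (M : ClosedRiemannianManifold) : PathConnectedSpace M.Pt := by
  have h : LocallyPathConnectedSpace M.H :=
    M.I.toHomeomorph.isOpenEmbedding.locallyPathConnectedSpace
  have h2 : LocallyPathConnectedSpace M.Pt := ChartedSpace.locallyPathConnectedSpace M.H M.Pt
  exact pathConnectedSpace_iff_connectedSpace.mpr inferInstance

/-- the inclusion of a subset as a continuous map -/
def incl {M : Type} [TopologicalSpace M] (U : Set M) : C(U, M) :=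
  ⟨Subtype.val, continuous_subtype_val⟩

theorem nullIncl_of_homotopic {M : Type} [TopologicalSpace M] {U : Set M} {ms : M}
    (h : (incl U).Homotopic (ContinuousMap.const U ms)) : NullIncl U := by
  obtain ⟨H⟩ := h
  exact ⟨ms, H.toContinuousMap, fun m => H.apply_zero m, fun m => H.apply_one m⟩

theorem nullIncl_mono {M : Type} [TopologicalSpace M] {U V : Set M} (h : U ⊆ V)
    (hV : NullIncl V) : NullIncl U := by
  obtain ⟨ms, H, h0, h1⟩ := hV
  refine ⟨ms, H.comp ⟨fun x : I × U => (x.1, (⟨x.2.1, h x.2.2⟩ : V)), by fun_prop⟩, ?_, ?_⟩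
  · intro m
    exact h0 ⟨m.1, h m.2⟩
  · intro m
    exact h1 ⟨m.1, h m.2⟩

variable {Mo : Model} {ε : ℝ} (Z : Realz Mo ε)

/-- continuous families of points of `SS` as continuous maps into the manifold -/
def lift {X : Type} [TopologicalSpace X] (Φ : X → Amb Mo.Q) (hc : Continuous Φ)
    (hs : ∀ x, Φ x ∈ Mo.SS) : C(X, Z.M.Pt) :=
  ⟨fun x => Z.e.symm ⟨Φ x, hs x⟩, Z.e.symm.continuous.comp (hc.subtype_mk hs)⟩

theorem e_lift {X : Type} [TopologicalSpace X] (Φ : X → Amb Mo.Q) (hc : Continuous Φ)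
    (hs : ∀ x, Φ x ∈ Mo.SS) (x : X) : (Z.e (lift Z Φ hc hs x) : Amb Mo.Q) = Φ x := by
  change (Z.e (Z.e.symm ⟨Φ x, hs x⟩) : Amb Mo.Q) = Φ x
  rw [Homeomorph.apply_symm_apply]

theorem homotopic_of {X : Type} [TopologicalSpace X] (Φ : I × X → Amb Mo.Q) (hc : Continuous Φ)
    (hs : ∀ x, Φ x ∈ Mo.SS) (f0 f1 : C(X, Z.M.Pt))
    (h0 : ∀ x, (Z.e (f0 x) : Amb Mo.Q) = Φ (0, x))
    (h1 : ∀ x, (Z.e (f1 x) : Amb Mo.Q) = Φ (1, x)) : f0.Homotopic f1 := by
  refine ⟨{ toContinuousMap := lift Z Φ hc hs, map_zero_left := fun x => ?_,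
            map_one_left := fun x => ?_ }⟩
  · apply Z.e.injective
    apply Subtype.ext
    rw [h0]
    exact e_lift Z Φ hc hs (0, x)
  · apply Z.e.injective
    apply Subtype.ext
    rw [h1]
    exact e_lift Z Φ hc hs (1, x)

/-! ### the rotation -/

theorem continuous_rot {Q : Type} : Continuous (fun x : ℂ × Amb Q => rot x.1 x.2) := by
  unfold rot
  refine continuous_pi fun g => ?_
  fun_prop

theorem rot_Psi {Q : Type} [DecidableEq Q] (L : Pool.CS.LS G12 Q) (g : Q) (u v z : ℂ) :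
    rot z (Psi L g u v) = Psi L g u (z * v) := by
  funext h
  unfold rot Psi
  have e1 : ∀ n : Nbr, (if nbr L g n = h then blk (mv n u) (z * v) else 0) =
      ((if nbr L g n = h then blk (mv n u) v else 0).1,
        (if nbr L g n = h then blk (mv n u) v else 0).2.1,
        z * (if nbr L g n = h then blk (mv n u) v else 0).2.2) := by
    intro n
    split_ifs
    · unfold blk
      simp only [Prod.mk.injEq, true_and]
      ring
    · simp only [Prod.fst_zero, Prod.snd_zero, mul_zero]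
      rfl
  rw [Finset.sum_congr rfl fun n _ => e1 n]
  refine Prod.ext ?_ (Prod.ext ?_ ?_)
  · simp only [Prod.fst_sum]
  · simp only [Prod.fst_sum, Prod.snd_sum]
  · simp only [Prod.snd_sum, Finset.mul_sum]

/-! ### non-defect chambers -/

/-- the second coordinate of a point in the chart `g` -/
def vel {Q : Type} (g : Q) (p : Amb Q) : ℂ := ((p g).1⁻¹ : ℂ) * (p g).2.2

theorem continuousOn_pos {Q : Type} (g : Q) : ContinuousOn (pos g) {p : Amb Q | 0 < (p g).1} := by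
  unfold pos
  have h1 : Continuous fun p : Amb Q => (p g).1 := by fun_prop
  have h2 : ContinuousOn (fun p : Amb Q => (((p g).1 : ℂ)⁻¹)) {p : Amb Q | 0 < (p g).1} := by
    refine ContinuousOn.inv₀ (continuous_ofReal.comp h1).continuousOn fun p hp => ?_
    exact_mod_cast (ne_of_gt hp)
  exact h2.mul (by fun_prop)

theorem continuousOn_vel {Q : Type} (g : Q) : ContinuousOn (vel g) {p : Amb Q | 0 < (p g).1} := by
  unfold vel
  have h1 : Continuous fun p : Amb Q => (p g).1 := by fun_prop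
  have h2 : ContinuousOn (fun p : Amb Q => (((p g).1 : ℂ)⁻¹)) {p : Amb Q | 0 < (p g).1} := by
    refine ContinuousOn.inv₀ (continuous_ofReal.comp h1).continuousOn fun p hp => ?_
    exact_mod_cast (ne_of_gt hp)
  exact h2.mul (by fun_prop)

theorem continuous_comp_e {X : Type} [TopologicalSpace X] {U : Set Z.M.Pt} {g : Mo.Q}
    (hU : ∀ x ∈ U, 0 < ((Z.e x : Amb Mo.Q) g).1) (F : Amb Mo.Q → X)
    (hF : ContinuousOn F {p : Amb Mo.Q | 0 < (p g).1}) :
    Continuous (fun x : U => F (Z.e x)) := by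
  refine hF.comp_continuous ?_ fun x => hU x.1 x.2
  exact continuous_subtype_val.comp (Z.e.continuous.comp continuous_subtype_val)

theorem zero_mem_PPo : (0 : ℂ) ∈ PPo := PP_subset_PPo (C3.small_mem_PP (by simp))

theorem smul_mem_PPo {u : ℂ} (hu : u ∈ PPo) {t : ℝ} (h0 : 0 ≤ t) (h1 : t ≤ 1) :
    (t : ℂ) * u ∈ PPo := stmt_G6.2.2.2.2.2.2.1 u hu t h0 h1

theorem mem_Loc_not {d : Prop} (hd : ¬ d) {u v : ℂ} (hu : u ∈ PPo) (hv : ‖v‖ = 1) :
    (u, v) ∈ Loc d := ⟨hu, fun _ => hv, fun h => absurd h hd⟩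

theorem mem_Loc_def {d : Prop} (hd : d) {u v : ℂ} (hu : u ∈ PPo) (h1 : 1 ≤ ‖u‖)
    (hv : ‖v‖ ^ 2 * qq (‖u‖ ^ 2 - 1) = ‖u‖ ^ 2 - 1) :
    (u, v) ∈ Loc d := ⟨hu, fun h => absurd hd h, fun _ => ⟨h1, hv⟩⟩

theorem cont_Psi {X Q : Type} [TopologicalSpace X] [DecidableEq Q] (L : Pool.CS.LS G12 Q) (g : Q)
    {F G : X → ℂ} (hF : Continuous F) (hG : Continuous G) :
    Continuous fun x => Psi L g (F x) (G x) :=
  Continuous.comp (g := fun y : ℂ × ℂ => Psi L g y.1 y.2) (f := fun x => (F x, G x))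
    (C3.continuous_Psi L g) (hF.prodMk hG)

theorem mem_SS {q : Mo.Q} {u v : ℂ} (h : (u, v) ∈ Loc (q ∈ Mo.D)) : Psi Mo.L q u v ∈ Mo.SS :=
  ⟨q, u, v, h, rfl⟩

/-- the hypotheses under which a set is contracted in a chart -/
theorem null_aux {U : Set Z.M.Pt} (uu vv : U → ℂ)
    (q : Mo.Q) (hloc : ∀ x : U, (Z.e x : Amb Mo.Q) = Psi Mo.L q (uu x) (vv x))
    (F G : I × U → ℂ) (hF : Continuous F) (hG : Continuous G)
    (hFG : ∀ x, (F x, G x) ∈ Loc (q ∈ Mo.D))
    (hF0 : ∀ x, F (0, x) = uu x) (hG0 : ∀ x, G (0, x) = vv x) (f1 : C(U, Z.M.Pt))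
    (h1 : ∀ x, (Z.e (f1 x) : Amb Mo.Q) = Psi Mo.L q (F (1, x)) (G (1, x))) :
    (incl U).Homotopic f1 := by
  refine homotopic_of Z (fun x => Psi Mo.L q (F x) (G x)) (cont_Psi Mo.L q hF hG)
    (fun x => mem_SS (hFG x)) _ _ (fun x => ?_) h1
  rw [hF0, hG0]
  exact hloc x

theorem null_Op (hLC : Stmt_LC) (hRO : Stmt_RO) (q : Mo.Q) (hq : q ∉ Mo.D) :
    NullIncl (Z.Op q) := by
  have hpc := pathConnectedSpace Z.M
  obtain ⟨hrot, p0, hp0, hfix⟩ := hRO Mo
  obtain ⟨uu, huu⟩ : ∃ uu : Z.Op q → ℂ, uu = fun x : Z.Op q => pos q (Z.e x : Amb Mo.Q) := ⟨_, rfl⟩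
  obtain ⟨vv, hvv⟩ : ∃ vv : Z.Op q → ℂ, vv = fun x : Z.Op q => vel q (Z.e x : Amb Mo.Q) := ⟨_, rfl⟩
  have hcu : Continuous uu := by
    rw [huu]; exact continuous_comp_e Z (fun x hx => hx) _ (continuousOn_pos q)
  have hcv : Continuous vv := by
    rw [hvv]; exact continuous_comp_e Z (fun x hx => hx) _ (continuousOn_vel q)
  have hloc : ∀ x : Z.Op q, (uu x, vv x) ∈ Loc (q ∈ Mo.D) ∧
      (Z.e x : Amb Mo.Q) = Psi Mo.L q (uu x) (vv x) := by
    rw [huu, hvv]
    exact fun x => (hLC Mo (Z.e x) (Z.e x).2).1 q x.2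
  have hnorm : ∀ x : Z.Op q, ‖vv x‖ = 1 := fun x => (hloc x).1.2.1 hq
  -- points over the centre
  have hcen : ∀ z : ℂ, ‖z‖ = 1 → Psi Mo.L q 0 z ∈ Mo.SS := fun z hz =>
    mem_SS (mem_Loc_not hq zero_mem_PPo hz)
  -- first homotopy
  obtain ⟨f1, hf1⟩ : ∃ f1 : C(Z.Op q, Z.M.Pt), ∀ x, (Z.e (f1 x) : Amb Mo.Q) = Psi Mo.L q 0 (vv x) :=
    ⟨lift Z (fun x => Psi Mo.L q 0 (vv x)) (cont_Psi Mo.L q continuous_const hcv)
      (fun x => hcen _ (hnorm x)), fun x => e_lift Z _ _ _ x⟩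
  have hom1 : (incl (Z.Op q)).Homotopic f1 := by
    refine null_aux Z uu vv q (fun x => (hloc x).2)
      (fun x => ((1 - (x.1 : ℝ) : ℝ) : ℂ) * uu x.2) (fun x => vv x.2)
      ((continuous_ofReal.comp (by fun_prop)).mul (hcu.comp continuous_snd))
      (hcv.comp continuous_snd) ?_ (fun x => by simp) (fun x => rfl) f1 (fun x => ?_)
    · rintro ⟨s, x⟩
      have h1 : (0 : ℝ) ≤ 1 - (s : ℝ) := by linarith [s.2.2]
      have h2 : 1 - (s : ℝ) ≤ 1 := by linarith [s.2.1]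
      exact mem_Loc_not hq (smul_mem_PPo (hloc x).1.1 h1 h2) (hnorm x)
    · rw [hf1]
      simp
  -- second homotopy
  obtain ⟨a, ha⟩ : ∃ a : Z.M.Pt, (Z.e a : Amb Mo.Q) = Psi Mo.L q 0 1 :=
    ⟨Z.e.symm ⟨Psi Mo.L q 0 1, hcen 1 (by simp)⟩, by rw [Homeomorph.apply_symm_apply]⟩
  obtain ⟨b, hb⟩ : ∃ b : Z.M.Pt, (Z.e b : Amb Mo.Q) = p0 :=
    ⟨Z.e.symm ⟨p0, hp0⟩, by rw [Homeomorph.apply_symm_apply]⟩
  obtain ⟨β⟩ := PathConnectedSpace.joined a b
  have hom2 : f1.Homotopic (ContinuousMap.const _ b) := by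
    refine homotopic_of Z (fun x => rot (vv x.2) (Z.e (β x.1) : Amb Mo.Q)) ?_
      (fun x => hrot _ _ (hnorm x.2) (Z.e (β x.1)).2) _ _ (fun x => ?_) (fun x => ?_)
    · refine Continuous.comp (g := fun y : ℂ × Amb Mo.Q => rot y.1 y.2)
        (f := fun x : I × Z.Op q => (vv x.2, (Z.e (β x.1) : Amb Mo.Q))) continuous_rot ?_
      exact (hcv.comp continuous_snd).prodMk
        (continuous_subtype_val.comp (Z.e.continuous.comp (β.continuous.comp continuous_fst)))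
    · simp only [Path.source]
      rw [ha, hf1, rot_Psi, mul_one]
    · simp only [Path.target, ContinuousMap.const_apply]
      rw [hb, hfix]
  exact nullIncl_of_homotopic (hom1.trans hom2)

/-! ### defect chambers -/

/-- the directions of a sector make an acute angle with the direction `ctr k` -/
theorem dir_pos {k : ZMod 12} {u : ℂ} (h1 : 1 ≤ ‖u‖) (hs : Sec k u) :
    0 < (u * conj (ctr k)).re := by
  rcases hs with hs | ⟨ha, hb⟩
  · exact absurd hs (not_lt.mpr h1)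
  have e1 : u * conj (ctr (k + 1)) = (u * conj (ctr k)) * (ctr k * conj (ctr (k + 1))) := by
    have := ctr_mul_conj_self k
    calc u * conj (ctr (k + 1)) = u * (ctr k * conj (ctr k)) * conj (ctr (k + 1)) := by
          rw [this, mul_one]
      _ = _ := by ring
  have e2 : (ctr k * conj (ctr (k + 1))).re = √3 / 2 := dot_succ' k
  have e3 : (ctr k * conj (ctr (k + 1))).im = -(1 / 2) := by
    have h := im_succ k
    have h' : ctr k * conj (ctr (k + 1)) = conj (ctr (k + 1) * conj (ctr k)) := by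
      simp only [map_mul, Complex.conj_conj]
      ring
    rw [h', Complex.conj_im, h]
  have e4 : ‖u * conj (ctr k)‖ = ‖u‖ := by
    rw [norm_mul, Complex.norm_conj, norm_ctr, mul_one]
  rw [e1, Complex.mul_im, e2, e3] at hb
  have e5 : (u * conj (ctr k)).re ^ 2 + (u * conj (ctr k)).im ^ 2 = ‖u‖ ^ 2 := by
    rw [← e4, Complex.sq_norm, Complex.normSq_apply]
    ring
  generalize (u * conj (ctr k)).re = x at *
  generalize (u * conj (ctr k)).im = y at *
  by_contra hx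
  have hx := not_lt.mp hx
  have h3 := lt_sqrt3
  have h4 := sqrt3_lt
  have h5 : 1 ≤ ‖u‖ ^ 2 := by nlinarith
  -- `x * (-(1/2)) + y * (√3/2) < 1/5`, `x ≤ 0`, `y > -1/5`
  have h6 : y * (√3 / 2) < 1 / 5 := by linarith
  have h7 : y < 1 / 4 := by nlinarith
  have h8 : y ^ 2 < 1 / 15 := by nlinarith
  have h9 : x < -(9 / 10) := by nlinarith
  nlinarith

/-- contraction of the solid torus to its core, first component -/
def cU (s : ℝ) (u : ℂ) : ℂ := ((√(1 + (1 - s) ^ 2 * (‖u‖ ^ 2 - 1)) / ‖u‖ : ℝ) : ℂ) * u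

/-- second component -/
def cV (s : ℝ) (u v : ℂ) : ℂ :=
  (((1 - s) * (√(qq (‖u‖ ^ 2 - 1)) / √(qq ((1 - s) ^ 2 * (‖u‖ ^ 2 - 1)))) : ℝ) : ℂ) * v

theorem norm_cU {s : ℝ} {u : ℂ} (h : 1 ≤ ‖u‖) :
    ‖cU s u‖ = √(1 + (1 - s) ^ 2 * (‖u‖ ^ 2 - 1)) := by
  unfold cU
  rw [norm_mul, Complex.norm_real, Real.norm_eq_abs, abs_of_nonneg (by positivity)]
  have : ‖u‖ ≠ 0 := by positivity
  field_simp

theorem sq_norm_cU {s : ℝ} {u : ℂ} (h : 1 ≤ ‖u‖) :
    ‖cU s u‖ ^ 2 - 1 = (1 - s) ^ 2 * (‖u‖ ^ 2 - 1) := by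
  rw [norm_cU h, Real.sq_sqrt]
  · ring
  · have : 0 ≤ ‖u‖ ^ 2 - 1 := by nlinarith
    positivity

theorem cLoc {d : Prop} (hd : d) {s : ℝ} (hs0 : 0 ≤ s) (hs1 : s ≤ 1) {u v : ℂ}
    (h : (u, v) ∈ Loc d) : (cU s u, cV s u v) ∈ Loc d := by
  obtain ⟨hu, -, h3⟩ := h
  obtain ⟨h1, h2⟩ := h3 hd
  simp only at hu h1 h2
  have hr : 0 ≤ ‖u‖ ^ 2 - 1 := by nlinarith
  have hu0 : 0 < ‖u‖ := by linarith
  refine mem_Loc_def hd ?_ ?_ ?_
  · unfold cU
    refine smul_mem_PPo hu (by positivity) ?_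
    rw [div_le_one hu0, Real.sqrt_le_left hu0.le]
    have : (1 - s) ^ 2 ≤ 1 := by nlinarith
    nlinarith
  · rw [norm_cU h1, Real.one_le_sqrt]
    have : 0 ≤ (1 - s) ^ 2 * (‖u‖ ^ 2 - 1) := by positivity
    linarith
  · rw [sq_norm_cU h1]
    unfold cV
    rw [norm_mul, Complex.norm_real, Real.norm_eq_abs, mul_pow, sq_abs, mul_pow, div_pow,
      Real.sq_sqrt (C1.qq_pos _).le, Real.sq_sqrt (C1.qq_pos _).le]
    have hq := C1.qq_pos ((1 - s) ^ 2 * (‖u‖ ^ 2 - 1))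
    generalize qq ((1 - s) ^ 2 * (‖u‖ ^ 2 - 1)) = a at *
    field_simp
    linear_combination (1 - s) ^ 2 * h2

theorem core_Loc {d : Prop} (hd : d) {u : ℂ} (hu : ‖u‖ = 1) : (u, (0 : ℂ)) ∈ Loc d := by
  refine mem_Loc_def hd (PP_subset_PPo (C3.small_mem_PP (by rw [hu]; norm_num))) hu.ge ?_
  rw [norm_zero, hu]
  ring

theorem null_U_def (hLC : Stmt_LC) (f : Mo.F) (hd : f.1 ∈ Mo.D) : NullIncl (Z.U f) := by
  obtain ⟨q, k⟩ := f
  have hpos : ∀ x ∈ Z.U (q, k), 0 < ((Z.e x : Amb Mo.Q) q).1 := fun x hx => hx.1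
  obtain ⟨uu, huu⟩ : ∃ uu : Z.U (q, k) → ℂ, uu = fun x : Z.U (q, k) => pos q (Z.e x : Amb Mo.Q) :=
    ⟨_, rfl⟩
  obtain ⟨vv, hvv⟩ : ∃ vv : Z.U (q, k) → ℂ, vv = fun x : Z.U (q, k) => vel q (Z.e x : Amb Mo.Q) :=
    ⟨_, rfl⟩
  have hcu : Continuous uu := by
    rw [huu]; exact continuous_comp_e Z hpos _ (continuousOn_pos q)
  have hcv : Continuous vv := by
    rw [hvv]; exact continuous_comp_e Z hpos _ (continuousOn_vel q)
  have hloc : ∀ x : Z.U (q, k), (uu x, vv x) ∈ Loc (q ∈ Mo.D) ∧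
      (Z.e x : Amb Mo.Q) = Psi Mo.L q (uu x) (vv x) := by
    rw [huu, hvv]
    exact fun x => (hLC Mo (Z.e x) (Z.e x).2).1 q x.2.1
  have hsec : ∀ x : Z.U (q, k), Sec k (uu x) := by
    rw [huu]
    exact fun x => x.2.2
  have hd' : q ∈ Mo.D := hd
  have h1 : ∀ x : Z.U (q, k), 1 ≤ ‖uu x‖ := fun x => ((hloc x).1.2.2 hd').1
  have h0 : ∀ x : Z.U (q, k), 0 < ‖uu x‖ := fun x => by linarith [h1 x]
  have hdir : ∀ x : Z.U (q, k), 0 < (uu x * conj (ctr k)).re := fun x => dir_pos (h1 x) (hsec x)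
  -- the direction
  obtain ⟨dd, hdd⟩ : ∃ dd : Z.U (q, k) → ℂ, dd = fun x => ((1 / ‖uu x‖ : ℝ) : ℂ) * uu x := ⟨_, rfl⟩
  have hcd : Continuous dd := by
    rw [hdd]
    exact (continuous_ofReal.comp (continuous_const.div hcu.norm fun x => (h0 x).ne')).mul hcu
  have hnd : ∀ x, ‖dd x‖ = 1 := fun x => by
    rw [hdd]
    simp only
    rw [norm_mul, Complex.norm_real, Real.norm_eq_abs, abs_of_pos (by have := h0 x; positivity)]
    have := (h0 x).ne'
    field_simp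
  have hdd' : ∀ x, 0 < (dd x * conj (ctr k)).re := fun x => by
    rw [hdd]
    simp only
    rw [mul_assoc, Complex.re_ofReal_mul]
    have := h0 x
    have := hdir x
    positivity
  obtain ⟨f1, hf1⟩ : ∃ f1 : C(Z.U (q, k), Z.M.Pt), ∀ x, (Z.e (f1 x) : Amb Mo.Q) =
      Psi Mo.L q (dd x) 0 :=
    ⟨lift Z (fun x => Psi Mo.L q (dd x) 0) (cont_Psi Mo.L q hcd continuous_const)
      (fun x => mem_SS (core_Loc hd' (hnd x))), fun x => e_lift Z _ _ _ x⟩
  have hcr : Continuous fun x : I × Z.U (q, k) => ‖uu x.2‖ ^ 2 - 1 :=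
    ((hcu.comp continuous_snd).norm.pow 2).sub continuous_const
  have hcs : Continuous fun x : I × Z.U (q, k) => (1 - (x.1 : ℝ)) := by fun_prop
  have hqc : Continuous qq := C1.contDiff_qq.continuous
  have hom1 : (incl (Z.U (q, k))).Homotopic f1 := by
    refine null_aux Z uu vv q (fun x => (hloc x).2)
      (fun x => cU (x.1 : ℝ) (uu x.2)) (fun x => cV (x.1 : ℝ) (uu x.2) (vv x.2))
      ?_ ?_ (fun x => cLoc hd' x.1.2.1 x.1.2.2 (hloc x.2).1) (fun x => ?_) (fun x => ?_) f1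
      (fun x => ?_)
    · unfold cU
      refine (continuous_ofReal.comp (Continuous.div ?_ (hcu.comp continuous_snd).norm
        fun x => (h0 x.2).ne')).mul (hcu.comp continuous_snd)
      exact (continuous_const.add ((hcs.pow 2).mul hcr)).sqrt
    · unfold cV
      refine (continuous_ofReal.comp (hcs.mul (Continuous.div ?_ ?_ fun x => ?_))).mul
        (hcv.comp continuous_snd)
      · exact (hqc.comp hcr).sqrt
      · exact (hqc.comp ((hcs.pow 2).mul hcr)).sqrt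
      · exact (Real.sqrt_pos.mpr (C1.qq_pos _)).ne'
    · unfold cU
      have e : √(1 + (1 - ((0 : I) : ℝ)) ^ 2 * (‖uu x‖ ^ 2 - 1)) = ‖uu x‖ := by
        rw [show 1 + (1 - ((0 : I) : ℝ)) ^ 2 * (‖uu x‖ ^ 2 - 1) = ‖uu x‖ ^ 2 by
          simp only [Icc.coe_zero]; ring]
        exact Real.sqrt_sq (h0 x).le
      simp only
      rw [e, div_self (h0 x).ne', Complex.ofReal_one, one_mul]
    · unfold cV
      have e : (1 - ((0 : I) : ℝ)) = 1 := by simp
      simp only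
      rw [e, one_pow, one_mul, one_mul, div_self (Real.sqrt_pos.mpr (C1.qq_pos _)).ne',
        Complex.ofReal_one, one_mul]
    · rw [hf1, hdd]
      unfold cU cV
      simp
  -- second homotopy
  obtain ⟨w, hw⟩ : ∃ w : I × Z.U (q, k) → ℂ, w = fun x =>
      ((1 - (x.1 : ℝ) : ℝ) : ℂ) * dd x.2 + ((x.1 : ℝ) : ℂ) * ctr k := ⟨_, rfl⟩
  have hcw : Continuous w := by
    rw [hw]
    exact ((continuous_ofReal.comp hcs).mul (hcd.comp continuous_snd)).add
      ((continuous_ofReal.comp (by fun_prop)).mul continuous_const)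
  have hw0 : ∀ x, w x ≠ 0 := fun x hx => by
    have e : (w x * conj (ctr k)).re = (1 - (x.1 : ℝ)) * (dd x.2 * conj (ctr k)).re + (x.1 : ℝ) := by
      rw [hw]
      simp only
      rw [add_mul, Complex.add_re, mul_assoc, mul_assoc, Complex.re_ofReal_mul,
        Complex.re_ofReal_mul, ctr_mul_conj_self]
      simp
    rw [hx, zero_mul, Complex.zero_re] at e
    have h2 := hdd' x.2
    have h3 := x.1.2.1
    have h4 := x.1.2.2
    rcases lt_or_eq_of_le h4 with h5 | h5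
    · have : 0 < (1 - (x.1 : ℝ)) * (dd x.2 * conj (ctr k)).re := mul_pos (by linarith) h2
      linarith
    · rw [h5] at e
      linarith
  have hwn : ∀ x, 0 < ‖w x‖ := fun x => norm_pos_iff.mpr (hw0 x)
  obtain ⟨b, hb⟩ : ∃ b : Z.M.Pt, (Z.e b : Amb Mo.Q) = Psi Mo.L q (ctr k) 0 :=
    ⟨Z.e.symm ⟨Psi Mo.L q (ctr k) 0, mem_SS (core_Loc hd' (norm_ctr k))⟩, by
      rw [Homeomorph.apply_symm_apply]⟩
  have hom2 : f1.Homotopic (ContinuousMap.const _ b) := by
    refine homotopic_of Z (fun x => Psi Mo.L q (((1 / ‖w x‖ : ℝ) : ℂ) * w x) 0)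
      (cont_Psi Mo.L q ?_ continuous_const) (fun x => mem_SS (core_Loc hd' ?_)) _ _
      (fun x => ?_) (fun x => ?_)
    · exact (continuous_ofReal.comp (continuous_const.div hcw.norm fun x => (hwn x).ne')).mul hcw
    · rw [norm_mul, Complex.norm_real, Real.norm_eq_abs,
        abs_of_pos (by have := hwn x; positivity)]
      have := (hwn x).ne'
      field_simp
    · rw [hf1]
      have e : w (0, x) = dd x := by
        rw [hw]
        simp
      rw [e, hnd]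
      simp
    · have e : w (1, x) = ctr k := by
        rw [hw]
        simp
      rw [ContinuousMap.const_apply, hb, e, norm_ctr]
      simp
  exact nullIncl_of_homotopic (hom1.trans hom2)

end NU

theorem stmt_NU (_hS2 : Stmt_S2) (hLC : Stmt_LC) (_hHG : Stmt_HG) (hRO : Stmt_RO) : Stmt_NU := by
  intro Mo ε Z
  refine ⟨fun f => ?_, fun q hq => NU.null_Op Z hLC hRO q hq⟩
  by_cases hd : f.1 ∈ Mo.D
  · exact NU.null_U_def Z hLC f hd
  · exact NU.nullIncl_mono (fun x hx => hx.1) (NU.null_Op Z hLC hRO f.1 hd)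

end Pool.CX
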