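import Pool.Agent.Work.MP_727c87_cx.E1.Flag
import Pool.Agent.Work.MP_727c87_cx.E1.GeoProofs
import Pool.Agent.Work.MP_727c87_cx.E1.S1
import Pool.Agent.Work.MP_727c87_cx.E1.C3

/-! Block PA: path connectedness of the intersections across a side. -/

open Set Complex ComplexConjugate Topology
open scoped ContDiff

noncomputable section

namespace Pool.CX

namespace PA

/-- the positions of the points of `U (g, i) ∩ U (s_j g, i)` -/
def AA (i j : ZMod 12) : Set ℂ := {u | u ∈ PPo ∧ R j u ∈ PPo ∧ Sec i u}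

/-- the composition of `e` with the inclusion in the ambient space is an embedding -/
theorem isEmbedding_e {Mo : Model} {ε : ℝ} (Z : Realz Mo ε) :
    IsEmbedding (fun x : Z.M.Pt => (Z.e x : Amb Mo.Q)) :=
  IsEmbedding.subtypeVal.comp Z.e.isEmbedding

theorem pc_of {Mo : Model} {ε : ℝ} (Z : Realz Mo ε) (g : Mo.Q) {A : Set ℂ} (hA : IsPathConnected A)
    {S : Set Z.M.Pt} (h1 : ∀ u ∈ A, ∀ v : ℂ, ‖v‖ = 1 → (u, v) ∈ Loc (g ∈ Mo.D))
    (h2 : ∀ x, x ∈ S ↔ ∃ u ∈ A, ∃ v : ℂ, ‖v‖ = 1 ∧ (Z.e x : Amb Mo.Q) = Psi Mo.L g u v) :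
    IsPathConnected S := by
  classical
  have hB : IsPathConnected (A ×ˢ Metric.sphere (0 : ℂ) 1) := by
    refine hA.prod (isPathConnected_sphere ?_ 0 zero_le_one)
    rw [Complex.rank_real_complex]
    norm_num
  have hne : Nonempty Z.M.Pt := by
    obtain ⟨x, hx⟩ := hB.nonempty
    exact ⟨Z.e.symm ⟨Psi Mo.L g x.1 x.2, g, x.1, x.2, h1 _ hx.1 _ (by simpa using hx.2), rfl⟩⟩
  let F : ℂ × ℂ → Z.M.Pt := fun x =>
    if h : Psi Mo.L g x.1 x.2 ∈ Mo.SS then Z.e.symm ⟨Psi Mo.L g x.1 x.2, h⟩ else Classical.choice hne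
  have hF : ∀ x ∈ A ×ˢ Metric.sphere (0 : ℂ) 1, (Z.e (F x) : Amb Mo.Q) = Psi Mo.L g x.1 x.2 := by
    intro x hx
    have h : Psi Mo.L g x.1 x.2 ∈ Mo.SS := ⟨g, x.1, x.2, h1 _ hx.1 _ (by simpa using hx.2), rfl⟩
    simp only [F, dif_pos h, Homeomorph.apply_symm_apply]
  have hFc : ContinuousOn F (A ×ˢ Metric.sphere (0 : ℂ) 1) := by
    rw [(isEmbedding_e Z).continuousOn_iff]
    refine ContinuousOn.congr ?_ hF
    exact (C3.continuous_Psi Mo.L g).continuousOn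
  have hS : S = F '' (A ×ˢ Metric.sphere (0 : ℂ) 1) := by
    ext x
    rw [h2]
    constructor
    · rintro ⟨u, hu, v, hv, hx⟩
      have huv : (u, v) ∈ A ×ˢ Metric.sphere (0 : ℂ) 1 := ⟨hu, by simpa using hv⟩
      refine ⟨(u, v), huv, ?_⟩
      apply (isEmbedding_e Z).injective
      simp only
      rw [hF _ huv, hx]
    · rintro ⟨y, hy, rfl⟩
      exact ⟨y.1, hy.1, y.2, by simpa using hy.2, hF _ hy⟩
  rw [hS]
  exact hB.image' hFc

theorem sec_iff {u : ℂ} (h : 1 ≤ ‖u‖) (k : ZMod 12) : Sec k u ↔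
    (0 * hh u + (u * (conj (ctr k) * I)).re < 1 / 5 ∧
      0 * hh u + (u * (-(conj (ctr (k + 1)) * I))).re < 1 / 5) := by
  unfold Sec
  have e1 : (u * (conj (ctr k) * I)).re = -(u * conj (ctr k)).im := by
    rw [← mul_assoc, mul_I_re]
  have e2 : (u * (-(conj (ctr (k + 1)) * I))).re = (u * conj (ctr (k + 1))).im := by
    rw [mul_neg, ← mul_assoc, neg_re, mul_I_re, neg_neg]
  rw [e1, e2]
  constructor
  · rintro (h1 | ⟨h1, h2⟩)
    · linarith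
    · exact ⟨by linarith, by linarith⟩
  · rintro ⟨h1, h2⟩
    exact Or.inr ⟨by linarith, by linarith⟩

theorem neg_lv (k : ZMod 12) (u : ℂ) :
    (-1) * hh u + (u * (conj (ctr k) * ((rho⁻¹ : ℝ) : ℂ))).re = -lv k u := by
  unfold lv hh
  rw [← mul_assoc, re_mul_ofReal]
  ring

theorem neg_lv_R (k j : ZMod 12) (u : ℂ) :
    (-(1 + 2 * gg k j)) * hh u + (u * (conj (ctr k) * ((rho⁻¹ : ℝ) : ℂ) +
      ((2 * gg k j : ℝ) : ℂ) * (conj (ctr j) * ((rho⁻¹ : ℝ) : ℂ)))).re = -lv k (R j u) := by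
  have h1 := neg_lv k u
  have h2 := neg_lv j u
  rw [lv_R]
  have e : (u * (conj (ctr k) * ((rho⁻¹ : ℝ) : ℂ) +
      ((2 * gg k j : ℝ) : ℂ) * (conj (ctr j) * ((rho⁻¹ : ℝ) : ℂ)))).re =
      (u * (conj (ctr k) * ((rho⁻¹ : ℝ) : ℂ))).re +
        2 * gg k j * (u * (conj (ctr j) * ((rho⁻¹ : ℝ) : ℂ))).re := by
    have e3 : u * (((2 * gg k j : ℝ) : ℂ) * (conj (ctr j) * ((rho⁻¹ : ℝ) : ℂ))) =
        ((2 * gg k j : ℝ) : ℂ) * (u * (conj (ctr j) * ((rho⁻¹ : ℝ) : ℂ))) := by ring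
    rw [mul_add, add_re, e3, re_ofReal_mul]
  rw [e]
  linear_combination h1 + 2 * gg k j * h2

theorem pc_AA (hHG : Stmt_HG) (hSE : Stmt_SE) {i j : ZMod 12} (hne : (AA i j).Nonempty) :
    IsPathConnected (AA i j) := by
  obtain ⟨γ, hc, -, h0, h1, hcond⟩ := hHG
  obtain ⟨w, hw⟩ := hne
  refine ⟨w, hw, ?_⟩
  intro u hu
  refine JoinedIn.ofLine (f := γ w u) (hc w u) (h0 w u) (h1 w u) ?_
  rintro _ ⟨s, hs, rfl⟩
  have hw1 := (hSE.2.1 j w hw.1 hw.2.1).1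
  have hu1 := (hSE.2.1 j u hu.1 hu.2.1).1
  have a1 : γ w u s ∈ PPo := by
    intro k
    have h := hcond (-1) (conj (ctr k) * ((rho⁻¹ : ℝ) : ℂ)) (1 / 100) w u (by norm_num)
      (by rw [neg_lv]; linarith [hw.1 k]) (by rw [neg_lv]; linarith [hu.1 k]) s hs.1 hs.2
    rw [neg_lv] at h
    linarith
  have a2 : R j (γ w u s) ∈ PPo := by
    intro k
    have h := hcond (-(1 + 2 * gg k j)) (conj (ctr k) * ((rho⁻¹ : ℝ) : ℂ) +
      ((2 * gg k j : ℝ) : ℂ) * (conj (ctr j) * ((rho⁻¹ : ℝ) : ℂ))) (1 / 100) w u (by norm_num)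
      (by rw [neg_lv_R]; linarith [hw.2.1 k]) (by rw [neg_lv_R]; linarith [hu.2.1 k]) s hs.1 hs.2
    rw [neg_lv_R] at h
    linarith
  have a3 := (hSE.2.1 j (γ w u s) a1 a2).1
  refine ⟨a1, a2, ?_⟩
  rw [sec_iff a3]
  have b1 := (sec_iff hw1 i).mp hw.2.2
  have b2 := (sec_iff hu1 i).mp hu.2.2
  exact ⟨hcond 0 _ (1 / 5) w u (by norm_num) b1.1 b2.1 s hs.1 hs.2,
    hcond 0 _ (1 / 5) w u (by norm_num) b1.2 b2.2 s hs.1 hs.2⟩

theorem sec_mid {i j : ZMod 12} (hij : j = i ∨ j = i + 1) : Sec i (mid j) := by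
  have hr : 0 < rho / √tau2 := div_pos rho_pos (Real.sqrt_pos.mpr tau2_pos)
  have e : ∀ k, (mid j * conj (ctr k)).im = rho / √tau2 * (ctr j * conj (ctr k)).im := by
    intro k
    unfold mid
    rw [mul_assoc, im_ofReal_mul]
  refine Or.inr ⟨?_, ?_⟩
  · rw [e]
    rcases hij with rfl | rfl
    · rw [ctr_mul_conj_self]; simp
    · rw [im_succ]; nlinarith
  · rw [e]
    rcases hij with rfl | rfl
    · have h := im_succ j
      have h2 : (ctr j * conj (ctr (j + 1))).im = -(ctr (j + 1) * conj (ctr j)).im := by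
        rw [← conj_im, map_mul, conj_conj, mul_comm]
      rw [h2, h]; nlinarith
    · rw [ctr_mul_conj_self]; simp

theorem pc_side (hS2 : Stmt_S2) (hS3 : Stmt_S3) (hHG : Stmt_HG) (hLC : Stmt_LC) (hSE : Stmt_SE)
    {Mo : Model} {ε : ℝ} (Z : Realz Mo ε) (g : Mo.Q) {i j : ZMod 12} (hij : j = i ∨ j = i + 1) :
    IsPathConnected (Z.U (g, i) ∩ Z.U (Mo.L.τ j g, i)) := by
  have hn : nbr Mo.L g (some (j, false)) = Mo.L.τ j g := rfl
  have hmid : (AA i j).Nonempty := by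
    obtain ⟨h1, h2, -⟩ := C3.mid_props j
    have hR : R j (mid j) = mid j := by
      unfold R
      rw [h2]
      simp
    refine ⟨mid j, PP_subset_PPo h1, ?_, sec_mid hij⟩
    rw [hR]
    exact PP_subset_PPo h1
  have hloc : ∀ (d : Prop) (u v : ℂ), u ∈ AA i j → ‖v‖ = 1 → (u, v) ∈ Loc d ∧ (R j u, v) ∈ Loc d := by
    intro d u v hu hv
    constructor
    · have h1 : (R j u, v) ∈ Loc False := ⟨hu.2.1, fun _ => hv, fun h => h.elim⟩
      have h2 := hS3 False d (some (j, false)) (R j u) v h1 (by simp)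
        (by change R j (R j u) ∈ PPo; rw [R_R]; exact hu.1)
      change (R j (R j u), v) ∈ Loc d at h2
      rwa [R_R] at h2
    · have h1 : (u, v) ∈ Loc False := ⟨hu.1, fun _ => hv, fun h => h.elim⟩
      exact hS3 False d (some (j, false)) u v h1 (by simp) hu.2.1
  refine pc_of Z g (pc_AA hHG hSE hmid) (fun u hu v hv => (hloc _ u v hu hv).1) ?_
  intro x
  obtain ⟨l1, l2, l3⟩ := hLC Mo (Z.e x : Amb Mo.Q) (Z.e x).2
  constructor
  · rintro ⟨⟨hg, hs⟩, ⟨hh, -⟩⟩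
    obtain ⟨hl, hp⟩ := l1 g hg
    obtain ⟨n, hn1, -, hn3, -⟩ := l3 g (Mo.L.τ j g) hg hh
    have hn4 : n = some (j, false) := (stmt_S1 stmt_G3 stmt_G5).1 Mo g (hn1.trans hn.symm)
    rw [hn4] at hn3
    have hv := (hS3 _ False (some (j, false)) _ _ hl (by simp) hn3).2.1 (fun h => h.elim)
    exact ⟨pos g (Z.e x), ⟨hl.1, hn3, hs⟩, _, hv, hp⟩
  · rintro ⟨u, hu, v, hv, hp⟩
    obtain ⟨hl, hl'⟩ := hloc (g ∈ Mo.D) u v hu hv
    obtain ⟨q1, q2, -⟩ := l2 g u v hl hp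
    have h4 := (hS2 Mo g u v hu.1).2.2.2.1 (some (j, false)) hu.2.1
    have hp' : (Z.e x : Amb Mo.Q) = Psi Mo.L (Mo.L.τ j g) (R j u) v := by
      rw [hp, ← h4]
      rfl
    obtain ⟨r1, r2, -⟩ := l2 (Mo.L.τ j g) (R j u) v (hloc _ u v hu hv).2 hp'
    refine ⟨⟨q1, ?_⟩, ⟨r1, ?_⟩⟩
    · change Sec i (pos g (Z.e x))
      rw [q2]; exact hu.2.2
    · change Sec i (pos (Mo.L.τ j g) (Z.e x))
      rw [r2, ← ((hSE.2.1 j u hu.1 hu.2.1).2 i).1]
      exact hu.2.2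

end PA

theorem stmt_PA (hS2 : Stmt_S2) (hS3 : Stmt_S3) (hHG : Stmt_HG) (hLC : Stmt_LC) (hSE : Stmt_SE) :
    Stmt_PA := by
  intro Mo ε Z
  refine ⟨?_, ?_⟩
  · rintro ⟨g, i⟩
    exact PA.pc_side hS2 hS3 hHG hLC hSE Z g (Or.inl rfl)
  · rintro ⟨g, i⟩
    have h : Mo.base.b (g, i) = (Mo.L.τ (i + 1) g, i) := by
      change (Mo.L.τ (i + 1) g, i + 1 - 1) = _
      rw [add_sub_cancel_right]
    rw [h]
    exact PA.pc_side hS2 hS3 hHG hLC hSE Z g (Or.inr rfl)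

end Pool.CX
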