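import Pool.Agent.Work.MP_727c87_cx.E1.Flag
import Pool.Agent.Work.MP_727c87_cx.E1.GeoProofs
import Pool.Agent.Work.MP_727c87_cx.E1.C1
import Pool.Agent.Work.MP_727c87_cx.E1.C3

/-! Block PC: path connectedness of `U f` and `U f ∩ U (fr f)` (helper50). -/

set_option autoImplicit false

open Set Complex ComplexConjugate Bundle Topology
open scoped ContDiff NNReal Manifold unitInterval ENNReal

noncomputable section

namespace Pool.CX

namespace PC

/-- the conditions of a sector, as a star-shaped set -/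
def T (W : Set ℂ) : Set ℂ := {u | ‖u‖ < 1 ∨ ∀ w ∈ W, -(1 / 5 : ℝ) < (u * conj w).im}

theorem im_real_mul (t : ℝ) (u w : ℂ) : ((t : ℂ) * u * conj w).im = t * (u * conj w).im := by
  rw [mul_assoc, Complex.im_ofReal_mul]

theorem T_smul {W : Set ℂ} {u : ℂ} (hu : u ∈ T W) {t : ℝ} (h0 : 0 ≤ t) (h1 : t ≤ 1) : (t : ℂ) * u ∈ T W := by
  rcases hu with hu | hu
  · left
    rw [norm_mul, Complex.norm_real, Real.norm_of_nonneg h0]
    nlinarith [norm_nonneg u]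
  · right
    intro w hw
    have h3 := hu w hw
    rw [im_real_mul]
    rcases le_total 0 ((u * conj w).im) with h4 | h4
    · nlinarith [mul_nonneg h0 h4]
    · nlinarith

theorem T_norm {W : Set ℂ} {u : ℂ} (hu : u ∈ T W) (h1 : 1 ≤ ‖u‖) : ∀ w ∈ W, -(1 / 5 : ℝ) < (u * conj w).im := by
  rcases hu with hu | hu
  · exact absurd hu (not_lt.2 h1)
  · exact hu

/-- the points of a chart in the sector -/
def S (d : Prop) (W : Set ℂ) : Set (ℂ × ℂ) := {x | x ∈ Loc d ∧ x.1 ∈ T W}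

theorem unit_mem_PPo {u : ℂ} (hu : ‖u‖ = 1) : u ∈ PPo := by
  intro j
  have h := lv_large (u := u) (by rw [hu]; norm_num) j
  linarith

/-! ### The arc -/

/-- the segment -/
def sg (θ t0 : ℂ) (s : ℝ) : ℂ := ((1 - s : ℝ) : ℂ) * θ + (s : ℂ) * t0

theorem sg_sq {θ t0 : ℂ} (hθ : ‖θ‖ = 1) (h0 : ‖t0‖ = 1) (s : ℝ) :
    ‖sg θ t0 s‖ ^ 2 = (1 - s) ^ 2 + s ^ 2 + 2 * (s * (1 - s)) * (θ * conj t0).re := by
  have h1 : normSq θ = 1 := by rw [Complex.normSq_eq_norm_sq, hθ]; norm_num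
  have h2 : normSq t0 = 1 := by rw [Complex.normSq_eq_norm_sq, h0]; norm_num
  rw [← Complex.normSq_eq_norm_sq]
  have h3 : (((1 - s : ℝ) : ℂ) * θ * conj ((s : ℂ) * t0)).re = (s * (1 - s)) * (θ * conj t0).re := by
    have : ((1 - s : ℝ) : ℂ) * θ * conj ((s : ℂ) * t0) = ((s * (1 - s) : ℝ) : ℂ) * (θ * conj t0) := by
      rw [map_mul, Complex.conj_ofReal]; push_cast; ring
    rw [this, Complex.re_ofReal_mul]
  unfold sg
  rw [Complex.normSq_add, h3, Complex.normSq_mul, Complex.normSq_mul, h1, h2, Complex.normSq_ofReal,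
    Complex.normSq_ofReal]
  ring

theorem sg_norm {θ t0 : ℂ} (hθ : ‖θ‖ = 1) (h0 : ‖t0‖ = 1) (hp : 0 ≤ (θ * conj t0).re) {s : ℝ} (hs : s ∈ Icc (0 : ℝ) 1) :
    1 - s ≤ ‖sg θ t0 s‖ ∧ 0 < ‖sg θ t0 s‖ := by
  have h1 := sg_sq hθ h0 s
  have h2 : 0 ≤ s * (1 - s) := mul_nonneg hs.1 (by linarith [hs.2])
  have h3 : 0 ≤ 2 * (s * (1 - s)) * (θ * conj t0).re := by positivity
  constructor
  · have h4 : (1 - s) ^ 2 ≤ ‖sg θ t0 s‖ ^ 2 := by rw [h1]; nlinarith [sq_nonneg s]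
    exact (pow_le_pow_iff_left₀ (by linarith [hs.2]) (norm_nonneg _) two_ne_zero).1 h4
  · have h4 : 0 < ‖sg θ t0 s‖ ^ 2 := by
      rw [h1]
      nlinarith [sq_nonneg (s - 1 / 2)]
    exact lt_of_le_of_ne (norm_nonneg _) (fun h => by rw [← h] at h4; norm_num at h4)

theorem joined_arc {d : Prop} (hd : d) {W : Set ℂ} {t0 θ : ℂ} (h0 : ‖t0‖ = 1) (hθ : ‖θ‖ = 1)
    (hW : ∀ w ∈ W, 0 ≤ (t0 * conj w).im) (hT : ∀ w ∈ W, -(1 / 5 : ℝ) < (θ * conj w).im)
    (hp : 0 ≤ (θ * conj t0).re) : JoinedIn (S d W) (θ, 0) (t0, 0) := by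
  have hqq : qq (‖(1 : ℂ)‖ ^ 2 - 1) = 1 := C1.qq_of_le (by simp)
  refine JoinedIn.ofLine (f := fun s : ℝ => (((‖sg θ t0 s‖⁻¹ : ℝ) : ℂ) * sg θ t0 s, (0 : ℂ))) ?_ ?_ ?_ ?_
  · have hc : Continuous (sg θ t0) := by
      unfold sg
      fun_prop
    refine ContinuousOn.prodMk ?_ continuousOn_const
    refine ContinuousOn.mul ?_ hc.continuousOn
    refine Complex.continuous_ofReal.comp_continuousOn ?_
    exact ContinuousOn.inv₀ hc.norm.continuousOn fun s hs => (sg_norm hθ h0 hp hs).2.ne'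
  · have : sg θ t0 0 = θ := by simp [sg]
    simp only [this, hθ]
    norm_num
  · have : sg θ t0 1 = t0 := by simp [sg]
    simp only [this, h0]
    norm_num
  · rintro _ ⟨s, hs, rfl⟩
    obtain ⟨h1, h2⟩ := sg_norm hθ h0 hp hs
    have hn : ‖((‖sg θ t0 s‖⁻¹ : ℝ) : ℂ) * sg θ t0 s‖ = 1 := by
      rw [norm_mul, Complex.norm_real, Real.norm_of_nonneg (by positivity), inv_mul_cancel₀ h2.ne']
    refine ⟨⟨unit_mem_PPo hn, fun h => absurd hd h, fun _ => ⟨hn.ge, ?_⟩⟩, Or.inr ?_⟩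
    · dsimp only
      rw [hn]; norm_num
    · intro w hw
      dsimp only
      rw [im_real_mul]
      have h3 : (sg θ t0 s * conj w).im = (1 - s) * (θ * conj w).im + s * (t0 * conj w).im := by
        unfold sg
        rw [add_mul, Complex.add_im, im_real_mul, im_real_mul]
      have h4 := hT w hw
      have h5 := hW w hw
      have h6 : -(1 / 5 : ℝ) * ‖sg θ t0 s‖ < (sg θ t0 s * conj w).im := by
        rw [h3]
        rcases eq_or_lt_of_le hs.2 with h7 | h7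
        · rw [h7]
          rw [h7] at h2
          nlinarith
        · have h8 : (1 - s) * (-(1 / 5 : ℝ)) < (1 - s) * (θ * conj w).im :=
            mul_lt_mul_of_pos_left h4 (by linarith)
          have h9 : 0 ≤ s * (t0 * conj w).im := mul_nonneg hs.1 h5
          nlinarith
      calc -(1 / 5 : ℝ) = ‖sg θ t0 s‖⁻¹ * (-(1 / 5 : ℝ) * ‖sg θ t0 s‖) := by field_simp
        _ < _ := mul_lt_mul_of_pos_left h6 (by positivity)

/-! ### The radial retraction, defects -/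

/-- the modulus of the fibre coordinate -/
def mm (r : ℝ) : ℝ := √((r ^ 2 - 1) / qq (r ^ 2 - 1))

theorem mm_sq {r : ℝ} (hr : 1 ≤ r) : mm r ^ 2 * qq (r ^ 2 - 1) = r ^ 2 - 1 := by
  have h1 := C1.qq_pos (r ^ 2 - 1)
  unfold mm
  rw [Real.sq_sqrt (div_nonneg (by nlinarith) h1.le)]
  field_simp

theorem joined_rad {d : Prop} (hd : d) {W : Set ℂ} {x : ℂ × ℂ} (hx : x ∈ S d W) :
    JoinedIn (S d W) (((‖x.1‖⁻¹ : ℝ) : ℂ) * x.1, 0) x := by
  obtain ⟨⟨hP, -, hD⟩, hT⟩ := hx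
  obtain ⟨hr, hv⟩ := hD hd
  set r : ℝ := ‖x.1‖ with hrdef
  have hr0 : 0 < r := by linarith
  have hq := C1.qq_pos (r ^ 2 - 1)
  obtain ⟨vh, hvh, hvx⟩ : ∃ vh : ℂ, ‖vh‖ = 1 ∧ ((mm r : ℝ) : ℂ) * vh = x.2 := by
    have h1 : mm r = ‖x.2‖ := by
      have h3 : (r ^ 2 - 1) / qq (r ^ 2 - 1) = ‖x.2‖ ^ 2 := by
        rw [div_eq_iff hq.ne']
        exact hv.symm
      unfold mm
      rw [h3, Real.sqrt_sq (norm_nonneg _)]
    rcases eq_or_ne x.2 0 with h2 | h2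
    · exact ⟨1, by simp, by rw [h1, h2]; simp⟩
    · refine ⟨((‖x.2‖⁻¹ : ℝ) : ℂ) * x.2, ?_, ?_⟩
      · rw [norm_mul, Complex.norm_real, Real.norm_of_nonneg (by positivity),
          inv_mul_cancel₀ (norm_ne_zero_iff.2 h2)]
      · rw [h1, ← mul_assoc, ← Complex.ofReal_mul, mul_inv_cancel₀ (norm_ne_zero_iff.2 h2)]
        simp
  refine JoinedIn.ofLine
    (f := fun s : ℝ => ((((1 - s + s * r) * r⁻¹ : ℝ) : ℂ) * x.1, ((mm (1 - s + s * r) : ℝ) : ℂ) * vh)) ?_ ?_ ?_ ?_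
  · refine ContinuousOn.prodMk ?_ ?_
    · refine Continuous.continuousOn ?_
      fun_prop
    · refine Continuous.continuousOn ?_
      have hqc : Continuous qq := C1.contDiff_qq.continuous
      have h1 : Continuous mm := by
        unfold mm
        refine Real.continuous_sqrt.comp ?_
        refine Continuous.div (by fun_prop) (hqc.comp (by fun_prop)) fun r => (C1.qq_pos _).ne'
      have h2 : Continuous fun s : ℝ => mm (1 - s + s * r) := h1.comp (by fun_prop)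
      exact (Complex.continuous_ofReal.comp h2).mul continuous_const
  · have h1 : mm 1 = 0 := by
      unfold mm
      norm_num
    simp [h1]
  · have h1 : (1 - 1 + 1 * r) * r⁻¹ = 1 := by
      rw [sub_self, zero_add, one_mul, mul_inv_cancel₀ hr0.ne']
    have h2 : (1 - 1 + 1 * r) = r := by ring
    refine Prod.ext ?_ ?_
    · change (((1 - 1 + 1 * r) * r⁻¹ : ℝ) : ℂ) * x.1 = x.1
      rw [h1, Complex.ofReal_one, one_mul]
    · change ((mm (1 - 1 + 1 * r) : ℝ) : ℂ) * vh = x.2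
      rw [h2]
      exact hvx
  · rintro _ ⟨s, hs, rfl⟩
    have h1 : 1 ≤ 1 - s + s * r := by nlinarith [hs.1]
    have h2 : 1 - s + s * r ≤ r := by nlinarith [hs.2]
    have h3 : 0 ≤ (1 - s + s * r) * r⁻¹ := by positivity
    have h4 : (1 - s + s * r) * r⁻¹ ≤ 1 := by
      calc (1 - s + s * r) * r⁻¹ ≤ r * r⁻¹ := mul_le_mul_of_nonneg_right h2 (by positivity)
        _ = 1 := mul_inv_cancel₀ hr0.ne'
    have hn : ‖(((1 - s + s * r) * r⁻¹ : ℝ) : ℂ) * x.1‖ = 1 - s + s * r := by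
      rw [norm_mul, Complex.norm_real, Real.norm_of_nonneg h3, ← hrdef, mul_assoc, inv_mul_cancel₀ hr0.ne', mul_one]
    have hm : ‖((mm (1 - s + s * r) : ℝ) : ℂ) * vh‖ = mm (1 - s + s * r) := by
      have hmm : 0 ≤ mm (1 - s + s * r) := Real.sqrt_nonneg _
      rw [norm_mul, Complex.norm_real, Real.norm_of_nonneg hmm, hvh, mul_one]
    refine ⟨⟨stmt_G6.2.2.2.2.2.2.1 _ hP _ h3 h4, fun h => absurd hd h, fun _ => ⟨?_, ?_⟩⟩, T_smul hT h3 h4⟩
    · dsimp only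
      rw [hn]; exact h1
    · dsimp only
      rw [hn, hm]
      exact mm_sq h1

/-! ### Path connectedness in the chart -/

theorem isPathConnected_S (d : Prop) {W : Set ℂ} {t0 : ℂ} (h0 : ‖t0‖ = 1) (hW : ∀ w ∈ W, 0 ≤ (t0 * conj w).im)
    (hp : ∀ θ : ℂ, ‖θ‖ = 1 → (∀ w ∈ W, -(1 / 5 : ℝ) < (θ * conj w).im) → 0 ≤ (θ * conj t0).re) :
    IsPathConnected (S d W) := by
  by_cases hd : d
  · refine ⟨(t0, 0), ?_, fun {x} hx => ?_⟩
    · refine ⟨⟨unit_mem_PPo h0, fun h => absurd hd h, fun _ => ⟨h0.ge, ?_⟩⟩, Or.inr ?_⟩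
      · dsimp only
        rw [h0]; norm_num
      · intro w hw
        have h1 := hW w hw
        dsimp only
        linarith
    · have hr : 1 ≤ ‖x.1‖ := (hx.1.2.2 hd).1
      have hr0 : 0 < ‖x.1‖ := by linarith
      have hn : ‖((‖x.1‖⁻¹ : ℝ) : ℂ) * x.1‖ = 1 := by
        rw [norm_mul, Complex.norm_real, Real.norm_of_nonneg (by positivity), inv_mul_cancel₀ hr0.ne']
      have hT : ∀ w ∈ W, -(1 / 5 : ℝ) < (((‖x.1‖⁻¹ : ℝ) : ℂ) * x.1 * conj w).im :=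
        T_norm (T_smul hx.2 (by positivity) (inv_le_one_of_one_le₀ hr)) hn.ge
      exact (joined_arc hd h0 hn hW hT (hp _ hn hT)).symm.trans (joined_rad hd hx)
  · have h1 : S d W = (PPo ∩ T W) ×ˢ Metric.sphere (0 : ℂ) 1 := by
      ext x
      constructor
      · rintro ⟨⟨h1, h2, -⟩, h3⟩
        exact ⟨⟨h1, h3⟩, by rw [mem_sphere_zero_iff_norm]; exact h2 hd⟩
      · rintro ⟨⟨h1, h2⟩, h3⟩
        exact ⟨⟨h1, fun _ => mem_sphere_zero_iff_norm.1 h3, fun h => absurd h hd⟩, h2⟩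
    rw [h1]
    refine IsPathConnected.prod ?_ (isPathConnected_sphere C3.one_lt_rank 0 zero_le_one)
    have h2 : (0 : ℂ) ∈ PPo ∩ T W := by
      refine ⟨fun j => ?_, Or.inl (by simp)⟩
      have h := lv_large (u := 0) (by simp) j
      linarith
    refine StarConvex.isPathConnected (a := (0 : ℂ)) ?_ ?_
    · rw [starConvex_zero_iff]
      intro u hu t ht0 ht1
      rw [Complex.real_smul]
      exact ⟨stmt_G6.2.2.2.2.2.2.1 _ hu.1 _ ht0 ht1, T_smul hu.2 ht0 ht1⟩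
    · exact h2

/-! ### Transfer to the manifold -/

theorem transfer (hLC : Stmt_LC) {Mo : Model} {ε : ℝ} (Z : Realz Mo ε) (g : Mo.Q) (P : ℂ → Prop)
    (hP : IsPathConnected {x : ℂ × ℂ | x ∈ Loc (g ∈ Mo.D) ∧ P x.1}) :
    IsPathConnected {x : Z.M.Pt | 0 < ((Z.e x : Amb Mo.Q) g).1 ∧ P (pos g (Z.e x : Amb Mo.Q))} := by
  have hind : IsInducing (fun x : Z.M.Pt => (Z.e x : Amb Mo.Q)) :=
    IsInducing.subtypeVal.comp Z.e.isInducing
  rw [hind.isPathConnected_iff]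
  have h1 : (fun x : Z.M.Pt => (Z.e x : Amb Mo.Q)) ''
      {x : Z.M.Pt | 0 < ((Z.e x : Amb Mo.Q) g).1 ∧ P (pos g (Z.e x : Amb Mo.Q))} =
      (fun x : ℂ × ℂ => Psi Mo.L g x.1 x.2) '' {x : ℂ × ℂ | x ∈ Loc (g ∈ Mo.D) ∧ P x.1} := by
    ext p
    constructor
    · rintro ⟨x, ⟨hx1, hx2⟩, rfl⟩
      obtain ⟨h2, h3⟩ := (hLC Mo _ (Z.e x).2).1 g hx1
      exact ⟨_, ⟨h2, hx2⟩, h3.symm⟩
    · rintro ⟨⟨u, v⟩, ⟨hx1, hx2⟩, rfl⟩
      have hs : Psi Mo.L g u v ∈ Mo.SS := ⟨g, u, v, hx1, rfl⟩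
      obtain ⟨h2, h3, h4⟩ := (hLC Mo _ hs).2.1 g u v hx1 rfl
      refine ⟨Z.e.symm ⟨Psi Mo.L g u v, hs⟩, ?_, ?_⟩
      · simp only [mem_ofPred_eq, Homeomorph.apply_symm_apply]
        exact ⟨h2, by rw [h3]; exact hx2⟩
      · simp only [Homeomorph.apply_symm_apply]
  rw [h1]
  exact hP.image (C3.continuous_Psi Mo.L g)

/-! ### The sectors -/

theorem unit_sq {θ : ℂ} (hθ : ‖θ‖ = 1) (k : ZMod 12) : (θ * conj (ctr k)).re ^ 2 + (θ * conj (ctr k)).im ^ 2 = 1 := by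
  have h1 : normSq (θ * conj (ctr k)) = 1 := by
    rw [Complex.normSq_eq_norm_sq, norm_mul, RCLike.norm_conj, norm_ctr, hθ]; norm_num
  rw [Complex.normSq_apply] at h1
  nlinarith

theorem im_succ_eq (θ : ℂ) (k : ZMod 12) : (θ * conj (ctr (k + 1))).im =
    (θ * conj (ctr k)).im * (√3 / 2) - (θ * conj (ctr k)).re * (1 / 2) := by
  have h1 : θ * conj (ctr (k + 1)) = (θ * conj (ctr k)) * (ctr k * conj (ctr (k + 1))) := by
    have h2 : conj (ctr k) * ctr k = 1 := by rw [mul_comm]; exact ctr_mul_conj_self k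
    calc θ * conj (ctr (k + 1)) = θ * (conj (ctr k) * ctr k) * conj (ctr (k + 1)) := by rw [h2, mul_one]
      _ = _ := by ring
  have h3 : (ctr k * conj (ctr (k + 1))).re = √3 / 2 := dot_succ' k
  have h4 : (ctr k * conj (ctr (k + 1))).im = -(1 / 2) := by
    have h5 := im_succ k
    have h6 : ctr k * conj (ctr (k + 1)) = conj (ctr (k + 1) * conj (ctr k)) := by
      rw [map_mul, Complex.conj_conj, mul_comm]
    rw [h6, Complex.conj_im, h5]
  rw [h1, Complex.mul_im, h3, h4]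
  ring

theorem im_pred_eq (θ : ℂ) (k : ZMod 12) : (θ * conj (ctr k)).im =
    (θ * conj (ctr (k + 1))).im * (√3 / 2) + (θ * conj (ctr (k + 1))).re * (1 / 2) := by
  have h1 : θ * conj (ctr k) = (θ * conj (ctr (k + 1))) * (ctr (k + 1) * conj (ctr k)) := by
    have h2 : conj (ctr (k + 1)) * ctr (k + 1) = 1 := by rw [mul_comm]; exact ctr_mul_conj_self _
    calc θ * conj (ctr k) = θ * (conj (ctr (k + 1)) * ctr (k + 1)) * conj (ctr k) := by rw [h2, mul_one]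
      _ = _ := by ring
  rw [h1, Complex.mul_im, im_succ k, dot_succ k]
  ring

theorem im_neg (u w : ℂ) : (u * conj (-w)).im = -(u * conj w).im := by
  rw [map_neg, mul_neg, Complex.neg_im]

theorem numeric {a b : ℝ} (h : a ^ 2 + b ^ 2 = 1) (h1 : -(1 / 5) < b) (h2 : b * (√3 / 2) - a * (1 / 2) < 1 / 5) :
    0 ≤ a := by
  by_contra ha
  push Not at ha
  have h3 := lt_sqrt3
  have h4 := sqrt3_lt
  have hb : b < 1 / 4 := by
    by_contra hb
    push Not at hb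
    nlinarith
  have h5 : -a < 3 / 4 + 1 / 100 := by
    have : b * (√3 / 2) > -(1 / 5) := by nlinarith
    nlinarith
  nlinarith

theorem numeric2 {a b : ℝ} (h : a ^ 2 + b ^ 2 = 1) (h1 : -(1 / 5) < b) (h1' : b < 1 / 5)
    (h2 : -(1 / 5) < b * (√3 / 2) + a * (1 / 2)) : 0 ≤ a := by
  by_contra ha
  push Not at ha
  have h3 := lt_sqrt3
  have h4 := sqrt3_lt
  have h5 : -a < 8 / 10 := by
    have : b * (√3 / 2) < 1 / 5 := by nlinarith
    nlinarith
  nlinarith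

theorem sec_iff (k : ZMod 12) (u : ℂ) : Sec k u ↔ u ∈ T {ctr k, -ctr (k + 1)} := by
  unfold Sec T
  simp only [mem_ofPred_eq, mem_insert_iff, mem_singleton_iff, forall_eq_or_imp, forall_eq, im_neg]
  constructor
  · rintro (h | ⟨h1, h2⟩)
    · exact Or.inl h
    · exact Or.inr ⟨h1, by linarith⟩
  · rintro (h | ⟨h1, h2⟩)
    · exact Or.inl h
    · exact Or.inr ⟨h1, by linarith⟩

theorem sec_iff2 (k : ZMod 12) (u : ℂ) : (Sec k u ∧ Sec (k + 1) u) ↔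
    u ∈ T {ctr k, -ctr (k + 1), ctr (k + 1), -ctr (k + 1 + 1)} := by
  unfold Sec T
  simp only [mem_ofPred_eq, mem_insert_iff, mem_singleton_iff, forall_eq_or_imp, forall_eq, im_neg]
  constructor
  · rintro ⟨h | ⟨h1, h2⟩, h' | ⟨h1', h2'⟩⟩
    · exact Or.inl h
    · exact Or.inl h
    · exact Or.inl h'
    · exact Or.inr ⟨h1, by linarith, h1', by linarith⟩
  · rintro (h | ⟨h1, h2, h3, h4⟩)
    · exact ⟨Or.inl h, Or.inl h⟩
    · exact ⟨Or.inr ⟨h1, by linarith⟩, Or.inr ⟨h3, by linarith⟩⟩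

end PC

theorem stmt_PC (_hS2 : Stmt_S2) (hLC : Stmt_LC) : Stmt_PC := by
  intro Mo ε Z
  have hself : ∀ k, (ctr k * conj (ctr k)).im = 0 := by
    intro k
    rw [ctr_mul_conj_self]; simp
  have hs1 : ∀ k, (ctr k * conj (ctr (k + 1))).im = -(1 / 2) := by
    intro k
    rw [PC.im_succ_eq, hself, dot_self]; ring
  refine ⟨fun f => ?_, fun f => ?_⟩
  · have h1 : Z.U f = {x : Z.M.Pt | 0 < ((Z.e x : Amb Mo.Q) f.1).1 ∧ Sec f.2 (pos f.1 (Z.e x : Amb Mo.Q))} := rfl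
    rw [h1]
    refine PC.transfer hLC Z f.1 (Sec f.2) ?_
    have h2 : {x : ℂ × ℂ | x ∈ Loc (f.1 ∈ Mo.D) ∧ Sec f.2 x.1} =
        PC.S (f.1 ∈ Mo.D) {ctr f.2, -ctr (f.2 + 1)} := by
      ext x
      exact and_congr Iff.rfl (PC.sec_iff _ _)
    rw [h2]
    refine PC.isPathConnected_S _ (t0 := ctr f.2) (norm_ctr _) ?_ ?_
    · intro w hw
      rcases hw with rfl | hw
      · rw [hself]
      · rw [mem_singleton_iff.1 hw, PC.im_neg, hs1]; norm_num
    · intro θ hθ hw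
      have h3 := hw (ctr f.2) (Or.inl rfl)
      have h4 := hw (-ctr (f.2 + 1)) (Or.inr rfl)
      rw [PC.im_neg, PC.im_succ_eq] at h4
      exact PC.numeric (PC.unit_sq hθ f.2) h3 (by linarith)
  · have h1 : Z.U f ∩ Z.U (Mo.fr f) = {x : Z.M.Pt | 0 < ((Z.e x : Amb Mo.Q) f.1).1 ∧
        (fun u => Sec f.2 u ∧ Sec (f.2 + 1) u) (pos f.1 (Z.e x : Amb Mo.Q))} := by
      ext x
      constructor
      · rintro ⟨h, h'⟩
        exact ⟨h.1, h.2, h'.2⟩
      · rintro ⟨h, h1, h2⟩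
        exact ⟨⟨h, h1⟩, h, h2⟩
    rw [h1]
    refine PC.transfer hLC Z f.1 (fun u => Sec f.2 u ∧ Sec (f.2 + 1) u) ?_
    have h2 : {x : ℂ × ℂ | x ∈ Loc (f.1 ∈ Mo.D) ∧ (fun u => Sec f.2 u ∧ Sec (f.2 + 1) u) x.1} =
        PC.S (f.1 ∈ Mo.D) {ctr f.2, -ctr (f.2 + 1), ctr (f.2 + 1), -ctr (f.2 + 1 + 1)} := by
      ext x
      exact and_congr Iff.rfl (PC.sec_iff2 _ _)
    rw [h2]
    refine PC.isPathConnected_S _ (t0 := ctr (f.2 + 1)) (norm_ctr _) ?_ ?_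
    · intro w hw
      rcases hw with rfl | rfl | rfl | hw
      · rw [im_succ]; norm_num
      · rw [PC.im_neg, hself]; norm_num
      · rw [hself]
      · rw [mem_singleton_iff.1 hw, PC.im_neg, hs1]; norm_num
    · intro θ hθ hw
      have h3 := hw (ctr f.2) (Or.inl rfl)
      have h4 := hw (-ctr (f.2 + 1)) (Or.inr (Or.inl rfl))
      have h5 := hw (ctr (f.2 + 1)) (Or.inr (Or.inr (Or.inl rfl)))
      rw [PC.im_neg] at h4
      rw [PC.im_pred_eq] at h3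
      exact PC.numeric2 (PC.unit_sq hθ _) h5 (by linarith) h3

end Pool.CX
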