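import Pool.Agent.Work.MP_727c87_cx.E1.Flag
import Pool.Agent.Work.MP_727c87_cx.E1.GeoProofs

/-!
# Block RO: the circle acts on the manifold, with a fixed point (helper89)
-/

open Set Complex ComplexConjugate

noncomputable section

namespace Pool.CX

namespace ROB

/-- the rotation of one component, as an additive map -/
def ph (z : ℂ) : (ℝ × ℂ × ℂ) →+ (ℝ × ℂ × ℂ) where
  toFun x := (x.1, x.2.1, z * x.2.2)
  map_zero' := by simp
  map_add' x y := by simp [mul_add]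

theorem ph_blk (z u v : ℂ) : ph z (blk u v) = blk u (z * v) := by
  show ((beta u, (beta u : ℂ) * u, z * ((beta u : ℂ) * v)) : ℝ × ℂ × ℂ) =
    (beta u, (beta u : ℂ) * u, (beta u : ℂ) * (z * v))
  rw [mul_left_comm]

theorem rot_Psi {Q : Type} [DecidableEq Q] (L : Pool.CS.LS G12 Q) (g : Q) (z u v : ℂ) :
    rot z (Psi L g u v) = Psi L g u (z * v) := by
  funext h
  show ph z (Psi L g u v h) = Psi L g u (z * v) h
  unfold Psi
  rw [map_sum]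
  refine Finset.sum_congr rfl fun n _ => ?_
  split_ifs
  · exact ph_blk z _ v
  · exact map_zero _

theorem loc_rot {d : Prop} {z u v : ℂ} (hz : ‖z‖ = 1) (h : (u, v) ∈ Loc d) :
    (u, z * v) ∈ Loc d := by
  obtain ⟨h1, h2, h3⟩ := h
  have e : ‖z * v‖ = ‖v‖ := by rw [norm_mul, hz, one_mul]
  refine ⟨h1, fun hd => ?_, fun hd => ?_⟩
  · show ‖z * v‖ = 1
    rw [e]
    exact h2 hd
  · show 1 ≤ ‖u‖ ∧ ‖z * v‖ ^ 2 * qq (‖u‖ ^ 2 - 1) = ‖u‖ ^ 2 - 1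
    rw [e]
    exact h3 hd

theorem one_mem_PPo : (1 : ℂ) ∈ PPo := by
  apply PP_subset_PPo
  intro j
  have h : ‖(1 : ℂ)‖ ^ 2 ≤ 3 := by
    rw [norm_one]
    norm_num
  linarith [lv_large h j]

theorem loc_one {d : Prop} (hd : d) : ((1 : ℂ), (0 : ℂ)) ∈ Loc d := by
  refine ⟨one_mem_PPo, fun h => absurd hd h, fun _ => ?_⟩
  show 1 ≤ ‖(1 : ℂ)‖ ∧ ‖(0 : ℂ)‖ ^ 2 * qq (‖(1 : ℂ)‖ ^ 2 - 1) = ‖(1 : ℂ)‖ ^ 2 - 1
  rw [norm_one, norm_zero]
  constructor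
  · exact le_refl 1
  · norm_num

end ROB

open ROB in
/-- RO -/
theorem stmt_RO (_hS2 : Stmt_S2) (_hLC : Stmt_LC) : Stmt_RO := by
  intro Mo
  constructor
  · rintro z p hz ⟨g, u, v, h1, rfl⟩
    exact ⟨g, u, z * v, loc_rot hz h1, rot_Psi Mo.L g z u v⟩
  · obtain ⟨q⟩ := Mo.nonempty
    obtain ⟨n, v, _, h2, _⟩ := Mo.cut q 0
    refine ⟨Psi Mo.L (v n).1 1 0, ⟨(v n).1, 1, 0, loc_one h2, rfl⟩, fun z => ?_⟩
    rw [rot_Psi, mul_zero]

end Pool.CX
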