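import Pool.Agent.Work.MP_727c87_cx.E1.Met

/-!
# Block S3: change of chamber preserves `Loc`
-/

open Set Complex ComplexConjugate
open scoped ContDiff

noncomputable section

namespace Pool.CX

namespace S3

theorem qq_of_two_le {s : ℝ} (hs : 2 ≤ s) : qq s = s := by
  unfold qq
  rw [Real.smoothTransition.one_of_one_le (by linarith)]
  ring

theorem norm_gt (hG6 : Stmt_G6) {u : ℂ} {j : ZMod 12} (h : lv j u < 1 / 100) : 3 < ‖u‖ ^ 2 := by
  by_contra hc
  have h1 := hG6.2.2.2.2.2.2.2 u (not_lt.1 hc) j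
  linarith

theorem lv_mv (hG3 : Stmt_G3) (n : Nbr) (u : ℂ) (hn : n ≠ none) : ∃ j, lv j (mv n u) = -lv j u := by
  obtain ⟨-, h2, -, h4, -, -⟩ := hG3
  rcases n with _ | ⟨j, _ | _⟩
  · exact absurd rfl hn
  · exact ⟨j, h2 j u⟩
  · refine ⟨j, ?_⟩
    change lv j (R j (R (j + 1) u)) = -lv j u
    rw [h2, h4]

end S3

theorem stmt_S3 (hG3 : Stmt_G3) (hG6 : Stmt_G6) : Stmt_S3 := by
  intro d d' n u v hx hn hmv
  obtain ⟨hu, hnd, hd⟩ := hx
  simp only at hu hnd hd
  obtain ⟨j, hj⟩ := S3.lv_mv hG3 n u hn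
  have h1 : -(1 / 100) < lv j u := hu j
  have h2 : -(1 / 100) < lv j (mv n u) := hmv j
  have h3 : 3 < ‖u‖ ^ 2 := S3.norm_gt hG6 (j := j) (by linarith)
  have h4 : 3 < ‖mv n u‖ ^ 2 := S3.norm_gt hG6 (j := j) (by linarith)
  have hv : ‖v‖ = 1 := by
    by_cases hdd : d
    · have h5 := (hd hdd).2
      rw [S3.qq_of_two_le (by linarith)] at h5
      have h6 : (‖v‖ ^ 2 - 1) * (‖u‖ ^ 2 - 1) = 0 := by linear_combination h5
      have h7 : ‖v‖ ^ 2 - 1 = 0 := by
        rcases mul_eq_zero.1 h6 with h | h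
        · exact h
        · exfalso
          linarith
      have h8 : (‖v‖ - 1) * (‖v‖ + 1) = 0 := by linear_combination h7
      rcases mul_eq_zero.1 h8 with h | h
      · linarith
      · have := norm_nonneg v
        linarith
    · exact hnd hdd
  refine ⟨hmv, fun _ => hv, fun _ => ⟨?_, ?_⟩⟩
  · change 1 ≤ ‖mv n u‖
    by_contra hc
    have h5 := norm_nonneg (mv n u)
    have h6 := not_le.1 hc
    nlinarith
  · change ‖v‖ ^ 2 * qq (‖mv n u‖ ^ 2 - 1) = ‖mv n u‖ ^ 2 - 1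
    rw [S3.qq_of_two_le (by linarith), hv]
    ring

end Pool.CX
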