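import Pool.Agent.Work.MP_727c87_cx.E1.Flag
import Pool.Agent.Work.MP_727c87_cx.E1.GeoProofs

/-!
# Block SE: the sectors
-/

set_option autoImplicit false

open Set Complex ComplexConjugate

noncomputable section

namespace Pool.CX

theorem SE.sqrt3_sq : √3 * √3 = (3 : ℝ) := Real.mul_self_sqrt (by norm_num)

theorem SE.ctr_add (i j : ZMod 12) : ctr (i + j) = ctr i * ctr j := by
  unfold ctr
  exact AddChar.map_add_eq_mul _ _ _

theorem SE.ctr_zero : ctr 0 = 1 := by
  unfold ctr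
  exact AddChar.map_zero_eq_one _

theorem SE.ctr_one : (ctr 1).re = √3 / 2 ∧ (ctr 1).im = 1 / 2 := by
  have h1 := dot_succ 0
  have h2 := im_succ 0
  rw [SE.ctr_zero, zero_add] at h1 h2
  simpa using And.intro h1 h2

theorem SE.ctr_succ (m : ZMod 12) :
    (ctr (m + 1)).re = (ctr m).re * (√3 / 2) - (ctr m).im * (1 / 2) ∧
    (ctr (m + 1)).im = (ctr m).re * (1 / 2) + (ctr m).im * (√3 / 2) := by
  rw [SE.ctr_add, Complex.mul_re, Complex.mul_im, SE.ctr_one.1, SE.ctr_one.2]
  exact ⟨rfl, rfl⟩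

theorem SE.vals : ((ctr 0).re = 1 ∧ (ctr 0).im = 0) ∧ ((ctr 1).re = √3 / 2 ∧ (ctr 1).im = 1 / 2) ∧
    ((ctr 2).re = 1 / 2 ∧ (ctr 2).im = √3 / 2) ∧ ((ctr 3).re = 0 ∧ (ctr 3).im = 1) ∧
    ((ctr 4).re = -(1 / 2) ∧ (ctr 4).im = √3 / 2) ∧ ((ctr 5).re = -(√3 / 2) ∧ (ctr 5).im = 1 / 2) ∧
    ((ctr 6).re = -1 ∧ (ctr 6).im = 0) ∧ ((ctr 7).re = -(√3 / 2) ∧ (ctr 7).im = -(1 / 2)) ∧
    ((ctr 8).re = -(1 / 2) ∧ (ctr 8).im = -(√3 / 2)) ∧ ((ctr 9).re = 0 ∧ (ctr 9).im = -1) ∧
    ((ctr 10).re = 1 / 2 ∧ (ctr 10).im = -(√3 / 2)) ∧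
    ((ctr 11).re = √3 / 2 ∧ (ctr 11).im = -(1 / 2)) := by
  have q := SE.sqrt3_sq
  have h0 : (ctr 0).re = 1 ∧ (ctr 0).im = 0 := by rw [SE.ctr_zero]; simp
  have step : ∀ (m m' : ZMod 12) (a b a' b' : ℝ), m + 1 = m' → ((ctr m).re = a ∧ (ctr m).im = b) →
      a * (√3 / 2) - b * (1 / 2) = a' → a * (1 / 2) + b * (√3 / 2) = b' →
      ((ctr m').re = a' ∧ (ctr m').im = b') := by
    intro m m' a b a' b' hm hv h1 h2
    have h := SE.ctr_succ m
    rw [hm, hv.1, hv.2] at h
    exact ⟨h.1.trans h1, h.2.trans h2⟩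
  have h1 := SE.ctr_one
  have h2 := step 1 2 _ _ (1 / 2) (√3 / 2) (by decide) h1 (by linarith) (by ring)
  have h3 := step 2 3 _ _ 0 1 (by decide) h2 (by ring) (by linarith)
  have h4 := step 3 4 _ _ (-(1 / 2)) (√3 / 2) (by decide) h3 (by ring) (by ring)
  have h5 := step 4 5 _ _ (-(√3 / 2)) (1 / 2) (by decide) h4 (by ring) (by linarith)
  have h6 := step 5 6 _ _ (-1) 0 (by decide) h5 (by linarith) (by ring)
  have h7 := step 6 7 _ _ (-(√3 / 2)) (-(1 / 2)) (by decide) h6 (by ring) (by ring)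
  have h8 := step 7 8 _ _ (-(1 / 2)) (-(√3 / 2)) (by decide) h7 (by linarith) (by ring)
  have h9 := step 8 9 _ _ 0 (-1) (by decide) h8 (by ring) (by linarith)
  have h10 := step 9 10 _ _ (1 / 2) (-(√3 / 2)) (by decide) h9 (by ring) (by ring)
  have h11 := step 10 11 _ _ (√3 / 2) (-(1 / 2)) (by decide) h10 (by ring) (by linarith)
  exact ⟨h0, h1, h2, h3, h4, h5, h6, h7, h8, h9, h10, h11⟩

theorem SE.im_add (u : ℂ) (j m : ZMod 12) : (u * conj (ctr (j + m))).im =
    (u * conj (ctr j)).im * (ctr m).re - (u * conj (ctr j)).re * (ctr m).im := by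
  rw [SE.ctr_add, map_mul, ← mul_assoc]
  generalize u * conj (ctr j) = z
  rw [Complex.mul_im, Complex.conj_re, Complex.conj_im]
  ring

theorem SE.re_add (u : ℂ) (j m : ZMod 12) : (u * conj (ctr (j + m))).re =
    (u * conj (ctr j)).re * (ctr m).re + (u * conj (ctr j)).im * (ctr m).im := by
  rw [SE.ctr_add, map_mul, ← mul_assoc]
  generalize u * conj (ctr j) = z
  rw [Complex.mul_re, Complex.conj_re, Complex.conj_im]
  ring

theorem SE.norm_sq (u : ℂ) (j : ZMod 12) :
    ‖u‖ ^ 2 = (u * conj (ctr j)).re ^ 2 + (u * conj (ctr j)).im ^ 2 := by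
  have h : ‖u * conj (ctr j)‖ = ‖u‖ := by
    rw [norm_mul, Complex.norm_conj, norm_ctr, mul_one]
  rw [← h, ← Complex.normSq_eq_norm_sq, Complex.normSq_apply]
  ring

theorem SE.sec_iff {u : ℂ} (hu : 1 ≤ ‖u‖) (l : ZMod 12) :
    Sec l u ↔ (-(1 / 5) < (u * conj (ctr l)).im ∧ (u * conj (ctr (l + 1))).im < 1 / 5) := by
  unfold Sec
  constructor
  · rintro (h | h)
    · exact absurd hu (not_le.2 h)
    · exact h
  · exact fun h => Or.inr h

/-- all twelve sectors in terms of the coordinates at the direction `j` -/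
theorem SE.sec_add {u : ℂ} (hu : 1 ≤ ‖u‖) (j m : ZMod 12) :
    Sec (j + m) u ↔ (-(1 / 5) < (u * conj (ctr j)).im * (ctr m).re - (u * conj (ctr j)).re * (ctr m).im ∧
      (u * conj (ctr j)).im * (ctr (m + 1)).re - (u * conj (ctr j)).re * (ctr (m + 1)).im < 1 / 5) := by
  rw [SE.sec_iff hu, add_assoc, SE.im_add, SE.im_add]

theorem SE.cases12 (m : ZMod 12) : m = 0 ∨ m = 1 ∨ m = 2 ∨ m = 3 ∨ m = 4 ∨ m = 5 ∨ m = 6 ∨ m = 7 ∨
    m = 8 ∨ m = 9 ∨ m = 10 ∨ m = 11 := by
  revert m
  decide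

/-- near a side -/
theorem SE.side {u : ℂ} (hu : 1 ≤ ‖u‖) (j : ZMod 12) (hx : 9 / 5 ≤ (u * conj (ctr j)).re)
    (h1 : (u * conj (ctr j)).im ≤ 3 / 10 * (u * conj (ctr j)).re)
    (h2 : -(3 / 10 * (u * conj (ctr j)).re) ≤ (u * conj (ctr j)).im) (l : ZMod 12) :
    Sec l u ↔ (l = j ∧ -(1 / 5) < (u * conj (ctr j)).im) ∨ (l = j - 1 ∧ (u * conj (ctr j)).im < 1 / 5) := by
  obtain ⟨m, rfl⟩ : ∃ m, l = j + m := ⟨l - j, by ring⟩
  rw [SE.sec_add hu]
  have e1 : (j + m = j) ↔ m = 0 := by simp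
  have e2 : (j + m = j - 1) ↔ m = 11 := by
    rw [sub_eq_add_neg, add_right_inj]
    have : (-1 : ZMod 12) = 11 := by decide
    rw [this]
  rw [e1, e2]
  generalize (u * conj (ctr j)).re = x at *
  generalize (u * conj (ctr j)).im = w at *
  obtain ⟨v0, v1, v2, v3, v4, v5, v6, v7, v8, v9, v10, v11⟩ := SE.vals
  have s1 := lt_sqrt3
  have s2 := sqrt3_lt
  have a1 : w * √3 ≤ 3 / 10 * x * √3 := mul_le_mul_of_nonneg_right h1 (by positivity)
  have a2 : -(3 / 10 * x) * √3 ≤ w * √3 := mul_le_mul_of_nonneg_right h2 (by positivity)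
  have a3 : x * 1.732 ≤ x * √3 := mul_le_mul_of_nonneg_left s1.le (by linarith)
  have a4 : x * √3 ≤ x * 1.7321 := mul_le_mul_of_nonneg_left s2.le (by linarith)
  rcases SE.cases12 m with rfl | rfl | rfl | rfl | rfl | rfl | rfl | rfl | rfl | rfl | rfl | rfl
  · rw [show (0 : ZMod 12) + 1 = 1 by decide, v0.1, v0.2, v1.1, v1.2]
    simp only [true_and, show ¬ ((0 : ZMod 12) = 11) by decide, false_and, or_false]
    constructor
    · rintro ⟨h, _⟩; linarith
    · intro h; constructor <;> linarith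
  · rw [show (1 : ZMod 12) + 1 = 2 by decide, v1.1, v1.2, v2.1, v2.2]
    simp only [show ¬ ((1 : ZMod 12) = 11) by decide, show ¬ ((1 : ZMod 12) = 0) by decide, false_and,
      or_false, iff_false, not_and]
    intro h; exfalso; linarith
  · rw [show (2 : ZMod 12) + 1 = 3 by decide, v2.1, v2.2, v3.1, v3.2]
    simp only [show ¬ ((2 : ZMod 12) = 11) by decide, show ¬ ((2 : ZMod 12) = 0) by decide, false_and,
      or_false, iff_false, not_and]
    intro h; exfalso; linarith
  · rw [show (3 : ZMod 12) + 1 = 4 by decide, v3.1, v3.2, v4.1, v4.2]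
    simp only [show ¬ ((3 : ZMod 12) = 11) by decide, show ¬ ((3 : ZMod 12) = 0) by decide, false_and,
      or_false, iff_false, not_and]
    intro h; exfalso; linarith
  · rw [show (4 : ZMod 12) + 1 = 5 by decide, v4.1, v4.2, v5.1, v5.2]
    simp only [show ¬ ((4 : ZMod 12) = 11) by decide, show ¬ ((4 : ZMod 12) = 0) by decide, false_and,
      or_false, iff_false, not_and]
    intro h; exfalso; linarith
  · rw [show (5 : ZMod 12) + 1 = 6 by decide, v5.1, v5.2, v6.1, v6.2]
    simp only [show ¬ ((5 : ZMod 12) = 11) by decide, show ¬ ((5 : ZMod 12) = 0) by decide, false_and,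
      or_false, iff_false, not_and]
    intro h; exfalso; linarith
  · rw [show (6 : ZMod 12) + 1 = 7 by decide, v6.1, v6.2, v7.1, v7.2]
    simp only [show ¬ ((6 : ZMod 12) = 11) by decide, show ¬ ((6 : ZMod 12) = 0) by decide, false_and,
      or_false, iff_false, not_and]
    intro _ h; linarith
  · rw [show (7 : ZMod 12) + 1 = 8 by decide, v7.1, v7.2, v8.1, v8.2]
    simp only [show ¬ ((7 : ZMod 12) = 11) by decide, show ¬ ((7 : ZMod 12) = 0) by decide, false_and,
      or_false, iff_false, not_and]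
    intro _ h; linarith
  · rw [show (8 : ZMod 12) + 1 = 9 by decide, v8.1, v8.2, v9.1, v9.2]
    simp only [show ¬ ((8 : ZMod 12) = 11) by decide, show ¬ ((8 : ZMod 12) = 0) by decide, false_and,
      or_false, iff_false, not_and]
    intro _ h; linarith
  · rw [show (9 : ZMod 12) + 1 = 10 by decide, v9.1, v9.2, v10.1, v10.2]
    simp only [show ¬ ((9 : ZMod 12) = 11) by decide, show ¬ ((9 : ZMod 12) = 0) by decide, false_and,
      or_false, iff_false, not_and]
    intro _ h; linarith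
  · rw [show (10 : ZMod 12) + 1 = 11 by decide, v10.1, v10.2, v11.1, v11.2]
    simp only [show ¬ ((10 : ZMod 12) = 11) by decide, show ¬ ((10 : ZMod 12) = 0) by decide, false_and,
      or_false, iff_false, not_and]
    intro _ h; linarith
  · rw [show (11 : ZMod 12) + 1 = 0 by decide, v11.1, v11.2, v0.1, v0.2]
    simp only [show ¬ ((11 : ZMod 12) = 0) by decide, false_and, false_or, true_and]
    constructor
    · rintro ⟨_, h⟩; linarith
    · intro h; constructor <;> linarith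

/-- inside a closed sector -/
theorem SE.sector {u : ℂ} (hu : 1 ≤ ‖u‖) (j : ZMod 12) (h1 : 0 ≤ (u * conj (ctr j)).im)
    (h2 : (u * conj (ctr (j + 1))).im ≤ 0) (l : ZMod 12) :
    Sec l u ↔ l = j ∨ (l = j + 1 ∧ -(1 / 5) < (u * conj (ctr (j + 1))).im) ∨
      (l = j - 1 ∧ (u * conj (ctr j)).im < 1 / 5) := by
  obtain ⟨m, rfl⟩ : ∃ m, l = j + m := ⟨l - j, by ring⟩
  rw [SE.sec_add hu]
  have e1 : (j + m = j) ↔ m = 0 := by simp
  have e3 : (j + m = j + 1) ↔ m = 1 := by simp
  have e2 : (j + m = j - 1) ↔ m = 11 := by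
    rw [sub_eq_add_neg, add_right_inj]
    have : (-1 : ZMod 12) = 11 := by decide
    rw [this]
  have hn := SE.norm_sq u j
  have hn1 : 1 ≤ ‖u‖ ^ 2 := by nlinarith
  rw [e1, e2, e3]
  rw [SE.im_add] at h2 ⊢
  generalize (u * conj (ctr j)).re = x at *
  generalize (u * conj (ctr j)).im = w at *
  obtain ⟨v0, v1, v2, v3, v4, v5, v6, v7, v8, v9, v10, v11⟩ := SE.vals
  rw [v1.1, v1.2] at h2 ⊢
  have q := SE.sqrt3_sq
  have s1 := lt_sqrt3
  have s2 := sqrt3_lt
  -- x ≥ √3 w ≥ 0
  have hw : 0 ≤ w * √3 := by positivity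
  have hx0 : w * √3 ≤ x := by linarith
  have hx3 : 3 * w ≤ x * √3 := by
    have := mul_le_mul_of_nonneg_right hx0 (show (0 : ℝ) ≤ √3 by positivity)
    nlinarith
  have hxp : 0 ≤ x := le_trans hw hx0
  have hx : 0.86 ≤ x := by
    by_contra hc
    push Not at hc
    have hsq : (w * √3) ^ 2 ≤ x ^ 2 := by nlinarith
    have hsq' : 3 * w ^ 2 ≤ x ^ 2 := by nlinarith
    nlinarith
  have a3 : x * 1.732 ≤ x * √3 := mul_le_mul_of_nonneg_left s1.le hxp
  rcases SE.cases12 m with rfl | rfl | rfl | rfl | rfl | rfl | rfl | rfl | rfl | rfl | rfl | rfl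
  · rw [show (0 : ZMod 12) + 1 = 1 by decide, v0.1, v0.2, v1.1, v1.2]
    simp only [true_or, iff_true]
    constructor <;> linarith
  · rw [show (1 : ZMod 12) + 1 = 2 by decide, v1.1, v1.2, v2.1, v2.2]
    simp only [show ¬ ((1 : ZMod 12) = 11) by decide, show ¬ ((1 : ZMod 12) = 0) by decide, false_and,
      or_false, false_or, true_and]
    constructor
    · rintro ⟨h, _⟩; linarith
    · intro h; constructor <;> linarith
  · rw [show (2 : ZMod 12) + 1 = 3 by decide, v2.1, v2.2, v3.1, v3.2]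
    simp only [show ¬ ((2 : ZMod 12) = 11) by decide, show ¬ ((2 : ZMod 12) = 0) by decide,
      show ¬ ((2 : ZMod 12) = 1) by decide, false_and, or_false, iff_false, not_and]
    intro h; exfalso; linarith
  · rw [show (3 : ZMod 12) + 1 = 4 by decide, v3.1, v3.2, v4.1, v4.2]
    simp only [show ¬ ((3 : ZMod 12) = 11) by decide, show ¬ ((3 : ZMod 12) = 0) by decide,
      show ¬ ((3 : ZMod 12) = 1) by decide, false_and, or_false, iff_false, not_and]
    intro h; exfalso; linarith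
  · rw [show (4 : ZMod 12) + 1 = 5 by decide, v4.1, v4.2, v5.1, v5.2]
    simp only [show ¬ ((4 : ZMod 12) = 11) by decide, show ¬ ((4 : ZMod 12) = 0) by decide,
      show ¬ ((4 : ZMod 12) = 1) by decide, false_and, or_false, iff_false, not_and]
    intro h; exfalso; linarith
  · rw [show (5 : ZMod 12) + 1 = 6 by decide, v5.1, v5.2, v6.1, v6.2]
    simp only [show ¬ ((5 : ZMod 12) = 11) by decide, show ¬ ((5 : ZMod 12) = 0) by decide,
      show ¬ ((5 : ZMod 12) = 1) by decide, false_and, or_false, iff_false, not_and]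
    intro h; exfalso; linarith
  · rw [show (6 : ZMod 12) + 1 = 7 by decide, v6.1, v6.2, v7.1, v7.2]
    simp only [show ¬ ((6 : ZMod 12) = 11) by decide, show ¬ ((6 : ZMod 12) = 0) by decide,
      show ¬ ((6 : ZMod 12) = 1) by decide, false_and, or_false, iff_false, not_and]
    intro h5 h
    have h6 : w < 1 / 5 := by linarith
    have h7 : w * √3 ≤ 1 / 5 * √3 := mul_le_mul_of_nonneg_right h6.le (by positivity)
    have h8 : x < 0.75 := by linarith
    nlinarith
  · rw [show (7 : ZMod 12) + 1 = 8 by decide, v7.1, v7.2, v8.1, v8.2]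
    simp only [show ¬ ((7 : ZMod 12) = 11) by decide, show ¬ ((7 : ZMod 12) = 0) by decide,
      show ¬ ((7 : ZMod 12) = 1) by decide, false_and, or_false, iff_false, not_and]
    intro _ h; linarith
  · rw [show (8 : ZMod 12) + 1 = 9 by decide, v8.1, v8.2, v9.1, v9.2]
    simp only [show ¬ ((8 : ZMod 12) = 11) by decide, show ¬ ((8 : ZMod 12) = 0) by decide,
      show ¬ ((8 : ZMod 12) = 1) by decide, false_and, or_false, iff_false, not_and]
    intro _ h; linarith
  · rw [show (9 : ZMod 12) + 1 = 10 by decide, v9.1, v9.2, v10.1, v10.2]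
    simp only [show ¬ ((9 : ZMod 12) = 11) by decide, show ¬ ((9 : ZMod 12) = 0) by decide,
      show ¬ ((9 : ZMod 12) = 1) by decide, false_and, or_false, iff_false, not_and]
    intro _ h; linarith
  · rw [show (10 : ZMod 12) + 1 = 11 by decide, v10.1, v10.2, v11.1, v11.2]
    simp only [show ¬ ((10 : ZMod 12) = 11) by decide, show ¬ ((10 : ZMod 12) = 0) by decide,
      show ¬ ((10 : ZMod 12) = 1) by decide, false_and, or_false, iff_false, not_and]
    intro _ h; linarith
  · rw [show (11 : ZMod 12) + 1 = 0 by decide, v11.1, v11.2, v0.1, v0.2]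
    simp only [show ¬ ((11 : ZMod 12) = 0) by decide, show ¬ ((11 : ZMod 12) = 1) by decide,
      false_and, false_or, true_and]
    constructor
    · rintro ⟨_, h⟩; linarith
    · intro h; constructor <;> linarith

theorem SE.part1 (u : ℂ) (hu : 1 ≤ ‖u‖) :
    ∃ k, (∀ l, Sec l u ↔ l = k) ∨ (∀ l, Sec l u ↔ (l = k ∨ l = k + 1)) := by
  obtain ⟨i, h1, h2⟩ := exists_sector u
  have h2' : (u * conj (ctr (i + 1))).im ≤ 0 := by
    have e : ctr (i + 1) * conj u = conj (u * conj (ctr (i + 1))) := by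
      rw [map_mul, Complex.conj_conj]; ring
    rw [e, Complex.conj_im] at h2
    linarith
  have hs := SE.sector hu i h1 h2'
  by_cases ha : -(1 / 5) < (u * conj (ctr (i + 1))).im
  · have hb : ¬ (u * conj (ctr i)).im < 1 / 5 := by
      intro hb
      have hn := SE.norm_sq u i
      have hn1 : 1 ≤ ‖u‖ ^ 2 := by nlinarith
      rw [SE.im_add, SE.vals.2.1.1, SE.vals.2.1.2] at ha h2'
      generalize (u * conj (ctr i)).re = x at *
      generalize (u * conj (ctr i)).im = w at *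
      have s1 := lt_sqrt3
      have s2 := sqrt3_lt
      have h7 : w * √3 ≤ 1 / 5 * √3 := mul_le_mul_of_nonneg_right hb.le (by positivity)
      have hw : 0 ≤ w * √3 := by positivity
      have h8 : x < 0.75 := by linarith
      have h9 : 0 ≤ x := by linarith
      nlinarith
    refine ⟨i, Or.inr fun l => ?_⟩
    rw [hs l]
    constructor
    · rintro (h | h | h)
      · exact Or.inl h
      · exact Or.inr h.1
      · exact absurd h.2 hb
    · rintro (h | h)
      · exact Or.inl h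
      · exact Or.inr (Or.inl ⟨h, ha⟩)
  · by_cases hb : (u * conj (ctr i)).im < 1 / 5
    · refine ⟨i - 1, Or.inr fun l => ?_⟩
      rw [hs l, sub_add_cancel]
      constructor
      · rintro (h | h | h)
        · exact Or.inr h
        · exact absurd h.2 ha
        · exact Or.inl h.1
      · rintro (h | h)
        · exact Or.inr (Or.inr ⟨h, hb⟩)
        · exact Or.inl h
    · refine ⟨i, Or.inl fun l => ?_⟩
      rw [hs l]
      constructor
      · rintro (h | h | h)
        · exact h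
        · exact absurd h.2 ha
        · exact absurd h.2 hb
      · exact fun h => Or.inl h

/-- the coordinates of a point near a side -/
theorem SE.near {u : ℂ} {j : ZMod 12} (hu : u ∈ PPo) (hj : lv j u < 1 / 100) :
    1 ≤ ‖u‖ ∧ 9 / 5 ≤ (u * conj (ctr j)).re ∧
    (u * conj (ctr j)).im ≤ 3 / 10 * (u * conj (ctr j)).re ∧
    -(3 / 10 * (u * conj (ctr j)).re) ≤ (u * conj (ctr j)).im := by
  have h3 : 3 < ‖u‖ ^ 2 := by
    by_contra hc
    push Not at hc
    have := lv_large hc j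
    linarith
  have hn : 1 ≤ ‖u‖ := by nlinarith [norm_nonneg u]
  have hH : 2 < √(1 + ‖u‖ ^ 2) := by
    rw [Real.lt_sqrt (by norm_num)]
    linarith
  have g0 := hu j
  have g1 := hu (j + 1)
  have g2 := hu (j + 11)
  have r1 := lt_rho
  have r2 := rho_lt
  unfold lv at hj g0 g1 g2
  rw [SE.re_add, SE.vals.2.1.1, SE.vals.2.1.2] at g1
  have v11 := SE.vals.2.2.2.2.2.2.2.2.2.2.2
  rw [SE.re_add, v11.1, v11.2] at g2
  generalize √(1 + ‖u‖ ^ 2) = H at *
  generalize (u * conj (ctr j)).re = x at *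
  generalize (u * conj (ctr j)).im = w at *
  have hx1 : rho * (H - 1 / 100) < x := by
    have : H - 1 / 100 < x / rho := by linarith
    rw [lt_div_iff₀ rho_pos] at this
    linarith
  have hx2 : x < rho * (H + 1 / 100) := by
    have : x / rho < H + 1 / 100 := by linarith
    rw [div_lt_iff₀ rho_pos] at this
    linarith
  have hw1 : x * (√3 / 2) + w * (1 / 2) < rho * (H + 1 / 100) := by
    have : (x * (√3 / 2) + w * (1 / 2)) / rho < H + 1 / 100 := by linarith
    rw [div_lt_iff₀ rho_pos] at this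
    linarith
  have hw2 : x * (√3 / 2) + w * (-(1 / 2)) < rho * (H + 1 / 100) := by
    have : (x * (√3 / 2) + w * (-(1 / 2))) / rho < H + 1 / 100 := by linarith
    rw [div_lt_iff₀ rho_pos] at this
    linarith
  have hx : 9 / 5 ≤ x := by nlinarith
  have s1 := lt_sqrt3
  have a3 : x * 1.732 ≤ x * √3 := mul_le_mul_of_nonneg_left s1.le (by linarith)
  refine ⟨hn, hx, ?_, ?_⟩
  · nlinarith
  · nlinarith

theorem SE.part4 (j : ZMod 12) (u : ℂ) (hu : u ∈ PPo) (h1 : lv j u < 1 / 100)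
    (h2 : lv (j + 1) u < 1 / 100) (l : ZMod 12) : Sec l u ↔ l = j := by
  obtain ⟨hn, hx, ha, hb⟩ := SE.near hu h1
  rw [SE.side hn j hx ha hb l]
  have hw : 1 / 5 < (u * conj (ctr j)).im := by
    have g0 := hu j
    unfold lv at g0 h2
    rw [SE.re_add, SE.vals.2.1.1, SE.vals.2.1.2] at h2
    generalize √(1 + ‖u‖ ^ 2) = H at *
    generalize (u * conj (ctr j)).re = x at *
    generalize (u * conj (ctr j)).im = w at *
    have r1 := lt_rho
    have r2 := rho_lt
    have hx2 : x < rho * (H + 1 / 100) := by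
      have : x / rho < H + 1 / 100 := by linarith
      rw [div_lt_iff₀ rho_pos] at this
      linarith
    have hw1 : rho * (H - 1 / 100) < x * (√3 / 2) + w * (1 / 2) := by
      have : H - 1 / 100 < (x * (√3 / 2) + w * (1 / 2)) / rho := by linarith
      rw [lt_div_iff₀ rho_pos] at this
      linarith
    have s2 := sqrt3_lt
    have a4 : x * √3 ≤ x * 1.7321 := mul_le_mul_of_nonneg_left s2.le (by linarith)
    nlinarith
  constructor
  · rintro (h | h)
    · exact h.1
    · exact absurd h.2 (by linarith)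
  · intro h
    exact Or.inl ⟨h, by linarith⟩

theorem SE.im_R (j : ZMod 12) (u : ℂ) : (R j u * conj (ctr j)).im = (u * conj (ctr j)).im := by
  unfold R
  rw [add_mul, mul_assoc, ctr_mul_conj_self, mul_one, Complex.add_im, Complex.ofReal_im, add_zero]

theorem SE.part2 (j : ZMod 12) (u : ℂ) (hu : u ∈ PPo) (hR : R j u ∈ PPo) :
    1 ≤ ‖u‖ ∧ ∀ l, (Sec l u ↔ Sec l (R j u)) ∧ (Sec l u → l = j - 1 ∨ l = j) := by
  have h1 : lv j u < 1 / 100 := by
    have := hR j
    rw [lv_R_self] at this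
    linarith
  have h2 : lv j (R j u) < 1 / 100 := by
    have := hu j
    rw [lv_R_self]
    linarith
  obtain ⟨hn, hx, ha, hb⟩ := SE.near hu h1
  obtain ⟨hn', hx', ha', hb'⟩ := SE.near hR h2
  refine ⟨hn, fun l => ?_⟩
  have s1 := SE.side hn j hx ha hb l
  have s2 := SE.side hn' j hx' ha' hb' l
  rw [SE.im_R] at s2
  refine ⟨s1.trans s2.symm, fun h => ?_⟩
  rcases s1.1 h with h | h
  · exact Or.inr h.1
  · exact Or.inl h.1

theorem SE.part3 (j : ZMod 12) (u : ℂ) (hu : u ∈ PPo) (hR : R j (R (j + 1) u) ∈ PPo) (l : ZMod 12) :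
    (Sec l u ↔ l = j) ∧ (Sec l (R j (R (j + 1) u)) ↔ l = j) := by
  have e1 : lv j (R j (R (j + 1) u)) = - lv j u := by rw [lv_R_self, lv_R_pred]
  have e2 : lv (j + 1) (R j (R (j + 1) u)) = - lv (j + 1) u := by rw [lv_R_succ, lv_R_self]
  have g1 := hR j
  have g2 := hR (j + 1)
  rw [e1] at g1
  rw [e2] at g2
  refine ⟨SE.part4 j u hu (by linarith) (by linarith) l, SE.part4 j _ hR ?_ ?_ l⟩
  · rw [e1]; have := hu j; linarith
  · rw [e2]; have := hu (j + 1); linarith

theorem stmt_SE : Stmt_SE := ⟨SE.part1, SE.part2, SE.part3, SE.part4⟩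

end Pool.CX
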