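import Pool.Agent.Work.MP_727c87_cx.E1.Met

/-!
# Short paths in the realisation of a model: library (helper63)
-/

open Set Complex ComplexConjugate Filter Topology
open scoped ContDiff NNReal

noncomputable section

namespace Pool.CX

section paths

variable {M : Type} [PseudoEMetricSpace M] {A B : Set M} {ℓ ℓ' : ℝ≥0} {x y z : M}

theorem SPath.mono (h : SPath A ℓ x y) (hA : A ⊆ B) (hl : ℓ ≤ ℓ') : SPath B ℓ' x y := by
  obtain ⟨γ, h1, h2⟩ := h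
  exact ⟨γ, fun t => hA (h1 t), h2.weaken hl⟩

theorem SPath.symm (h : SPath A ℓ x y) : SPath A ℓ y x := by
  obtain ⟨γ, h1, h2⟩ := h
  refine ⟨γ.symm, fun t => h1 _, ?_⟩
  intro s t
  have h3 : edist (γ.symm s) (γ.symm t) ≤ ℓ * edist (unitInterval.symm s) (unitInterval.symm t) :=
    h2 _ _
  have h4 : edist (unitInterval.symm s) (unitInterval.symm t) = edist s t := by
    rw [Subtype.edist_eq, Subtype.edist_eq, edist_dist, edist_dist, Real.dist_eq, Real.dist_eq,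
      unitInterval.coe_symm_eq, unitInterval.coe_symm_eq]
    congr 1
    rw [show (1 - (s : ℝ)) - (1 - (t : ℝ)) = -((s : ℝ) - t) by ring, abs_neg]
  rw [h4] at h3
  exact h3

theorem lipschitz_extend (γ : Path x y) (h : LipschitzWith ℓ γ) : LipschitzWith ℓ γ.extend := by
  have h1 := h.comp (LipschitzWith.projIcc (zero_le_one (α := ℝ)))
  rw [mul_one] at h1
  exact h1

theorem SPath.trans (h : SPath A ℓ x y) (h' : SPath A ℓ y z) : SPath A (2 * ℓ) x z := by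
  obtain ⟨γ, h1, h2⟩ := h
  obtain ⟨γ', h1', h2'⟩ := h'
  have e1 : LipschitzWith (2 * ℓ) (fun t : ℝ => γ.extend (2 * t)) := by
    have h3 : LipschitzWith 2 (fun t : ℝ => 2 * t) := by
      refine LipschitzWith.of_dist_le_mul fun s t => ?_
      rw [Real.dist_eq, Real.dist_eq, ← mul_sub, abs_mul]
      norm_num
    have h4 := (lipschitz_extend γ h2).comp h3
    rw [mul_comm] at h4
    exact h4
  have e2 : LipschitzWith (2 * ℓ) (fun t : ℝ => γ'.extend (2 * t - 1)) := by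
    have h3 : LipschitzWith 2 (fun t : ℝ => 2 * t - 1) := by
      refine LipschitzWith.of_dist_le_mul fun s t => ?_
      rw [Real.dist_eq, Real.dist_eq, show 2 * s - 1 - (2 * t - 1) = 2 * (s - t) by ring, abs_mul]
      norm_num
    have h4 := (lipschitz_extend γ' h2').comp h3
    rw [mul_comm] at h4
    exact h4
  set G : ℝ → M := fun t => if t ≤ 1 / 2 then γ.extend (2 * t) else γ'.extend (2 * t - 1) with hG
  have m1 : γ.extend (2 * (1 / 2)) = y := by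
    rw [show (2 : ℝ) * (1 / 2) = 1 by norm_num]
    exact γ.extend_one
  have m2 : γ'.extend (2 * (1 / 2) - 1) = y := by
    rw [show (2 : ℝ) * (1 / 2) - 1 = 0 by norm_num]
    exact γ'.extend_zero
  have key : ∀ s t : ℝ, s ≤ t → edist (G s) (G t) ≤ (2 * ℓ : ℝ≥0) * edist s t := by
    intro s t hst
    by_cases hs : s ≤ 1 / 2
    · by_cases ht : t ≤ 1 / 2
      · simp only [hG, if_pos hs, if_pos ht]
        exact e1 s t
      · simp only [hG, if_pos hs, if_neg ht]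
        have ht' : 1 / 2 ≤ t := (not_le.mp ht).le
        have a1 := e1 s (1 / 2)
        have a2 := e2 (1 / 2) t
        simp only at a1 a2
        rw [m1] at a1
        rw [m2] at a2
        refine (edist_triangle _ y _).trans ((add_le_add a1 a2).trans ?_)
        rw [← mul_add]
        refine mul_le_mul_right ?_ _
        rw [edist_dist, edist_dist, edist_dist, ← ENNReal.ofReal_add dist_nonneg dist_nonneg]
        refine ENNReal.ofReal_le_ofReal ?_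
        rw [Real.dist_eq, Real.dist_eq, Real.dist_eq, abs_of_nonpos (by linarith),
          abs_of_nonpos (by linarith), abs_of_nonpos (by linarith)]
        linarith
    · have ht : ¬ t ≤ 1 / 2 := fun h => hs (hst.trans h)
      simp only [hG, if_neg hs, if_neg ht]
      exact e2 s t
  have hL : LipschitzWith (2 * ℓ) G := by
    intro s t
    rcases le_total s t with h | h
    · exact key s t h
    · rw [edist_comm (G s), edist_comm s]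
      exact key t s h
  refine ⟨γ.trans γ', ?_, ?_⟩
  · intro t
    change G t ∈ A
    simp only [hG]
    split_ifs
    · exact h1 _
    · exact h1' _
  · have h5 : LipschitzWith (2 * ℓ) (G ∘ (Subtype.val : unitInterval → ℝ)) := by
      have h6 := hL.comp (LipschitzWith.subtype_val unitInterval)
      rw [mul_one] at h6
      exact h6
    exact h5

end paths

/-! ## Smooth curves in a chart -/

/-- the block map is differentiable where its arguments are -/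
theorem differentiableAt_PhiM (hG4 : Stmt_G4) (hC1 : Stmt_C1) (Mo : Model) (g : Mo.Q) (e : ℂ × ℝ)
    (he : e ∈ chDom (g ∈ Mo.D)) : DifferentiableAt ℝ (Mo.PhiM g) e := by
  obtain ⟨-, -, -, -, hd⟩ := hC1
  obtain ⟨hop, hU, hV, -⟩ := hd (g ∈ Mo.D)
  have dU : DifferentiableAt ℝ (chU (g ∈ Mo.D)) e :=
    ((hU e he).contDiffAt (hop.mem_nhds he)).differentiableAt (by simp)
  have dV : DifferentiableAt ℝ (chV (g ∈ Mo.D)) e :=
    ((hV e he).contDiffAt (hop.mem_nhds he)).differentiableAt (by simp)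
  obtain ⟨-, -, hmv, hbeta, -⟩ := hG4
  rw [differentiableAt_pi]
  intro h
  unfold Model.PhiM Psi
  refine DifferentiableAt.fun_sum fun n _ => ?_
  by_cases hn : nbr Mo.L g n = h
  · simp only [if_pos hn]
    have dm : DifferentiableAt ℝ (fun e => mv n (chU (g ∈ Mo.D) e)) e :=
      (((hmv n).differentiable (by simp)) _).comp e dU
    have db : DifferentiableAt ℝ (fun e => beta (mv n (chU (g ∈ Mo.D) e))) e :=
      ((hbeta.differentiable (by simp)) _).comp e dm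
    have dc : DifferentiableAt ℝ (fun e => ((beta (mv n (chU (g ∈ Mo.D) e)) : ℝ) : ℂ)) e :=
      (Complex.ofRealCLM.differentiableAt).comp e db
    exact db.prodMk ((dc.mul dm).prodMk (dc.mul dV))
  · simp only [if_neg hn]
    exact differentiableAt_const _

theorem Realz.spath_curve {Mo : Model} {ε : ℝ} (Z : Realz Mo ε) (hC1 : Stmt_C1) (g : Mo.Q)
    (σ : ℝ → ℂ × ℝ) (hσ : ContDiff ℝ ∞ σ)
    (hdom : ∀ t ∈ Icc (0 : ℝ) 1, σ t ∈ chDom (g ∈ Mo.D)) (B : ℝ≥0)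
    (hB : ∀ t ∈ Ioo (0 : ℝ) 1, ‖deriv (fun t => Mo.FF ε (Mo.PhiM g (σ t))) t‖ ≤ B)
    (A : Set Z.M.Pt)
    (hA : ∀ t ∈ Icc (0 : ℝ) 1, ∀ z, (Z.e z : Amb Mo.Q) = Mo.PhiM g (σ t) → z ∈ A)
    (x y : Z.M.Pt) (hx : (Z.e x : Amb Mo.Q) = Mo.PhiM g (σ 0))
    (hy : (Z.e y : Amb Mo.Q) = Mo.PhiM g (σ 1)) :
    SPath A B x y := by
  obtain ⟨-, -, -, -, hd⟩ := hC1
  have hSS : ∀ t ∈ Icc (0 : ℝ) 1, Mo.PhiM g (σ t) ∈ Mo.SS := fun t ht =>
    ⟨g, chU _ (σ t), chV _ (σ t), (hd _).2.2.2.1 _ (hdom t ht), rfl⟩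
  set γ : unitInterval → Z.M.Pt := fun t => Z.e.symm ⟨Mo.PhiM g (σ t), hSS t t.2⟩ with hγ
  have he : ∀ t, (Z.e (γ t) : Amb Mo.Q) = Mo.PhiM g (σ t) := by
    intro t
    simp only [hγ, Homeomorph.apply_symm_apply]
  have key : ∀ s t : unitInterval, s ≤ t → dist (γ s) (γ t) ≤ B * dist s t := by
    intro s t hst
    have h1 := Z.up g σ s t B hσ hst B.2
      (fun r hr => hdom r ⟨s.2.1.trans hr.1, hr.2.trans t.2.2⟩)
      (fun r hr => hB r ⟨s.2.1.trans_lt hr.1, hr.2.trans_le t.2.2⟩) (γ s) (γ t) (he s) (he t)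
    have hst' : (s : ℝ) ≤ t := hst
    rw [Subtype.dist_eq, Real.dist_eq, abs_sub_comm, abs_of_nonneg (sub_nonneg.mpr hst')]
    exact h1
  have hL : LipschitzWith B γ := by
    refine LipschitzWith.of_dist_le_mul fun s t => ?_
    rcases le_total s t with h | h
    · exact key s t h
    · rw [dist_comm (γ s), dist_comm s]
      exact key t s h
  have h0 : γ 0 = x := by
    apply Z.e.injective
    apply Subtype.ext
    rw [he, hx]
    rfl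
  have h1 : γ 1 = y := by
    apply Z.e.injective
    apply Subtype.ext
    rw [he, hy]
    rfl
  refine ⟨⟨⟨γ, hL.continuous⟩, h0, h1⟩, ?_, hL⟩
  intro t
  exact hA t t.2 _ (he t)

theorem deriv_FF_PhiM (hM1 : Stmt_M1) (hG4 : Stmt_G4) (hC1 : Stmt_C1) (Mo : Model) (ε : ℝ)
    (g : Mo.Q) (σ : ℝ → ℂ × ℝ) (hσ : ContDiff ℝ ∞ σ) (t : ℝ) (he : σ t ∈ chDom (g ∈ Mo.D)) :
    deriv (fun t => Mo.FF ε (Mo.PhiM g (σ t))) t =
      fderiv ℝ (fun e => Mo.FF ε (Mo.PhiM g e)) (σ t) (deriv σ t) := by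
  have hF : DifferentiableAt ℝ (fun e => Mo.FF ε (Mo.PhiM g e)) (σ t) :=
    (((hM1.2.1 Mo ε).differentiable (by simp)) _).comp _ (differentiableAt_PhiM hG4 hC1 Mo g _ he)
  exact fderiv_comp_deriv t hF ((hσ.differentiable (by simp)) t)

theorem deriv_tb_PhiM (hM1 : Stmt_M1) (hG4 : Stmt_G4) (hC1 : Stmt_C1) (Mo : Model)
    (g : Mo.Q) (σ : ℝ → ℂ × ℝ) (hσ : ContDiff ℝ ∞ σ) (t : ℝ) (he : σ t ∈ chDom (g ∈ Mo.D))
    (b : Mo.Arc) :
    deriv (fun t => Mo.tb b (Mo.PhiM g (σ t))) t =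
      fderiv ℝ (fun e => Mo.tb b (Mo.PhiM g e)) (σ t) (deriv σ t) := by
  have hF : DifferentiableAt ℝ (fun e => Mo.FF 1 (Mo.PhiM g e)) (σ t) :=
    (((hM1.2.1 Mo 1).differentiable (by simp)) _).comp _ (differentiableAt_PhiM hG4 hC1 Mo g _ he)
  have hT : DifferentiableAt ℝ (fun e => Mo.tb b (Mo.PhiM g e)) (σ t) :=
    ((EuclideanSpace.proj (𝕜 := ℝ) (Sum.inr (Sum.inl b) : Mo.J)).differentiableAt).comp (σ t) hF
  exact fderiv_comp_deriv t hT ((hσ.differentiable (by simp)) t)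

theorem deriv_th_PhiM (hM1 : Stmt_M1) (hG4 : Stmt_G4) (hC1 : Stmt_C1) (Mo : Model)
    (g : Mo.Q) (σ : ℝ → ℂ × ℝ) (hσ : ContDiff ℝ ∞ σ) (t : ℝ) (he : σ t ∈ chDom (g ∈ Mo.D))
    (h : Mo.Q) :
    deriv (fun t => Mo.th h (Mo.PhiM g (σ t))) t =
      fderiv ℝ (fun e => Mo.th h (Mo.PhiM g e)) (σ t) (deriv σ t) := by
  have hF : DifferentiableAt ℝ (fun e => Mo.FF 1 (Mo.PhiM g e)) (σ t) :=
    (((hM1.2.1 Mo 1).differentiable (by simp)) _).comp _ (differentiableAt_PhiM hG4 hC1 Mo g _ he)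
  have hT : DifferentiableAt ℝ (fun e => Mo.th h (Mo.PhiM g e)) (σ t) :=
    ((EuclideanSpace.proj (𝕜 := ℝ) (Sum.inr (Sum.inr h) : Mo.J)).differentiableAt).comp (σ t) hF
  exact fderiv_comp_deriv t hT ((hσ.differentiable (by simp)) t)

theorem deriv_eq_zero_of_const {G : Type} [NormedAddCommGroup G] [NormedSpace ℝ G] (φ : ℝ → G) (c : G)
    (h : ∀ s ∈ Icc (0 : ℝ) 1, φ s = c) (t : ℝ) (ht : t ∈ Ioo (0 : ℝ) 1) : deriv φ t = 0 := by
  have h1 : φ =ᶠ[𝓝 t] fun _ => c := by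
    filter_upwards [Ioo_mem_nhds ht.1 ht.2] with s hs
    exact h s ⟨hs.1.le, hs.2.le⟩
  rw [h1.deriv_eq, deriv_const]

/-- the statement of `U1` for a given constant -/
def U1c (C : ℝ≥0) : Prop :=
  ∀ (Mo : Model) (g : Mo.Q) (ε : ℝ) (e w : ℂ × ℝ), 0 < ε → ε ≤ 1 →
    e ∈ chDom (g ∈ Mo.D) → chU (g ∈ Mo.D) e ∈ PP →
    ‖fderiv ℝ (fun e => Mo.FF ε (Mo.PhiM g e)) e w‖ ≤ C * ‖w‖ ∧
    ((∀ b, fderiv ℝ (fun e => Mo.tb b (Mo.PhiM g e)) e w = 0) →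
      (∀ h, fderiv ℝ (fun e => Mo.th h (Mo.PhiM g e)) e w = 0) →
      ‖fderiv ℝ (fun e => Mo.FF ε (Mo.PhiM g e)) e w‖ ≤ ε * C * ‖w‖)

theorem exists_U1c (hU1 : Stmt_U1) : ∃ C : ℝ≥0, U1c C := by
  obtain ⟨C, h0, h⟩ := hU1
  exact ⟨⟨C, h0⟩, h⟩

/-- a smooth curve in the kite (in the coordinates of the chart) is a short path -/
theorem Realz.kt_path (hM1 : Stmt_M1) (hG4 : Stmt_G4) (hG6 : Stmt_G6) (hC1 : Stmt_C1) {C : ℝ≥0}
    (hU : U1c C) {Mo : Model} {ε : ℝ} (Z : Realz Mo ε) (h0 : 0 < ε) (h1 : ε ≤ 1) (f : Mo.F)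
    (σ : ℝ → ℂ × ℝ) (hσ : ContDiff ℝ ∞ σ) (hne : ∀ t ∈ Icc (0 : ℝ) 1, (σ t).1 ≠ 0)
    (hk : ∀ t ∈ Icc (0 : ℝ) 1, chU (f.1 ∈ Mo.D) (σ t) ∈ kite f.2) (B : ℝ≥0)
    (hB : ∀ t ∈ Ioo (0 : ℝ) 1, ‖deriv σ t‖ ≤ B) (x y : Z.M.Pt)
    (hx : (Z.e x : Amb Mo.Q) = Mo.PhiM f.1 (σ 0)) (hy : (Z.e y : Amb Mo.Q) = Mo.PhiM f.1 (σ 1)) :
    SPath (Z.Kt f) (C * B) x y := by
  obtain ⟨-, -, -, hPP, -⟩ := hG6
  have hdom : ∀ t ∈ Icc (0 : ℝ) 1, σ t ∈ chDom (f.1 ∈ Mo.D) := fun t ht =>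
    ⟨hne t ht, hPP (hk t ht).1⟩
  refine Z.spath_curve hC1 f.1 σ hσ hdom (C * B) ?_ (Z.Kt f) ?_ x y hx hy
  · intro t ht
    have ht' : t ∈ Icc (0 : ℝ) 1 := ⟨ht.1.le, ht.2.le⟩
    rw [deriv_FF_PhiM hM1 hG4 hC1 Mo ε f.1 σ hσ t (hdom t ht')]
    refine (hU Mo f.1 ε (σ t) (deriv σ t) h0 h1 (hdom t ht') (hk t ht').1).1.trans ?_
    rw [NNReal.coe_mul]
    exact mul_le_mul_of_nonneg_left (hB t ht) C.2
  · intro t ht z hz
    obtain ⟨-, -, -, -, hd⟩ := hC1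
    exact ⟨chU _ (σ t), chV _ (σ t), (hd _).2.2.2.1 _ (hdom t ht), hk t ht, hz⟩

/-- a smooth curve in the chamber on which `tb`, `th` are constant is a very short path -/
theorem Realz.ch_path (hM1 : Stmt_M1) (hG4 : Stmt_G4) (hG6 : Stmt_G6) (hC1 : Stmt_C1) {C : ℝ≥0}
    (hU : U1c C) {Mo : Model} {ε : ℝ≥0} (Z : Realz Mo ε) (h0 : 0 < ε) (h1 : ε ≤ 1) (g : Mo.Q)
    (σ : ℝ → ℂ × ℝ) (hσ : ContDiff ℝ ∞ σ) (hne : ∀ t ∈ Icc (0 : ℝ) 1, (σ t).1 ≠ 0)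
    (hk : ∀ t ∈ Icc (0 : ℝ) 1, chU (g ∈ Mo.D) (σ t) ∈ PP) (τ : Mo.Arc → ℝ)
    (htb : ∀ t ∈ Icc (0 : ℝ) 1, ∀ b, Mo.tb b (Mo.PhiM g (σ t)) = τ b)
    (hth : ∀ t ∈ Icc (0 : ℝ) 1, ∀ h, Mo.th h (Mo.PhiM g (σ t)) = 0) (B : ℝ≥0)
    (hB : ∀ t ∈ Ioo (0 : ℝ) 1, ‖deriv σ t‖ ≤ B) (x y : Z.M.Pt)
    (hx : (Z.e x : Amb Mo.Q) = Mo.PhiM g (σ 0)) (hy : (Z.e y : Amb Mo.Q) = Mo.PhiM g (σ 1)) :
    SPath (Z.Ch g) (ε * (C * B)) x y := by
  obtain ⟨-, -, -, hPP, -⟩ := hG6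
  have hdom : ∀ t ∈ Icc (0 : ℝ) 1, σ t ∈ chDom (g ∈ Mo.D) := fun t ht =>
    ⟨hne t ht, hPP (hk t ht)⟩
  refine Z.spath_curve hC1 g σ hσ hdom (ε * (C * B)) ?_ (Z.Ch g) ?_ x y hx hy
  · intro t ht
    have ht' : t ∈ Icc (0 : ℝ) 1 := ⟨ht.1.le, ht.2.le⟩
    rw [deriv_FF_PhiM hM1 hG4 hC1 Mo ε g σ hσ t (hdom t ht')]
    have h2 := (hU Mo g ε (σ t) (deriv σ t) (NNReal.coe_pos.mpr h0) (NNReal.coe_le_one.mpr h1)
      (hdom t ht') (hk t ht')).2 ?_ ?_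
    · refine h2.trans ?_
      rw [NNReal.coe_mul, NNReal.coe_mul, ← mul_assoc]
      exact mul_le_mul_of_nonneg_left (hB t ht) (mul_nonneg ε.2 C.2)
    · intro b
      rw [← deriv_tb_PhiM hM1 hG4 hC1 Mo g σ hσ t (hdom t ht') b]
      exact deriv_eq_zero_of_const _ (τ b) (fun s hs => htb s hs b) t ht
    · intro h
      rw [← deriv_th_PhiM hM1 hG4 hC1 Mo g σ hσ t (hdom t ht') h]
      exact deriv_eq_zero_of_const _ 0 (fun s hs => hth s hs h) t ht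
  · intro t ht z hz
    obtain ⟨-, -, -, -, hd⟩ := hC1
    exact ⟨chU _ (σ t), chV _ (σ t), (hd _).2.2.2.1 _ (hdom t ht), hk t ht, hz⟩

end Pool.CX
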