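import Pool.Agent.Work.MP_727c87_cx.E1.Met

/-! # Block U0 (helper13): the model functions have bounded derivatives on compact sets -/

open Set Complex ComplexConjugate
open scoped ContDiff NNReal

noncomputable section

namespace Pool.CX

namespace U0

theorem blk_smooth (hb : ContDiff ℝ ∞ beta) : ContDiff ℝ ∞ (fun x : ℂ × ℂ => blk x.1 x.2) := by
  unfold blk
  have h1 : ContDiff ℝ ∞ (fun x : ℂ × ℂ => beta x.1) := hb.comp contDiff_fst
  have h2 : ContDiff ℝ ∞ (fun x : ℂ × ℂ => ((beta x.1 : ℝ) : ℂ)) := Complex.ofRealCLM.contDiff.comp h1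
  exact h1.prodMk ((h2.mul contDiff_fst).prodMk (h2.mul contDiff_snd))

/-- the compact set of points of `Loc d` in the closed polygon -/
theorem loc_compact (hPP : IsCompact PP) (hsub : PP ⊆ PPo) (hball : ∀ u ∈ PPo, ‖u‖ < 9)
    (hqc : Continuous qq) (hq1 : ∀ s, s ≤ 1 → qq s = 1) (d : Prop) :
    IsCompact {x : ℂ × ℂ | x ∈ Loc d ∧ x.1 ∈ PP} := by
  have hq : ∀ s : ℝ, 0 ≤ s → 1 ≤ qq s := by
    intro s hs
    rcases le_or_gt s 1 with h | h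
    · rw [hq1 s h]
    · unfold qq
      nlinarith [Real.smoothTransition.nonneg (s - 1), Real.smoothTransition.le_one (s - 1)]
  have hcl : IsClosed {x : ℂ × ℂ | x ∈ Loc d ∧ x.1 ∈ PP} := by
    have e1 : {x : ℂ × ℂ | x ∈ Loc d ∧ x.1 ∈ PP} =
        {x : ℂ × ℂ | x.1 ∈ PP ∧ (¬ d → ‖x.2‖ = 1) ∧
          (d → 1 ≤ ‖x.1‖ ∧ ‖x.2‖ ^ 2 * qq (‖x.1‖ ^ 2 - 1) = ‖x.1‖ ^ 2 - 1)} := by
      ext x
      constructor
      · rintro ⟨⟨-, h1, h2⟩, h3⟩; exact ⟨h3, h1, h2⟩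
      · rintro ⟨h3, h1, h2⟩; exact ⟨⟨hsub h3, h1, h2⟩, h3⟩
    rw [e1]
    have c1 : IsClosed {x : ℂ × ℂ | x.1 ∈ PP} := hPP.isClosed.preimage continuous_fst
    by_cases hd : d
    · simp only [hd, not_true_eq_false, false_imp_iff, true_and, true_imp_iff]
      refine c1.inter (IsClosed.inter (isClosed_le continuous_const continuous_fst.norm)
        (isClosed_eq ?_ ?_))
      · exact (continuous_snd.norm.pow 2).mul
          (hqc.comp ((continuous_fst.norm.pow 2).sub continuous_const))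
      · exact (continuous_fst.norm.pow 2).sub continuous_const
    · simp only [hd, not_false_eq_true, true_imp_iff, false_imp_iff, and_true]
      exact c1.inter (isClosed_eq continuous_snd.norm continuous_const)
  refine (hPP.prod (isCompact_closedBall (0 : ℂ) 9)).of_isClosed_subset hcl ?_
  rintro x ⟨⟨h0, h1, h2⟩, h3⟩
  refine ⟨h3, ?_⟩
  rw [mem_closedBall_zero_iff]
  by_cases hd : d
  · obtain ⟨h4, h5⟩ := h2 hd
    have h6 := hball _ h0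
    have h7 : 0 ≤ ‖x.1‖ ^ 2 - 1 := by nlinarith
    have h8 := hq _ h7
    nlinarith [norm_nonneg x.2, sq_nonneg (‖x.2‖)]
  · rw [h1 hd]; norm_num

theorem dom_compact (hPP : IsCompact PP) (hsub : PP ⊆ PPo) (hball : ∀ u ∈ PPo, ‖u‖ < 9)
    (hC1 : Stmt_C1) (d : Prop) :
    IsCompact {e | e ∈ chDom d ∧ chU d e ∈ PP} := by
  obtain ⟨-, hqs, hq1, -, hch⟩ := hC1
  obtain ⟨-, -, -, h4, h5, h6, h7⟩ := hch d
  have hK := loc_compact hPP hsub hball hqs.continuous hq1 d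
  have hcont : ContinuousOn (fun x : ℂ × ℂ => chG d x.1 x.2) {x : ℂ × ℂ | x ∈ Loc d ∧ x.1 ∈ PP} := by
    refine h7.continuousOn.mono ?_
    rintro x ⟨⟨-, -, h2⟩, -⟩ hd h0
    have := (h2 hd).1
    rw [h0, norm_zero] at this
    linarith
  have himg := hK.image_of_continuousOn hcont
  have e1 : (fun x : ℂ × ℂ => chG d x.1 x.2) '' {x : ℂ × ℂ | x ∈ Loc d ∧ x.1 ∈ PP} =
      {e | e ∈ chDom d ∧ chU d e ∈ PP} := by
    ext e
    constructor
    · rintro ⟨x, ⟨hx, hxP⟩, rfl⟩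
      obtain ⟨g1, g2, g3⟩ := h6 x hx
      refine ⟨g1, ?_⟩
      rw [g2]; exact hxP
    · rintro ⟨he, heP⟩
      exact ⟨(chU d e, chV d e), ⟨h4 e he, heP⟩, h5 e he⟩
  rwa [e1] at himg

/-- the model functions are smooth on `chDom d` -/
theorem blk_on (hG4 : Stmt_G4) (hC1 : Stmt_C1) (d : Prop) (n : Nbr) :
    ContDiffOn ℝ ∞ (fun e => blk (mv n (chU d e)) (chV d e)) (chDom d) := by
  obtain ⟨-, h2, h3, -⟩ := hC1.2.2.2.2 d
  have g0 := (hG4.2.2.1 n).comp_contDiffOn h2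
  have g1 := g0.prodMk h3
  have g2 := (blk_smooth hG4.2.2.2.1).comp_contDiffOn g1
  exact g2

theorem ph_on (hG4 : Stmt_G4) (hC1 : Stmt_C1) (hM1 : Stmt_M1) (d d' : Prop) (n : Nbr)
    (i h : ZMod 12) :
    ContDiffOn ℝ ∞ (fun e => ph d' i h (blk (mv n (chU d e)) (chV d e))) (chDom d) := by
  have g := (hM1.1 d' i h).comp_contDiffOn (blk_on hG4 hC1 d n)
  exact g

theorem bdd {F : Type*} [NormedAddCommGroup F] [NormedSpace ℝ F] {f : ℂ × ℝ → F}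
    {U K : Set (ℂ × ℝ)} (hU : IsOpen U) (hK : IsCompact K) (hKU : K ⊆ U)
    (hf : ContDiffOn ℝ ∞ f U) : ∃ C : ℝ, ∀ e ∈ K, ‖fderiv ℝ f e‖ ≤ C := by
  have h1 : ContinuousOn (fderiv ℝ f) U := hf.continuousOn_fderiv_of_isOpen hU (by norm_num)
  exact hK.exists_bound_of_continuousOn (h1.mono hKU)

end U0

open U0

theorem stmt_U0 (hG4 : Stmt_G4) (hG6 : Stmt_G6) (hC1 : Stmt_C1) (hM1 : Stmt_M1) : Stmt_U0 := by
  obtain ⟨hball, hPP, -, hsub, -⟩ := hG6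
  have hK := fun d => dom_compact hPP hsub hball hC1 d
  refine ⟨hK, ?_⟩
  have hb1 : ∀ x : Prop × Prop × Nbr × ZMod 12 × ZMod 12, ∃ C : ℝ,
      ∀ e ∈ {e | e ∈ chDom x.1 ∧ chU x.1 e ∈ PP},
      ‖fderiv ℝ (fun e => blk (mv x.2.2.1 (chU x.1 e)) (chV x.1 e)) e‖ ≤ C := fun x =>
    bdd (hC1.2.2.2.2 x.1).1 (hK x.1) (fun e he => he.1) (blk_on hG4 hC1 x.1 x.2.2.1)
  have hb2 : ∀ x : Prop × Prop × Nbr × ZMod 12 × ZMod 12, ∃ C : ℝ,
      ∀ e ∈ {e | e ∈ chDom x.1 ∧ chU x.1 e ∈ PP},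
      ‖fderiv ℝ (fun e => ph x.2.1 x.2.2.2.1 x.2.2.2.2
        (blk (mv x.2.2.1 (chU x.1 e)) (chV x.1 e))) e‖ ≤ C := fun x =>
    bdd (hC1.2.2.2.2 x.1).1 (hK x.1) (fun e he => he.1)
      (ph_on hG4 hC1 hM1 x.1 x.2.1 x.2.2.1 x.2.2.2.1 x.2.2.2.2)
  choose C1 hC1' using hb1
  choose C2 hC2' using hb2
  obtain ⟨c1, hc1⟩ := (Set.finite_range C1).bddAbove
  obtain ⟨c2, hc2⟩ := (Set.finite_range C2).bddAbove
  refine ⟨max c1 c2, fun d d' n i h e he heP => ⟨?_, ?_⟩⟩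
  · exact (hC1' (d, d', n, i, h) e ⟨he, heP⟩).trans
      ((hc1 (Set.mem_range_self _)).trans (le_max_left _ _))
  · exact (hC2' (d, d', n, i, h) e ⟨he, heP⟩).trans
      ((hc2 (Set.mem_range_self _)).trans (le_max_right _ _))

end Pool.CX
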