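import Pool.Agent.Work.MP_727c87_cx.E1.U0

/-! # Block U1 (helper13): uniform bound of the derivative of `FF ε` in the charts -/

open Set Complex ComplexConjugate
open scoped ContDiff NNReal

noncomputable section

namespace Pool.CX

namespace U1

/-- product rule bound -/
theorem prod_bound {ι E : Type*} [NormedAddCommGroup E] [NormedSpace ℝ E] [DecidableEq ι]
    (s : Finset ι) (f : ι → E → ℝ) (e w : E) (B : ι → ℝ)
    (hd : ∀ i ∈ s, DifferentiableAt ℝ (f i) e)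
    (h01 : ∀ i ∈ s, |f i e| ≤ 1) (hB : ∀ i ∈ s, |fderiv ℝ (f i) e w| ≤ B i) :
    DifferentiableAt ℝ (fun x => ∏ i ∈ s, f i x) e ∧ |∏ i ∈ s, f i e| ≤ 1 ∧
      |fderiv ℝ (fun x => ∏ i ∈ s, f i x) e w| ≤ ∑ i ∈ s, B i := by
  induction s using Finset.induction_on with
  | empty => simp
  | insert a s ha ih =>
    obtain ⟨i1, i2, i3⟩ := ih (fun i hi => hd i (Finset.mem_insert_of_mem hi))
      (fun i hi => h01 i (Finset.mem_insert_of_mem hi))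
      (fun i hi => hB i (Finset.mem_insert_of_mem hi))
    have a1 := hd a (Finset.mem_insert_self _ _)
    have a2 := h01 a (Finset.mem_insert_self _ _)
    have a3 := hB a (Finset.mem_insert_self _ _)
    simp only [Finset.prod_insert ha, Finset.sum_insert ha]
    refine ⟨a1.mul i1, ?_, ?_⟩
    · rw [abs_mul]
      exact mul_le_one₀ a2 (abs_nonneg _) i2
    · rw [fderiv_fun_mul a1 i1]
      have e1 : (f a e • fderiv ℝ (fun x => ∏ i ∈ s, f i x) e +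
          (∏ i ∈ s, f i e) • fderiv ℝ (f a) e) w =
          f a e * fderiv ℝ (fun x => ∏ i ∈ s, f i x) e w +
          (∏ i ∈ s, f i e) * fderiv ℝ (f a) e w := by
        simp
      rw [e1]
      refine (abs_add_le _ _).trans ?_
      rw [abs_mul, abs_mul]
      have g1 : |f a e| * |fderiv ℝ (fun x => ∏ i ∈ s, f i x) e w| ≤ ∑ i ∈ s, B i :=
        (mul_le_of_le_one_left (abs_nonneg _) a2).trans i3
      have g2 : |∏ i ∈ s, f i e| * |fderiv ℝ (f a) e w| ≤ B a :=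
        (mul_le_of_le_one_left (abs_nonneg _) i2).trans a3
      linarith

theorem norm_le_sum {ι : Type*} [Fintype ι] (x : EuclideanSpace ℝ ι) : ‖x‖ ≤ ∑ i, |x i| := by
  classical
  rw [EuclideanSpace.norm_eq]
  have h0 : ∀ s : Finset ι, 0 ≤ ∑ i ∈ s, |x i| := fun s => Finset.sum_nonneg fun i _ => abs_nonneg _
  have h1 : ∀ s : Finset ι, ∑ i ∈ s, ‖x i‖ ^ 2 ≤ (∑ i ∈ s, |x i|) ^ 2 := by
    intro s
    induction s using Finset.induction_on with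
    | empty => simp
    | insert a s ha ih =>
      rw [Finset.sum_insert ha, Finset.sum_insert ha, Real.norm_eq_abs]
      nlinarith [h0 s, abs_nonneg (x a), mul_nonneg (h0 s) (abs_nonneg (x a))]
  rw [Real.sqrt_le_left (h0 _)]
  exact h1 _

theorem proj_le (k : Fin 5) (z : ℝ × ℂ × ℂ) : |![z.1, z.2.1.re, z.2.1.im, z.2.2.re, z.2.2.im] k| ≤
    ‖z‖ := by
  have h1 : |z.1| ≤ ‖z‖ := norm_fst_le z
  have h2 : ‖z.2‖ ≤ ‖z‖ := norm_snd_le z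
  have h3 : ‖z.2.1‖ ≤ ‖z.2‖ := norm_fst_le z.2
  have h4 : ‖z.2.2‖ ≤ ‖z.2‖ := norm_snd_le z.2
  fin_cases k
  · exact h1
  · exact (Complex.abs_re_le_norm _).trans (h3.trans h2)
  · exact (Complex.abs_im_le_norm _).trans (h3.trans h2)
  · exact (Complex.abs_re_le_norm _).trans (h4.trans h2)
  · exact (Complex.abs_im_le_norm _).trans (h4.trans h2)

/-- the five real coordinates of a block as a continuous linear map -/
def prj (k : Fin 5) : (ℝ × ℂ × ℂ) →L[ℝ] ℝ :=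
  ![ContinuousLinearMap.fst ℝ ℝ (ℂ × ℂ),
    reCLM ∘L ContinuousLinearMap.fst ℝ ℂ ℂ ∘L ContinuousLinearMap.snd ℝ ℝ (ℂ × ℂ),
    imCLM ∘L ContinuousLinearMap.fst ℝ ℂ ℂ ∘L ContinuousLinearMap.snd ℝ ℝ (ℂ × ℂ),
    reCLM ∘L ContinuousLinearMap.snd ℝ ℂ ℂ ∘L ContinuousLinearMap.snd ℝ ℝ (ℂ × ℂ),
    imCLM ∘L ContinuousLinearMap.snd ℝ ℂ ℂ ∘L ContinuousLinearMap.snd ℝ ℝ (ℂ × ℂ)] k

theorem prj_apply (k : Fin 5) (z : ℝ × ℂ × ℂ) :
    prj k z = ![z.1, z.2.1.re, z.2.1.im, z.2.2.re, z.2.2.im] k := by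
  fin_cases k <;> rfl

/-- the neighbours of a chamber -/
def NN (Mo : Model) (g : Mo.Q) : Finset Mo.Q := Finset.univ.image (nbr Mo.L g)

theorem NN_card (Mo : Model) (g : Mo.Q) : ((NN Mo g).card : ℝ) ≤ 25 := by
  have h1 : (NN Mo g).card ≤ Fintype.card Nbr := Finset.card_image_le
  have h2 : Fintype.card Nbr = 25 := rfl
  rw [h2] at h1
  exact_mod_cast h1

/-- the bounds of the derivatives of the blocks -/
def cc (Mo : Model) (g : Mo.Q) (C₀ : ℝ) (h : Mo.Q) : ℝ := if h ∈ NN Mo g then C₀ else 0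

theorem cc_nonneg (Mo : Model) (g : Mo.Q) {C₀ : ℝ} (hC : 0 ≤ C₀) (h : Mo.Q) : 0 ≤ cc Mo g C₀ h := by
  unfold cc; split_ifs <;> linarith

theorem cc_sum (Mo : Model) (g : Mo.Q) {C₀ : ℝ} (hC : 0 ≤ C₀) :
    ∑ h : Mo.Q, cc Mo g C₀ h ≤ 25 * C₀ := by
  have h1 : ∑ h : Mo.Q, cc Mo g C₀ h = (NN Mo g).card * C₀ := by
    unfold cc
    rw [← Finset.sum_filter, Finset.sum_const, nsmul_eq_mul, Finset.filter_univ_mem]
  rw [h1]
  exact mul_le_mul_of_nonneg_right (NN_card Mo g) hC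

theorem cc_sum_F (Mo : Model) (g : Mo.Q) {C₀ : ℝ} (hC : 0 ≤ C₀) :
    ∑ y : Mo.F, cc Mo g C₀ y.1 ≤ 300 * C₀ := by
  have h1 : ∑ y : Mo.F, cc Mo g C₀ y.1 = 12 * ∑ h : Mo.Q, cc Mo g C₀ h := by
    rw [Fintype.sum_prod_type, Finset.mul_sum]
    refine Finset.sum_congr rfl fun h _ => ?_
    show ∑ _y : ZMod 12, cc Mo g C₀ h = 12 * cc Mo g C₀ h
    rw [Finset.sum_const, nsmul_eq_mul]
    have : (Finset.univ : Finset (ZMod 12)).card = 12 := rfl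
    rw [this]; norm_num
  rw [h1]; linarith [cc_sum Mo g hC]

section
variable (hG4 : Stmt_G4) (hS2 : Stmt_S2) (hC1 : Stmt_C1) (hM1 : Stmt_M1)
  {C₀ : ℝ} (hC₀0 : 0 ≤ C₀)
  (hC₁ : ∀ (d d' : Prop) (n : Nbr) (i h : ZMod 12) (e : ℂ × ℝ), e ∈ chDom d → chU d e ∈ PP →
    ‖fderiv ℝ (fun e => blk (mv n (chU d e)) (chV d e)) e‖ ≤ C₀ ∧
    ‖fderiv ℝ (fun e => ph d' i h (blk (mv n (chU d e)) (chV d e))) e‖ ≤ C₀)
  (Mo : Model) (g : Mo.Q) {e : ℂ × ℝ} (he : e ∈ chDom (g ∈ Mo.D)) (heP : chU (g ∈ Mo.D) e ∈ PP)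

include hC1 he in
theorem ev_dom : ∀ᶠ e' in nhds e, e' ∈ chDom (g ∈ Mo.D) :=
  (hC1.2.2.2.2 (g ∈ Mo.D)).1.mem_nhds he

include hC1 hS2 he in
theorem ev_blk (n : Nbr) : ∀ᶠ e' in nhds e, Mo.PhiM g e' (nbr Mo.L g n) =
    blk (mv n (chU (g ∈ Mo.D) e')) (chV (g ∈ Mo.D) e') := by
  filter_upwards [ev_dom hC1 Mo g he] with e' he'
  exact (hS2 Mo g (chU (g ∈ Mo.D) e') (chV (g ∈ Mo.D) e') he'.2).2.1 n

include hC1 hS2 he in
theorem ev_zero (h : Mo.Q) (hh : h ∉ NN Mo g) : ∀ᶠ e' in nhds e, Mo.PhiM g e' h = 0 := by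
  filter_upwards [ev_dom hC1 Mo g he] with e' he'
  refine (hS2 Mo g (chU (g ∈ Mo.D) e') (chV (g ∈ Mo.D) e') he'.2).2.2.1 h fun n hn => hh ?_
  rw [NN, Finset.mem_image]
  exact ⟨n, Finset.mem_univ _, hn⟩

include hG4 hS2 hC1 hC₀0 hC₁ he heP in
theorem dA (h : Mo.Q) : DifferentiableAt ℝ (fun e' => Mo.PhiM g e' h) e ∧
      ‖fderiv ℝ (fun e' => Mo.PhiM g e' h) e‖ ≤ cc Mo g C₀ h := by
  have hopen : IsOpen (chDom (g ∈ Mo.D)) := (hC1.2.2.2.2 (g ∈ Mo.D)).1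
  by_cases hh : h ∈ NN Mo g
  · have hh' := hh
    rw [NN, Finset.mem_image] at hh'
    obtain ⟨n, -, rfl⟩ := hh'
    have h1 : (fun e' => Mo.PhiM g e' (nbr Mo.L g n)) =ᶠ[nhds e]
        fun e' => blk (mv n (chU (g ∈ Mo.D) e')) (chV (g ∈ Mo.D) e') := ev_blk hS2 hC1 Mo g he n
    have h2 : DifferentiableAt ℝ
        (fun e' => blk (mv n (chU (g ∈ Mo.D) e')) (chV (g ∈ Mo.D) e')) e :=
      ((U0.blk_on hG4 hC1 (g ∈ Mo.D) n).contDiffAt (hopen.mem_nhds he)).differentiableAt (by norm_num)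
    refine ⟨h2.congr_of_eventuallyEq h1, ?_⟩
    rw [h1.fderiv_eq, cc, if_pos hh]
    exact (hC₁ (g ∈ Mo.D) (g ∈ Mo.D) n 0 0 e he heP).1
  · have h1 : (fun e' => Mo.PhiM g e' h) =ᶠ[nhds e] fun _ => (0 : ℝ × ℂ × ℂ) :=
      ev_zero hS2 hC1 Mo g he h hh
    refine ⟨(differentiableAt_const _).congr_of_eventuallyEq h1, ?_⟩
    rw [h1.fderiv_eq, fderiv_const_apply, norm_zero]
    exact cc_nonneg Mo g hC₀0 h

include hG4 hS2 hC1 hM1 hC₀0 hC₁ he heP in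
theorem dphi (y : Mo.F) : DifferentiableAt ℝ (fun e' => Mo.phi y (Mo.PhiM g e')) e ∧
      ‖fderiv ℝ (fun e' => Mo.phi y (Mo.PhiM g e')) e‖ ≤ cc Mo g C₀ y.1 := by
  have hopen : IsOpen (chDom (g ∈ Mo.D)) := (hC1.2.2.2.2 (g ∈ Mo.D)).1
  by_cases hh : y.1 ∈ NN Mo g
  · have hh' := hh
    rw [NN, Finset.mem_image] at hh'
    obtain ⟨n, -, hn⟩ := hh'
    have h1 : (fun e' => Mo.phi y (Mo.PhiM g e')) =ᶠ[nhds e]
        fun e' => ph (y.1 ∈ Mo.D) y.2 (Mo.hgt y)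
          (blk (mv n (chU (g ∈ Mo.D) e')) (chV (g ∈ Mo.D) e')) := by
      filter_upwards [ev_blk hS2 hC1 Mo g he n] with e' he'
      show ph (y.1 ∈ Mo.D) y.2 (Mo.hgt y) (Mo.PhiM g e' y.1) = _
      rw [← he', hn]
    have h2 := ((U0.ph_on hG4 hC1 hM1 (g ∈ Mo.D) (y.1 ∈ Mo.D) n y.2 (Mo.hgt y)).contDiffAt
        (hopen.mem_nhds he)).differentiableAt (by norm_num)
    refine ⟨h2.congr_of_eventuallyEq h1, ?_⟩
    rw [h1.fderiv_eq, cc, if_pos hh]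
    exact (hC₁ (g ∈ Mo.D) (y.1 ∈ Mo.D) n y.2 (Mo.hgt y) e he heP).2
  · have h1 : (fun e' => Mo.phi y (Mo.PhiM g e')) =ᶠ[nhds e]
        fun _ => ph (y.1 ∈ Mo.D) y.2 (Mo.hgt y) 0 := by
      filter_upwards [ev_zero hS2 hC1 Mo g he y.1 hh] with e' he'
      show ph (y.1 ∈ Mo.D) y.2 (Mo.hgt y) (Mo.PhiM g e' y.1) = _
      rw [he']
    refine ⟨(differentiableAt_const _).congr_of_eventuallyEq h1, ?_⟩
    rw [h1.fderiv_eq, fderiv_const_apply, norm_zero]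
    exact cc_nonneg Mo g hC₀0 _

include hG4 hS2 hC1 hM1 hC₀0 hC₁ he heP in
theorem done' (w : ℂ × ℝ) (y : Mo.F) :
    DifferentiableAt ℝ (fun e' => 1 - Mo.phi y (Mo.PhiM g e')) e ∧
      |1 - Mo.phi y (Mo.PhiM g e)| ≤ 1 ∧
      |fderiv ℝ (fun e' => 1 - Mo.phi y (Mo.PhiM g e')) e w| ≤ cc Mo g C₀ y.1 * ‖w‖ := by
  obtain ⟨a1, a2⟩ := dphi hG4 hS2 hC1 hM1 hC₀0 hC₁ Mo g he heP y
  refine ⟨a1.const_sub 1, ?_, ?_⟩
  · obtain ⟨g1, g2⟩ := hM1.2.2.1 Mo y (Mo.PhiM g e)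
    rw [abs_le]; constructor <;> linarith
  · rw [fderiv_const_sub]
    have h1 : |fderiv ℝ (fun e' => Mo.phi y (Mo.PhiM g e')) e w| ≤ cc Mo g C₀ y.1 * ‖w‖ :=
      ((fderiv ℝ (fun e' => Mo.phi y (Mo.PhiM g e')) e).le_opNorm w).trans
        (mul_le_mul_of_nonneg_right a2 (norm_nonneg _))
    rw [neg_apply, abs_neg]
    exact h1

include hG4 hS2 hC1 hM1 hC₀0 hC₁ he heP in
theorem dtb (w : ℂ × ℝ) (b : Mo.Arc) :
    DifferentiableAt ℝ (fun e' => Mo.tb b (Mo.PhiM g e')) e ∧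
      |fderiv ℝ (fun e' => Mo.tb b (Mo.PhiM g e')) e w| ≤
        ∑ y : Mo.F, if Mo.arc y = b then cc Mo g C₀ y.1 * ‖w‖ else 0 := by
  have hone := done' hG4 hS2 hC1 hM1 hC₀0 hC₁ Mo g he heP w
  have h1 := prod_bound Finset.univ
    (fun (y : Mo.F) e' => if Mo.arc y = b then 1 - Mo.phi y (Mo.PhiM g e') else 1) e w
    (fun y => if Mo.arc y = b then cc Mo g C₀ y.1 * ‖w‖ else 0)
    (fun y _ => by
      by_cases hy : Mo.arc y = b
      · simp only [hy, if_true]; exact (hone y).1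
      · simp only [hy, if_false]; exact differentiableAt_const _)
    (fun y _ => by
      by_cases hy : Mo.arc y = b
      · simp only [hy, if_true]; exact (hone y).2.1
      · simp only [hy, if_false, abs_one, le_refl])
    (fun y _ => by
      by_cases hy : Mo.arc y = b
      · simp only [hy, if_true]; exact (hone y).2.2
      · simp only [hy, if_false, fderiv_const_apply, zero_apply, abs_zero,
          le_refl])
  have e1 : (fun e' => Mo.tb b (Mo.PhiM g e')) = fun e' => 1 - ∏ y : Mo.F,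
      (if Mo.arc y = b then 1 - Mo.phi y (Mo.PhiM g e') else 1) := rfl
  rw [e1]
  refine ⟨h1.1.const_sub 1, ?_⟩
  rw [fderiv_const_sub, neg_apply, abs_neg]
  exact h1.2.2

include hG4 hS2 hC1 hM1 hC₀0 hC₁ he heP in
theorem dth (w : ℂ × ℝ) (h : Mo.Q) :
    DifferentiableAt ℝ (fun e' => Mo.th h (Mo.PhiM g e')) e ∧
      |fderiv ℝ (fun e' => Mo.th h (Mo.PhiM g e')) e w| ≤
        (if h ∈ NN Mo g then 1 else 0) * ((C₀ + ∑ y : Mo.F, cc Mo g C₀ y.1) * ‖w‖) := by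
  have hone := done' hG4 hS2 hC1 hM1 hC₀0 hC₁ Mo g he heP w
  obtain ⟨p1, p2, p3⟩ := prod_bound Finset.univ
    (fun (y : Mo.F) e' => 1 - Mo.phi y (Mo.PhiM g e')) e w (fun y => cc Mo g C₀ y.1 * ‖w‖)
    (fun y _ => (hone y).1) (fun y _ => (hone y).2.1) (fun y _ => (hone y).2.2)
  rw [← Finset.sum_mul] at p3
  obtain ⟨q1, q2⟩ := dA hG4 hS2 hC1 hC₀0 hC₁ Mo g he heP h
  have r1 : DifferentiableAt ℝ (fun e' => (Mo.PhiM g e' h).1) e := q1.fst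
  have r2 : fderiv ℝ (fun e' => (Mo.PhiM g e' h).1) e w =
      (fderiv ℝ (fun e' => Mo.PhiM g e' h) e w).1 := by
    have := q1.hasFDerivAt.fst.fderiv
    rw [this]; rfl
  have e1 : (fun e' => Mo.th h (Mo.PhiM g e')) = fun e' => (Mo.PhiM g e' h).1 *
      ∏ y : Mo.F, (1 - Mo.phi y (Mo.PhiM g e')) := rfl
  rw [e1]
  refine ⟨r1.mul p1, ?_⟩
  by_cases hh : h ∈ NN Mo g
  · rw [if_pos hh, one_mul]
    have r3 : |(Mo.PhiM g e h).1| ≤ 1 := by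
      rw [NN, Finset.mem_image] at hh
      obtain ⟨n, -, rfl⟩ := hh
      rw [(ev_blk hS2 hC1 Mo g he n).self_of_nhds]
      show |beta _| ≤ 1
      rw [abs_of_nonneg (hG4.2.2.2.2.1 _)]
      exact hG4.2.2.2.2.2.1 _
    have r4 : |fderiv ℝ (fun e' => (Mo.PhiM g e' h).1) e w| ≤ C₀ * ‖w‖ := by
      rw [r2]
      refine (norm_fst_le (fderiv ℝ (fun e' => Mo.PhiM g e' h) e w)).trans ?_
      refine ((fderiv ℝ (fun e' => Mo.PhiM g e' h) e).le_opNorm w).trans ?_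
      refine mul_le_mul_of_nonneg_right (q2.trans (le_of_eq ?_)) (norm_nonneg _)
      rw [cc, if_pos hh]
    rw [fderiv_fun_mul r1 p1]
    have e2 : ((Mo.PhiM g e h).1 • fderiv ℝ (fun e' => ∏ y : Mo.F, (1 - Mo.phi y (Mo.PhiM g e'))) e +
        (∏ y : Mo.F, (1 - Mo.phi y (Mo.PhiM g e))) • fderiv ℝ (fun e' => (Mo.PhiM g e' h).1) e) w =
        (Mo.PhiM g e h).1 * fderiv ℝ (fun e' => ∏ y : Mo.F, (1 - Mo.phi y (Mo.PhiM g e'))) e w +
        (∏ y : Mo.F, (1 - Mo.phi y (Mo.PhiM g e))) *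
          fderiv ℝ (fun e' => (Mo.PhiM g e' h).1) e w := rfl
    rw [e2]
    refine (abs_add_le _ _).trans ?_
    rw [abs_mul, abs_mul]
    have g1 := (mul_le_of_le_one_left (abs_nonneg
      (fderiv ℝ (fun e' => ∏ y : Mo.F, (1 - Mo.phi y (Mo.PhiM g e'))) e w)) r3).trans p3
    have g2 := (mul_le_of_le_one_left (abs_nonneg
      (fderiv ℝ (fun e' => (Mo.PhiM g e' h).1) e w)) p2).trans r4
    rw [add_mul]
    linarith
  · rw [if_neg hh, zero_mul]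
    have h1 : (fun e' => (Mo.PhiM g e' h).1 * ∏ y : Mo.F, (1 - Mo.phi y (Mo.PhiM g e')))
        =ᶠ[nhds e] fun _ => (0 : ℝ) := by
      filter_upwards [ev_zero hS2 hC1 Mo g he h hh] with e' he'
      rw [he', Prod.fst_zero, zero_mul]
    rw [h1.fderiv_eq, fderiv_const_apply, zero_apply, abs_zero]

include hG4 hS2 hC1 hC₀0 hC₁ he heP in
theorem dco {ε : ℝ} (hε : 0 < ε) (w : ℂ × ℝ) (h : Mo.Q) (k : Fin 5) :
    DifferentiableAt ℝ (fun e' => Mo.comp ε (Mo.PhiM g e') (Sum.inl (h, k))) e ∧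
      |fderiv ℝ (fun e' => Mo.comp ε (Mo.PhiM g e') (Sum.inl (h, k))) e w| ≤
        ε * (cc Mo g C₀ h * ‖w‖) := by
  obtain ⟨q1, q2⟩ := dA hG4 hS2 hC1 hC₀0 hC₁ Mo g he heP h
  have e1 : (fun e' => Mo.comp ε (Mo.PhiM g e') (Sum.inl (h, k))) =
      fun e' => ε * prj k (Mo.PhiM g e' h) := by
    ext e'
    rw [prj_apply]
    rfl
  have h1 : HasFDerivAt (fun e' => prj k (Mo.PhiM g e' h))
      (prj k ∘L fderiv ℝ (fun e' => Mo.PhiM g e' h) e) e :=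
    (prj k).hasFDerivAt.comp e q1.hasFDerivAt
  have h2 := h1.const_mul ε
  rw [e1]
  refine ⟨h2.differentiableAt, ?_⟩
  rw [h2.fderiv]
  have e2 : (ε • (prj k ∘L fderiv ℝ (fun e' => Mo.PhiM g e' h) e)) w =
      ε * prj k (fderiv ℝ (fun e' => Mo.PhiM g e' h) e w) := rfl
  rw [e2, abs_mul, abs_of_pos hε, prj_apply]
  refine mul_le_mul_of_nonneg_left ?_ hε.le
  refine (proj_le k _).trans ?_
  refine ((fderiv ℝ (fun e' => Mo.PhiM g e' h) e).le_opNorm w).trans ?_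
  exact mul_le_mul_of_nonneg_right q2 (norm_nonneg _)

end

theorem s1 (Mo : Model) (g : Mo.Q) {C₀ ε W : ℝ} (hC : 0 ≤ C₀) (hε : 0 < ε) (hW : 0 ≤ W)
    (f : Mo.Q → Fin 5 → ℝ) (hf : ∀ h k, f h k ≤ ε * (cc Mo g C₀ h * W)) :
    ∑ h : Mo.Q, ∑ k : Fin 5, f h k ≤ ε * (125 * C₀ * W) := by
  calc _ ≤ ∑ h : Mo.Q, ∑ k : Fin 5, ε * (cc Mo g C₀ h * W) :=
        Finset.sum_le_sum fun h _ => Finset.sum_le_sum fun k _ => hf h k
    _ = ε * (5 * (∑ h : Mo.Q, cc Mo g C₀ h) * W) := by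
        rw [Finset.mul_sum, Finset.sum_mul, Finset.mul_sum]
        refine Finset.sum_congr rfl fun h _ => ?_
        rw [Finset.sum_const, Finset.card_univ, Fintype.card_fin, nsmul_eq_mul]
        push_cast; ring
    _ ≤ ε * (125 * C₀ * W) := by
        refine mul_le_mul_of_nonneg_left (mul_le_mul_of_nonneg_right ?_ hW) hε.le
        linarith [cc_sum Mo g hC]

theorem s2 (Mo : Model) (g : Mo.Q) {C₀ W : ℝ} (hC : 0 ≤ C₀) (hW : 0 ≤ W)
    (f : Mo.Arc → ℝ) (hf : ∀ b, f b ≤ ∑ y : Mo.F, if Mo.arc y = b then cc Mo g C₀ y.1 * W else 0) :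
    ∑ b, f b ≤ 300 * C₀ * W := by
  calc _ ≤ ∑ b : Mo.Arc, ∑ y : Mo.F, (if Mo.arc y = b then cc Mo g C₀ y.1 * W else 0) :=
        Finset.sum_le_sum fun b _ => hf b
    _ = ∑ y : Mo.F, cc Mo g C₀ y.1 * W := by
        rw [Finset.sum_comm]
        refine Finset.sum_congr rfl fun y _ => ?_
        rw [Finset.sum_ite_eq, if_pos (Finset.mem_univ _)]
    _ = (∑ y : Mo.F, cc Mo g C₀ y.1) * W := by rw [← Finset.sum_mul]
    _ ≤ 300 * C₀ * W := mul_le_mul_of_nonneg_right (cc_sum_F Mo g hC) hW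

theorem s3 (Mo : Model) (g : Mo.Q) {C₀ W : ℝ} (hC : 0 ≤ C₀) (hW : 0 ≤ W)
    (f : Mo.Q → ℝ) (hf : ∀ h, f h ≤ (if h ∈ NN Mo g then 1 else 0) *
      ((C₀ + ∑ y : Mo.F, cc Mo g C₀ y.1) * W)) :
    ∑ h, f h ≤ 25 * (301 * C₀ * W) := by
  calc _ ≤ ∑ h : Mo.Q, (if h ∈ NN Mo g then 1 else 0) *
        ((C₀ + ∑ y : Mo.F, cc Mo g C₀ y.1) * W) := Finset.sum_le_sum fun h _ => hf h
    _ = (NN Mo g).card * ((C₀ + ∑ y : Mo.F, cc Mo g C₀ y.1) * W) := by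
        rw [← Finset.sum_mul]
        congr 1
        rw [← Finset.sum_filter, Finset.sum_const, nsmul_eq_mul, mul_one, Finset.filter_univ_mem]
    _ ≤ 25 * (301 * C₀ * W) := by
        have h0 : 0 ≤ ∑ y : Mo.F, cc Mo g C₀ y.1 := Finset.sum_nonneg fun y _ => cc_nonneg Mo g hC _
        have h1 := cc_sum_F Mo g hC
        refine mul_le_mul (NN_card Mo g) (mul_le_mul_of_nonneg_right (by linarith) hW)
          (mul_nonneg (by linarith) hW) (by norm_num)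

theorem norm_split {J₁ J₂ J₃ : Type*} [Fintype J₁] [Fintype J₂] [Fintype J₃]
    (x : EuclideanSpace ℝ ((J₁ × Fin 5) ⊕ (J₂ ⊕ J₃))) :
    ‖x‖ ≤ (∑ h : J₁, ∑ k : Fin 5, |x (Sum.inl (h, k))|) +
      ((∑ b : J₂, |x (Sum.inr (Sum.inl b))|) + ∑ h : J₃, |x (Sum.inr (Sum.inr h))|) := by
  have h := norm_le_sum x
  rw [Fintype.sum_sum_type, Fintype.sum_sum_type, Fintype.sum_prod_type] at h
  exact h

end U1

open U1

theorem stmt_U1 (hG4 : Stmt_G4) (_hS1 : Stmt_S1) (hS2 : Stmt_S2) (hC1 : Stmt_C1) (hM1 : Stmt_M1)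
    (hU0 : Stmt_U0) : Stmt_U1 := by
  obtain ⟨-, C₁, hC₁'⟩ := hU0
  obtain ⟨C₀, hC₀⟩ : ∃ C₀, C₀ = |C₁| := ⟨_, rfl⟩
  have hC₀0 : 0 ≤ C₀ := by rw [hC₀]; exact abs_nonneg _
  have hC₁ : ∀ (d d' : Prop) (n : Nbr) (i h : ZMod 12) (e : ℂ × ℝ), e ∈ chDom d → chU d e ∈ PP →
    ‖fderiv ℝ (fun e => blk (mv n (chU d e)) (chV d e)) e‖ ≤ C₀ ∧
    ‖fderiv ℝ (fun e => ph d' i h (blk (mv n (chU d e)) (chV d e))) e‖ ≤ C₀ := by
    intro d d' n i h e he heP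
    have hle : C₁ ≤ C₀ := by rw [hC₀]; exact le_abs_self _
    exact ⟨(hC₁' d d' n i h e he heP).1.trans hle, (hC₁' d d' n i h e he heP).2.trans hle⟩
  refine ⟨10000 * C₀, by positivity, fun Mo g ε e w hε hε1 he heP => ?_⟩
  have hco := fun h k => dco hG4 hS2 hC1 hC₀0 hC₁ Mo g he heP hε w h k
  have htb := fun b => dtb hG4 hS2 hC1 hM1 hC₀0 hC₁ Mo g he heP w b
  have hth := fun h => dth hG4 hS2 hC1 hM1 hC₀0 hC₁ Mo g he heP w h
  have hcomp : ∀ j, DifferentiableAt ℝ (fun e' => Mo.comp ε (Mo.PhiM g e') j) e := by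
    rintro (⟨h, k⟩ | b | h)
    · exact (hco h k).1
    · exact (htb b).1
    · exact (hth h).1
  have hFF : DifferentiableAt ℝ (fun e' => Mo.FF ε (Mo.PhiM g e')) e :=
    differentiableAt_euclidean.2 hcomp
  have hj : ∀ j, (fderiv ℝ (fun e' => Mo.FF ε (Mo.PhiM g e')) e w) j =
      fderiv ℝ (fun e' => Mo.comp ε (Mo.PhiM g e') j) e w := by
    intro j
    have h1 : HasFDerivAt (fun e' => Mo.comp ε (Mo.PhiM g e') j)
        ((EuclideanSpace.proj j : EuclideanSpace ℝ Mo.J →L[ℝ] ℝ) ∘L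
          fderiv ℝ (fun e' => Mo.FF ε (Mo.PhiM g e')) e) e :=
      (EuclideanSpace.proj (𝕜 := ℝ) j).hasFDerivAt.comp e hFF.hasFDerivAt
    rw [h1.fderiv]
    rfl
  have hw := norm_nonneg w
  have hCw : 0 ≤ C₀ * ‖w‖ := mul_nonneg hC₀0 hw
  obtain ⟨D, hD⟩ : ∃ D, D = fderiv ℝ (fun e' => Mo.FF ε (Mo.PhiM g e')) e w := ⟨_, rfl⟩
  rw [← hD]
  rw [← hD] at hj
  have hnorm := norm_split D
  have hs1 := s1 Mo g hC₀0 hε hw (fun h k => |D (Sum.inl (h, k))|)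
    (fun h k => by rw [hj]; exact (hco h k).2)
  have hs2 := s2 Mo g hC₀0 hw (fun b => |D (Sum.inr (Sum.inl b))|)
    (fun b => by rw [hj]; exact (htb b).2)
  have hs3 := s3 Mo g hC₀0 hw (fun h => |D (Sum.inr (Sum.inr h))|)
    (fun h => by rw [hj]; exact (hth h).2)
  constructor
  · refine hnorm.trans ?_
    have h1 : ε * (125 * C₀ * ‖w‖) ≤ 125 * C₀ * ‖w‖ :=
      mul_le_of_le_one_left (by positivity) hε1
    linarith
  · intro h1 h2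
    have z1 : ∑ b : Mo.Arc, |D (Sum.inr (Sum.inl b))| = 0 := by
      refine Finset.sum_eq_zero fun b _ => ?_
      rw [hj, abs_eq_zero]; exact h1 b
    have z2 : ∑ h : Mo.Q, |D (Sum.inr (Sum.inr h))| = 0 := by
      refine Finset.sum_eq_zero fun b _ => ?_
      rw [hj, abs_eq_zero]; exact h2 b
    rw [z1, z2] at hnorm
    refine hnorm.trans ?_
    have h3 : ε * (125 * C₀ * ‖w‖) ≤ ε * (10000 * C₀) * ‖w‖ := by
      have := mul_nonneg hε.le hCw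
      nlinarith
    linarith

end Pool.CX
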